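import Pool.Agent.TH954.SEt2

/-!
# Liftable sections of fundamental groups of curves
-/

set_option autoImplicit false

open IsDedekindDomain NumberField WeierstrassCurve MvPolynomial

namespace Pool.Agent.TH954

/-- `t` is a section of `Gal(Ω/F) → Gal(B/K)` which lifts the section `s` of
`Gal(M/F) → Gal(B/K)`, where `M` is embedded in `Ω` by `e`. -/
structure GalSection.Lifts {K F Ω M B : Type} [Field K] [Field F] [Field Ω] [Field M] [Field B]
    [Algebra F Ω] [Algebra K Ω] [Algebra F M] [Algebra K M] [Algebra K B]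
    (t : GalSection K F Ω B) (s : GalSection K F M B) (e : M →ₐ[F] Ω) : Prop where
  hj : ∀ z, t.j z = e (s.j z)
  hs : ∀ g x, t.s g (e x) = e (s.s g x)

lemma GalSection.Lifts.arises {K F Ω M B : Type} [Field K] [Field F] [Field Ω] [Field M] [Field B]
    [Algebra K F] [Algebra F Ω] [Algebra K Ω] [Algebra F M] [Algebra K M] [Algebra K B]
    {t : GalSection K F Ω B} {s : GalSection K F M B} {e : M →ₐ[F] Ω} (h : t.Lifts s e)
    {O : ValuationSubring F} (ht : t.ArisesFrom O) : s.ArisesFrom O := by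
  obtain ⟨h1, h2, h3, W, hW, hst⟩ := ht
  refine ⟨h1, h2, h3, W.comap (e : M →+* Ω), ?_, ?_⟩
  · rw [ValuationSubring.comap_comap]
    have : (e : M →+* Ω).comp (algebraMap F M) = algebraMap F Ω := e.comp_algebraMap
    rw [this, hW]
  · intro g x
    rw [ValuationSubring.mem_comap, ValuationSubring.mem_comap]
    have h4 := hst g (e x)
    rw [h.hs] at h4
    exact h4

open scoped Classical in
theorem lift_main (K : Type) [Field K] [NumberField K] (E : WeierstrassCurve K)
    (hE : ShortIntegral E) (hO : SmallRank E) (M₀ : ℕ) (hM1 : 1 ≤ M₀) (hM : ShaKilledBy E M₀)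
    (n : ℕ) (S : Set (MvPolynomial (Fin n × Fin 3) K)) (hS : ∀ f ∈ S, ∃ d, MultiHom d f)
    (hX : {y : Fin n → E.toAffine.Point | OnX S (fun i => crd (y i))}.Finite)
    (F Ω M B : Type) [Field F] [Field Ω] [Field M] [Field B] [Algebra K F] [Algebra F Ω]
    [Algebra K Ω] [Algebra F M] [Algebra K M] [Algebra K B] [IsScalarTower K F Ω]
    [IsScalarTower K F M] [IsAlgClosure F Ω] [IsAlgClosure K B]
    (hF : ∃ t : F, Transcendental K t ∧
      Algebra.IsAlgebraic (IntermediateField.adjoin K {t}) F)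
    (P : Fin n → (E.baseChange F).toAffine.Point)
    (hPS : OnX S (fun i => crd (P i)))
    (hPn : ∃ i, ∀ y : E.toAffine.Point, P i ≠ locHom (L := F) E y)
    (e : M →ₐ[F] Ω) (s : GalSection K F M B) (t : GalSection K F Ω B) (hl : t.Lifts s e)
    (hloc : ∀ v : HeightOneSpectrum (𝓞 K),
      t.GeometricOver (v.adicCompletion K) (AlgebraicClosure (v.adicCompletion K))) :
    ∃ O : ValuationSubring F, s.ArisesFrom O := by
  obtain ⟨O, hO', -⟩ := bir_main K E hE hO M₀ hM1 hM n S hS hX F Ω B hF P hPS hPn t hloc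
  exact ⟨O, hl.arises hO'⟩

open scoped Classical in
theorem both_main (K : Type) [Field K] [NumberField K] (E : WeierstrassCurve K)
    (hE : ShortIntegral E) (hO : SmallRank E) (M₀ : ℕ) (hM1 : 1 ≤ M₀) (hM : ShaKilledBy E M₀)
    (n : ℕ) (S : Set (MvPolynomial (Fin n × Fin 3) K)) (hS : ∀ f ∈ S, ∃ d, MultiHom d f)
    (hX : {y : Fin n → E.toAffine.Point | OnX S (fun i => crd (y i))}.Finite)
    (F Ω M B : Type) [Field F] [Field Ω] [Field M] [Field B] [Algebra K F] [Algebra F Ω]
    [Algebra K Ω] [Algebra F M] [Algebra K M] [Algebra K B] [IsScalarTower K F Ω]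
    [IsScalarTower K F M] [IsAlgClosure F Ω] [IsAlgClosure K B]
    (hF : ∃ t : F, Transcendental K t ∧
      Algebra.IsAlgebraic (IntermediateField.adjoin K {t}) F)
    (C : Set (ValuationSubring F)) (hC : ∀ O ∈ C, ∀ c : K, algebraMap K F c ∈ O)
    (e : M →ₐ[F] Ω) (he : Pool.Agent.W620.SC.unramified F Ω C ≤ e.fieldRange)
    (P : Fin n → (E.baseChange F).toAffine.Point)
    (hPS : OnX S (fun i => crd (P i)))
    (hPn : ∃ i, ∀ y : E.toAffine.Point, P i ≠ locHom (L := F) E y)
    (s : GalSection K F M B) :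
    (∀ p : ∀ v : HeightOneSpectrum (𝓞 K), Plc K M (AlgebraicClosure (v.adicCompletion K)),
      (∀ v, s.GivenBy (v.adicCompletion K) (p v)) →
      ∃ x : Fin n → E.toAffine.Point, OnX S (fun i => crd (x i)) ∧
        (∀ v i, (p v).Spec (fun j => algebraMap F M (crd (P i) j))
          (fun j => algebraMap K (AlgebraicClosure (v.adicCompletion K)) (crd (x i) j))) ∧
        ∀ i, s.SameKummer E (P i) (x i)) ∧
    ∀ t : GalSection K F Ω B, t.Lifts s e →
      (∀ v : HeightOneSpectrum (𝓞 K),
        t.GeometricOver (v.adicCompletion K) (AlgebraicClosure (v.adicCompletion K))) →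
      ∃ O : ValuationSubring F, s.ArisesFrom O :=
  ⟨fun p hp => et_main K E hE hO M₀ hM1 hM n S hS hX F Ω M B C hC e he P hPS s p hp,
    fun t hl hloc => lift_main K E hE hO M₀ hM1 hM n S hS hX F Ω M B hF P hPS hPn e s t hl hloc⟩

end Pool.Agent.TH954
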