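import Pool.Agent.TH954.Loc

/-!
# Points near the origin for an arbitrary absolute value
-/

set_option autoImplicit false
set_option linter.unusedSectionVars false

open WeierstrassCurve

namespace Pool.Agent.TH954

variable {K : Type} [Field K] {W : WeierstrassCurve K}

/-- the point is near the origin for the absolute value `v` -/
def BigV (v : AbsoluteValue K ℝ) (r : ℝ) (T : W.toAffine.Point) : Prop :=
  ∀ (x y : K) (h : W.toAffine.Nonsingular x y), T = Affine.Point.some x y h → r ≤ v x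

variable [DecidableEq K]

lemma bigV_zero (v : AbsoluteValue K ℝ) (r : ℝ) : BigV v r (0 : W.toAffine.Point) := by
  intro x y h h0
  exact absurd h0.symm (Affine.Point.some_ne_zero h)

lemma bigV_mono (v : AbsoluteValue K ℝ) {R R' : ℝ} (h : R' ≤ R) {T : W.toAffine.Point}
    (hT : BigV v R T) : BigV v R' T :=
  fun x y n e => h.trans (hT x y n e)

lemma bigV_some {v : AbsoluteValue K ℝ} {R : ℝ} {x y : K} {h : W.toAffine.Nonsingular x y} :
    BigV v R (Affine.Point.some x y h) ↔ R ≤ v x := by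
  constructor
  · intro hT
    exact hT x y h rfl
  · intro hx x' y' h' e
    rw [Affine.Point.some.injEq] at e
    rw [← e.1]
    exact hx

lemma Short.bigV_neg (hW : Short W) {v : AbsoluteValue K ℝ} {R : ℝ} {T : W.toAffine.Point}
    (hT : BigV v R T) : BigV v R (-T) := by
  match T with
  | .zero => exact hT
  | .some x y h =>
    rw [hW.neg_some, bigV_some]
    exact bigV_some.mp hT

/-- if two points are near the origin, so is their sum. -/
lemma Short.bigV_add (hW : Short W) (h2 : (2 : K) ≠ 0) (v : AbsoluteValue K ℝ) {r : ℝ}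
    (hr : 100 * (1 + v W.a₄ + v W.a₆) ≤ r) {T1 T2 : W.toAffine.Point}
    (hT1 : BigV v r T1) (hT2 : BigV v r T2) : BigV v (r / 6) (T1 + T2) := by
  have va := v.nonneg W.a₄
  have vb := v.nonneg W.a₆
  have hr1 : 100 ≤ r := by linarith
  match T1, T2 with
  | .zero, T2 =>
    have : (Affine.Point.zero : W.toAffine.Point) + T2 = T2 := zero_add T2
    rw [this]
    exact bigV_mono v (by linarith) hT2
  | .some x1 y1 n1, .zero =>
    have : Affine.Point.some x1 y1 n1 + (Affine.Point.zero : W.toAffine.Point) =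
      Affine.Point.some x1 y1 n1 := add_zero _
    rw [this]
    exact bigV_mono v (by linarith) hT1
  | .some x1 y1 n1, .some x2 y2 n2 =>
    intro X Y n3 h
    by_contra hX
    rw [not_le] at hX
    have hq := hW.quad h2 h
    have r1 := bigV_some.mp hT1
    have r2 := bigV_some.mp hT2
    set M : ℝ := max (v x1) (v x2) with hM
    have hM1 : v x1 ≤ M := le_max_left _ _
    have hM2 : v x2 ≤ M := le_max_right _ _
    have hM0 : r ≤ M := r1.trans hM1
    have hp : r * M ≤ v x1 * v x2 := by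
      rcases le_total (v x1) (v x2) with hle | hle
      · rw [hM, max_eq_right hle]
        exact mul_le_mul_of_nonneg_right r1 (v.nonneg _)
      · rw [hM, max_eq_left hle, mul_comm]
        exact mul_le_mul_of_nonneg_left r2 (v.nonneg _)
    set p : ℝ := v x1 * v x2 with hpdef
    have hMp : 0 < M := by linarith
    have hp1 : 1 ≤ p := by nlinarith
    have hA : 100 * v W.a₄ ≤ p := by nlinarith
    have hBM : 100 * (v W.a₆ * M) ≤ p := by nlinarith
    have v2 : v 2 ≤ 2 := by
      have : (2 : K) = 1 + 1 := by norm_num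
      rw [this]
      refine (v.add_le _ _).trans ?_
      rw [v.map_one]
      norm_num
    have v4 : v 4 ≤ 4 := by
      have : (4 : K) = 2 * 2 := by norm_num
      rw [this, v.map_mul]
      nlinarith [v.nonneg 2]
    have hx12 : v (x1 * x2) = p := v.map_mul _ _
    have hs : v (x1 + x2) ≤ 2 * M := by
      refine (v.add_le _ _).trans ?_
      linarith
    have hd : v (x1 - x2) ≤ 2 * M := by
      have h3 := v.add_le x1 (-x2)
      rw [v.map_neg, ← sub_eq_add_neg] at h3
      linarith
    have eA : v ((x1 - x2) ^ 2 * X ^ 2) ≤ p ^ 2 / 9 := by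
      rw [v.map_mul, v.map_pow, v.map_pow, ← mul_pow]
      have h4 : v (x1 - x2) * v X ≤ p / 3 := by
        calc v (x1 - x2) * v X ≤ 2 * M * (r / 6) :=
              mul_le_mul hd hX.le (v.nonneg _) (by linarith)
          _ = r * M / 3 := by ring
          _ ≤ p / 3 := by linarith
      calc (v (x1 - x2) * v X) ^ 2 ≤ (p / 3) ^ 2 :=
            pow_le_pow_left₀ (mul_nonneg (v.nonneg _) (v.nonneg _)) h4 2
        _ = p ^ 2 / 9 := by ring
    have eB : v (2 * ((x1 + x2) * (x1 * x2 + W.a₄) + 2 * W.a₆) * X) ≤ 7 / 10 * p ^ 2 := by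
      have h5 : v (x1 * x2 + W.a₄) ≤ p + p / 100 := by
        refine (v.add_le _ _).trans ?_
        rw [hx12]
        linarith
      have h6 : v ((x1 + x2) * (x1 * x2 + W.a₄)) ≤ 2 * M * (p + p / 100) := by
        rw [v.map_mul]
        exact mul_le_mul hs h5 (v.nonneg _) (by linarith)
      have h7 : v ((2 : K) * W.a₆) ≤ 2 * v W.a₆ := by
        rw [v.map_mul]
        exact mul_le_mul_of_nonneg_right v2 vb
      have h8 : v ((x1 + x2) * (x1 * x2 + W.a₄) + 2 * W.a₆) ≤
          2 * M * (p + p / 100) + 2 * v W.a₆ := by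
        refine (v.add_le _ _).trans ?_
        linarith
      have h9 : v (2 * ((x1 + x2) * (x1 * x2 + W.a₄) + 2 * W.a₆)) ≤
          2 * (2 * M * (p + p / 100) + 2 * v W.a₆) := by
        rw [v.map_mul]
        exact mul_le_mul v2 h8 (v.nonneg _) (by norm_num)
      rw [v.map_mul]
      have h10 : v W.a₆ * r ≤ p / 100 := by nlinarith
      calc _ ≤ 2 * (2 * M * (p + p / 100) + 2 * v W.a₆) * (r / 6) :=
            mul_le_mul h9 hX.le (v.nonneg _) (by positivity)
        _ = 2 / 3 * (r * M) * (p + p / 100) + 2 / 3 * (v W.a₆ * r) := by ring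
        _ ≤ 2 / 3 * p * (p + p / 100) + 2 / 3 * (p / 100) := by
            have h11 : 0 ≤ p + p / 100 := by linarith
            nlinarith
        _ ≤ 7 / 10 * p ^ 2 := by nlinarith
    have eC : 9 / 10 * p ^ 2 ≤ v ((x1 * x2 - W.a₄) ^ 2 - 4 * W.a₆ * (x1 + x2)) := by
      have h12 : p - p / 100 ≤ v (x1 * x2 - W.a₄) := by
        have h13 := v.add_le (x1 * x2 - W.a₄) W.a₄
        rw [sub_add_cancel, hx12] at h13
        linarith
      have h14 : (p - p / 100) ^ 2 ≤ v ((x1 * x2 - W.a₄) ^ 2) := by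
        rw [v.map_pow]
        exact pow_le_pow_left₀ (by linarith) h12 2
      have h15 : v (4 * W.a₆ * (x1 + x2)) ≤ p / 12 := by
        rw [v.map_mul, v.map_mul]
        calc v 4 * v W.a₆ * v (x1 + x2) ≤ 4 * v W.a₆ * (2 * M) :=
              mul_le_mul (mul_le_mul_of_nonneg_right v4 vb) hs (v.nonneg _) (by positivity)
          _ = 8 * (v W.a₆ * M) := by ring
          _ ≤ p / 12 := by linarith
      have h16 := v.add_le ((x1 * x2 - W.a₄) ^ 2 - 4 * W.a₆ * (x1 + x2))
        (4 * W.a₆ * (x1 + x2))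
      rw [sub_add_cancel] at h16
      nlinarith
    have hC : (x1 * x2 - W.a₄) ^ 2 - 4 * W.a₆ * (x1 + x2) =
        2 * ((x1 + x2) * (x1 * x2 + W.a₄) + 2 * W.a₆) * X + -((x1 - x2) ^ 2 * X ^ 2) := by
      linear_combination hq
    have h17 := v.add_le (2 * ((x1 + x2) * (x1 * x2 + W.a₄) + 2 * W.a₆) * X)
      (-((x1 - x2) ^ 2 * X ^ 2))
    rw [← hC, v.map_neg] at h17
    have hpp : 0 < p ^ 2 := by positivity
    linarith

/-- multiples -/
lemma Short.bigV_nsmul (hW : Short W) (h2 : (2 : K) ≠ 0) (v : AbsoluteValue K ℝ) (n : ℕ) {r : ℝ}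
    (hr : 100 * (1 + v W.a₄ + v W.a₆) * 6 ^ n ≤ r) {T : W.toAffine.Point}
    (hT : BigV v r T) : BigV v (r / 6 ^ n) (n • T) := by
  have va := v.nonneg W.a₄
  have vb := v.nonneg W.a₆
  have hpos : 0 < 100 * (1 + v W.a₄ + v W.a₆) := by positivity
  have hr0 : 0 < r := lt_of_lt_of_le (by positivity) hr
  induction n with
  | zero => rw [zero_smul]; exact bigV_zero v _
  | succ n ih =>
    have h6 : (1 : ℝ) ≤ 6 ^ n := one_le_pow₀ (by norm_num)
    have h7 : 100 * (1 + v W.a₄ + v W.a₆) * 6 ^ n ≤ r := by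
      refine le_trans ?_ hr
      rw [pow_succ]
      nlinarith [mul_pos hpos (by linarith : (0:ℝ) < 6 ^ n)]
    have h8 := ih h7
    rw [succ_nsmul]
    have h9 : BigV v (r / 6 ^ n / 6) (n • T + T) := by
      refine hW.bigV_add h2 v ?_ h8 (bigV_mono v ?_ hT)
      · rw [le_div_iff₀ (by positivity)]
        exact h7
      · exact div_le_self hr0.le h6
    rwa [div_div, ← pow_succ] at h9

lemma Short.bigV_zsmul (hW : Short W) (h2 : (2 : K) ≠ 0) (v : AbsoluteValue K ℝ) (n : ℤ) {r : ℝ}
    (hr : 100 * (1 + v W.a₄ + v W.a₆) * 6 ^ n.natAbs ≤ r) {T : W.toAffine.Point}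
    (hT : BigV v r T) : BigV v (r / 6 ^ n.natAbs) (n • T) := by
  rcases Int.eq_nat_or_neg n with ⟨m, rfl | rfl⟩
  · rw [natCast_zsmul]
    simp only [Int.natAbs_natCast] at hr ⊢
    exact hW.bigV_nsmul h2 v m hr hT
  · rw [neg_smul, natCast_zsmul]
    simp only [Int.natAbs_neg, Int.natAbs_natCast] at hr ⊢
    exact hW.bigV_neg (hW.bigV_nsmul h2 v m hr hT)

end Pool.Agent.TH954
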