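import Pool.Agent.TH954.Ht

/-!
# The archimedean part of the height of suitable multiples
-/

set_option autoImplicit false
set_option linter.unusedSectionVars false

open NumberField WeierstrassCurve Height

namespace Pool.Agent.TH954

open Pool.Agent.TH942

variable {K : Type} [Field K] [NumberField K]

lemma infty_nonempty : Nonempty (InfinitePlace K) := inferInstance

lemma one_le_prod_of {ι : Type} (s : Finset ι) (f : ι → ℝ) (hf : ∀ i, 1 ≤ f i) :
    1 ≤ ∏ i ∈ s, f i :=
  Finset.prod_induction f (fun t => 1 ≤ t)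
    (fun _ _ ha hb => one_le_mul_of_one_le_of_one_le ha hb) le_rfl (fun i _ => hf i)

lemma single_le_prod_of_one_le {ι : Type} [Fintype ι] [DecidableEq ι] (f : ι → ℝ)
    (hf : ∀ i, 1 ≤ f i) (i : ι) : f i ≤ ∏ j, f j := by
  rw [← Finset.mul_prod_erase Finset.univ f (Finset.mem_univ i)]
  have h1 : 1 ≤ ∏ j ∈ Finset.univ.erase i, f j := one_le_prod_of _ _ hf
  have h0 := hf i
  nlinarith

lemma infinitePlace_le_mulHeight₁ (v : InfinitePlace K) (x : K) : v x ≤ mulHeight₁ x := by
  classical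
  rw [NumberField.mulHeight₁_eq]
  have h1 : ∀ w : InfinitePlace K, 1 ≤ max (w x) 1 ^ w.mult := fun w =>
    one_le_pow₀ (le_max_right _ _)
  have h2 : max (v x) 1 ^ v.mult ≤ ∏ w : InfinitePlace K, max (w x) 1 ^ w.mult :=
    single_le_prod_of_one_le _ h1 v
  have h3 : v x ≤ max (v x) 1 ^ v.mult := by
    refine (le_max_left (v x) 1).trans ?_
    exact le_self_pow₀ (le_max_right _ _) v.mult_ne_zero
  have h4 : 1 ≤ ∏ᶠ w : FinitePlace K, max (w x) 1 :=
    finprod_induction (fun t : ℝ => 1 ≤ t) le_rfl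
      (fun a b ha hb => one_le_mul_of_one_le_of_one_le ha hb) (fun w => le_max_right _ _)
  have h5 : 1 ≤ ∏ w : InfinitePlace K, max (w x) 1 ^ w.mult := one_le_prod_of _ _ h1
  nlinarith

lemma sht_some {a b x y : K} (h : (sw a b).toAffine.Nonsingular x y) :
    sht (Affine.Point.some x y h : SPt a b) = logHeight₁ x := by
  rw [sht, Affine.Point.xRep_some, logHeight₁_eq_logHeight]

variable [DecidableEq K]

theorem arch_key {a b : K} {q : SPt a b → ℝ} {C1 : ℝ}
    (h1 : ∀ P, |q P - sht P| ≤ C1) (h2 : ∀ P, 0 ≤ q P)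
    (h3 : ∀ P Q, q (P + Q) + q (P - Q) = 2 * (q P + q Q))
    {κ : Type} [Fintype κ] (vs : κ → AbsoluteValue K ℝ) (hvs : ∀ k x, vs k x ≤ mulHeight₁ x)
    (L D : ℕ) (hL : 1 ≤ L) (hD : 1 ≤ D) :
    ∃ (r : ℕ) (Rf : Fin r → ℕ) (C : ℝ), 0 < C ∧ (∀ i, 1 ≤ Rf i) ∧
      ∀ w : SPt a b, ¬ IsOfFinAddOrder w → ∀ g : Fin r → ℕ, (∀ i, 1 ≤ g i ∧ g i ≤ L) →
        ∃ (i : Fin r) (x y : K) (h : (sw a b).toAffine.Nonsingular x y),
          (Rf i * g i) • w = Affine.Point.some x y h ∧
          ∀ k, max (vs k x) 1 ≤ C * Real.exp (q ((Rf i * g i) • w) / (2 * D)) := by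
  classical
  have hW : Short (sw a b) := ⟨rfl, rfl, rfl⟩
  have h20 : (2 : K) ≠ 0 := two_ne_zero
  set r : ℕ := Fintype.card κ + 1 with hr
  set B : ℕ := 2 * D * L ^ 2 + L + 1 with hB
  have hinf : {p : ℕ | p.Prime ∧ B < p}.Infinite := by
    rw [Set.infinite_iff_exists_gt]
    intro m
    obtain ⟨p, hp, hpp⟩ := Nat.exists_infinite_primes (max m B + 1)
    refine ⟨p, ⟨hpp, ?_⟩, ?_⟩
    · have := le_max_right m B
      omega
    · have := le_max_left m B
      omega
  set e := hinf.natEmbedding with he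
  set Rf : Fin r → ℕ := fun i => (e i : ℕ) with hRf
  have hprime : ∀ i, (Rf i).Prime := fun i => (e i).2.1
  have hgt : ∀ i, B < Rf i := fun i => (e i).2.2
  have hinj : Function.Injective Rf := by
    intro i j hij
    have h := e.injective (Subtype.ext hij)
    exact Fin.ext h
  set Bm : ℕ := (∑ i, Rf i) * L with hBm
  set c : ℕ := ∑ A ∈ Finset.range (Bm + 1), ∑ A' ∈ Finset.range (Bm + 1),
    ((Nat.gcdA A A').natAbs + (Nat.gcdB A A').natAbs) with hc
  set Sm : ℝ := ∑ k, 100 * (1 + vs k a + vs k b) with hSm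
  have hSm0 : ∀ k, 100 * (1 + vs k a + vs k b) ≤ Sm := by
    intro k
    exact Finset.single_le_sum (f := fun k => 100 * (1 + vs k a + vs k b))
      (fun w _ => by
        have e1 : 0 ≤ vs w a := (vs w).nonneg _
        have e2 : 0 ≤ vs w b := (vs w).nonneg _
        positivity) (Finset.mem_univ k)
  have hSmnn : 0 ≤ Sm := Finset.sum_nonneg (fun w _ => by
        have e1 : 0 ≤ vs w a := (vs w).nonneg _
        have e2 : 0 ≤ vs w b := (vs w).nonneg _
        positivity)
  set ρ0 : ℝ := 6 ^ (c + 1) * (Sm + Real.exp C1 + 1) with hρ0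
  have hρ0pos : 1 ≤ ρ0 := by
    have e1 : (1 : ℝ) ≤ 6 ^ (c + 1) := one_le_pow₀ (by norm_num)
    have e2 : 1 ≤ Sm + Real.exp C1 + 1 := by
      have := Real.exp_pos C1
      linarith
    exact one_le_mul_of_one_le_of_one_le e1 e2
  refine ⟨r, Rf, ρ0, by positivity, fun i => (hprime i).one_lt.le, ?_⟩
  intro w hw g hg
  set ρ : ℝ := ρ0 * Real.exp ((L : ℝ) ^ 2 * q w) with hρ
  have hexp1 : 1 ≤ Real.exp ((L : ℝ) ^ 2 * q w) := by
    rw [Real.one_le_exp_iff]
    exact mul_nonneg (sq_nonneg _) (h2 w)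
  have hρ1 : 1 ≤ ρ := one_le_mul_of_one_le_of_one_le hρ0pos hexp1
  have key : ∃ (i : Fin r) (x y : K) (h : (sw a b).toAffine.Nonsingular x y),
      (Rf i * g i) • w = Affine.Point.some x y h ∧ ∀ k, vs k x < ρ := by
    by_contra hcon
    have hbig : ∀ i, ∃ k, BigV (vs k) ρ ((Rf i * g i) • w) := by
      intro i
      by_contra hno
      apply hcon
      generalize hT : (Rf i * g i) • w = T at hno
      match T with
      | .zero =>
        exfalso
        apply hw
        rw [isOfFinAddOrder_iff_nsmul_eq_zero]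
        exact ⟨_, Nat.mul_pos (hprime i).pos (hg i).1, hT⟩
      | .some x y h =>
        refine ⟨i, x, y, h, hT, fun v => ?_⟩
        by_contra hv
        apply hno
        exact ⟨v, bigV_some.mpr (not_lt.mp hv)⟩
    choose vf hvf using hbig
    obtain ⟨i, i', hne, hvi⟩ := Fintype.exists_ne_map_eq_of_card_lt vf (by
      rw [Fintype.card_fin]
      exact Nat.lt_succ_self _)
    set A : ℕ := Rf i * g i with hA
    set A' : ℕ := Rf i' * g i' with hA'
    have hLB : L < B := by
      rw [hB]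
      have : 0 ≤ 2 * D * L ^ 2 := Nat.zero_le _
      omega
    have hcop : Nat.Coprime (Rf i) A' := by
      refine Nat.Coprime.mul_right ?_ ?_
      · exact (Nat.coprime_primes (hprime i) (hprime i')).mpr (fun h => hne (hinj h))
      · rw [(hprime i).coprime_iff_not_dvd]
        refine Nat.not_dvd_of_pos_of_lt (by have := (hg i').1; omega) ?_
        have := (hg i').2
        have := hgt i
        omega
    have hgcd : Nat.gcd A A' ≤ L := by
      rw [hA, Nat.Coprime.gcd_mul_left_cancel _ hcop]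
      exact (Nat.gcd_le_left _ (by have := (hg i).1; omega)).trans (hg i).2
    have hgcd0 : 0 < Nat.gcd A A' := by
      apply Nat.gcd_pos_of_pos_left
      exact Nat.mul_pos (hprime i).pos (by have := (hg i).1; omega)
    have hABm : ∀ i, Rf i * g i ≤ Bm := by
      intro i
      rw [hBm]
      refine Nat.mul_le_mul ?_ (hg i).2
      exact Finset.single_le_sum (f := Rf) (fun _ _ => Nat.zero_le _) (Finset.mem_univ i)
    have hcab : (Nat.gcdA A A').natAbs + (Nat.gcdB A A').natAbs ≤ c := by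
      rw [hc]
      refine le_trans ?_ (Finset.single_le_sum
        (f := fun A => ∑ A' ∈ Finset.range (Bm + 1),
          ((Nat.gcdA A A').natAbs + (Nat.gcdB A A').natAbs))
        (fun _ _ => Nat.zero_le _) (Finset.mem_range.mpr (Nat.lt_succ_of_le (hABm i))))
      exact Finset.single_le_sum
        (f := fun A' => ((Nat.gcdA A A').natAbs + (Nat.gcdB A A').natAbs))
        (fun _ _ => Nat.zero_le _) (Finset.mem_range.mpr (Nat.lt_succ_of_le (hABm i')))
    have hca : (Nat.gcdA A A').natAbs ≤ c := by omega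
    have hcb : (Nat.gcdB A A').natAbs ≤ c := by omega
    have hvab : ∀ k, 0 ≤ 100 * (1 + vs k a + vs k b) := fun k => by
        have e1 : 0 ≤ vs k a := (vs k).nonneg _
        have e2 : 0 ≤ vs k b := (vs k).nonneg _
        positivity
    have hρc : ∀ k, 100 * (1 + vs k a + vs k b) * 6 ^ (c + 1) ≤ ρ := by
      intro v
      have e1 : 100 * (1 + vs v a + vs v b) * 6 ^ (c + 1) ≤ ρ0 := by
        rw [hρ0, mul_comm]
        refine mul_le_mul_of_nonneg_left ?_ (by positivity)
        have := hSm0 v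
        have := Real.exp_pos C1
        linarith
      refine e1.trans ?_
      rw [hρ]
      exact le_mul_of_one_le_right (by linarith) hexp1
    have hpow : ∀ m : ℕ, m ≤ c → (6 : ℝ) ^ m ≤ 6 ^ (c + 1) := fun m hm =>
      pow_le_pow_right₀ (by norm_num) (by omega)
    have hρpos : 0 < ρ := by linarith
    have hmul : ∀ (m : ℤ) (T : SPt a b), m.natAbs ≤ c → BigV (vs (vf i)) ρ T →
        BigV (vs (vf i)) (ρ / 6 ^ c) (m • T) := by
      intro m T hm hT
      have e1 : BigV (vs (vf i)) (ρ / 6 ^ m.natAbs) (m • T) := by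
        refine hW.bigV_zsmul h20 _ m ?_ hT
        refine le_trans ?_ (hρc (vf i))
        exact mul_le_mul_of_nonneg_left (hpow _ hm) (hvab _)
      refine bigV_mono _ ?_ e1
      exact div_le_div_of_nonneg_left hρpos.le (by positivity)
        (pow_le_pow_right₀ (by norm_num) hm)
    have b1 := hmul (Nat.gcdA A A') (A • w) hca (hvf i)
    have b2 := hmul (Nat.gcdB A A') (A' • w) hcb (by rw [hvi]; exact hvf i')
    have b3 := hW.bigV_add h20 (vs (vf i)) (r := ρ / 6 ^ c) (by
      rw [le_div_iff₀ (by positivity)]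
      refine le_trans ?_ (hρc (vf i))
      exact mul_le_mul_of_nonneg_left (hpow _ le_rfl) (hvab _)) b1 b2
    have b4 : Nat.gcdA A A' • (A • w) + Nat.gcdB A A' • (A' • w) = (Nat.gcd A A') • w := by
      have e1 : Nat.gcdA A A' • (A • w) = ((A : ℤ) * Nat.gcdA A A') • w := by
        rw [← natCast_zsmul w A, smul_smul, mul_comm]
      have e2 : Nat.gcdB A A' • (A' • w) = ((A' : ℤ) * Nat.gcdB A A') • w := by
        rw [← natCast_zsmul w A', smul_smul, mul_comm]
      rw [← natCast_zsmul w (Nat.gcd A A'), Nat.gcd_eq_gcd_ab, add_smul, e1, e2]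
    rw [b4] at b3
    generalize hT : (Nat.gcd A A') • w = T at b3
    match T with
    | .zero =>
      apply hw
      rw [isOfFinAddOrder_iff_nsmul_eq_zero]
      exact ⟨_, hgcd0, hT⟩
    | .some x y h =>
      have b5 := bigV_some.mp b3
      have b6 : (vs (vf i)) x ≤ mulHeight₁ x := hvs _ _
      have b7 : mulHeight₁ x ≤ Real.exp ((L : ℝ) ^ 2 * q w + C1) := by
        have c1 : Real.exp (logHeight₁ x) = mulHeight₁ x := by
          rw [logHeight₁_eq_log_mulHeight₁, Real.exp_log (mulHeight₁_pos x)]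
        rw [← c1, Real.exp_le_exp, ← sht_some h, ← hT]
        have c2 := (abs_le.mp (h1 ((Nat.gcd A A') • w))).1
        rw [q_nsmul h3] at c2
        have c3 : ((Nat.gcd A A' : ℕ) : ℝ) ^ 2 ≤ (L : ℝ) ^ 2 :=
          pow_le_pow_left₀ (Nat.cast_nonneg _) (by exact_mod_cast hgcd) 2
        have c4 := mul_le_mul_of_nonneg_right c3 (h2 w)
        linarith
      have b8 : ρ / 6 ^ c / 6 = (Sm + Real.exp C1 + 1) * Real.exp ((L : ℝ) ^ 2 * q w) := by
        rw [hρ, hρ0, pow_succ]
        field_simp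
      have b9 : Real.exp ((L : ℝ) ^ 2 * q w + C1) < ρ / 6 ^ c / 6 := by
        rw [b8, Real.exp_add, mul_comm]
        exact mul_lt_mul_of_pos_right (by linarith) (Real.exp_pos _)
      have b10 : ρ / 6 ^ c / 6 ≤ (vs (vf i)) x := b5
      linarith
  obtain ⟨i, x, y, h, hT, hx⟩ := key
  refine ⟨i, x, y, h, hT, fun k => ?_⟩
  refine (max_le (hx k).le hρ1).trans ?_
  rw [hρ]
  refine mul_le_mul_of_nonneg_left ?_ (by positivity)
  rw [Real.exp_le_exp, q_nsmul h3]
  have hq0 := h2 w
  have hD0 : (0 : ℝ) < 2 * D := by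
    have : (0 : ℝ) < D := by exact_mod_cast hD
    linarith
  have d2 : (2 * D * L ^ 2 : ℝ) ≤ ((Rf i * g i : ℕ) : ℝ) ^ 2 := by
    have d3 : 2 * D * L ^ 2 ≤ (Rf i * g i) ^ 2 := by
      have d4 : 2 * D * L ^ 2 ≤ Rf i := by
        have := hgt i
        omega
      have d5 : Rf i ≤ Rf i * g i := Nat.le_mul_of_pos_right _ (by have := (hg i).1; omega)
      have d6 : Rf i * g i ≤ (Rf i * g i) ^ 2 := Nat.le_self_pow (by norm_num) _
      exact d4.trans (d5.trans d6)
    exact_mod_cast d3
  rw [le_div_iff₀ hD0]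
  have d7 := mul_le_mul_of_nonneg_right d2 hq0
  linarith

end Pool.Agent.TH954
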