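import Pool.Agent.TH954.Closure

/-!
# Complex multiplication

The main theorem for a group of rational points which has rank at most two and is stable under an
endomorphism which is not multiplication by an integer.
-/

set_option autoImplicit false
set_option linter.unusedSectionVars false

open IsDedekindDomain NumberField WeierstrassCurve MvPolynomial Height Function

namespace Pool.Agent.TH954

open Pool.Agent.TH942

section defs

variable {K : Type} [Field K] [DecidableEq K]

/-- The map `α` on the `K`-points of `E` is a homomorphism which, near the origin, is given by the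
homogeneous forms `F 0, F 1, F 2` over `K` of one degree (that is, by a morphism of curves): the
form `F 1` does not vanish at the origin, and wherever the three forms do not all vanish, they
give homogeneous coordinates of the image. -/
structure EndoForms (E : WeierstrassCurve K) (α : E.toAffine.Point →+ E.toAffine.Point)
    (F : Fin 3 → MvPolynomial (Fin 3) K) : Prop where
  hom : ∃ d : ℕ, ∀ j, (F j).IsHomogeneous d
  org : eval ![0, 1, 0] (F 1) ≠ 0
  rep : ∀ T, (∃ j, eval (crd T) (F j) ≠ 0) → ∃ c : K, ∀ j, crd (α T) j = c * eval (crd T) (F j)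

end defs

variable {K : Type} [Field K] [NumberField K] [DecidableEq K]

lemma hom_eval {d : ℕ} {f : MvPolynomial (Fin 3) K} (hf : f.IsHomogeneous d) (y : K)
    (u : Fin 3 → K) : eval (fun j => y * u j) f = y ^ d * eval u f := by
  rw [eval_eq', eval_eq', Finset.mul_sum]
  refine Finset.sum_congr rfl (fun m hm => ?_)
  have h1 : ∑ i, m i = d := by
    have h2 := hf (mem_support_iff.mp hm)
    rw [← h2]
    simp [Finsupp.weight_apply, Finsupp.sum_fintype]
  simp_rw [mul_pow]
  rw [Finset.prod_mul_distrib, Finset.prod_pow_eq_pow_sum, h1]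
  ring

section loc

variable {a b : K} {α : SPt a b →+ SPt a b} {F : Fin 3 → MvPolynomial (Fin 3) K}

lemma EndoForms.at_org (hF : EndoForms (sw a b) α F) (j : Fin 3) (hj : j ≠ 1) :
    eval ![0, 1, 0] (F j) = 0 := by
  obtain ⟨c, hc⟩ := hF.rep 0 ⟨1, by rw [crd_zero]; exact hF.org⟩
  have h0 : α 0 = 0 := map_zero α
  rw [h0, crd_zero] at hc
  have h1 : c ≠ 0 := by
    intro h
    have := hc 1
    rw [h, zero_mul] at this
    simp at this
  have h2 := hc j
  have h3 : (![0, 1, 0] : Fin 3 → K) j = 0 := by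
    fin_cases j
    · rfl
    · exact absurd rfl hj
    · rfl
  rw [h3] at h2
  rcases mul_eq_zero.mp h2.symm with h | h
  · exact absurd h h1
  · exact h

open scoped Classical in
/-- an endomorphism maps the filtration subgroups into themselves -/
lemma EndoForms.big (hE : ShortInt (sw a b)) (hF : EndoForms (sw a b) α F)
    (v : HeightOneSpectrum (𝓞 K))
    (hv : ∀ j m, ‖algebraMap K (v.adicCompletion K) (coeff m (F j))‖ ≤ 1)
    (hl : ‖algebraMap K (v.adicCompletion K) (eval ![0, 1, 0] (F 1))‖ = 1)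
    {R : ℝ} (hR : 1 < R) {T : SPt a b}
    (hT : Big R (locHom (L := v.adicCompletion K) (sw a b) T)) :
    Big R (locHom (L := v.adicCompletion K) (sw a b) (α T)) := by
  set L := v.adicCompletion K with hL
  have hSI := hE.si v
  match T with
  | .zero =>
    have h1 : α (Affine.Point.zero : SPt a b) = 0 := map_zero α
    rw [h1, map_zero]
    exact big_zero R
  | .some x y h =>
    obtain ⟨h', e⟩ := locHom_some (L := L) (sw a b) h
    rw [e, big_some] at hT
    have hx1 : 1 < ‖algebraMap K L x‖ := hR.trans_le hT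
    have hypos := hSI.norm_y_pos h' hx1
    have hy0 : y ≠ 0 := by
      rintro rfl
      rw [map_zero, norm_zero] at hypos
      exact lt_irrefl _ hypos
    have hz := hSI.norm_z h' hx1
    have hw := hSI.norm_w h' hx1
    set z : ℝ := ‖algebraMap K L x / algebraMap K L y‖ with hzdef
    have hz0 : 0 ≤ z := norm_nonneg _
    have hz1 : z < 1 := by
      by_contra hc
      rw [not_lt] at hc
      have : 1 ≤ z ^ 2 := one_le_pow₀ hc
      nlinarith
    have hwz : ‖1 / algebraMap K L y‖ ≤ z := by
      have h1 : ‖1 / algebraMap K L y‖ ^ 2 ≤ z ^ 2 := by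
        by_contra hc
        rw [not_le] at hc
        have h2 : ‖algebraMap K L x‖ ≤ ‖algebraMap K L x‖ ^ 3 := by
          have : 1 ≤ ‖algebraMap K L x‖ ^ 2 := one_le_pow₀ hx1.le
          nlinarith
        have h3 : z ^ 2 * ‖algebraMap K L x‖ <
            ‖1 / algebraMap K L y‖ ^ 2 * ‖algebraMap K L x‖ :=
          mul_lt_mul_of_pos_right hc (by linarith)
        have h4 : ‖1 / algebraMap K L y‖ ^ 2 * ‖algebraMap K L x‖ ≤
            ‖1 / algebraMap K L y‖ ^ 2 * ‖algebraMap K L x‖ ^ 3 :=
          mul_le_mul_of_nonneg_left h2 (sq_nonneg _)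
        linarith
      exact (pow_le_pow_iff_left₀ (norm_nonneg _) hz0 two_ne_zero).mp h1
    -- the rescaled coordinates
    set u : Fin 3 → K := ![x / y, 1, 1 / y] with hu
    have hcrd : crd (Affine.Point.some x y h : SPt a b) = fun j => y * u j := by
      funext j
      fin_cases j
      · simp [crd, hu]; field_simp
      · simp [crd, hu]
      · simp [crd, hu]; field_simp
    obtain ⟨d, hd⟩ := hF.hom
    have hev : ∀ j, eval (crd (Affine.Point.some x y h : SPt a b)) (F j) =
        y ^ d * eval u (F j) := by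
      intro j
      rw [hcrd]
      exact hom_eval (hd j) y u
    have hloc : ∀ j, ‖algebraMap K L (eval u (F j)) -
        algebraMap K L (eval ![0, 1, 0] (F j))‖ ≤ z := by
      intro j
      have h1 : ∀ w : Fin 3 → K, algebraMap K L (eval w (F j)) =
          eval (fun i => algebraMap K L (w i)) (map (algebraMap K L) (F j)) := by
        intro w
        rw [eval_map]
        exact eval₂_comp_left (algebraMap K L) (RingHom.id K) w (F j)
      rw [h1, h1]
      have h2 := norm_eval_sub_le (map (algebraMap K L) (F j)) (c := 1) (e := z)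
        zero_le_one hz0 (fun m => by rw [coeff_map]; exact hv j m)
        (u := fun i => algebraMap K L (u i))
        (w := fun i => algebraMap K L ((![0, 1, 0] : Fin 3 → K) i))
        (fun i => by
          fin_cases i
          · simp only [hu, Fin.zero_eta, Matrix.cons_val_zero, map_div₀]
            exact hz1.le
          · simp [hu]
          · simp only [hu, Fin.reduceFinMk, Matrix.cons_val, map_div₀, map_one]
            exact hwz.trans hz1.le)
        (fun i => by fin_cases i <;> simp)
        (fun i => by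
          fin_cases i
          · simp only [hu, Fin.zero_eta, Matrix.cons_val_zero, map_div₀, map_zero, sub_zero]
            exact le_rfl
          · simp [hu, hz0]
          · simp only [hu, Fin.reduceFinMk, Matrix.cons_val, map_div₀, map_one, map_zero,
              sub_zero]
            exact hwz)
      rwa [one_mul] at h2
    have hF1 : ‖algebraMap K L (eval u (F 1))‖ = 1 := by
      have h1 := hloc 1
      have h2 : algebraMap K L (eval u (F 1)) = algebraMap K L (eval ![0, 1, 0] (F 1)) +
          (algebraMap K L (eval u (F 1)) - algebraMap K L (eval ![0, 1, 0] (F 1))) := by ring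
      rw [h2, uadd_eq (by rw [hl]; exact h1.trans_lt hz1), hl]
    have hF0 : ∀ j, j ≠ 1 → ‖algebraMap K L (eval u (F j))‖ ≤ z := by
      intro j hj
      have h1 := hloc j
      rwa [hF.at_org j hj, map_zero, sub_zero] at h1
    have hne : eval (crd (Affine.Point.some x y h : SPt a b)) (F 1) ≠ 0 := by
      rw [hev]
      refine mul_ne_zero (pow_ne_zero _ hy0) ?_
      intro h0
      rw [h0, map_zero, norm_zero] at hF1
      exact zero_ne_one hF1
    obtain ⟨c, hc⟩ := hF.rep _ ⟨1, hne⟩
    simp only [hev] at hc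
    match hT' : α (Affine.Point.some x y h) with
    | .zero =>
      have : locHom (L := L) (sw a b) (Affine.Point.zero) = 0 := map_zero _
      rw [this]
      exact big_zero R
    | .some x' y' h'' =>
      rw [hT'] at hc
      obtain ⟨h3, e3⟩ := locHom_some (L := L) (sw a b) h''
      rw [e3, big_some]
      have c0 : x' = c * (y ^ d * eval u (F 0)) := by simpa [crd] using hc 0
      have c1 : y' = c * (y ^ d * eval u (F 1)) := by simpa [crd] using hc 1
      have c2 : 1 = c * (y ^ d * eval u (F 2)) := by simpa [crd] using hc 2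
      set k : ℝ := ‖algebraMap K L (c * y ^ d)‖ with hk
      have n0 : ‖algebraMap K L x'‖ ≤ k * z := by
        rw [c0, ← mul_assoc, map_mul, norm_mul]
        exact mul_le_mul_of_nonneg_left (hF0 0 (by decide)) (norm_nonneg _)
      have n1 : ‖algebraMap K L y'‖ = k := by
        rw [c1, ← mul_assoc, map_mul, norm_mul, hF1, mul_one]
      have n2 : 1 ≤ k * z := by
        have h4 : ‖algebraMap K L (1 : K)‖ = k * ‖algebraMap K L (eval u (F 2))‖ := by
          conv_lhs => rw [c2]
          rw [← mul_assoc, map_mul, norm_mul]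
        rw [map_one, norm_one] at h4
        rw [h4]
        exact mul_le_mul_of_nonneg_left (hF0 2 (by decide)) (norm_nonneg _)
      have hk1 : 1 < k := by
        have hk0 : 0 ≤ k := norm_nonneg _
        by_contra hcon
        rw [not_lt] at hcon
        nlinarith
      have hx' : 1 < ‖algebraMap K L x'‖ := by
        by_contra hcon
        rw [not_lt] at hcon
        have := hSI.norm_y_le_one h3 hcon
        rw [n1] at this
        linarith
      have hy' := hSI.norm_y_eq h3 hx'
      rw [n1] at hy'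
      set X : ℝ := ‖algebraMap K L x'‖ with hX
      have h5 : X ^ 2 ≤ X ^ 3 * z ^ 2 := by
        rw [← hy', ← mul_pow]
        exact pow_le_pow_left₀ (norm_nonneg _) n0 2
      have h6 : 1 ≤ X * z ^ 2 := by
        have hX0 : 0 < X ^ 2 := by positivity
        by_contra hcon
        rw [not_le] at hcon
        nlinarith
      have hz2 : 0 < z ^ 2 := by
        rcases (sq_nonneg z).lt_or_eq with h7 | h7
        · exact h7
        · rw [← h7, zero_mul] at hz
          exact absurd hz zero_ne_one
      have h7 : ‖algebraMap K L x‖ ≤ X := by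
        by_contra hcon
        rw [not_le] at hcon
        have := mul_lt_mul_of_pos_left hcon hz2
        nlinarith
      exact hT.trans h7

/-- the finite set of places excluded in `EndoForms.big` -/
lemma EndoForms.bad_finite (hF : EndoForms (sw a b) α F) :
    {v : HeightOneSpectrum (𝓞 K) | ¬ ((∀ j m, ‖algebraMap K (v.adicCompletion K)
      (coeff m (F j))‖ ≤ 1) ∧
      ‖algebraMap K (v.adicCompletion K) (eval ![0, 1, 0] (F 1))‖ = 1)}.Finite := by
  classical
  have h1 : (⋃ j : Fin 3, ⋃ m ∈ (F j).support,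
      {v : HeightOneSpectrum (𝓞 K) | 1 < ‖algebraMap K (v.adicCompletion K)
        (coeff m (F j))‖}).Finite :=
    Set.finite_iUnion (fun j => Set.Finite.biUnion (Finset.finite_toSet _)
      (fun m _ => large_finite _))
  have h2 := large_finite (eval ![0, 1, 0] (F 1))
  have h3 := large_finite (eval ![0, 1, 0] (F 1))⁻¹
  refine ((h1.union h2).union h3).subset ?_
  intro v hv
  by_contra hcon
  apply hv
  rw [Set.mem_union, Set.mem_union, not_or, not_or] at hcon
  obtain ⟨⟨c1, c2⟩, c3⟩ := hcon
  refine ⟨?_, le_antisymm (not_lt.mp c2) ?_⟩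
  · intro j m
    by_cases hm : m ∈ (F j).support
    · by_contra hc
      rw [not_le] at hc
      exact c1 (Set.mem_iUnion.mpr ⟨j, Set.mem_iUnion₂.mpr ⟨m, hm, hc⟩⟩)
    · rw [notMem_support_iff.mp hm, map_zero, norm_zero]
      exact zero_le_one
  · have c3' : ‖algebraMap K (v.adicCompletion K) (eval ![0, 1, 0] (F 1))⁻¹‖ ≤ 1 :=
      not_lt.mp (fun h => c3 h)
    rw [map_inv₀, norm_inv] at c3'
    have hpos : 0 < ‖algebraMap K (v.adicCompletion K) (eval ![0, 1, 0] (F 1))‖ :=
      norm_pos_iff.mpr (char_ne v hF.org)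
    exact (inv_le_one₀ hpos).mp c3'

end loc

/-- structure of a group of rank at most two which is stable under an endomorphism that is not an
integer -/
lemma cm_gen {a b : K} (hD : 4 * a ^ 3 + 27 * b ^ 2 ≠ 0) (Γ : AddSubgroup (SPt a b))
    (α : SPt a b →+ SPt a b) (t m : ℤ) (htm : t ^ 2 < 4 * m)
    (hrel : ∀ T, α (α T) - t • α T + m • T = 0)
    (hα : ∀ T ∈ Γ, α T ∈ Γ) (hΓ : Module.rank ℤ Γ ≤ 2) :
    (∀ Q ∈ Γ, IsOfFinAddOrder Q) ∨
    ∃ P ∈ Γ, ¬ IsOfFinAddOrder P ∧ ∃ (s : ℕ) (Pj : Fin s → SPt a b) (N0 : ℕ), 1 ≤ N0 ∧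
      (∀ j, Pj j ∈ Γ) ∧
      (∀ Q ∈ Γ, ∃ k : Fin s → ℤ, IsOfFinAddOrder (Q - ∑ j, k j • Pj j)) ∧
      ∀ j, ∃ c d : ℤ, N0 • Pj j = c • P + d • α P := by
  have hfg : AddGroup.FG Γ := fg_of_inj Γ.subtype Subtype.coe_injective (sfg hD)
  obtain ⟨r, g, hg⟩ := exists_basis hfg
  have hr : r ≤ 2 := by
    have h1 := card_basis hg
    rw [Fintype.card_fin] at h1
    have h2 : Module.finrank ℤ Γ ≤ 2 := by
      have := Module.finrank_le_of_rank_le (n := 2) (by exact_mod_cast hΓ)
      exact this
    omega
  have hcoe : ∀ Q : Γ, IsOfFinAddOrder Q → IsOfFinAddOrder (Q : SPt a b) := by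
    intro Q hQ
    exact (Γ.subtype : Γ →+ SPt a b).isOfFinAddOrder hQ
  have hcoe' : ∀ Q : Γ, IsOfFinAddOrder (Q : SPt a b) → IsOfFinAddOrder Q := by
    intro Q hQ
    rw [isOfFinAddOrder_iff_nsmul_eq_zero] at hQ ⊢
    obtain ⟨k, hk, hk'⟩ := hQ
    exact ⟨k, hk, Subtype.ext hk'⟩
  -- basis elements have infinite order
  have hnt : ∀ i, ¬ IsOfFinAddOrder (g i : SPt a b) := by
    intro i hi
    obtain ⟨k, -, hk⟩ := hg (g i)
    have h1 := hk (fun _ => 0) (by simpa using hcoe' _ hi)
    have h2 := hk (Pi.single i 1) (by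
      have : ∑ j, (Pi.single i 1 : Fin r → ℤ) j • g j = g i := by
        rw [Finset.sum_eq_single i]
        · simp
        · intro j _ hj
          simp [Pi.single_eq_of_ne hj]
        · intro h
          exact absurd (Finset.mem_univ _) h
      change IsOfFinAddOrder (g i - ∑ j, (Pi.single i 1 : Fin r → ℤ) j • g j)
      rw [this, sub_self]
      exact IsOfFinAddOrder.zero)
    have h3 := congrFun (h1.trans h2.symm) i
    simp at h3
  have hgen : ∀ Q ∈ Γ, ∃ k : Fin r → ℤ,
      IsOfFinAddOrder (Q - ∑ j, k j • (g j : SPt a b)) := by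
    intro Q hQ
    obtain ⟨k, hk, -⟩ := hg ⟨Q, hQ⟩
    refine ⟨k, ?_⟩
    have h1 := hcoe _ hk
    simpa using h1
  interval_cases r
  · left
    intro Q hQ
    obtain ⟨k, hk⟩ := hgen Q hQ
    simpa using hk
  · right
    refine ⟨g 0, (g 0).2, hnt 0, 1, fun j => (g j : SPt a b), 1, le_rfl, fun j => (g j).2,
      hgen, ?_⟩
    intro j
    refine ⟨1, 0, ?_⟩
    have : j = 0 := Subsingleton.elim _ _
    subst this
    simp
  · right
    obtain ⟨k, hk⟩ := hgen (α (g 0)) (hα _ (g 0).2)
    rw [Fin.sum_univ_two] at hk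
    have hk1 : k 1 ≠ 0 := by
      intro h0
      rw [h0, zero_smul, add_zero] at hk
      have h1 := α.isOfFinAddOrder hk
      rw [map_sub, map_zsmul] at h1
      have h2 := hrel (g 0)
      have h3 : IsOfFinAddOrder ((k 0 ^ 2 - t * k 0 + m) • (g 0 : SPt a b)) := by
        have e : (k 0 ^ 2 - t * k 0 + m) • (g 0 : SPt a b) =
            (α (α (g 0)) - t • α (g 0) + m • (g 0 : SPt a b)) -
              (α (α (g 0)) - k 0 • α (g 0)) +
              (t - k 0) • (α (g 0) - k 0 • (g 0 : SPt a b)) := by
          module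
        rw [e, h2, zero_sub]
        exact (h1.neg).add (hk.zsmul)
      have h4 : k 0 ^ 2 - t * k 0 + m ≠ 0 := by
        intro h5
        nlinarith [sq_nonneg (2 * k 0 - t)]
      apply hnt 0
      rw [isOfFinAddOrder_iff_zsmul_eq_zero] at h3 ⊢
      obtain ⟨l, hl, hl'⟩ := h3
      refine ⟨l * (k 0 ^ 2 - t * k 0 + m), mul_ne_zero hl h4, ?_⟩
      rw [mul_smul]
      exact hl'
    obtain ⟨l, hl, hl'⟩ := isOfFinAddOrder_iff_nsmul_eq_zero.mp hk
    refine ⟨g 0, (g 0).2, hnt 0, 2, fun j => (g j : SPt a b), (k 1).natAbs * l,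
      Nat.mul_pos (Int.natAbs_pos.mpr hk1) hl, fun j => (g j).2, hgen, ?_⟩
    have hkey : ((k 1).natAbs * l) • (g 1 : SPt a b) =
        (-(k 1).sign * l * k 0) • (g 0 : SPt a b) + ((k 1).sign * l) • α (g 0) := by
      have h1 : (((k 1).natAbs * l : ℕ) : ℤ) = (k 1).sign * l * k 1 := by
        rw [mul_right_comm, Int.sign_mul_self, Nat.cast_mul]
      rw [← natCast_zsmul, h1]
      have h2 : (l : ℤ) • (α (g 0) - (k 0 • (g 0 : SPt a b) + k 1 • (g 1 : SPt a b))) = 0 := by
        rw [natCast_zsmul]
        exact hl'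
      have h3 : ((k 1).sign * l * k 1) • (g 1 : SPt a b) =
          (-(k 1).sign * l * k 0) • (g 0 : SPt a b) + ((k 1).sign * l) • α (g 0) -
          (k 1).sign • ((l : ℤ) • (α (g 0) - (k 0 • (g 0 : SPt a b) +
            k 1 • (g 1 : SPt a b)))) := by
        module
      rw [h3, h2, smul_zero, sub_zero]
    intro j
    fin_cases j
    · exact ⟨((k 1).natAbs * l : ℕ), 0, by rw [natCast_zsmul, zero_smul, add_zero]; rfl⟩
    · exact ⟨_, _, hkey⟩

open scoped Classical in
/-- the main property for a group with complex multiplication -/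
theorem cm_big {a b : K} (hE : ShortInt (sw a b)) (α : SPt a b →+ SPt a b)
    {F : Fin 3 → MvPolynomial (Fin 3) K} (hF : EndoForms (sw a b) α F)
    (t m : ℤ) (htm : t ^ 2 < 4 * m) (hrel : ∀ T, α (α T) - t • α T + m • T = 0)
    (Γ : AddSubgroup (SPt a b)) (hα : ∀ T ∈ Γ, α T ∈ Γ) (hΓ : Module.rank ℤ Γ ≤ 2)
    (G0 : Finset (HeightOneSpectrum (𝓞 K))) (n : ℕ) : BigProp a b Γ G0 n := by
  intro S hS x hx hcl T hT0 R hR
  rcases cm_gen (a := a) (b := b) hE.disc Γ α t m htm hrel hα hΓ with
    h | ⟨P, hPΓ, hP, s, Pj, N0, hN0, hPj, hgen, hdep⟩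
  · exact core_torsion hE Γ h S hS G0 x hx hcl T hT0 R hR
  · refine core hE hP Pj N0 hN0 Γ hPj hgen (G0 ∪ hF.bad_finite.toFinset) ?_ S hS
      (G0 : Set (HeightOneSpectrum (𝓞 K)))
      (fun v hv => Finset.mem_union_left _ (Finset.mem_coe.mp hv)) x hx hcl T hT0 R hR
    intro v hv R hR k j hbig
    rw [Finset.mem_union, not_or] at hv
    have hv2 : (∀ j m, ‖algebraMap K (v.adicCompletion K) (coeff m (F j))‖ ≤ 1) ∧
        ‖algebraMap K (v.adicCompletion K) (eval ![0, 1, 0] (F 1))‖ = 1 := by
      by_contra hcon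
      exact hv.2 (hF.bad_finite.mem_toFinset.mpr hcon)
    obtain ⟨c, d, hcd⟩ := hdep j
    have e : (N0 * k) • Pj j = c • (k • P) + d • α (k • P) := by
      rw [mul_comm, mul_smul, hcd, smul_add, map_nsmul, smul_comm k c, smul_comm k d]
    rw [e, map_add, map_zsmul, map_zsmul]
    have hSI := hE.si v
    exact hSI.big_add (two_ne v) hR (hSI.big_zsmul (two_ne v) hR hbig c)
      (hSI.big_zsmul (two_ne v) hR (hF.big hE v hv2.1 hv2.2 hR hbig) d)

/-- Adelic points of closed subvarieties of powers of an elliptic curve, for a group of rational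
points of rank at most two stable under a non-integral endomorphism. -/
theorem cm_main (E : WeierstrassCurve K) [hell : E.IsElliptic]
    (h1 : E.a₁ = 0) (h2 : E.a₂ = 0) (h3 : E.a₃ = 0)
    (h4 : IsIntegral ℤ E.a₄) (h6 : IsIntegral ℤ E.a₆)
    (α : E.toAffine.Point →+ E.toAffine.Point)
    (F : Fin 3 → MvPolynomial (Fin 3) K) (hF : EndoForms E α F)
    (t m : ℤ) (htm : t ^ 2 < 4 * m) (hrel : ∀ T, α (α T) - t • α T + m • T = 0)
    (Γ : AddSubgroup E.toAffine.Point) (hα : ∀ T ∈ Γ, α T ∈ Γ) (hΓ : Module.rank ℤ Γ ≤ 2)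
    (n : ℕ) (S : Set (MvPolynomial (Fin n × Fin 3) K)) (hS : ∀ f ∈ S, ∃ d, MultiHom d f)
    (G : Set (HeightOneSpectrum (𝓞 K))) (hG : G.Finite) :
    {x ∈ adelicClosure (E := E) G {y | ∀ i, y i ∈ Γ} | ∀ v, OnX S (fun i => crd (x v i))} =
    adelicClosure (E := E) G {y | (∀ i, y i ∈ Γ) ∧ OnX S (fun i => crd (y i))} := by
  obtain ⟨a, b, rfl⟩ := short_eq_sw h1 h2 h3
  have hE : ShortInt (sw a b) :=
    { h1 := h1, h2 := h2, h3 := h3, ia := h4, ib := h6, disc := disc_of_elliptic hell }
  exact transfer hE Γ G hG (cm_big hE α hF t m htm hrel Γ hα hΓ hG.toFinset n) S hS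

end Pool.Agent.TH954
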