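import Pool.Agent.TH954.RankOne

/-!
# Adelic closures

The statement about closures in the product of the local points, deduced from the version with
the filtrations.
-/

set_option autoImplicit false
set_option linter.unusedSectionVars false

open IsDedekindDomain NumberField WeierstrassCurve MvPolynomial Height Function

namespace Pool.Agent.TH954

open Pool.Agent.TH942

section defs

variable {K : Type} [Field K] [NumberField K] {n : ℕ}

/-- The points of `Eⁿ` over the completions `K_v`, for all finite places `v` outside `G`. -/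
abbrev AdelicPts (E : WeierstrassCurve K) (n : ℕ) (G : Set (HeightOneSpectrum (𝓞 K))) : Type :=
  ∀ v : {v : HeightOneSpectrum (𝓞 K) // v ∉ G},
    Fin n → (E.baseChange (v.1.adicCompletion K)).toAffine.Point

/-- The `n` coordinate vectors `u i`, with entries in an extension `L` of `K`, satisfy all the
equations in `S`. -/
def OnX (S : Set (MvPolynomial (Fin n × Fin 3) K)) {L : Type} [Field L] [Algebra K L]
    (u : Fin n → Fin 3 → L) : Prop :=
  ∀ f ∈ S, aeval (fun p : Fin n × Fin 3 => u p.1 p.2) f = 0

/-- The closure of a set `Y` of rational points of `Eⁿ` in the product of the spaces of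
`K_v`-points over all finite places `v` outside `G`. -/
def adelicClosure {E : WeierstrassCurve K} (G : Set (HeightOneSpectrum (𝓞 K)))
    (Y : Set (Fin n → E.toAffine.Point)) : Set (AdelicPts E n G) :=
  {x | ∀ (T : Finset {v : HeightOneSpectrum (𝓞 K) // v ∉ G}) (ε : ℝ), 0 < ε →
    ∃ y ∈ Y, ∀ v ∈ T, ∀ i, Near ε (crd (x v i))
      (fun j => algebraMap K (v.1.adicCompletion K) (crd (y i) j))}

end defs

variable {K : Type} [Field K] [NumberField K] [DecidableEq K]

open scoped Classical in
/-- The main property, with neighbourhoods given by the filtrations. -/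
def BigProp (a b : K) (Γ : AddSubgroup (SPt a b)) (G0 : Finset (HeightOneSpectrum (𝓞 K)))
    (n : ℕ) : Prop :=
  ∀ (S : Finset (MvPolynomial (Fin n × Fin 3) K)), (∀ f ∈ S, ∃ d, MultiHom d f) →
    ∀ (x : ∀ v : HeightOneSpectrum (𝓞 K),
      Fin n → ((sw a b).baseChange (v.adicCompletion K)).toAffine.Point),
    (∀ v ∉ G0, ∀ f ∈ S, eval (fun p => crd (x v p.1) p.2)
      (map (algebraMap K (v.adicCompletion K)) f) = 0) →
    (∀ (T : Finset (HeightOneSpectrum (𝓞 K))), (∀ v ∈ T, v ∉ G0) → ∀ (R : ℝ), 1 < R →
      ∃ y : Fin n → SPt a b, (∀ i, y i ∈ Γ) ∧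
        ∀ v ∈ T, ∀ i, Big R (x v i - locHom (sw a b) (y i))) →
    ∀ (T : Finset (HeightOneSpectrum (𝓞 K))), (∀ v ∈ T, v ∉ G0) → ∀ (R : ℝ), 1 < R →
    ∃ y : Fin n → SPt a b, (∀ i, y i ∈ Γ) ∧ (∀ f ∈ S, eval (fun p => crd (y p.1) p.2) f = 0) ∧
      ∀ v ∈ T, ∀ i, Big R (x v i - locHom (sw a b) (y i))

lemma crd_loc' {F L : Type} [Field F] [Field L] [DecidableEq F] [DecidableEq L] [Algebra F L]
    (E : WeierstrassCurve F) (Q : E.toAffine.Point) :
    crd (locHom (L := L) E Q) = fun j => algebraMap F L (crd Q j) :=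
  funext (fun j => crd_loc E Q j)

lemma small_of_sq {t R ε : ℝ} (hε : 0 < ε) (hR : R = 1 / ε ^ 2 + 1) (h : t ^ 2 * R ≤ 1) :
    t < ε := by
  by_contra hc
  rw [not_lt] at hc
  have h1 : ε ^ 2 ≤ t ^ 2 := pow_le_pow_left₀ hε.le hc 2
  have h2 : 0 < R := by rw [hR]; positivity
  have h3 : ε ^ 2 * R ≤ 1 := (mul_le_mul_of_nonneg_right h1 h2.le).trans h
  rw [hR, mul_add, mul_one_div_cancel (by positivity)] at h3
  have : 0 < ε ^ 2 := by positivity
  linarith

/-- reduction to finitely many equations -/
lemma finite_subset {σ : Type} [Finite σ] (S : Set (MvPolynomial σ K)) :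
    ∃ S' : Finset (MvPolynomial σ K), (S' : Set (MvPolynomial σ K)) ⊆ S ∧
      ∀ (L : Type) [Field L] [Algebra K L] (u : σ → L),
        (∀ f ∈ S', aeval u f = 0) → ∀ f ∈ S, aeval u f = 0 := by
  have h1 : (Submodule.span (MvPolynomial σ K) S).FG := IsNoetherian.noetherian _
  obtain ⟨S', hS', hspan⟩ := (Submodule.fg_span_iff_fg_span_finset_subset S).mp h1
  refine ⟨S', hS', ?_⟩
  intro L _ _ u hu f hf
  have h2 : f ∈ Submodule.span (MvPolynomial σ K) (S' : Set (MvPolynomial σ K)) := by
    rw [← hspan]
    exact Submodule.subset_span hf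
  have h3 : Submodule.span (MvPolynomial σ K) (S' : Set (MvPolynomial σ K)) ≤
      RingHom.ker (aeval u : MvPolynomial σ K →ₐ[K] L) := by
    rw [Submodule.span_le]
    intro g hg
    exact hu g hg
  exact h3 h2

open scoped Classical in
theorem transfer {a b : K} (hE : ShortInt (sw a b)) (Γ : AddSubgroup (SPt a b))
    (G : Set (HeightOneSpectrum (𝓞 K))) (hG : G.Finite) {n : ℕ}
    (hmain : BigProp a b Γ hG.toFinset n)
    (S : Set (MvPolynomial (Fin n × Fin 3) K)) (hS : ∀ f ∈ S, ∃ d, MultiHom d f) :
    {x ∈ adelicClosure (E := sw a b) G {y | ∀ i, y i ∈ Γ} |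
      ∀ v, OnX S (fun i => crd (x v i))} =
    adelicClosure (E := sw a b) G {y | (∀ i, y i ∈ Γ) ∧ OnX S (fun i => crd (y i))} := by
  ext x
  constructor
  · rintro ⟨hxcl, hxX⟩
    intro T ε hε
    obtain ⟨S', hS'S, hS'⟩ := finite_subset S
    -- extension of `x` to all finite places
    set x' : ∀ v : HeightOneSpectrum (𝓞 K),
      Fin n → ((sw a b).baseChange (v.adicCompletion K)).toAffine.Point :=
      fun v => if h : v ∉ G then x ⟨v, h⟩ else fun _ => 0 with hx'
    have hx'v : ∀ v (h : v ∉ G), x' v = x ⟨v, h⟩ := by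
      intro v h
      simp only [hx']
      rw [dif_pos h]
    have hmem : ∀ v, v ∉ hG.toFinset ↔ v ∉ G := fun v => by rw [hG.mem_toFinset]
    obtain ⟨R, hR⟩ : ∃ R : ℝ, R = 1 / ε ^ 2 + 1 := ⟨_, rfl⟩
    have hR1 : 1 < R := by
      rw [hR]
      have : 0 < 1 / ε ^ 2 := by positivity
      linarith
    obtain ⟨y, hyΓ, hyS, hyT⟩ := hmain S' (fun f hf => hS f (hS'S hf)) x' (by
        intro v hv f hf
        rw [hmem] at hv
        rw [hx'v v hv]
        have := hxX ⟨v, hv⟩ f (hS'S hf)
        rw [aeval_def] at this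
        rw [eval_map]
        exact this) (by
        intro T' hT' R' hR'
        -- a common distance
        have hch : ∀ v : HeightOneSpectrum (𝓞 K), ∃ d : ℝ, 0 < d ∧ d ≤ 1 ∧
            ∀ T1 T2 : ((sw a b).baseChange (v.adicCompletion K)).toAffine.Point,
              (∀ j, ‖nc T1 j - nc T2 j‖ < d) → Big R' (T1 - T2) := fun v =>
          (hE.si v).exists_near (two_ne v) (hE.disc_loc v) hR'
        choose dd hdd0 hdd1 hdd using hch
        have hfin : ∃ δ : ℝ, 0 < δ ∧ δ ≤ 1 ∧ ∀ v ∈ T', δ ≤ dd v := by
          refine ⟨∏ v ∈ T', dd v, Finset.prod_pos (fun v _ => hdd0 v),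
            Finset.prod_le_one (fun v _ => (hdd0 v).le) (fun v _ => hdd1 v), fun v hv => ?_⟩
          rw [← Finset.mul_prod_erase T' dd hv]
          exact mul_le_of_le_one_right (hdd0 v).le
            (Finset.prod_le_one (fun v _ => (hdd0 v).le) (fun v _ => hdd1 v))
        obtain ⟨δ, hδ0, hδ1, hδ⟩ := hfin
        obtain ⟨y, hy, hyn⟩ := hxcl
          (T'.preimage (Subtype.val : {v : HeightOneSpectrum (𝓞 K) // v ∉ G} → _)
            Subtype.val_injective.injOn) δ hδ0
        refine ⟨y, hy, fun v hv i => ?_⟩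
        have hvG : v ∉ G := (hmem v).mp (hT' v hv)
        have h1 := hyn ⟨v, hvG⟩ (Finset.mem_preimage.mpr hv) i
        apply hdd v
        intro j
        rw [hx'v v hvG]
        rw [← crd_loc' (L := v.adicCompletion K) (sw a b)] at h1
        exact (nc_of_near (hE.si v) hδ0 hδ1 h1 j).trans_le (hδ v hv))
      (T.image Subtype.val) (by
        intro v hv
        rw [Finset.mem_image] at hv
        obtain ⟨w, -, rfl⟩ := hv
        exact (hmem w.1).mpr w.2) R hR1
    refine ⟨y, ⟨hyΓ, ?_⟩, fun v hv i => ?_⟩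
    · apply hS'
      intro f hf
      rw [aeval_def]
      have := hyS f hf
      exact this
    · have h1 := hyT v.1 (Finset.mem_image_of_mem _ hv) i
      rw [hx'v v.1 v.2] at h1
      rw [← crd_loc' (L := v.1.adicCompletion K) (sw a b)]
      refine near_of_nc (hE.si v.1) hε (fun j => ?_)
      exact small_of_sq hε hR ((hE.si v.1).near_of_big (two_ne v.1) hR1 h1 j)
  · intro hx
    refine ⟨fun T ε hε => ?_, fun v f hf => ?_⟩
    · obtain ⟨y, hy, hyn⟩ := hx T ε hε
      exact ⟨y, hy.1, hyn⟩
    · -- the set of local points of `X` is closed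
      obtain ⟨d, hd⟩ := hS f hf
      have hfv : MultiHom d (map (algebraMap K (v.1.adicCompletion K)) f) := by
        intro m hm i
        exact hd m (support_map_subset _ _ hm) i
      have hc : ∀ m, ‖coeff m (map (algebraMap K (v.1.adicCompletion K)) f)‖ ≤
          cf f (FinitePlace.mk v.1) := by
        intro m
        rw [coeff_map]
        exact coeff_le_cf f (FinitePlace.mk v.1) m
      have hc0 : 0 ≤ cf f (FinitePlace.mk v.1) := zero_le_one.trans (one_le_cf _ _)
      have e1 := fun i => crd_eq_smul_nc (hE.si v.1) (x v i)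
      choose s hs0 hs1 hs2 using e1
      have h5 : (fun p : Fin n × Fin 3 => crd (x v p.1) p.2) =
          fun p => s p.1 * (fun p : Fin n × Fin 3 => nc (x v p.1) p.2) p := by
        funext p
        exact hs1 p.1 p.2
      have hz : eval (fun p : Fin n × Fin 3 => nc (x v p.1) p.2)
          (map (algebraMap K (v.1.adicCompletion K)) f) = 0 := by
        rw [← norm_eq_zero]
        by_contra hne
        have hpos : 0 < ‖eval (fun p : Fin n × Fin 3 => nc (x v p.1) p.2)
          (map (algebraMap K (v.1.adicCompletion K)) f)‖ :=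
          lt_of_le_of_ne (norm_nonneg _) (Ne.symm hne)
        set N : ℝ := ‖eval (fun p : Fin n × Fin 3 => nc (x v p.1) p.2)
          (map (algebraMap K (v.1.adicCompletion K)) f)‖ with hN
        set c : ℝ := cf f (FinitePlace.mk v.1) with hcdef
        have hc1 : 1 ≤ c := one_le_cf _ _
        set ε : ℝ := min 1 (N / (2 * c)) with hε
        have hε0 : 0 < ε := lt_min one_pos (by positivity)
        obtain ⟨y, hy, hyn⟩ := hx {v} ε hε0
        have h6 : ∀ i j, ‖nc (x v i) j -
            nc (locHom (L := v.1.adicCompletion K) (sw a b) (y i)) j‖ < ε := by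
          intro i j
          have h7 := hyn v (Finset.mem_singleton_self _) i
          rw [← crd_loc' (L := v.1.adicCompletion K) (sw a b)] at h7
          exact nc_of_near (hE.si v.1) hε0 (min_le_left _ _) h7 j
        have h8 : eval (fun p : Fin n × Fin 3 =>
            nc (locHom (L := v.1.adicCompletion K) (sw a b) (y p.1)) p.2)
            (map (algebraMap K (v.1.adicCompletion K)) f) = 0 := by
          have e2 := fun i => crd_eq_smul_nc (hE.si v.1)
            (locHom (L := v.1.adicCompletion K) (sw a b) (y i))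
          choose t ht0 ht1 ht2 using e2
          have h9 : (fun p : Fin n × Fin 3 =>
              crd (locHom (L := v.1.adicCompletion K) (sw a b) (y p.1)) p.2) =
              fun p => t p.1 * (fun p : Fin n × Fin 3 =>
                nc (locHom (L := v.1.adicCompletion K) (sw a b) (y p.1)) p.2) p := by
            funext p
            exact ht1 p.1 p.2
          have h10 : eval (fun p : Fin n × Fin 3 =>
              crd (locHom (L := v.1.adicCompletion K) (sw a b) (y p.1)) p.2)
              (map (algebraMap K (v.1.adicCompletion K)) f) = 0 := by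
            rw [eval_loc]
            have h11 := hy.2 f hf
            rw [aeval_def] at h11
            have h12 : eval (fun p : Fin n × Fin 3 => crd (y p.1) p.2) f = 0 := h11
            rw [h12, map_zero]
          rw [h9, hfv.eval_smul, mul_eq_zero] at h10
          rcases h10 with h10 | h10
          · exfalso
            rw [Finset.prod_eq_zero_iff] at h10
            obtain ⟨i, -, hi⟩ := h10
            exact pow_ne_zero _ (ht0 i) hi
          · exact h10
        have h13 := norm_eval_sub_le (map (algebraMap K (v.1.adicCompletion K)) f) hc0 hε0.le hc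
          (u := fun p : Fin n × Fin 3 => nc (x v p.1) p.2)
          (w := fun p : Fin n × Fin 3 =>
            nc (locHom (L := v.1.adicCompletion K) (sw a b) (y p.1)) p.2)
          (fun p => nc_le_one (hE.si v.1) _ _) (fun p => nc_le_one (hE.si v.1) _ _)
          (fun p => (h6 p.1 p.2).le)
        rw [h8, sub_zero] at h13
        have h14 : c * ε ≤ N / 2 := by
          calc c * ε ≤ c * (N / (2 * c)) := mul_le_mul_of_nonneg_left (min_le_right _ _) hc0
            _ = N / 2 := by field_simp
        linarith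
      have h15 : eval (fun p : Fin n × Fin 3 => crd (x v p.1) p.2)
          (map (algebraMap K (v.1.adicCompletion K)) f) = 0 := by
        rw [h5, hfv.eval_smul, hz, mul_zero]
      rw [eval_map] at h15
      rw [aeval_def]
      exact h15

lemma short_eq_sw {E : WeierstrassCurve K} (h1 : E.a₁ = 0) (h2 : E.a₂ = 0) (h3 : E.a₃ = 0) :
    ∃ a b : K, E = sw a b :=
  ⟨E.a₄, E.a₆, WeierstrassCurve.ext h1 h2 h3 rfl rfl⟩

lemma disc_of_elliptic {a b : K} (h : (sw a b).IsElliptic) : 4 * a ^ 3 + 27 * b ^ 2 ≠ 0 := by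
  intro h0
  have h1 := h.isUnit
  rw [sw_Δ, h0, mul_zero] at h1
  exact not_isUnit_zero h1

/-- Adelic points of closed subvarieties of powers of an elliptic curve, for a group of
rational points of rank at most one. -/
theorem rank_one_main (E : WeierstrassCurve K) [hell : E.IsElliptic]
    (h1 : E.a₁ = 0) (h2 : E.a₂ = 0) (h3 : E.a₃ = 0)
    (h4 : IsIntegral ℤ E.a₄) (h6 : IsIntegral ℤ E.a₆)
    (Γ : AddSubgroup E.toAffine.Point) (hΓ : Module.rank ℤ Γ ≤ 1)
    (n : ℕ) (S : Set (MvPolynomial (Fin n × Fin 3) K)) (hS : ∀ f ∈ S, ∃ d, MultiHom d f)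
    (G : Set (HeightOneSpectrum (𝓞 K))) (hG : G.Finite) :
    {x ∈ adelicClosure (E := E) G {y | ∀ i, y i ∈ Γ} | ∀ v, OnX S (fun i => crd (x v i))} =
    adelicClosure (E := E) G {y | (∀ i, y i ∈ Γ) ∧ OnX S (fun i => crd (y i))} := by
  obtain ⟨a, b, rfl⟩ := short_eq_sw h1 h2 h3
  have hE : ShortInt (sw a b) :=
    { h1 := h1, h2 := h2, h3 := h3, ia := h4, ib := h6, disc := disc_of_elliptic hell }
  refine transfer hE Γ G hG ?_ S hS
  intro S' hS' x hx hcl T hT0 R hR
  exact rank_one_big hE Γ hΓ S' hS' hG.toFinset x hx hcl T hT0 R hR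

end Pool.Agent.TH954
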