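import Pool.Agent.TH954.Poly

/-!
# The height inequality

If a multihomogeneous form takes at a rational point a nonzero value which is small at the finite
places where `t` is large then the finite part of the height of `t` is bounded.
-/

set_option autoImplicit false
set_option linter.unusedSectionVars false

open MvPolynomial NumberField Height Function

namespace Pool.Agent.TH954

variable {K : Type} [Field K] [NumberField K] {n : ℕ}

/-- the largest of 1 and the coefficients -/
noncomputable def cf (f : MvPolynomial (Fin n × Fin 3) K) (v : FinitePlace K) : ℝ :=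
  max (⨆ s : f.support, v (coeff s.val f)) 1

lemma one_le_cf (f : MvPolynomial (Fin n × Fin 3) K) (v : FinitePlace K) : 1 ≤ cf f v :=
  le_max_right _ _

lemma coeff_le_cf (f : MvPolynomial (Fin n × Fin 3) K) (v : FinitePlace K)
    (m : Fin n × Fin 3 →₀ ℕ) : v (coeff m f) ≤ cf f v := by
  by_cases hm : m ∈ f.support
  · refine le_trans ?_ (le_max_left _ _)
    exact le_ciSup (f := fun s : f.support => v (coeff s.val f))
      (Set.finite_range _).bddAbove ⟨m, hm⟩
  · rw [notMem_support_iff.mp hm, map_zero]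
    exact zero_le_one.trans (one_le_cf f v)

lemma cf_fin (f : MvPolynomial (Fin n × Fin 3) K) : (cf f).HasFiniteMulSupport := by
  unfold cf
  rcases isEmpty_or_nonempty f.support with hs | hs
  · simp only [Real.iSup_of_isEmpty]
    have : (fun _ : FinitePlace K => max (0 : ℝ) 1) = fun _ => 1 := by
      funext _
      simp
    rw [this]
    exact hasFiniteMulSupport_fun_one
  · have H (s : f.support) : coeff s.val f ≠ 0 := mem_support_iff.mp s.prop
    refine HasFiniteMulSupport.max (HasFiniteMulSupport.iSup fun s => ?_) hasFiniteMulSupport_fun_one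
    exact FinitePlace.hasFiniteMulSupport (H s)

lemma sup_fin {u : Fin 3 → K} (hu : u ≠ 0) :
    (fun v : FinitePlace K => ⨆ j, v (u j)).HasFiniteMulSupport := by
  have : Nonempty {j // u j ≠ 0} := nonempty_subtype.mpr <| ne_iff.mp hu
  suffices (fun v : FinitePlace K => ⨆ i : {j // u j ≠ 0}, v (u i)).HasFiniteMulSupport by
    convert! this with v
    obtain ⟨i, hi⟩ : ∃ j, u j ≠ 0 := Function.ne_iff.mp hu
    refine le_antisymm (ciSup_le fun j ↦ ?_) (ciSup_le fun ⟨j, hj⟩ ↦ Finite.le_ciSup_of_le j le_rfl)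
    rcases eq_or_ne (u j) 0 with h | h
    · rw [h, map_zero]
      exact Real.iSup_nonneg' ⟨⟨i, hi⟩, apply_nonneg ..⟩
    · exact Finite.le_ciSup_of_le ⟨j, h⟩ le_rfl
  refine HasFiniteMulSupport.iSup (fun s => ?_)
  exact FinitePlace.hasFiniteMulSupport s.prop

lemma max_fin (t : K) : (fun v : FinitePlace K => max (v t) 1).HasFiniteMulSupport := by
  rcases eq_or_ne t 0 with rfl | h
  · simp only [map_zero]
    have : (fun _ : FinitePlace K => max (0 : ℝ) 1) = fun _ => 1 := by
      funext _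
      simp
    rw [this]
    exact hasFiniteMulSupport_fun_one
  · exact HasFiniteMulSupport.max (FinitePlace.hasFiniteMulSupport h) hasFiniteMulSupport_fun_one

theorem key_height (d : Fin n → ℕ) (f : MvPolynomial (Fin n × Fin 3) K) (hf : MultiHom d f) :
    ∃ C : ℝ, 0 < C ∧ ∀ (u : Fin n → Fin 3 → K) (m : FinitePlace K → ℝ),
      Function.HasFiniteMulSupport m → (∀ v, 0 ≤ m v) → (∀ i, u i ≠ 0) →
      eval (fun p => u p.1 p.2) f ≠ 0 →
      (∀ v : FinitePlace K, v (eval (fun p => u p.1 p.2) f) ^ 2 * m v ≤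
        cf f v ^ 2 * ∏ i, (⨆ j, v (u i j)) ^ (2 * d i)) →
      ∏ᶠ v : FinitePlace K, m v ≤ C * ∏ i, mulHeight (u i) ^ (2 * d i) := by
  set Cw : InfinitePlace K → ℝ := fun w => (∑ m ∈ f.support, w (coeff m f)) + 1 with hCw
  have hCw1 : ∀ w, 1 ≤ Cw w := by
    intro w
    have : 0 ≤ ∑ m ∈ f.support, w (coeff m f) := Finset.sum_nonneg (fun _ _ => apply_nonneg _ _)
    simp only [hCw]
    linarith
  set Cf : ℝ := ∏ᶠ v : FinitePlace K, cf f v with hCf
  have hCf1 : 0 < Cf := finprod_induction (fun x : ℝ => 0 < x) one_pos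
    (fun _ _ h1 h2 => mul_pos h1 h2) (fun v => zero_lt_one.trans_le (one_le_cf f v))
  set Ci : ℝ := ∏ w : InfinitePlace K, Cw w ^ w.mult with hCi
  have hCi1 : 0 < Ci := Finset.prod_pos (fun w _ => pow_pos (zero_lt_one.trans_le (hCw1 w)) _)
  refine ⟨(Ci * Cf) ^ 2, by positivity, ?_⟩
  intro u m hm hm0 hu hN hloc
  set N : K := eval (fun p => u p.1 p.2) f with hNdef
  have hprod := prod_abs_eq_one hN
  set Ainf : ℝ := ∏ w : InfinitePlace K, w N ^ w.mult with hAinf
  set S : Fin n → FinitePlace K → ℝ := fun i v => ⨆ j, v (u i j) with hS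
  set T : Fin n → InfinitePlace K → ℝ := fun i w => ⨆ j, w (u i j) with hT
  have hSnn : ∀ i v, 0 ≤ S i v := fun i v => Real.iSup_nonneg (fun j => apply_nonneg _ _)
  have hTnn : ∀ i w, 0 ≤ T i w := fun i w => Real.iSup_nonneg (fun j => apply_nonneg _ _)
  have hNfin : (fun v : FinitePlace K => v N).HasFiniteMulSupport :=
    FinitePlace.hasFiniteMulSupport hN
  have hSfin : ∀ i, (S i).HasFiniteMulSupport := fun i => sup_fin (hu i)
  have hSpow : ∀ i, (fun v => S i v ^ (2 * d i)).HasFiniteMulSupport := fun i =>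
    (hSfin i).pow (2 * d i)
  have hN2 : (fun v : FinitePlace K => v N ^ 2).HasFiniteMulSupport := hNfin.pow 2
  have hc2 : (fun v : FinitePlace K => cf f v ^ 2).HasFiniteMulSupport := (cf_fin f).pow 2
  have hSprod : (fun v => ∏ i, S i v ^ (2 * d i)).HasFiniteMulSupport :=
    HasFiniteMulSupport.prod hSpow Finset.univ
  have e1 : ∏ᶠ v : FinitePlace K, m v =
      Ainf ^ 2 * ∏ᶠ v : FinitePlace K, (v N ^ 2 * m v) := by
    rw [finprod_mul_distrib hN2 hm, ← finprod_pow hNfin, ← mul_assoc, ← mul_pow, hprod]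
    ring
  have e2 : ∏ᶠ v : FinitePlace K, (v N ^ 2 * m v) ≤
      ∏ᶠ v : FinitePlace K, (cf f v ^ 2 * ∏ i, S i v ^ (2 * d i)) := by
    refine finprod_le_finprod (hN2.mul hm) (fun v => ?_) (hc2.mul hSprod) hloc
    exact mul_nonneg (sq_nonneg _) (hm0 v)
  have e3 : ∏ᶠ v : FinitePlace K, (cf f v ^ 2 * ∏ i, S i v ^ (2 * d i)) =
      Cf ^ 2 * ∏ i, (∏ᶠ v, S i v) ^ (2 * d i) := by
    rw [finprod_mul_distrib hc2 hSprod, ← finprod_pow (cf_fin f),
      finprod_prod_comm _ _ (fun i _ => hSpow i)]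
    congr 1
    exact Finset.prod_congr rfl (fun i _ => (finprod_pow (hSfin i) _).symm)
  have e4 : Ainf ≤ Ci * ∏ i, (∏ w : InfinitePlace K, T i w ^ w.mult) ^ d i := by
    have h1 : Ainf ≤ ∏ w : InfinitePlace K, (Cw w * ∏ i, T i w ^ d i) ^ w.mult := by
      refine Finset.prod_le_prod (fun w _ => pow_nonneg (apply_nonneg _ _) _) (fun w _ => ?_)
      refine pow_le_pow_left₀ (apply_nonneg _ _) ?_ _
      refine (hf.abv_eval_le w.val u).trans ?_
      refine mul_le_mul_of_nonneg_right ?_ (Finset.prod_nonneg (fun i _ => pow_nonneg (hTnn i w) _))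
      simp only [hCw]
      exact le_add_of_nonneg_right zero_le_one
    refine h1.trans (le_of_eq ?_)
    simp_rw [mul_pow]
    rw [Finset.prod_mul_distrib]
    congr 1
    simp_rw [← Finset.prod_pow]
    rw [Finset.prod_comm]
    refine Finset.prod_congr rfl (fun i _ => Finset.prod_congr rfl (fun w _ => ?_))
    rw [← pow_mul, ← pow_mul, mul_comm]
  have hAinf0 : 0 ≤ Ainf := Finset.prod_nonneg (fun w _ => pow_nonneg (apply_nonneg _ _) _)
  calc ∏ᶠ v : FinitePlace K, m v
      = Ainf ^ 2 * ∏ᶠ v : FinitePlace K, (v N ^ 2 * m v) := e1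
    _ ≤ (Ci * ∏ i, (∏ w : InfinitePlace K, T i w ^ w.mult) ^ d i) ^ 2 *
        (Cf ^ 2 * ∏ i, (∏ᶠ v, S i v) ^ (2 * d i)) := by
        rw [← e3]
        refine mul_le_mul (pow_le_pow_left₀ hAinf0 e4 2) e2 ?_ (sq_nonneg _)
        exact finprod_nonneg (fun v => mul_nonneg (sq_nonneg _) (hm0 v))
    _ = (Ci * Cf) ^ 2 * ∏ i, mulHeight (u i) ^ (2 * d i) := by
        have h5 : ∀ i, mulHeight (u i) =
            (∏ w : InfinitePlace K, T i w ^ w.mult) * ∏ᶠ v, S i v := fun i =>
          NumberField.mulHeight_eq (hu i)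
        simp_rw [h5, mul_pow]
        have h6 : (∏ i, (∏ w : InfinitePlace K, T i w ^ w.mult) ^ d i) ^ 2 =
            ∏ i, (∏ w : InfinitePlace K, T i w ^ w.mult) ^ (2 * d i) := by
          rw [← Finset.prod_pow]
          exact Finset.prod_congr rfl (fun i _ => by rw [← pow_mul, mul_comm])
        rw [Finset.prod_mul_distrib, h6]
        ring

end Pool.Agent.TH954
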