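import Pool.Agent.TH954.NB
import Pool.Agent.TH954.HtKey

/-!
# Rational points fall in finitely many classes near a finite place
-/

set_option autoImplicit false
set_option linter.unusedSectionVars false

open IsDedekindDomain NumberField WeierstrassCurve

namespace Pool.Agent.TH954

section map

variable {F L : Type} [Field F] [Field L] [Algebra F L]

lemma baseChange_a₄ (E : WeierstrassCurve F) : (E.baseChange L).a₄ = algebraMap F L E.a₄ := rfl

lemma baseChange_a₆ (E : WeierstrassCurve F) : (E.baseChange L).a₆ = algebraMap F L E.a₆ := rfl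

lemma short_baseChange {E : WeierstrassCurve F} (hE : Short E) : Short (E.baseChange L) where
  h1 := by change algebraMap F L E.a₁ = 0; rw [hE.h1, map_zero]
  h2 := by change algebraMap F L E.a₂ = 0; rw [hE.h2, map_zero]
  h3 := by change algebraMap F L E.a₃ = 0; rw [hE.h3, map_zero]

variable [DecidableEq F] [DecidableEq L]

/-- the points over a field extension -/
noncomputable def locHom (E : WeierstrassCurve F) :
    E.toAffine.Point →+ (E.baseChange L).toAffine.Point :=
  Affine.Point.map (W' := E) (Algebra.ofId F L)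

lemma locHom_some (E : WeierstrassCurve F) {x y : F} (h : E.toAffine.Nonsingular x y) :
    ∃ h', locHom (L := L) E (.some x y h) =
      .some (algebraMap F L x) (algebraMap F L y) h' := ⟨_, rfl⟩

end map

variable {K : Type} [Field K] [NumberField K]

lemma norm_alg (v : HeightOneSpectrum (𝓞 K)) (x : K) :
    ‖algebraMap K (v.adicCompletion K) x‖ = FinitePlace.mk v x := rfl

lemma norm_lt_of_val_lt (v : HeightOneSpectrum (𝓞 K)) {x y : K}
    (h : v.valuation K x < v.valuation K y) :
    ‖algebraMap K (v.adicCompletion K) x‖ < ‖algebraMap K (v.adicCompletion K) y‖ := by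
  have h1 := FinitePlace.norm_embedding' v x
  have h2 := FinitePlace.norm_embedding' v y
  change ‖FinitePlace.embedding v x‖ < ‖FinitePlace.embedding v y‖
  rw [h1, h2]
  exact_mod_cast WithZeroMulInt.toNNReal_strictMono (HeightOneSpectrum.one_lt_absNorm_nnreal v) h

lemma val_le_one_of_norm (v : HeightOneSpectrum (𝓞 K)) {x : K}
    (h : ‖algebraMap K (v.adicCompletion K) x‖ ≤ 1) : v.valuation K x ≤ 1 := by
  by_contra hc
  rw [not_le] at hc
  have h1 : v.valuation K 1 < v.valuation K x := by rwa [map_one]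
  have h2 := norm_lt_of_val_lt v h1
  rw [map_one, norm_one] at h2
  exact absurd h (not_le.mpr h2)

/-- the elements of `K` integral at `v` fall in finitely many classes of small diameter. -/
lemma finite_classes (v : HeightOneSpectrum (𝓞 K)) {d : ℝ} (hd : 0 < d) :
    ∃ (F : Type) (_ : Finite F) (cl : K → F), ∀ k k' : K,
      ‖algebraMap K (v.adicCompletion K) k‖ ≤ 1 → ‖algebraMap K (v.adicCompletion K) k'‖ ≤ 1 →
      cl k = cl k' → ‖algebraMap K (v.adicCompletion K) (k - k')‖ < d := by
  classical
  obtain ⟨π, hπ, hπ0⟩ := Submodule.exists_mem_ne_zero_of_ne_bot v.ne_bot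
  have hπlt : ‖algebraMap K (v.adicCompletion K) (algebraMap (𝓞 K) K π)‖ < 1 :=
    (FinitePlace.norm_lt_one_iff_mem K v π).mpr hπ
  obtain ⟨s, hs⟩ := exists_pow_lt_of_lt_one hd hπlt
  have hπK : algebraMap (𝓞 K) K π ≠ 0 := by
    intro h0
    apply hπ0
    exact (FaithfulSMul.algebraMap_injective (𝓞 K) K) (by rw [h0, map_zero])
  set I : Ideal (𝓞 K) := Ideal.span {π ^ s} with hI
  have hIne : I ≠ ⊥ := by
    rw [hI, Ne, Ideal.span_singleton_eq_bot]
    exact pow_ne_zero _ hπ0
  have hfin : Finite (𝓞 K ⧸ I) := Ideal.finiteQuotientOfFreeOfNeBot I hIne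
  have hval : v.valuation K ((algebraMap (𝓞 K) K π) ^ s) ≠ 0 := by
    rw [(v.valuation K).ne_zero_iff]
    exact pow_ne_zero _ hπK
  have hchoose : ∀ k : K, ∃ r : 𝓞 K, ‖algebraMap K (v.adicCompletion K) k‖ ≤ 1 →
      ‖algebraMap K (v.adicCompletion K) (algebraMap (𝓞 K) K r - k)‖ < d := by
    intro k
    by_cases hk : ‖algebraMap K (v.adicCompletion K) k‖ ≤ 1
    · obtain ⟨r, hr⟩ := v.exists_valuation_sub_lt_of_integer (val_le_one_of_norm v hk)
        (Units.mk0 _ hval)
      refine ⟨r, fun _ => ?_⟩
      have h1 := norm_lt_of_val_lt v hr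
      rw [map_pow, norm_pow] at h1
      exact h1.trans hs
    · exact ⟨0, fun h => absurd h hk⟩
  choose r hr using hchoose
  refine ⟨𝓞 K ⧸ I, hfin, fun k => Ideal.Quotient.mk I (r k), ?_⟩
  intro k k' hk hk' hcl
  have h1 := hr k hk
  have h2 := hr k' hk'
  have h3 : r k - r k' ∈ I := by
    rw [← Ideal.Quotient.mk_eq_mk_iff_sub_mem]
    exact hcl
  rw [hI, Ideal.mem_span_singleton] at h3
  obtain ⟨z, hz⟩ := h3
  have h4 : ‖algebraMap K (v.adicCompletion K) (algebraMap (𝓞 K) K (r k - r k'))‖ < d := by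
    rw [hz, map_mul, map_mul, norm_mul, map_pow, map_pow, norm_pow]
    refine lt_of_le_of_lt ?_ hs
    have h5 : ‖algebraMap K (v.adicCompletion K) (algebraMap (𝓞 K) K z)‖ ≤ 1 :=
      FinitePlace.norm_le_one K v z
    exact mul_le_of_le_one_right (pow_nonneg (norm_nonneg _) _) h5
  have h6 : algebraMap K (v.adicCompletion K) (k - k') =
      algebraMap K (v.adicCompletion K) (algebraMap (𝓞 K) K (r k - r k')) -
      algebraMap K (v.adicCompletion K) (algebraMap (𝓞 K) K (r k) - k) +
      algebraMap K (v.adicCompletion K) (algebraMap (𝓞 K) K (r k') - k') := by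
    rw [← map_sub, ← map_add]
    congr 1
    rw [map_sub]
    ring
  rw [h6]
  exact uadd_lt (usub_lt h4 h1) h2

section pts

open scoped Classical in
/-- normalised coordinates of a rational point -/
lemma nc_rat [DecidableEq K] (E : WeierstrassCurve K) (v : HeightOneSpectrum (𝓞 K))
    [DecidableEq (v.adicCompletion K)]
    (Q : E.toAffine.Point) : ∃ k : Fin 3 → K, ∀ j,
      nc (locHom (L := v.adicCompletion K) E Q) j = algebraMap K (v.adicCompletion K) (k j) := by
  match Q with
  | .zero =>
    refine ⟨![0, 1, 0], fun j => ?_⟩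
    have : locHom (L := v.adicCompletion K) E (Affine.Point.zero) = 0 := map_zero _
    rw [this, nc_zero]
    fin_cases j <;> simp
  | .some x y h =>
    obtain ⟨h', e⟩ := locHom_some (L := v.adicCompletion K) E h
    rw [e]
    by_cases hx : ‖algebraMap K (v.adicCompletion K) x‖ ≤ 1
    · refine ⟨![x, y, 1], fun j => ?_⟩
      rw [nc_int hx]
      fin_cases j <;> simp
    · refine ⟨![x / y, 1, 1 / y], fun j => ?_⟩
      rw [nc_non (not_le.mp hx)]
      fin_cases j <;> simp

end pts

variable {E : WeierstrassCurve K}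

lemma char_ne (v : HeightOneSpectrum (𝓞 K)) {m : K} (hm : m ≠ 0) :
    algebraMap K (v.adicCompletion K) m ≠ 0 := by
  intro h
  apply hm
  exact (algebraMap K (v.adicCompletion K)).injective (by rw [h, map_zero])

lemma two_ne (v : HeightOneSpectrum (𝓞 K)) : (2 : v.adicCompletion K) ≠ 0 := by
  have := char_ne v (two_ne_zero (α := K))
  rwa [map_ofNat] at this

/-- short equation with integral coefficients -/
structure ShortInt (E : WeierstrassCurve K) : Prop extends Short E where
  ia : IsIntegral ℤ E.a₄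
  ib : IsIntegral ℤ E.a₆
  disc : 4 * E.a₄ ^ 3 + 27 * E.a₆ ^ 2 ≠ 0

lemma norm_le_of_int (v : HeightOneSpectrum (𝓞 K)) {x : K} (hx : IsIntegral ℤ x) :
    ‖algebraMap K (v.adicCompletion K) x‖ ≤ 1 := by
  exact FinitePlace.norm_le_one K v (⟨x, hx⟩ : 𝓞 K)

lemma ShortInt.si (hE : ShortInt E) (v : HeightOneSpectrum (𝓞 K)) :
    SI (E.baseChange (v.adicCompletion K)) where
  toShort := short_baseChange hE.toShort
  ha := norm_le_of_int v hE.ia
  hb := norm_le_of_int v hE.ib

lemma ShortInt.disc_loc (hE : ShortInt E) (v : HeightOneSpectrum (𝓞 K)) :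
    4 * (E.baseChange (v.adicCompletion K)).a₄ ^ 3 +
      27 * (E.baseChange (v.adicCompletion K)).a₆ ^ 2 ≠ 0 := by
  have := char_ne v hE.disc
  rw [map_add, map_mul, map_mul, map_pow, map_pow, map_ofNat, map_ofNat] at this
  exact this

lemma nc_le_one {L : Type} [NormedField L] [IsUltrametricDist L] [DecidableEq L]
    {W : WeierstrassCurve L} (hW : SI W) (T : W.toAffine.Point) (j : Fin 3) : ‖nc T j‖ ≤ 1 := by
  match T with
  | .zero => fin_cases j <;> simp [nc]
  | .some x y h =>
    by_cases hx : ‖x‖ ≤ 1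
    · rw [nc_int hx]
      have hy := hW.norm_y_le_one h hx
      fin_cases j
      · exact hx
      · exact hy
      · simp
    · rw [not_le] at hx
      have hz := hW.norm_z h hx
      have hw := (hW.norm_w_lt h hx).le
      rw [nc_non hx]
      fin_cases j
      · change ‖x / y‖ ≤ 1
        by_contra hc
        rw [not_le] at hc
        have : 1 ≤ ‖x / y‖ ^ 2 := one_le_pow₀ hc.le
        nlinarith
      · simp
      · exact hw

variable [DecidableEq K]

open scoped Classical in
/-- every point has a multiple near the origin -/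
theorem exists_mult (hE : ShortInt E) (v : HeightOneSpectrum (𝓞 K)) {R : ℝ} (hR : 1 < R)
    (P : E.toAffine.Point) : ∃ N : ℕ, 0 < N ∧
      Big R (locHom (L := v.adicCompletion K) E (N • P)) := by
  obtain ⟨d, hd0, -, hd⟩ := (hE.si v).exists_near (two_ne v) (hE.disc_loc v) hR
  obtain ⟨F, hF, cl, hcl⟩ := finite_classes v hd0
  have hk := fun m : ℕ => nc_rat E v (m • P)
  choose k hk using hk
  obtain ⟨m, m', hne, he⟩ := Finite.exists_ne_map_eq_of_infinite
    (fun m : ℕ => fun j : Fin 3 => cl (k m j))
  have hsmall : ∀ m m' : ℕ, (fun j : Fin 3 => cl (k m j)) = (fun j : Fin 3 => cl (k m' j)) →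
      m' < m → ∃ N : ℕ, 0 < N ∧ Big R (locHom (L := v.adicCompletion K) E (N • P)) := by
    intro m m' he hlt
    refine ⟨m - m', by omega, ?_⟩
    have h1 : (m - m') • P = m • P - m' • P := by
      rw [sub_nsmul P hlt.le, sub_eq_add_neg]
    rw [h1, map_sub]
    apply hd
    intro j
    rw [hk m j, hk m' j, ← map_sub]
    refine hcl _ _ ?_ ?_ (congrFun he j)
    · rw [← hk m j]; exact nc_le_one (hE.si v) _ j
    · rw [← hk m' j]; exact nc_le_one (hE.si v) _ j
  rcases lt_or_gt_of_ne hne with h | h
  · exact hsmall m' m he.symm h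
  · exact hsmall m m' he h

end Pool.Agent.TH954
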