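import Pool.Agent.TH954.CM

/-!
# A version of the main theorem for one rational point near the local points of the subvariety

The neighbourhoods needed depend on the subvariety only.
-/

set_option autoImplicit false
set_option linter.unusedSectionVars false

open IsDedekindDomain NumberField WeierstrassCurve MvPolynomial Height Function

namespace Pool.Agent.TH954

open Pool.Agent.TH942

variable {K : Type} [Field K] [NumberField K] [DecidableEq K]

open scoped Classical in
/-- local estimate at all finite places -/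
lemma all_places_fin {a b : K} (hE : ShortInt (sw a b)) {n : ℕ} {d : Fin n → ℕ}
    {f : MvPolynomial (Fin n × Fin 3) K} (hf : MultiHom d f)
    (G : Finset (FinitePlace K))
    (x : ∀ v : HeightOneSpectrum (𝓞 K),
      Fin n → ((sw a b).baseChange (v.adicCompletion K)).toAffine.Point)
    (Q : Fin n → SPt a b) (X : K)
    (hx : ∀ v, FinitePlace.mk v ∉ G → 1 < ‖algebraMap K (v.adicCompletion K) X‖ →
      eval (fun p => crd (x v p.1) p.2)
      (map (algebraMap K (v.adicCompletion K)) f) = 0)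
    (hQ : ∀ v : HeightOneSpectrum (𝓞 K), FinitePlace.mk v ∉ G →
      1 < ‖algebraMap K (v.adicCompletion K) X‖ →
      ∀ i, Big ‖algebraMap K (v.adicCompletion K) X‖ (x v i - locHom (sw a b) (Q i)))
    (w : FinitePlace K) :
    w (eval (fun p => crd (Q p.1) p.2) f) ^ 2 * (if w ∈ G then 1 else max (w X) 1) ≤
      cf f w ^ 2 * ∏ i, (⨆ j, w (crd (Q i) j)) ^ (2 * d i) := by
  obtain ⟨v, rfl⟩ : ∃ v : HeightOneSpectrum (𝓞 K), w = FinitePlace.mk v :=
    ⟨w.maximalIdeal, (FinitePlace.mk_maximalIdeal w).symm⟩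
  have hfv : MultiHom d (map (algebraMap K (v.adicCompletion K)) f) := by
    intro m hm i
    exact hf m (support_map_subset _ _ hm) i
  have hc : ∀ m, ‖coeff m (map (algebraMap K (v.adicCompletion K)) f)‖ ≤
      cf f (FinitePlace.mk v) := by
    intro m
    rw [coeff_map]
    exact coeff_le_cf f (FinitePlace.mk v) m
  have hc0 : 0 ≤ cf f (FinitePlace.mk v) := zero_le_one.trans (one_le_cf _ _)
  have e1 : ‖eval (fun p => crd (locHom (L := v.adicCompletion K) (sw a b) (Q p.1)) p.2)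
      (map (algebraMap K (v.adicCompletion K)) f)‖ =
      FinitePlace.mk v (eval (fun p => crd (Q p.1) p.2) f) := by
    rw [eval_loc]
    rfl
  have e2 : ∀ i j, ‖crd (locHom (L := v.adicCompletion K) (sw a b) (Q i)) j‖ =
      FinitePlace.mk v (crd (Q i) j) := by
    intro i j
    rw [crd_loc]
    rfl
  by_cases hX : FinitePlace.mk v ∉ G ∧ 1 < ‖algebraMap K (v.adicCompletion K) X‖
  · have h1 := form_bound (hE.si v) (two_ne v) hfv hc0 hc (x v)
      (fun i => locHom (sw a b) (Q i)) (hx v hX.1 hX.2) hX.2 (hQ v hX.1 hX.2)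
    simp only [e1, e2] at h1
    have hX' : (if FinitePlace.mk v ∈ G then 1 else max (FinitePlace.mk v X) 1) =
        ‖algebraMap K (v.adicCompletion K) X‖ := by
      rw [if_neg hX.1]
      exact max_eq_left hX.2.le
    rw [hX']
    exact h1
  · have h1 := form_bound' (hE.si v) hfv hc0 hc (fun i => locHom (sw a b) (Q i))
    simp only [e1, e2] at h1
    have hX' : (if FinitePlace.mk v ∈ G then 1 else max (FinitePlace.mk v X) 1) = 1 := by
      split_ifs with hv
      · rfl
      · have h3 : ¬ 1 < ‖algebraMap K (v.adicCompletion K) X‖ := fun h => hX ⟨hv, h⟩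
        exact max_eq_right (not_lt.mp h3)
    rw [hX', mul_one]
    exact h1

open scoped Classical in
/-- The main theorem for one rational point. -/
theorem core_fin {a b : K} (hE : ShortInt (sw a b)) {P : SPt a b} (hP : ¬ IsOfFinAddOrder P)
    {s : ℕ} (Pj : Fin s → SPt a b) (N0 : ℕ) (hN0 : 1 ≤ N0)
    (Γ : AddSubgroup (SPt a b)) (hPj : ∀ j, Pj j ∈ Γ)
    (hgen : ∀ Q ∈ Γ, ∃ m : Fin s → ℤ, IsOfFinAddOrder (Q - ∑ j, m j • Pj j))
    (G1 : Finset (HeightOneSpectrum (𝓞 K)))
    (hdom : ∀ v ∉ G1, ∀ R : ℝ, 1 < R → ∀ (k : ℕ) (j : Fin s),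
      Big R (locHom (L := v.adicCompletion K) (sw a b) (k • P)) →
      Big R (locHom (L := v.adicCompletion K) (sw a b) ((N0 * k) • Pj j)))
    {n : ℕ} (S : Finset (MvPolynomial (Fin n × Fin 3) K)) (hS : ∀ f ∈ S, ∃ d, MultiHom d f)
    (NN : ℕ) (hNN : 1 ≤ NN)
    (T : Finset (HeightOneSpectrum (𝓞 K))) (R : ℝ) (hR : 1 < R) :
    ∃ (V : Finset (HeightOneSpectrum (𝓞 K))) (R' : ℝ), T ⊆ V ∧ (∀ v ∈ V, v ∈ T ∨ v ∉ G1) ∧
      R ≤ R' ∧ ∀ (x : ∀ v : HeightOneSpectrum (𝓞 K),
        Fin n → ((sw a b).baseChange (v.adicCompletion K)).toAffine.Point)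
        (y : Fin n → SPt a b), (∀ i, y i ∈ Γ) →
        (∀ v ∈ V, ∀ f ∈ S, eval (fun p => crd (x v p.1) p.2)
          (map (algebraMap K (v.adicCompletion K)) f) = 0) →
        (∀ v ∈ V, ∀ i, Big R' (x v i - locHom (sw a b) (y i))) →
        ∃ Q : Fin n → SPt a b, (∀ i, Q i ∈ Γ) ∧
          (∀ f ∈ S, eval (fun p => crd (Q p.1) p.2) f = 0) ∧
          (∀ v ∈ T, ∀ i, Big R (x v i - locHom (sw a b) (Q i))) ∧
          ∀ i, ∃ z ∈ Γ, y i - Q i = NN • z := by
  have hD : 4 * a ^ 3 + 27 * b ^ 2 ≠ 0 := hE.disc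
  obtain ⟨q, C1, hC1, q1, q2, q3⟩ := canonical hD
  have qP : 0 < q P := q_pos q1 q2 q3 hP
  obtain ⟨C2, hC2, hcrd⟩ := ht_crd a b
  choose! d hd using hS
  have hkey := fun f (hf : f ∈ S) => key_height (d f) f (hd f hf)
  choose! Cf hCf0 hCf using hkey
  set D : ℕ := ∑ f ∈ S, ∑ i, d f i with hDdef
  set κ : ℝ := 2 ^ s * N0 ^ 2 * (∑ j, q (Pj j)) / q P with hκ
  have hκ0 : 0 ≤ κ := by
    have : 0 ≤ ∑ j, q (Pj j) := Finset.sum_nonneg (fun j _ => q2 _)
    positivity
  set M : ℕ := ⌈12 * D * κ⌉₊ + 1 with hM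
  have hM0 : 0 < M := Nat.succ_pos _
  set J : ℕ := M ^ Fintype.card (Fin n × Fin s) with hJ
  set L : ℕ := J.factorial with hL
  have hL1 : 1 ≤ L := Nat.factorial_pos _
  -- the places which are not used
  set G : Finset (FinitePlace K) := G1.image FinitePlace.mk with hGdef
  have hGmem : ∀ v : HeightOneSpectrum (𝓞 K), FinitePlace.mk v ∈ G ↔ v ∈ G1 := by
    intro v
    rw [hGdef, Finset.mem_image]
    constructor
    · rintro ⟨w, hw, e⟩
      rw [FinitePlace.mk_eq_iff] at e
      rwa [← e]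
    · intro hv
      exact ⟨v, hv, rfl⟩
  set W : ℕ := ∑ v : InfinitePlace K, v.mult + G.card with hWdef
  have hW1 : 1 ≤ W := by
    have e1 : 0 < ∑ v : InfinitePlace K, v.mult :=
      Finset.sum_pos (fun v _ => InfinitePlace.mult_pos) Finset.univ_nonempty
    omega
  let vs : InfinitePlace K ⊕ G → AbsoluteValue K ℝ :=
    Sum.elim (fun v => v.val) (fun v => v.val.val)
  have hvs : ∀ k x, vs k x ≤ mulHeight₁ x := by
    rintro (v | v) x
    · exact infinitePlace_le_mulHeight₁ v x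
    · exact finitePlace_le_mulHeight₁ v.val x
  obtain ⟨r, Rf, Ca, hCa, hRf1, harch⟩ := arch_key q1 q2 q3 vs hvs L W hL1 hW1
  have hmult := fun (v : HeightOneSpectrum (𝓞 K)) (j : Fin s) => exists_mult hE v hR (Pj j)
  choose N hNp hN using hmult
  set NT : ℕ := ∏ v ∈ T, ∏ j, N v j with hNT
  have hNT0 : 0 < NT := Finset.prod_pos (fun v _ => Finset.prod_pos (fun j _ => hNp v j))
  have hNTbig : ∀ v ∈ T, ∀ j, Big R (locHom (L := v.adicCompletion K) (sw a b) (NT • Pj j)) := by
    intro v hv j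
    have h1 : NT • Pj j =
        ((∏ w ∈ T.erase v, ∏ j, N w j) * ∏ i ∈ Finset.univ.erase j, N v i) • (N v j • Pj j) := by
      rw [smul_smul, hNT, ← Finset.mul_prod_erase T _ hv,
        ← Finset.mul_prod_erase Finset.univ _ (Finset.mem_univ j)]
      congr 1
      ring
    rw [h1, map_nsmul]
    exact (hE.si v).big_nsmul (two_ne v) hR (hN v j) _
  set Tot : ℝ := C1 + W * |Real.log Ca| + ∑ f ∈ S, |Real.log (Cf f)| + D * (3 * C1 + 2 * C2)
    with hTot
  set K1 : ℕ := ⌈4 * Tot / q P⌉₊ + 1 with hK1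
  set K0 : ℕ := NT * K1 * NN with hK0
  have hK0pos : 0 < K0 := Nat.mul_pos (Nat.mul_pos hNT0 (Nat.succ_pos _)) hNN
  set w : SPt a b := K0 • P with hw
  have hwtors : ¬ IsOfFinAddOrder w := by
    intro h
    apply hP
    rw [isOfFinAddOrder_iff_nsmul_eq_zero] at h ⊢
    obtain ⟨m, hm, hm'⟩ := h
    refine ⟨m * K0, Nat.mul_pos hm hK0pos, ?_⟩
    rw [← smul_smul]
    exact hm'
  -- the candidates
  let Z : Fin r → ℕ → SPt a b := fun i g => (Rf i * g) • w
  have hVfin : (⋃ i : Fin r, ⋃ g ∈ Finset.range (L + 1),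
      {v : HeightOneSpectrum (𝓞 K) | ∃ (x y : K) (h : (sw a b).toAffine.Nonsingular x y),
      Z i g = Affine.Point.some x y h ∧ 1 < ‖algebraMap K (v.adicCompletion K) x‖}).Finite := by
    refine Set.finite_iUnion (fun i => ?_)
    exact Set.Finite.biUnion (Finset.finite_toSet _) (fun g _ => bad_finite (Z i g))
  set V : Finset (HeightOneSpectrum (𝓞 K)) := T ∪ (hVfin.toFinset.filter (fun v => v ∉ G1)) with hV
  have hV0 : ∀ v ∈ V, v ∈ T ∨ v ∉ G1 := by
    intro v hv
    rw [hV, Finset.mem_union] at hv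
    rcases hv with hv | hv
    · exact Or.inl hv
    · exact Or.inr (Finset.mem_filter.mp hv).2
  set R' : ℝ := R + ∑ i : Fin r, ∑ g ∈ Finset.range (L + 1), Real.exp (sht (Z i g)) with hR'
  have hRR' : R ≤ R' := by
    rw [hR']
    refine le_add_of_nonneg_right ?_
    exact Finset.sum_nonneg (fun i _ => Finset.sum_nonneg (fun g _ => (Real.exp_pos _).le))
  have hZR' : ∀ i g, g ≤ L → Real.exp (sht (Z i g)) ≤ R' := by
    intro i g hg
    have e1 : Real.exp (sht (Z i g)) ≤ ∑ g ∈ Finset.range (L + 1), Real.exp (sht (Z i g)) :=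
      Finset.single_le_sum (f := fun g => Real.exp (sht (Z i g)))
        (fun _ _ => (Real.exp_pos _).le) (Finset.mem_range.mpr (Nat.lt_succ_of_le hg))
    have e2 : ∑ g ∈ Finset.range (L + 1), Real.exp (sht (Z i g)) ≤
        ∑ i : Fin r, ∑ g ∈ Finset.range (L + 1), Real.exp (sht (Z i g)) :=
      Finset.single_le_sum (f := fun i => ∑ g ∈ Finset.range (L + 1), Real.exp (sht (Z i g)))
        (fun i _ => Finset.sum_nonneg (fun g _ => (Real.exp_pos _).le)) (Finset.mem_univ i)
    rw [hR']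
    linarith
  refine ⟨V, R', Finset.subset_union_left, hV0, hRR', ?_⟩
  intro x y hyΓ hxS hy
  choose α hα using fun i => hgen (y i) (hyΓ i)
  have hdir := fun ι : Fin r => dirichlet (ι := Fin n × Fin s) M hM0 (fun p => α p.1 p.2)
    (N0 * (K0 * L * Rf ι))
    (Nat.mul_pos hN0 (Nat.mul_pos (Nat.mul_pos hK0pos hL1) (hRf1 ι)))
  choose j hj1 hj2 c hc using hdir
  have hjL : ∀ ι, j ι ∣ L := fun ι => Nat.dvd_factorial (hj1 ι) (hj2 ι)
  have hgj : ∀ ι, L / j ι * j ι = L := fun ι => Nat.div_mul_cancel (hjL ι)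
  have hg : ∀ ι, 1 ≤ L / j ι ∧ L / j ι ≤ L := by
    intro ι
    constructor
    · exact Nat.div_pos (Nat.le_of_dvd hL1 (hjL ι)) (hj1 ι)
    · exact Nat.div_le_self _ _
  obtain ⟨ι, X, Y, hXY, hZ, hA⟩ := harch w hwtors (fun ι => L / j ι) hg
  set g : ℕ := L / j ι with hgdef
  set k : ℕ := Rf ι * g * K0 with hk
  have hZk : (Rf ι * g) • w = k • P := by
    rw [hw, smul_smul]
  have hkj : k * j ι = K0 * L * Rf ι := by
    rw [hk, ← hgj ι]
    ring
  -- the rational point
  set Q : Fin n → SPt a b := fun i => y i - ∑ l, c ι (i, l) • ((N0 * k) • Pj l) with hQ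
  set m : Fin n → Fin s → ℤ := fun i l => α i l - c ι (i, l) * ((N0 * k : ℕ) : ℤ) with hm
  have hmk : ∀ i l, (M : ℤ) * |m i l| ≤ ((N0 * k : ℕ) : ℤ) := by
    intro i l
    have e1 := hc ι (i, l)
    have hj0 : (0 : ℤ) < j ι := by exact_mod_cast hj1 ι
    have e0 : N0 * (K0 * L * Rf ι) = (N0 * k) * j ι := by
      rw [← hkj]
      ring
    have e2 : (j ι : ℤ) * α i l - c ι (i, l) * ((N0 * (K0 * L * Rf ι) : ℕ) : ℤ) =
        j ι * m i l := by
      rw [e0]
      simp only [hm]
      push_cast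
      ring
    have e1' : (M : ℤ) * |(j ι : ℤ) * α i l - c ι (i, l) * ((N0 * (K0 * L * Rf ι) : ℕ) : ℤ)| <
        ((N0 * (K0 * L * Rf ι) : ℕ) : ℤ) := e1
    rw [e2, abs_mul, abs_of_pos hj0, e0] at e1'
    have e3 : (M : ℤ) * |m i l| * j ι < ((N0 * k : ℕ) : ℤ) * j ι := by
      calc (M : ℤ) * |m i l| * j ι = M * (j ι * |m i l|) := by ring
        _ < ((N0 * k * j ι : ℕ) : ℤ) := e1'
        _ = ((N0 * k : ℕ) : ℤ) * j ι := by push_cast; ring
    exact (lt_of_mul_lt_mul_right e3 hj0.le).le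
  have hQΓ : ∀ i, Q i ∈ Γ := by
    intro i
    exact Γ.sub_mem (hyΓ i) (Γ.sum_mem (fun l _ => Γ.zsmul_mem (Γ.nsmul_mem (hPj l) _) _))
  have hQq : ∀ i, q (Q i) = q (∑ l, m i l • Pj l) := by
    intro i
    have e1 : Q i = ∑ l, m i l • Pj l + (y i - ∑ l, α i l • Pj l) := by
      have e0 : ∀ l, c ι (i, l) • ((N0 * k) • Pj l) =
          (c ι (i, l) * ((N0 * k : ℕ) : ℤ)) • Pj l := by
        intro l
        rw [← natCast_zsmul (Pj l) (N0 * k), smul_smul]
      simp only [hQ, hm]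
      simp_rw [e0, sub_smul]
      rw [Finset.sum_sub_distrib]
      abel
    rw [e1, q_add_tors q3 (hα i)]
  have hTq : q ((Rf ι * g) • w) = (k : ℝ) ^ 2 * q P := by
    rw [hZk, q_nsmul q3]
  set A : ℝ := (k : ℝ) ^ 2 * q P with hAdef
  have hQA : ∀ i, (M : ℝ) ^ 2 * q (Q i) ≤ κ * A := by
    intro i
    have e1 : ∀ l, (M : ℝ) ^ 2 * q (m i l • Pj l) ≤ ((N0 : ℝ) * k) ^ 2 * q (Pj l) := by
      intro l
      have e2 : (M : ℝ) * |(m i l : ℝ)| ≤ (N0 : ℝ) * k := by exact_mod_cast hmk i l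
      have e3 : ((M : ℝ) * |(m i l : ℝ)|) ^ 2 ≤ ((N0 : ℝ) * k) ^ 2 :=
        pow_le_pow_left₀ (by positivity) e2 2
      rw [mul_pow, sq_abs] at e3
      rw [q_zsmul q3, ← mul_assoc]
      exact mul_le_mul_of_nonneg_right e3 (q2 _)
    have e4 := q_sum_le q3 q2 Finset.univ (fun l => m i l • Pj l)
    rw [Finset.card_univ, Fintype.card_fin] at e4
    rw [hQq]
    calc (M : ℝ) ^ 2 * q (∑ l, m i l • Pj l)
        ≤ (M : ℝ) ^ 2 * (2 ^ s * ∑ l, q (m i l • Pj l)) :=
          mul_le_mul_of_nonneg_left e4 (sq_nonneg _)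
      _ = 2 ^ s * ∑ l, (M : ℝ) ^ 2 * q (m i l • Pj l) := by
          rw [← Finset.mul_sum]
          ring
      _ ≤ 2 ^ s * ∑ l, ((N0 : ℝ) * k) ^ 2 * q (Pj l) :=
          mul_le_mul_of_nonneg_left (Finset.sum_le_sum (fun l _ => e1 l)) (by positivity)
      _ = κ * A := by
          rw [← Finset.mul_sum, hκ, hAdef]
          field_simp
  have hXR' : ∀ v : HeightOneSpectrum (𝓞 K), ‖algebraMap K (v.adicCompletion K) X‖ ≤ R' := by
    intro v
    have e1 : ‖algebraMap K (v.adicCompletion K) X‖ ≤ mulHeight₁ X :=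
      finitePlace_le_mulHeight₁ (FinitePlace.mk v) X
    refine e1.trans ?_
    have e2 := hZR' ι g (hg ι).2
    have e3 : Z ι g = Affine.Point.some X Y hXY := hZ
    rw [e3, exp_sht] at e2
    exact e2
  have hsplit : ∀ v i, x v i - locHom (L := v.adicCompletion K) (sw a b) (Q i) =
      (x v i - locHom (sw a b) (y i)) +
        ∑ l, c ι (i, l) • locHom (L := v.adicCompletion K) (sw a b) ((N0 * k) • Pj l) := by
    intro v i
    simp only [hQ]
    rw [map_sub, map_sum]
    simp_rw [map_zsmul]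
    abel
  have hbigsum : ∀ (v : HeightOneSpectrum (𝓞 K)) (R : ℝ), 1 < R → ∀ i,
      (∀ l, Big R (locHom (L := v.adicCompletion K) (sw a b) ((N0 * k) • Pj l))) →
      Big R (∑ l, c ι (i, l) • locHom (L := v.adicCompletion K) (sw a b) ((N0 * k) • Pj l)) := by
    intro v R hR i h
    refine Finset.sum_induction _ (fun t => Big R t)
      (fun _ _ h1 h2 => (hE.si v).big_add (two_ne v) hR h1 h2) (big_zero R) (fun l _ => ?_)
    exact (hE.si v).big_zsmul (two_ne v) hR (h l) _
  have hXV : ∀ v : HeightOneSpectrum (𝓞 K), FinitePlace.mk v ∉ G →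
      1 < ‖algebraMap K (v.adicCompletion K) X‖ → v ∈ V := by
    intro v hvG hv
    rw [hGmem] at hvG
    rw [hV, Finset.mem_union]
    right
    rw [Finset.mem_filter, Set.Finite.mem_toFinset, Set.mem_iUnion]
    refine ⟨⟨ι, ?_⟩, hvG⟩
    rw [Set.mem_iUnion₂]
    exact ⟨g, Finset.mem_range.mpr (Nat.lt_succ_of_le (hg ι).2), X, Y, hXY, hZ, hv⟩
  have hQbig : ∀ v : HeightOneSpectrum (𝓞 K), FinitePlace.mk v ∉ G →
      1 < ‖algebraMap K (v.adicCompletion K) X‖ →
      ∀ i, Big ‖algebraMap K (v.adicCompletion K) X‖ (x v i - locHom (sw a b) (Q i)) := by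
    intro v hvG hv i
    have e1 : v ∈ V := hXV v hvG hv
    rw [hGmem] at hvG
    have e2 := big_mono (hXR' v) (hy v e1 i)
    rw [hsplit]
    refine (hE.si v).big_add (two_ne v) hv e2 (hbigsum v _ hv i (fun l => ?_))
    refine hdom v hvG _ hv k l ?_
    rw [← hZk, hZ]
    obtain ⟨h', e4⟩ := locHom_some (L := v.adicCompletion K) (sw a b) hXY
    rw [e4, big_some]
  refine ⟨Q, hQΓ, ?_, ?_, ?_⟩
  · intro f hf
    by_contra hne
    set mm : FinitePlace K → ℝ := fun w => if w ∈ G then 1 else max (w X) 1 with hmm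
    have hmmfin : Function.HasFiniteMulSupport mm := by
      refine (max_fin X).subset ?_
      intro w hw
      by_contra hc
      apply hw
      have : max (w X) 1 = 1 := by
        by_contra h
        exact hc h
      change (if w ∈ G then 1 else max (w X) 1) = 1
      rw [this]
      simp
    have hmm0 : ∀ w, 0 ≤ mm w := by
      intro w
      simp only [hmm]
      split_ifs <;> positivity
    have hxG : ∀ v : HeightOneSpectrum (𝓞 K), FinitePlace.mk v ∉ G →
        1 < ‖algebraMap K (v.adicCompletion K) X‖ →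
        eval (fun p => crd (x v p.1) p.2) (map (algebraMap K (v.adicCompletion K)) f) = 0 := by
      intro v hv hv1
      exact hxS v (hXV v hv hv1) f hf
    have h1 := hCf f hf (fun i => crd (Q i)) mm hmmfin hmm0 (fun i => crd_ne_zero _) hne
      (all_places_fin hE (hd f hf) G x Q X hxG hQbig)
    have hA0 : 0 ≤ A := mul_nonneg (sq_nonneg _) qP.le
    -- sum of degrees
    have hdD : ∑ i, d f i ≤ D := by
      rw [hDdef]
      exact Finset.single_le_sum (f := fun f => ∑ i, d f i) (fun _ _ => Nat.zero_le _) hf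
    have hdD' : ∑ i, (d f i : ℝ) ≤ D := by exact_mod_cast hdD
    have hM1 : (12 : ℝ) * D * κ ≤ M ^ 2 := by
      have e1 : (12 : ℝ) * D * κ ≤ M := by
        rw [hM]
        push_cast
        exact (Nat.le_ceil _).trans (le_add_of_nonneg_right zero_le_one)
      have e2 : (M : ℝ) ≤ M ^ 2 := by
        have e3 : M ≤ M ^ 2 := Nat.le_self_pow (by norm_num) _
        exact_mod_cast e3
      exact e1.trans e2
    have hMpos : (0 : ℝ) < (M : ℝ) ^ 2 := by positivity
    -- heights of the coordinates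
    have h2 : ∏ i, mulHeight (crd (Q i)) ^ (2 * d f i) ≤
        Real.exp (A / 4 + D * (3 * C1 + 2 * C2)) := by
      have e1 : ∀ i, mulHeight (crd (Q i)) ^ (2 * d f i) =
          Real.exp ((2 * d f i : ℕ) * logHeight (crd (Q i))) := by
        intro i
        rw [Real.exp_nat_mul, logHeight_eq_log_mulHeight, Real.exp_log (mulHeight_pos _)]
      rw [Finset.prod_congr rfl (fun i _ => e1 i), ← Real.exp_sum, Real.exp_le_exp]
      have e2 : ∀ i, ((2 * d f i : ℕ) : ℝ) * logHeight (crd (Q i)) ≤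
          (d f i : ℝ) * (3 * (κ * A) / M ^ 2 + (3 * C1 + 2 * C2)) := by
        intro i
        have e3 := hcrd (Q i)
        have e4 := (abs_le.mp (q1 (Q i))).1
        have e5 : q (Q i) ≤ κ * A / M ^ 2 := by
          rw [le_div_iff₀ hMpos, mul_comm]
          exact hQA i
        have e6 : logHeight (crd (Q i)) ≤ 3 / 2 * (κ * A / M ^ 2 + C1) + C2 := by linarith
        have e7 : (0 : ℝ) ≤ 2 * (d f i : ℝ) := by positivity
        push_cast
        calc 2 * (d f i : ℝ) * logHeight (crd (Q i)) ≤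
              2 * (d f i : ℝ) * (3 / 2 * (κ * A / M ^ 2 + C1) + C2) :=
              mul_le_mul_of_nonneg_left e6 e7
          _ = (d f i : ℝ) * (3 * (κ * A) / M ^ 2 + (3 * C1 + 2 * C2)) := by ring
      refine (Finset.sum_le_sum (fun i _ => e2 i)).trans ?_
      rw [← Finset.sum_mul]
      have e8 : 0 ≤ 3 * (κ * A) / M ^ 2 + (3 * C1 + 2 * C2) := by
        have e81 : 0 ≤ 3 * (κ * A) / (M : ℝ) ^ 2 :=
          div_nonneg (mul_nonneg (by norm_num) (mul_nonneg hκ0 hA0)) hMpos.le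
        linarith
      refine (mul_le_mul_of_nonneg_right hdD' e8).trans ?_
      have e9 : (D : ℝ) * (3 * (κ * A) / M ^ 2) ≤ A / 4 := by
        rw [← mul_div_assoc, div_le_iff₀ hMpos]
        nlinarith
      linarith
    -- the height of X
    have h3 : Real.exp (A - C1) ≤ mulHeight₁ X := by
      rw [← exp_sht hXY, Real.exp_le_exp, ← hZ]
      have e1 := (abs_le.mp (q1 ((Rf ι * g) • w))).2
      rw [hTq] at e1
      linarith
    rw [hTq] at hA
    set Eb : ℝ := Ca * Real.exp (A / (2 * W)) with hEb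
    have hEb1 : 1 ≤ Eb := by
      have e1 := hA (Sum.inl (Classical.arbitrary (InfinitePlace K)))
      exact (le_max_right _ _).trans e1
    have h3' := h3.trans (height_split G X hEb1 hWdef (fun v => hA (Sum.inl v))
      (fun v hv => hA (Sum.inr ⟨v, hv⟩)))
    have hF0 : 0 ≤ ∏ᶠ w : FinitePlace K, mm w := finprod_nonneg hmm0
    have hCff := hCf0 f hf
    have hEbW : Eb ^ W = Real.exp (W * Real.log Ca + A / 2) := by
      have hW0 : (0 : ℝ) < W := by exact_mod_cast hW1
      rw [hEb, mul_pow, ← Real.exp_nat_mul, Real.exp_add, ← Real.exp_log hCa, ← Real.exp_nat_mul,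
        Real.exp_log hCa]
      congr 2
      field_simp
    have h4 : Real.exp (A - C1) ≤ Real.exp (W * Real.log Ca + A / 2) *
        (Cf f * Real.exp (A / 4 + D * (3 * C1 + 2 * C2))) := by
      rw [← hEbW]
      refine h3'.trans (mul_le_mul_of_nonneg_left (h1.trans ?_) (by positivity))
      exact mul_le_mul_of_nonneg_left h2 hCff.le
    have h5 : Real.exp (W * Real.log Ca + A / 2) *
        (Cf f * Real.exp (A / 4 + D * (3 * C1 + 2 * C2))) =
        Real.exp (W * Real.log Ca + A / 2 + (Real.log (Cf f) +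
          (A / 4 + D * (3 * C1 + 2 * C2)))) := by
      rw [Real.exp_add (W * Real.log Ca + A / 2),
        Real.exp_add (Real.log (Cf f)), Real.exp_log hCff]
    rw [h5, Real.exp_le_exp] at h4
    have h6 : Real.log (Cf f) ≤ ∑ f ∈ S, |Real.log (Cf f)| :=
      (le_abs_self _).trans (Finset.single_le_sum (f := fun f => |Real.log (Cf f)|)
        (fun _ _ => abs_nonneg _) hf)
    have h7 : W * Real.log Ca ≤ W * |Real.log Ca| :=
      mul_le_mul_of_nonneg_left (le_abs_self _) (Nat.cast_nonneg _)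
    have h8 : A ≤ 4 * Tot := by
      rw [hTot]
      linarith
    have h9 : (K1 : ℝ) ≤ (k : ℝ) ^ 2 := by
      have e1 : K1 ≤ k := by
        rw [hk, hK0]
        have e2 : 1 ≤ Rf ι * g := Nat.mul_pos (hRf1 ι) (hg ι).1
        calc K1 = 1 * (1 * K1) := by ring
          _ ≤ Rf ι * g * (NT * K1) := Nat.mul_le_mul e2 (Nat.mul_le_mul_right _ hNT0)
          _ ≤ Rf ι * g * (NT * K1 * NN) :=
            Nat.mul_le_mul_left _ (Nat.le_mul_of_pos_right _ hNN)
      have e3 : k ≤ k ^ 2 := Nat.le_self_pow (by norm_num) _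
      exact_mod_cast e1.trans e3
    have h10 : 4 * Tot / q P < K1 := by
      rw [hK1]
      push_cast
      exact (Nat.le_ceil _).trans_lt (lt_add_one _)
    rw [div_lt_iff₀ qP] at h10
    have h11 : (K1 : ℝ) * q P ≤ A := mul_le_mul_of_nonneg_right h9 qP.le
    linarith
  · intro v hv i
    have e2 := big_mono hRR' (hy v (by rw [hV, Finset.mem_union]; left; exact hv) i)
    rw [hsplit]
    refine (hE.si v).big_add (two_ne v) hR e2 (hbigsum v _ hR i (fun l => ?_))
    have e5 : (N0 * k) • Pj l = (N0 * (Rf ι * g * K1 * NN)) • (NT • Pj l) := by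
      rw [smul_smul, hk, hK0]
      congr 1
      ring
    rw [e5, map_nsmul]
    exact (hE.si v).big_nsmul (two_ne v) hR (hNTbig v hv l) _
  · intro i
    refine ⟨∑ l, c ι (i, l) • ((N0 * (Rf ι * g * (NT * K1))) • Pj l),
      Γ.sum_mem (fun l _ => Γ.zsmul_mem (Γ.nsmul_mem (hPj l) _) _), ?_⟩
    simp only [hQ]
    rw [sub_sub_cancel, Finset.smul_sum]
    refine Finset.sum_congr rfl (fun l _ => ?_)
    rw [smul_comm NN, smul_smul NN]
    congr 2
    rw [hk, hK0]
    ring

end Pool.Agent.TH954
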