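import Pool.Agent.TH954.Expo
import Mathlib.FieldTheory.Galois.Infinite
import Mathlib.NumberTheory.NumberField.Completion.InfinitePlace

/-!
# Finite descent for subvarieties of powers of an elliptic curve
-/

set_option autoImplicit false
set_option linter.unusedSectionVars false

open IsDedekindDomain NumberField WeierstrassCurve MvPolynomial

namespace Pool.Agent.TH954

open Pool.Agent.TH942

section defs

variable {K : Type} [Field K]

open scoped Classical in
/-- The homomorphism on the points of `E` induced by a homomorphism between extensions of the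
base field. -/
noncomputable def pm (E : WeierstrassCurve K) {L₁ L₂ : Type} [Field L₁] [Algebra K L₁] [Field L₂]
    [Algebra K L₂] (f : L₁ →ₐ[K] L₂) :
    (E.baseChange L₁).toAffine.Point →+ (E.baseChange L₂).toAffine.Point :=
  Affine.Point.map (W' := E) f

/-- The points of `E` over an algebraic closure of the extension `L` of `K`. -/
abbrev AlgPt (E : WeierstrassCurve K) (L : Type) [Field L] [Algebra K L] : Type :=
  (E.baseChange (AlgebraicClosure L)).toAffine.Point

/-- The action of an element of the absolute Galois group of the extension `L` of `K` on the points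
of `E` over the algebraic closure of `L`. -/
noncomputable def act (E : WeierstrassCurve K) {L : Type} [Field L] [Algebra K L]
    (σ : AlgebraicClosure L ≃ₐ[L] AlgebraicClosure L) (Q : AlgPt E L) : AlgPt E L :=
  pm E ((σ : AlgebraicClosure L →ₐ[L] AlgebraicClosure L).restrictScalars K) Q

/-- The inclusion of `E(L)` in the points of `E` over the algebraic closure of `L`. -/
noncomputable def incl (E : WeierstrassCurve K) (L : Type) [Field L] [Algebra K L]
    (P : (E.baseChange L).toAffine.Point) : AlgPt E L :=
  pm E (IsScalarTower.toAlgHom K L (AlgebraicClosure L)) P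

/-- The elements `σ` and `τ` of the absolute Galois groups of the extension `L` of `K` and of `K`
agree on the algebraic closure of `K`, embedded by `ι` in that of `L`. -/
def Compat {L : Type} [Field L] [Algebra K L] (ι : AlgebraicClosure K →ₐ[K] AlgebraicClosure L)
    (σ : AlgebraicClosure L ≃ₐ[L] AlgebraicClosure L)
    (τ : AlgebraicClosure K ≃ₐ[K] AlgebraicClosure K) : Prop :=
  ∀ z, ι (τ z) = σ (ι z)

open scoped Classical in
/-- `ξ` is a continuous 1-cocycle of the absolute Galois group of `K` with values in the points of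
`E` over the algebraic closure of `K`. -/
def IsCocycle (E : WeierstrassCurve K)
    (ξ : (AlgebraicClosure K ≃ₐ[K] AlgebraicClosure K) → AlgPt E K) : Prop :=
  (∀ σ τ, ξ (σ * τ) = ξ σ + act E σ (ξ τ)) ∧
    ∃ F : IntermediateField K (AlgebraicClosure K), FiniteDimensional K F ∧
      ∀ σ τ, (∀ x ∈ F, σ x = τ x) → ξ σ = ξ τ

open scoped Classical in
/-- The class of the cocycle `η` in the first cohomology group of `E` becomes trivial over the
extension `L` of `K`. -/
def TrivialOver (E : WeierstrassCurve K)
    (η : (AlgebraicClosure K ≃ₐ[K] AlgebraicClosure K) → AlgPt E K)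
    (L : Type) [Field L] [Algebra K L] : Prop :=
  ∃ (ι : AlgebraicClosure K →ₐ[K] AlgebraicClosure L) (Q : AlgPt E L),
    ∀ σ τ, Compat ι σ τ → pm E ι (η τ) = act E σ Q - Q

open scoped Classical in
/-- The `N`-covering of `Eⁿ` given by the `N`-torsion valued cocycles `ξ i` has an `L`-rational
point over a point of the subvariety `X` defined by `S`: there are `P` in `X(L)` and `Q i` with
`N • Q i = P i` on which the Galois group of `L` acts by translation by the `ξ i`. -/
def CoverPoint (E : WeierstrassCurve K) {n : ℕ} (S : Set (MvPolynomial (Fin n × Fin 3) K)) (N : ℕ)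
    (ξ : Fin n → (AlgebraicClosure K ≃ₐ[K] AlgebraicClosure K) → AlgPt E K)
    (L : Type) [Field L] [Algebra K L] : Prop :=
  ∃ (ι : AlgebraicClosure K →ₐ[K] AlgebraicClosure L)
    (P : Fin n → (E.baseChange L).toAffine.Point) (Q : Fin n → AlgPt E L),
    OnX S (fun i => crd (P i)) ∧ (∀ i, N • Q i = incl E L (P i)) ∧
      ∀ i σ τ, Compat ι σ τ → pm E ι (ξ i τ) = act E σ (Q i) - Q i

end defs

section numberfield

variable {K : Type} [Field K] [NumberField K]

open scoped Classical in
/-- The Tate-Shafarevich group of `E` over `K` is annihilated by `M`. -/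
def ShaKilledBy (E : WeierstrassCurve K) (M : ℕ) : Prop :=
  ∀ η : (AlgebraicClosure K ≃ₐ[K] AlgebraicClosure K) → AlgPt E K, IsCocycle E η →
    (∀ v : HeightOneSpectrum (𝓞 K), TrivialOver E η (v.adicCompletion K)) →
    (∀ w : InfinitePlace K, TrivialOver E η w.Completion) →
    ∃ R : AlgPt E K, ∀ σ, M • η σ = act E σ R - R

end numberfield

section lemmas

variable {K : Type} [Field K] {E : WeierstrassCurve K}

open scoped Classical in
lemma pm_pm {L₁ L₂ L₃ : Type} [Field L₁] [Algebra K L₁] [Field L₂] [Algebra K L₂]
    [Field L₃] [Algebra K L₃] (f : L₁ →ₐ[K] L₂) (g : L₂ →ₐ[K] L₃)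
    (P : (E.baseChange L₁).toAffine.Point) : pm E g (pm E f P) = pm E (g.comp f) P :=
  Affine.Point.map_map (W' := E) f g P

open scoped Classical in
lemma pm_injective {L₁ L₂ : Type} [Field L₁] [Algebra K L₁] [Field L₂] [Algebra K L₂]
    (f : L₁ →ₐ[K] L₂) : Function.Injective (pm E f) :=
  Affine.Point.map_injective (W' := E) f

lemma pm_some {L₁ L₂ : Type} [Field L₁] [Algebra K L₁] [Field L₂] [Algebra K L₂]
    (f : L₁ →ₐ[K] L₂) {x y : L₁} (h : (E.baseChange L₁).toAffine.Nonsingular x y) :
    ∃ h', pm E f (.some x y h) = .some (f x) (f y) h' := ⟨_, rfl⟩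

open scoped Classical in
lemma act_add {L : Type} [Field L] [Algebra K L]
    (σ : AlgebraicClosure L ≃ₐ[L] AlgebraicClosure L) (P Q : AlgPt E L) :
    act E σ (P + Q) = act E σ P + act E σ Q := map_add _ _ _

open scoped Classical in
lemma act_sub {L : Type} [Field L] [Algebra K L]
    (σ : AlgebraicClosure L ≃ₐ[L] AlgebraicClosure L) (P Q : AlgPt E L) :
    act E σ (P - Q) = act E σ P - act E σ Q := map_sub _ _ _

open scoped Classical in
lemma act_nsmul {L : Type} [Field L] [Algebra K L]
    (σ : AlgebraicClosure L ≃ₐ[L] AlgebraicClosure L) (m : ℕ) (P : AlgPt E L) :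
    act E σ (m • P) = m • act E σ P := map_nsmul _ _ _

lemma act_incl {L : Type} [Field L] [Algebra K L]
    (σ : AlgebraicClosure L ≃ₐ[L] AlgebraicClosure L) (P : (E.baseChange L).toAffine.Point) :
    act E σ (incl E L P) = incl E L P := by
  unfold act incl
  rw [pm_pm]
  congr 2
  apply AlgHom.ext
  intro x
  exact σ.commutes x

/-- Galois descent for points -/
lemma exists_of_fixed {L : Type} [Field L] [CharZero L] [Algebra K L] (Q : AlgPt E L)
    (h : ∀ σ : AlgebraicClosure L ≃ₐ[L] AlgebraicClosure L, act E σ Q = Q) :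
    ∃ P : (E.baseChange L).toAffine.Point, incl E L P = Q := by
  match Q with
  | .zero => exact ⟨.zero, rfl⟩
  | .some x y hxy =>
    have hx : x ∈ Set.range (algebraMap L (AlgebraicClosure L)) := by
      rw [InfiniteGalois.mem_range_algebraMap_iff_fixed]
      intro σ
      have h1 := h σ
      unfold act at h1
      obtain ⟨h', e⟩ := pm_some (E := E)
        ((σ : AlgebraicClosure L →ₐ[L] AlgebraicClosure L).restrictScalars K) hxy
      rw [e, Affine.Point.some.injEq] at h1
      exact h1.1
    have hy : y ∈ Set.range (algebraMap L (AlgebraicClosure L)) := by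
      rw [InfiniteGalois.mem_range_algebraMap_iff_fixed]
      intro σ
      have h1 := h σ
      unfold act at h1
      obtain ⟨h', e⟩ := pm_some (E := E)
        ((σ : AlgebraicClosure L →ₐ[L] AlgebraicClosure L).restrictScalars K) hxy
      rw [e, Affine.Point.some.injEq] at h1
      exact h1.2
    obtain ⟨x0, rfl⟩ := hx
    obtain ⟨y0, rfl⟩ := hy
    have hn : (E.baseChange L).toAffine.Nonsingular x0 y0 :=
      (Affine.baseChange_nonsingular E
        (f := IsScalarTower.toAlgHom K L (AlgebraicClosure L))
        (RingHom.injective _) x0 y0).mp hxy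
    exact ⟨.some x0 y0 hn, rfl⟩

/-- restriction of Galois elements -/
lemma exists_compat {L : Type} [Field L] [Algebra K L]
    (ι : AlgebraicClosure K →ₐ[K] AlgebraicClosure L)
    (σ : AlgebraicClosure L ≃ₐ[L] AlgebraicClosure L) :
    ∃ τ : AlgebraicClosure K ≃ₐ[K] AlgebraicClosure K, Compat ι σ τ := by
  let : Algebra (AlgebraicClosure K) (AlgebraicClosure L) := ι.toRingHom.toAlgebra
  have : IsScalarTower K (AlgebraicClosure K) (AlgebraicClosure L) :=
    IsScalarTower.of_algebraMap_eq' ι.comp_algebraMap.symm
  refine ⟨(σ.restrictScalars K).restrictNormal (AlgebraicClosure K), fun z => ?_⟩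
  exact AlgEquiv.restrictNormal_commutes (σ.restrictScalars K) (AlgebraicClosure K) z

lemma act_pm {L : Type} [Field L] [Algebra K L]
    (ι : AlgebraicClosure K →ₐ[K] AlgebraicClosure L)
    {σ : AlgebraicClosure L ≃ₐ[L] AlgebraicClosure L}
    {τ : AlgebraicClosure K ≃ₐ[K] AlgebraicClosure K} (h : Compat ι σ τ) (R : AlgPt E K) :
    act E σ (pm E ι R) = pm E ι (act E τ R) := by
  unfold act
  rw [pm_pm, pm_pm]
  congr 2
  apply AlgHom.ext
  intro z
  exact (h z).symm

end lemmas

end Pool.Agent.TH954
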