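import Pool.Agent.TH954.Descent

/-!
# Finite descent for subvarieties of powers of an elliptic curve: the proof
-/

set_option autoImplicit false
set_option linter.unusedSectionVars false

open IsDedekindDomain NumberField WeierstrassCurve MvPolynomial

namespace Pool.Agent.TH954

open Pool.Agent.TH942

variable {K : Type} [Field K]

section general

variable {E : WeierstrassCurve K}

section ns

variable {L : Type} [Field L] [Algebra K L]

open scoped Classical in
lemma ns_add (m : ℕ) (P Q : AlgPt E L) : m • (P + Q) = m • P + m • Q := smul_add m P Q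

open scoped Classical in
lemma ns_sub (m : ℕ) (P Q : AlgPt E L) : m • (P - Q) = m • P - m • Q := smul_sub m P Q

open scoped Classical in
lemma ns_mul (m k : ℕ) (P : AlgPt E L) : (m * k) • P = m • (k • P) := mul_smul m k P

end ns

open scoped Classical in
lemma incl_add {L : Type} [Field L] [Algebra K L] (P Q : (E.baseChange L).toAffine.Point) :
    incl E L (P + Q) = incl E L P + incl E L Q := map_add _ _ _

open scoped Classical in
lemma incl_sub {L : Type} [Field L] [Algebra K L] (P Q : (E.baseChange L).toAffine.Point) :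
    incl E L (P - Q) = incl E L P - incl E L Q := map_sub _ _ _

open scoped Classical in
lemma incl_nsmul {L : Type} [Field L] [Algebra K L] (m : ℕ)
    (P : (E.baseChange L).toAffine.Point) : incl E L (m • P) = m • incl E L P := map_nsmul _ _ _

open scoped Classical in
lemma incl_injective {L : Type} [Field L] [Algebra K L] : Function.Injective (incl E L) :=
  pm_injective _

open scoped Classical in
/-- the two ways to the algebraic closure of `L` -/
lemma incl_loc {L : Type} [Field L] [Algebra K L]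
    (ι : AlgebraicClosure K →ₐ[K] AlgebraicClosure L) (y : E.toAffine.Point) :
    pm E ι (incl E K y) = incl E L (locHom (L := L) E y) := by
  match y with
  | .zero => rfl
  | .some x y h =>
    change Affine.Point.some (ι (algebraMap K (AlgebraicClosure K) x))
      (ι (algebraMap K (AlgebraicClosure K) y)) _ =
      Affine.Point.some (algebraMap L (AlgebraicClosure L) (algebraMap K L x))
      (algebraMap L (AlgebraicClosure L) (algebraMap K L y)) _
    have e : ∀ t : K, ι (algebraMap K (AlgebraicClosure K) t) =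
        algebraMap L (AlgebraicClosure L) (algebraMap K L t) := by
      intro t
      rw [ι.commutes, ← IsScalarTower.algebraMap_apply]
    simp only [e]

open scoped Classical in
lemma local_step {L : Type} [Field L] [CharZero L] [Algebra K L] {M N : ℕ}
    {ι : AlgebraicClosure K →ₐ[K] AlgebraicClosure L}
    {P : (E.baseChange L).toAffine.Point} {Q : AlgPt E L}
    {ξ : (AlgebraicClosure K ≃ₐ[K] AlgebraicClosure K) → AlgPt E K} {R : AlgPt E K}
    {y : E.toAffine.Point}
    (hQ : (M * N) • Q = incl E L P)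
    (hξ : ∀ σ τ, Compat ι σ τ → pm E ι (ξ τ) = act E σ Q - Q)
    (hR : ∀ τ, M • ξ τ = act E τ R - R) (hy : incl E K y = N • R) :
    ∃ z : (E.baseChange L).toAffine.Point, P - locHom (L := L) E y = N • z := by
  have hfix : ∀ σ : AlgebraicClosure L ≃ₐ[L] AlgebraicClosure L,
      act E σ (M • Q - pm E ι R) = M • Q - pm E ι R := by
    intro σ
    obtain ⟨τ, hτ⟩ := exists_compat ι σ
    have e1 : act E σ Q = Q + pm E ι (ξ τ) := by
      rw [hξ σ τ hτ]
      abel
    have e2 : act E τ R = R + M • ξ τ := by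
      rw [hR τ]
      abel
    rw [act_sub, act_nsmul, act_pm ι hτ, e1, e2, map_add, map_nsmul, ns_add]
    abel
  obtain ⟨z, hz⟩ := exists_of_fixed _ hfix
  refine ⟨z, incl_injective ?_⟩
  rw [incl_sub, incl_nsmul, hz, ← hQ, ← incl_loc ι y, hy, map_nsmul, ns_sub, ← ns_mul,
    mul_comm N M]

end general

variable [NumberField K]

open scoped Classical in
theorem descent_of_fin {a b : K} (hE : ShortInt (sw a b)) {n : ℕ}
    (hfin : FinProp a b (⊤ : AddSubgroup (SPt a b)) n) {M : ℕ} (hM1 : 1 ≤ M)
    (hM : ShaKilledBy (sw a b) M)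
    (S : Set (MvPolynomial (Fin n × Fin 3) K)) (hS : ∀ f ∈ S, ∃ d, MultiHom d f)
    (N : ℕ) (hN : 1 ≤ N) :
    ∃ N' : ℕ, 1 ≤ N' ∧ ∀ ξ : Fin n → (AlgebraicClosure K ≃ₐ[K] AlgebraicClosure K) →
        AlgPt (sw a b) K, (∀ i, IsCocycle (sw a b) (ξ i)) → (∀ i σ, (N * N') • ξ i σ = 0) →
      (∀ v : HeightOneSpectrum (𝓞 K), CoverPoint (sw a b) S (N * N') ξ (v.adicCompletion K)) →
      (∀ w : InfinitePlace K, CoverPoint (sw a b) S (N * N') ξ w.Completion) →
      CoverPoint (sw a b) S N (fun i σ => N' • ξ i σ) K := by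
  obtain ⟨S', hS'S, hS'⟩ := finite_subset S
  obtain ⟨V, R', -, hR', hV⟩ := hfin S' (fun f hf => hS f (hS'S hf)) N hN ∅ 2 one_lt_two
  have hR1 : 1 < R' := one_lt_two.trans_le hR'
  obtain ⟨N1, hN10, hN1⟩ := exists_expo_finset hE V hR1
  refine ⟨M * N1, Nat.mul_pos hM1 hN10, ?_⟩
  intro ξ hξ hξN hfinite hinf
  have hNN : N * (M * N1) = M * (N * N1) := by ring
  -- the classes in the Tate-Shafarevich group
  have hRex : ∀ i, ∃ R : AlgPt (sw a b) K, ∀ σ, M • ξ i σ = act (sw a b) σ R - R := by
    intro i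
    refine hM (ξ i) (hξ i) (fun v => ?_) (fun w => ?_)
    · obtain ⟨ι, P, Q, -, -, h⟩ := hfinite v
      exact ⟨ι, Q i, fun σ τ hστ => h i σ τ hστ⟩
    · obtain ⟨ι, P, Q, -, -, h⟩ := hinf w
      exact ⟨ι, Q i, fun σ τ hστ => h i σ τ hστ⟩
  choose R hR using hRex
  have hyex : ∀ i, ∃ y : SPt a b, incl (sw a b) K y = (N * N1) • R i := by
    intro i
    refine exists_of_fixed (L := K) ((N * N1) • R i) (fun σ => ?_)
    have e1 : act (sw a b) σ (R i) = R i + M • ξ i σ := by
      rw [hR i σ]
      abel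
    rw [act_nsmul, e1, ns_add, ← ns_mul, mul_comm (N * N1) M, ← hNN, hξN, add_zero]
  choose y hy using hyex
  choose ιv P Q hPX hPQ hQξ using hfinite
  have hz : ∀ v i, ∃ z, P v i - locHom (L := v.adicCompletion K) (sw a b) (y i) =
      (N * N1) • z := by
    intro v i
    have : CharZero (v.adicCompletion K) :=
      charZero_of_injective_algebraMap (algebraMap K (v.adicCompletion K)).injective
    refine local_step (M := M) (N := N * N1) (Q := Q v i) (ι := ιv v) (R := R i) ?_
      (fun σ τ h => hQξ v i σ τ h) (hR i) (hy i)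
    rw [← hNN]
    exact hPQ v i
  obtain ⟨P0, -, hP0S, -, hP0y⟩ := hV (fun v => P v) y (fun _ => AddSubgroup.mem_top _) (by
      intro v _ f hf
      have := hPX v f (hS'S hf)
      rw [aeval_def] at this
      rw [eval_map]
      exact this) (by
      intro v hv i
      obtain ⟨z, hz⟩ := hz v i
      rw [hz, mul_comm, mul_smul]
      exact hN1 v hv _)
  have hz'ex : ∀ i, ∃ z : SPt a b, y i - P0 i = N • z := fun i => by
    obtain ⟨z, -, hz⟩ := hP0y i
    exact ⟨z, hz⟩
  choose z' hz' using hz'ex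
  refine ⟨AlgHom.id K _, P0, fun i => N1 • R i - incl (sw a b) K (z' i), ?_, ?_, ?_⟩
  · apply hS'
    intro f hf
    rw [aeval_def]
    exact hP0S f hf
  · intro i
    have e1 : P0 i = y i - N • z' i := by
      rw [← hz' i]
      abel
    have e2 : incl (sw a b) K (P0 i) = incl (sw a b) K (y i) - N • incl (sw a b) K (z' i) := by
      rw [e1]
      exact (incl_sub (E := sw a b) (L := K) (y i) (N • z' i)).trans
        (congrArg _ (incl_nsmul (E := sw a b) (L := K) N (z' i)))
    rw [e2, hy i, ns_sub, ← ns_mul]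
  · intro i σ τ hστ
    have hτ : τ = σ := AlgEquiv.ext hστ
    subst hτ
    have e0 : pm (sw a b) (AlgHom.id K (AlgebraicClosure K)) ((M * N1) • ξ i τ) =
        (M * N1) • ξ i τ := by
      have h1 : ∀ T : AlgPt (sw a b) K, pm (sw a b) (AlgHom.id K (AlgebraicClosure K)) T = T := by
        intro T
        cases T <;> rfl
      exact h1 _
    have e5 : act (sw a b) τ (incl (sw a b) K (z' i)) = incl (sw a b) K (z' i) :=
      act_incl (E := sw a b) (L := K) τ (z' i)
    rw [e0]
    change (M * N1) • ξ i τ = act (sw a b) τ (N1 • R i - incl (sw a b) K (z' i)) -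
      (N1 • R i - incl (sw a b) K (z' i))
    rw [act_sub, act_nsmul, e5, mul_comm, ns_mul, hR i τ, ns_sub]
    abel

open scoped Classical in
/-- Finite descent on closed subvarieties of powers of an elliptic curve whose group of rational
points has rank at most one over the endomorphism ring and whose Tate-Shafarevich group has finite
exponent. -/
theorem descent_main (E : WeierstrassCurve K) [hell : E.IsElliptic]
    (h1 : E.a₁ = 0) (h2 : E.a₂ = 0) (h3 : E.a₃ = 0)
    (h4 : IsIntegral ℤ E.a₄) (h6 : IsIntegral ℤ E.a₆)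
    (hO : Module.rank ℤ E.toAffine.Point ≤ 1 ∨
      ∃ (α : E.toAffine.Point →+ E.toAffine.Point) (F : Fin 3 → MvPolynomial (Fin 3) K)
        (t m : ℤ), EndoForms E α F ∧ t ^ 2 < 4 * m ∧
        (∀ T, α (α T) - t • α T + m • T = 0) ∧ Module.rank ℤ E.toAffine.Point ≤ 2)
    (M : ℕ) (hM1 : 1 ≤ M) (hM : ShaKilledBy E M)
    (n : ℕ) (S : Set (MvPolynomial (Fin n × Fin 3) K)) (hS : ∀ f ∈ S, ∃ d, MultiHom d f)
    (N : ℕ) (hN : 1 ≤ N) :
    ∃ N' : ℕ, 1 ≤ N' ∧ ∀ ξ : Fin n → (AlgebraicClosure K ≃ₐ[K] AlgebraicClosure K) →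
        AlgPt E K, (∀ i, IsCocycle E (ξ i)) → (∀ i σ, (N * N') • ξ i σ = 0) →
      (∀ v : HeightOneSpectrum (𝓞 K), CoverPoint E S (N * N') ξ (v.adicCompletion K)) →
      (∀ w : InfinitePlace K, CoverPoint E S (N * N') ξ w.Completion) →
      CoverPoint E S N (fun i σ => N' • ξ i σ) K := by
  obtain ⟨a, b, rfl⟩ := short_eq_sw h1 h2 h3
  have hE : ShortInt (sw a b) :=
    { h1 := h1, h2 := h2, h3 := h3, ia := h4, ib := h6, disc := disc_of_elliptic hell }
  have hrk : Module.rank ℤ (⊤ : AddSubgroup (SPt a b)) = Module.rank ℤ (SPt a b) := by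
    exact (AddSubgroup.topEquiv.toIntLinearEquiv).rank_eq
  have hfin : FinProp a b (⊤ : AddSubgroup (SPt a b)) n := by
    rcases hO with h | ⟨α, F, t, m, hF, htm, hrel, h⟩
    · exact fin_rank_one hE ⊤ (hrk.le.trans h) n
    · exact fin_cm hE α hF t m htm hrel ⊤ (fun _ _ => AddSubgroup.mem_top _) (hrk.le.trans h) n
  exact descent_of_fin hE hfin hM1 hM S hS N hN

end Pool.Agent.TH954
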