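import Mathlib

/-!
# Simultaneous approximation in integers
-/

set_option autoImplicit false

namespace Pool.Agent.TH954

/-- Dirichlet's theorem: a multiple of the given residues is small. -/
theorem dirichlet {ι : Type} [Fintype ι] (M : ℕ) (hM : 0 < M) (a : ι → ℤ) (k0 : ℕ)
    (hk0 : 0 < k0) : ∃ j : ℕ, 1 ≤ j ∧ j ≤ M ^ Fintype.card ι ∧
      ∃ c : ι → ℤ, ∀ i, (M : ℤ) * |j * a i - c i * k0| < k0 := by
  classical
  set n : ℕ := Fintype.card ι with hn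
  have hk : (0 : ℤ) < k0 := by exact_mod_cast hk0
  have hM' : (0 : ℤ) < M := by exact_mod_cast hM
  have hr0 : ∀ (j : ℕ) (i : ι), 0 ≤ (j * a i) % (k0 : ℤ) := fun j i =>
    Int.emod_nonneg _ hk.ne'
  have hr1 : ∀ (j : ℕ) (i : ι), (j * a i) % (k0 : ℤ) < k0 := fun j i =>
    Int.emod_lt_of_pos _ hk
  let b : ℕ → ι → ℤ := fun j i => (M * ((j * a i) % (k0 : ℤ))) / k0
  have hb0 : ∀ j i, 0 ≤ b j i := fun j i =>
    Int.ediv_nonneg (mul_nonneg hM'.le (hr0 j i)) hk.le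
  have hb1 : ∀ j i, b j i < M := fun j i => by
    apply Int.ediv_lt_of_lt_mul hk
    exact mul_lt_mul_of_pos_left (hr1 j i) hM'
  let f : Fin (M ^ n + 1) → (ι → Fin M) := fun j i =>
    ⟨(b j i).toNat, by
      have h0 := hb0 j i
      have h1 := hb1 j i
      omega⟩
  obtain ⟨j1, j2, hne, he⟩ := Fintype.exists_ne_map_eq_of_card_lt f (by
    rw [Fintype.card_fin, Fintype.card_fun, Fintype.card_fin, ← hn]
    exact Nat.lt_succ_self _)
  have main : ∀ j1 j2 : Fin (M ^ n + 1), f j1 = f j2 → (j1 : ℕ) < j2 →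
      ∃ j : ℕ, 1 ≤ j ∧ j ≤ M ^ n ∧ ∃ c : ι → ℤ, ∀ i, (M : ℤ) * |j * a i - c i * k0| < k0 := by
    intro j1 j2 he hlt
    refine ⟨j2 - j1, by omega, by omega, fun i => (j2 * a i) / k0 - (j1 * a i) / k0, fun i => ?_⟩
    have hbe : b j1 i = b j2 i := by
      have h1 := congrArg Fin.val (congrFun he i)
      have h2 : (b j1 i).toNat = (b j2 i).toNat := h1
      have h3 := hb0 j1 i
      have h4 := hb0 j2 i
      omega
    have e1 := Int.mul_ediv_add_emod (j1 * a i) k0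
    have e2 := Int.mul_ediv_add_emod (j2 * a i) k0
    have e3 := Int.mul_ediv_add_emod (M * (((j1 : ℕ) * a i) % (k0 : ℤ))) k0
    have e4 := Int.mul_ediv_add_emod (M * (((j2 : ℕ) * a i) % (k0 : ℤ))) k0
    have e5 := Int.emod_nonneg (M * (((j1 : ℕ) * a i) % (k0 : ℤ))) hk.ne'
    have e6 := Int.emod_lt_of_pos (M * (((j1 : ℕ) * a i) % (k0 : ℤ))) hk
    have e7 := Int.emod_nonneg (M * (((j2 : ℕ) * a i) % (k0 : ℤ))) hk.ne'
    have e8 := Int.emod_lt_of_pos (M * (((j2 : ℕ) * a i) % (k0 : ℤ))) hk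
    have hbe' : (M * (((j1 : ℕ) * a i) % (k0 : ℤ))) / k0 =
      (M * (((j2 : ℕ) * a i) % (k0 : ℤ))) / k0 := hbe
    have hcast : ((j2 - j1 : ℕ) : ℤ) = (j2 : ℕ) - (j1 : ℕ) := by
      push_cast [hlt.le]
      ring
    rw [← hbe'] at e4
    have e9 : ((j2 - j1 : ℕ) : ℤ) * a i - (((j2 : ℕ) * a i) / k0 - ((j1 : ℕ) * a i) / k0) * k0 =
        ((j2 : ℕ) * a i) % k0 - ((j1 : ℕ) * a i) % k0 := by
      rw [hcast]
      linear_combination e1 - e2
    rw [e9]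
    have e10 : (M : ℤ) * |((j2 : ℕ) * a i) % k0 - ((j1 : ℕ) * a i) % k0| =
        |(M : ℤ) * (((j2 : ℕ) * a i) % k0 - ((j1 : ℕ) * a i) % k0)| := by
      rw [abs_mul, abs_of_pos hM']
    rw [e10, abs_lt]
    constructor <;> linarith
  rcases lt_trichotomy (j1 : ℕ) j2 with h | h | h
  · exact main j1 j2 he h
  · exact absurd (Fin.ext h) hne
  · exact main j2 j1 he.symm h

end Pool.Agent.TH954
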