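import Pool.Agent.TH954.FinProp

/-!
# A common exponent for the local points modulo a neighbourhood of the origin
-/

set_option autoImplicit false
set_option linter.unusedSectionVars false

open IsDedekindDomain NumberField WeierstrassCurve MvPolynomial Height Function

namespace Pool.Agent.TH954

open Pool.Agent.TH942

variable {K : Type} [Field K] [NumberField K] [DecidableEq K]

lemma exists_approx (v : HeightOneSpectrum (𝓞 K)) {d : ℝ} (hd : 0 < d)
    (t : v.adicCompletion K) : ∃ k : K, ‖t - algebraMap K (v.adicCompletion K) k‖ < d := by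
  obtain ⟨k, hk⟩ := (HeightOneSpectrum.denseRange_algebraMap K v).exists_dist_lt t hd
  exact ⟨k, by rwa [dist_eq_norm] at hk⟩

variable {E : WeierstrassCurve K}

open scoped Classical in
/-- the local points modulo a neighbourhood of the origin are a group of finite exponent -/
theorem exists_expo (hE : ShortInt E) (v : HeightOneSpectrum (𝓞 K)) {R : ℝ} (hR : 1 < R) :
    ∃ N : ℕ, 0 < N ∧ ∀ T : (E.baseChange (v.adicCompletion K)).toAffine.Point, Big R (N • T) := by
  obtain ⟨d, hd0, hd1, hd⟩ := (hE.si v).exists_near (two_ne v) (hE.disc_loc v) hR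
  obtain ⟨F, hF, cl, hcl⟩ := finite_classes v hd0
  have := Fintype.ofFinite F
  set M : ℕ := Fintype.card (Fin 3 → F) with hM
  refine ⟨(M + 1).factorial, Nat.factorial_pos _, fun T => ?_⟩
  have happ : ∀ (m : ℕ) (j : Fin 3), ∃ k : K,
      ‖nc (m • T) j - algebraMap K (v.adicCompletion K) k‖ < d := fun m j =>
    exists_approx v hd0 _
  choose k hk using happ
  have hk1 : ∀ m j, ‖algebraMap K (v.adicCompletion K) (k m j)‖ ≤ 1 := by
    intro m j
    have e : algebraMap K (v.adicCompletion K) (k m j) =
        nc (m • T) j - (nc (m • T) j - algebraMap K (v.adicCompletion K) (k m j)) := by ring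
    rw [e]
    exact usub (nc_le_one (hE.si v) _ j) ((hk m j).le.trans hd1)
  obtain ⟨m, m', hne, he⟩ := Fintype.exists_ne_map_eq_of_card_lt
    (fun m : Fin (M + 1) => fun j : Fin 3 => cl (k m j)) (by rw [Fintype.card_fin]; omega)
  have hsmall : ∀ m m' : Fin (M + 1),
      (fun j : Fin 3 => cl (k m j)) = (fun j : Fin 3 => cl (k m' j)) →
      m' < m → Big R (((M + 1).factorial) • T) := by
    intro m m' he hlt
    have hlt' : (m' : ℕ) < m := hlt
    have h1 : ((m : ℕ) - m') • T = (m : ℕ) • T - (m' : ℕ) • T := by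
      rw [sub_nsmul T hlt'.le, sub_eq_add_neg]
    have h2 : Big R (((m : ℕ) - m') • T) := by
      rw [h1]
      apply hd
      intro j
      have e : nc ((m : ℕ) • T) j - nc ((m' : ℕ) • T) j =
          (nc ((m : ℕ) • T) j - algebraMap K (v.adicCompletion K) (k m j)) +
          (algebraMap K (v.adicCompletion K) (k m j - k m' j)) -
          (nc ((m' : ℕ) • T) j - algebraMap K (v.adicCompletion K) (k m' j)) := by
        rw [map_sub]
        ring
      rw [e]
      refine usub_lt (uadd_lt (hk m j) ?_) (hk m' j)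
      exact hcl _ _ (hk1 m j) (hk1 m' j) (congrFun he j)
    obtain ⟨c, hc⟩ : ((m : ℕ) - m') ∣ (M + 1).factorial :=
      Nat.dvd_factorial (by omega) (by have := m.2; omega)
    rw [hc, mul_comm, mul_smul]
    exact (hE.si v).big_nsmul (two_ne v) hR h2 c
  rcases lt_or_gt_of_ne hne with h | h
  · exact hsmall m' m he.symm h
  · exact hsmall m m' he h

open scoped Classical in
/-- a common exponent for finitely many places -/
theorem exists_expo_finset (hE : ShortInt E) (V : Finset (HeightOneSpectrum (𝓞 K))) {R : ℝ}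
    (hR : 1 < R) : ∃ N : ℕ, 0 < N ∧ ∀ v ∈ V,
      ∀ T : (E.baseChange (v.adicCompletion K)).toAffine.Point, Big R (N • T) := by
  choose N hN0 hN using fun v => exists_expo hE v hR
  refine ⟨∏ v ∈ V, N v, Finset.prod_pos (fun v _ => hN0 v), fun v hv T => ?_⟩
  rw [← Finset.prod_erase_mul V N hv, mul_smul]
  exact (hE.si v).big_nsmul (two_ne v) hR (hN v T) _

end Pool.Agent.TH954
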