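import Pool.Agent.TH954.CoreFin

/-!
# The property of one rational point near the local points of a subvariety
-/

set_option autoImplicit false
set_option linter.unusedSectionVars false

open IsDedekindDomain NumberField WeierstrassCurve MvPolynomial Height Function

namespace Pool.Agent.TH954

open Pool.Agent.TH942

variable {K : Type} [Field K] [NumberField K] [DecidableEq K]

open scoped Classical in
/-- Rational points with coordinates in `Γ` which are sufficiently close to the local points of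
the subvariety at suitable finitely many finite places are close to rational points of the
subvariety. -/
def FinProp (a b : K) (Γ : AddSubgroup (SPt a b)) (n : ℕ) : Prop :=
  ∀ (S : Finset (MvPolynomial (Fin n × Fin 3) K)), (∀ f ∈ S, ∃ d, MultiHom d f) →
    ∀ (NN : ℕ), 1 ≤ NN → ∀ (T : Finset (HeightOneSpectrum (𝓞 K))) (R : ℝ), 1 < R →
    ∃ (V : Finset (HeightOneSpectrum (𝓞 K))) (R' : ℝ), T ⊆ V ∧ R ≤ R' ∧
      ∀ (x : ∀ v : HeightOneSpectrum (𝓞 K),
        Fin n → ((sw a b).baseChange (v.adicCompletion K)).toAffine.Point)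
        (y : Fin n → SPt a b), (∀ i, y i ∈ Γ) →
        (∀ v ∈ V, ∀ f ∈ S, eval (fun p => crd (x v p.1) p.2)
          (map (algebraMap K (v.adicCompletion K)) f) = 0) →
        (∀ v ∈ V, ∀ i, Big R' (x v i - locHom (sw a b) (y i))) →
        ∃ Q : Fin n → SPt a b, (∀ i, Q i ∈ Γ) ∧
          (∀ f ∈ S, eval (fun p => crd (Q p.1) p.2) f = 0) ∧
          (∀ v ∈ T, ∀ i, Big R (x v i - locHom (sw a b) (Q i))) ∧
          ∀ i, ∃ z ∈ Γ, y i - Q i = NN • z

open scoped Classical in
/-- a rational point off the subvariety is not close to its local points -/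
lemma sep_point {a b : K} (hE : ShortInt (sw a b)) {n : ℕ} {d : Fin n → ℕ}
    {f : MvPolynomial (Fin n × Fin 3) K} (hd : MultiHom d f) (v : HeightOneSpectrum (𝓞 K))
    (y : Fin n → SPt a b) (hne : eval (fun p => crd (y p.1) p.2) f ≠ 0) :
    ∃ R0 : ℝ, 1 < R0 ∧ ∀ x : Fin n → ((sw a b).baseChange (v.adicCompletion K)).toAffine.Point,
      eval (fun p => crd (x p.1) p.2) (map (algebraMap K (v.adicCompletion K)) f) = 0 →
      ¬ ∀ i, Big R0 (x i - locHom (sw a b) (y i)) := by
  have hfv : MultiHom d (map (algebraMap K (v.adicCompletion K)) f) := by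
    intro m hm i
    exact hd m (support_map_subset _ _ hm) i
  have hc : ∀ m, ‖coeff m (map (algebraMap K (v.adicCompletion K)) f)‖ ≤
      cf f (FinitePlace.mk v) := by
    intro m
    rw [coeff_map]
    exact coeff_le_cf f (FinitePlace.mk v) m
  have hc0 : 0 ≤ cf f (FinitePlace.mk v) := zero_le_one.trans (one_le_cf _ _)
  have e1 : ‖eval (fun p => crd (locHom (L := v.adicCompletion K) (sw a b) (y p.1)) p.2)
      (map (algebraMap K (v.adicCompletion K)) f)‖ =
      ‖algebraMap K (v.adicCompletion K) (eval (fun p => crd (y p.1) p.2) f)‖ := by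
    rw [eval_loc]
  have hpos : 0 < ‖algebraMap K (v.adicCompletion K) (eval (fun p => crd (y p.1) p.2) f)‖ :=
    norm_pos_iff.mpr (char_ne v hne)
  set B : ℝ := cf f (FinitePlace.mk v) ^ 2 *
    ∏ i, (⨆ j, ‖crd (locHom (L := v.adicCompletion K) (sw a b) (y i)) j‖) ^ (2 * d i) with hB
  have hB0 : 0 ≤ B := mul_nonneg (sq_nonneg _)
    (Finset.prod_nonneg (fun i _ => pow_nonneg (Real.iSup_nonneg (fun j => norm_nonneg _)) _))
  set N : ℝ := ‖algebraMap K (v.adicCompletion K) (eval (fun p => crd (y p.1) p.2) f)‖ with hN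
  set R0 : ℝ := B / N ^ 2 + 2 with hR0
  have hR01 : 1 < R0 := by
    have : 0 ≤ B / N ^ 2 := by positivity
    linarith
  refine ⟨R0, hR01, fun x hx hyb => ?_⟩
  have h1 := form_bound (hE.si v) (two_ne v) hfv hc0 hc x
      (fun i => locHom (sw a b) (y i)) hx hR01 hyb
  rw [e1, ← hB, hR0, mul_add, mul_div_cancel₀ _ (by positivity)] at h1
  have : 0 < N ^ 2 := by positivity
  linarith

/-- the case of a torsion group -/
theorem fin_torsion {a b : K} (hE : ShortInt (sw a b))
    (Γ : AddSubgroup (SPt a b)) (hΓ : ∀ Q ∈ Γ, IsOfFinAddOrder Q) (n : ℕ) : FinProp a b Γ n := by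
  classical
  intro S hS NN hNN T R hR
  have hfinΓ : {y : Fin n → SPt a b | ∀ i, y i ∈ Γ}.Finite :=
    (Set.Finite.pi' (fun _ => torsion_finite hE.disc)).subset (by
      intro y hy i
      exact hΓ _ (hy i))
  obtain ⟨v, -⟩ := exists_place (K := K) ∅
  have hsep : ∀ y : Fin n → SPt a b, ∃ R0 : ℝ, 1 < R0 ∧
      ∀ x : Fin n → ((sw a b).baseChange (v.adicCompletion K)).toAffine.Point,
      (∀ f ∈ S, eval (fun p => crd (x p.1) p.2)
        (map (algebraMap K (v.adicCompletion K)) f) = 0) →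
      (∀ i, Big R0 (x i - locHom (sw a b) (y i))) →
      ∀ f ∈ S, eval (fun p => crd (y p.1) p.2) f = 0 := by
    intro y
    by_cases h : ∀ f ∈ S, eval (fun p => crd (y p.1) p.2) f = 0
    · exact ⟨2, one_lt_two, fun _ _ _ => h⟩
    · push Not at h
      obtain ⟨f, hf, hne⟩ := h
      obtain ⟨d, hd⟩ := hS f hf
      obtain ⟨R0, hR0, hR0'⟩ := sep_point hE hd v y hne
      exact ⟨R0, hR0, fun x hx hb => absurd hb (hR0' x (hx f hf))⟩
  choose RR hRR1 hRR using hsep
  refine ⟨insert v T, R + ∑ y ∈ hfinΓ.toFinset, |RR y|, Finset.subset_insert _ _,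
    le_add_of_nonneg_right (Finset.sum_nonneg (fun _ _ => abs_nonneg _)), ?_⟩
  intro x y hyΓ hxS hy
  have hymem : y ∈ hfinΓ.toFinset := hfinΓ.mem_toFinset.mpr hyΓ
  have h2 : |RR y| ≤ ∑ y ∈ hfinΓ.toFinset, |RR y| :=
    Finset.single_le_sum (f := fun y => |RR y|) (fun _ _ => abs_nonneg _) hymem
  have h3 := le_abs_self (RR y)
  refine ⟨y, hyΓ, ?_, ?_, ?_⟩
  · refine hRR y (x v) (hxS v (Finset.mem_insert_self _ _)) (fun i => ?_)
    refine big_mono ?_ (hy v (Finset.mem_insert_self _ _) i)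
    linarith
  · intro w hw i
    refine big_mono ?_ (hy w (Finset.mem_insert_of_mem hw) i)
    exact le_add_of_nonneg_right (Finset.sum_nonneg (fun _ _ => abs_nonneg _))
  · intro i
    exact ⟨0, Γ.zero_mem, by rw [sub_self, smul_zero]⟩

/-- groups of rank at most one -/
theorem fin_rank_one {a b : K} (hE : ShortInt (sw a b))
    (Γ : AddSubgroup (SPt a b)) (hΓ : Module.rank ℤ Γ ≤ 1) (n : ℕ) : FinProp a b Γ n := by
  classical
  rcases rank_one_gen (a := a) (b := b) hE.disc Γ hΓ with h | ⟨P, hPΓ, hP, hgen⟩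
  · exact fin_torsion hE Γ h n
  · intro S hS NN hNN T R hR
    obtain ⟨V, R', hTV, -, hRR', hV⟩ := core_fin hE hP (s := 1) (fun _ => P) 1 le_rfl Γ
      (fun _ => hPΓ) (by
        intro Q hQ
        obtain ⟨m, hm⟩ := hgen Q hQ
        exact ⟨fun _ => m, by simpa using hm⟩) ∅ (by
        intro v _ R _ k j h
        rwa [one_mul]) S hS NN hNN T R hR
    exact ⟨V, R', hTV, hRR', hV⟩

/-- groups with complex multiplication -/
theorem fin_cm {a b : K} (hE : ShortInt (sw a b)) (α : SPt a b →+ SPt a b)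
    {F : Fin 3 → MvPolynomial (Fin 3) K} (hF : EndoForms (sw a b) α F)
    (t m : ℤ) (htm : t ^ 2 < 4 * m) (hrel : ∀ T, α (α T) - t • α T + m • T = 0)
    (Γ : AddSubgroup (SPt a b)) (hα : ∀ T ∈ Γ, α T ∈ Γ) (hΓ : Module.rank ℤ Γ ≤ 2)
    (n : ℕ) : FinProp a b Γ n := by
  classical
  rcases cm_gen (a := a) (b := b) hE.disc Γ α t m htm hrel hα hΓ with
    h | ⟨P, hPΓ, hP, s, Pj, N0, hN0, hPj, hgen, hdep⟩
  · exact fin_torsion hE Γ h n
  · intro S hS NN hNN T R hR
    obtain ⟨V, R', hTV, -, hRR', hV⟩ := core_fin hE hP Pj N0 hN0 Γ hPj hgen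
      hF.bad_finite.toFinset (by
        intro v hv R hR k j hbig
        have hv2 : (∀ j m, ‖algebraMap K (v.adicCompletion K) (coeff m (F j))‖ ≤ 1) ∧
            ‖algebraMap K (v.adicCompletion K) (eval ![0, 1, 0] (F 1))‖ = 1 := by
          by_contra hcon
          exact hv (hF.bad_finite.mem_toFinset.mpr hcon)
        obtain ⟨c, d, hcd⟩ := hdep j
        have e : (N0 * k) • Pj j = c • (k • P) + d • α (k • P) := by
          rw [mul_comm, mul_smul, hcd, smul_add, map_nsmul, smul_comm k c, smul_comm k d]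
        rw [e, map_add, map_zsmul, map_zsmul]
        have hSI := hE.si v
        exact hSI.big_add (two_ne v) hR (hSI.big_zsmul (two_ne v) hR hbig c)
          (hSI.big_zsmul (two_ne v) hR (hF.big hE v hv2.1 hv2.2 hR hbig) d)) S hS NN hNN T R hR
    exact ⟨V, R', hTV, hRR', hV⟩

end Pool.Agent.TH954
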