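import Pool.Agent.TH942.FG
import Pool.Agent.TH942.Grp
import Pool.Agent.TH954.Arch
import Pool.Agent.TH954.HtKey

/-!
# Heights of points and of their multiples
-/

set_option autoImplicit false
set_option linter.unusedSectionVars false

open NumberField WeierstrassCurve Height MvPolynomial

namespace Pool.Agent.TH954

open Pool.Agent.TH942

section quadratic

variable {A : Type} [AddCommGroup A] {q : A → ℝ}
  (hq : ∀ P Q, q (P + Q) + q (P - Q) = 2 * (q P + q Q))

include hq

lemma q_zsmul (n : ℤ) (P : A) : q (n • P) = (n : ℝ) ^ 2 * q P := by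
  obtain ⟨B, hB, -⟩ := H437R2.Man.MW.polar q hq
  rw [← hB, ← hB, map_zsmul, map_zsmul, AddMonoidHom.zsmul_apply, zsmul_eq_mul, zsmul_eq_mul]
  ring

lemma q_nsmul (n : ℕ) (P : A) : q (n • P) = (n : ℝ) ^ 2 * q P := by
  have := q_zsmul hq (n : ℤ) P
  rwa [natCast_zsmul, Int.cast_natCast] at this

lemma q_add_tors {P t : A} (ht : IsOfFinAddOrder t) : q (P + t) = q P := by
  obtain ⟨B, hB, hs⟩ := H437R2.Man.MW.polar q hq
  obtain ⟨N, hN, hNt⟩ := isOfFinAddOrder_iff_nsmul_eq_zero.mp ht
  have h1 : ∀ R : A, B R t = 0 := by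
    intro R
    have h2 : B R (N • t) = 0 := by rw [hNt, map_zero]
    rw [map_nsmul, nsmul_eq_mul, mul_eq_zero] at h2
    rcases h2 with h2 | h2
    · exact absurd (by exact_mod_cast h2) hN.ne'
    · exact h2
  have h2 : B (P + t) (P + t) = B P P := by
    rw [(B (P + t)).map_add, h1, add_zero, hs, (B P).map_add, h1, add_zero]
  rw [← hB, ← hB, h2]

lemma q_add_le (h0 : ∀ P, 0 ≤ q P) (P Q : A) : q (P + Q) ≤ 2 * (q P + q Q) := by
  have := hq P Q
  have := h0 (P - Q)
  linarith

lemma q_zero' : q 0 = 0 := by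
  have := hq 0 0
  rw [add_zero, sub_zero] at this
  linarith

lemma q_sum_le (h0 : ∀ P, 0 ≤ q P) {ι : Type} (s : Finset ι) (Z : ι → A) :
    q (∑ j ∈ s, Z j) ≤ 2 ^ s.card * ∑ j ∈ s, q (Z j) := by
  classical
  induction s using Finset.induction_on with
  | empty => simp [q_zero' hq]
  | insert a s ha ih =>
    rw [Finset.sum_insert ha, Finset.sum_insert ha, Finset.card_insert_of_notMem ha]
    have h1 := q_add_le hq h0 (Z a) (∑ j ∈ s, Z j)
    have h2 : (1 : ℝ) ≤ 2 ^ s.card := one_le_pow₀ (by norm_num)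
    have h3 := h0 (Z a)
    have h4 : 0 ≤ ∑ j ∈ s, q (Z j) := Finset.sum_nonneg (fun j _ => h0 _)
    rw [pow_succ]
    nlinarith

end quadratic

/-- homogeneous coordinates of a point -/
def crd {F : Type} [Field F] {W : WeierstrassCurve F} : W.toAffine.Point → Fin 3 → F
  | .zero => ![0, 1, 0]
  | .some x y _ => ![x, y, 1]

lemma crd_zero {F : Type} [Field F] {W : WeierstrassCurve F} :
    crd (0 : W.toAffine.Point) = ![0, 1, 0] := rfl

lemma crd_ne_zero {F : Type} [Field F] {W : WeierstrassCurve F} (P : W.toAffine.Point) :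
    crd P ≠ 0 := by
  intro h
  match P with
  | .zero =>
    have := congrFun h 1
    simp [crd] at this
  | .some x y h' =>
    have := congrFun h 2
    simp [crd] at this

variable {K : Type} [Field K] [NumberField K]

/-- the height of the homogeneous coordinates is at most `3/2` times the height of `x` -/
lemma ht_crd (a b : K) : ∃ C : ℝ, 0 ≤ C ∧ ∀ P : SPt a b,
    logHeight (crd P) ≤ 3 / 2 * sht P + C := by
  set p : Fin 3 → MvPolynomial (Fin 2) K :=
    ![X 0 ^ 2 * X 1, X 0 ^ 3 + C a * X 0 * X 1 ^ 2 + C b * X 1 ^ 3, X 1 ^ 3] with hp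
  have hhom : ∀ i, (p i).IsHomogeneous 3 := by
    intro i
    fin_cases i
    · exact ((isHomogeneous_X_pow (R := K) (0 : Fin 2) 2).mul (isHomogeneous_X K 1))
    · refine ((isHomogeneous_X_pow (R := K) (0 : Fin 2) 3).add ?_).add ?_
      · have := ((isHomogeneous_C_mul_X a (0 : Fin 2)).mul (isHomogeneous_X_pow (R := K) (1 : Fin 2) 2))
        exact this
      · have := (isHomogeneous_C_mul_X_pow b (1 : Fin 2) 3)
        exact this
    · exact isHomogeneous_X_pow (R := K) (1 : Fin 2) 3
  obtain ⟨C0, hC0⟩ := logHeight_eval_le' hhom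
  refine ⟨|C0|, abs_nonneg _, ?_⟩
  intro P
  match P with
  | .zero =>
    have h1 : logHeight (crd (Affine.Point.zero : SPt a b)) = 0 := by
      have : crd (Affine.Point.zero : SPt a b) = ![0, 1, 0] := rfl
      rw [this, logHeight_cons_zero]
      have h2 : (![(1 : K), 0] : Fin 2 → K) = ![1, 0] := rfl
      rw [logHeight_swap, ← logHeight₁_eq_logHeight, logHeight₁_zero]
    rw [h1]
    have := sht_nonneg (Affine.Point.zero : SPt a b)
    positivity
  | .some x y h =>
    have e := sw_eqn.mp h.1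
    have h1 : (crd (Affine.Point.some x y h)) ^ 2 = fun j => (p j).eval ![x, 1] := by
      funext j
      fin_cases j
      · simp [crd, hp]
      · simp [crd, hp]
        exact e
      · simp [crd, hp]
    have h2 := hC0 ![x, 1]
    rw [← h1, logHeight_pow] at h2
    have h3 : sht (Affine.Point.some x y h : SPt a b) = logHeight ![x, 1] := by
      rw [sht, Affine.Point.xRep_some]
    rw [h3]
    push_cast at h2
    have h4 := le_abs_self C0
    linarith [abs_nonneg C0]

/-- canonical height -/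
lemma canonical [DecidableEq K] {a b : K} (hD : 4 * a ^ 3 + 27 * b ^ 2 ≠ 0) :
    ∃ (q : SPt a b → ℝ) (C : ℝ), 0 ≤ C ∧ (∀ P, |q P - sht P| ≤ C) ∧ (∀ P, 0 ≤ q P) ∧
      ∀ P Q, q (P + Q) + q (P - Q) = 2 * (q P + q Q) := by
  obtain ⟨C, hC0, hC⟩ := spar_law hD
  obtain ⟨q, C', hq1, hq2, hq3⟩ := H437R2.Man.MW.canon (fun P : SPt a b => sht P) C
    (fun P => sht_nonneg P) hC
  exact ⟨q, C', (abs_nonneg _).trans (hq1 0), hq1, hq2, hq3⟩

lemma q_pos [DecidableEq K] {a b : K} {q : SPt a b → ℝ} {C : ℝ}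
    (h1 : ∀ P, |q P - sht P| ≤ C) (h2 : ∀ P, 0 ≤ q P)
    (h3 : ∀ P Q, q (P + Q) + q (P - Q) = 2 * (q P + q Q)) {P : SPt a b}
    (hP : ¬ IsOfFinAddOrder P) : 0 < q P := by
  rcases (h2 P).eq_or_lt with h0 | h0
  · exfalso
    apply hP
    have hfin := sfinite_ht (a := a) (b := b) C
    have hmem : ∀ n : ℕ, n • P ∈ {P : SPt a b | sht P ≤ C} := by
      intro n
      have h4 := h1 (n • P)
      rw [q_nsmul h3, ← h0, mul_zero, zero_sub, abs_neg] at h4
      exact (le_abs_self _).trans h4
    have hni : ¬ Function.Injective (fun n : ℕ => n • P) := by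
      intro hinj
      have : Set.Infinite (Set.range (fun n : ℕ => n • P)) := Set.infinite_range_of_injective hinj
      exact this (hfin.subset (by rintro _ ⟨n, rfl⟩; exact hmem n))
    by_contra hc
    exact hni (injective_nsmul_iff_not_isOfFinAddOrder.mpr hc)
  · exact h0

end Pool.Agent.TH954
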