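import Mathlib

/-!
# Algebra on a short Weierstrass curve

The quadratic relation satisfied by the `x`-coordinate of a sum, and the chord relations.
-/

set_option autoImplicit false
set_option linter.unusedSectionVars false

open WeierstrassCurve

namespace Pool.Agent.TH954

/-- `W` is a short Weierstrass equation `y² = x³ + a₄ x + a₆`. -/
structure Short {F : Type} [Field F] (W : WeierstrassCurve F) : Prop where
  h1 : W.a₁ = 0
  h2 : W.a₂ = 0
  h3 : W.a₃ = 0

section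

variable {F : Type} [Field F] {W : WeierstrassCurve F}

lemma Short.eqn (hW : Short W) {x y : F} (h : W.toAffine.Nonsingular x y) :
    y ^ 2 = x ^ 3 + W.a₄ * x + W.a₆ := by
  have h1 := h.1
  rw [WeierstrassCurve.Affine.equation_iff, hW.h1, hW.h2, hW.h3] at h1
  linear_combination h1

lemma Short.nonsing_neg (hW : Short W) {x y : F} (h : W.toAffine.Nonsingular x y) :
    W.toAffine.Nonsingular x (-y) := by
  have := (WeierstrassCurve.Affine.nonsingular_neg x y).mpr h
  rwa [Affine.negY, hW.h1, hW.h3, zero_mul, sub_zero, sub_zero] at this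

lemma Short.negY (hW : Short W) (x y : F) : W.toAffine.negY x y = -y := by
  simp [Affine.negY, hW.h1, hW.h3]

variable [DecidableEq F]

lemma Short.neg_some (hW : Short W) {x y : F} (h : W.toAffine.Nonsingular x y) :
    -(Affine.Point.some x y h) = (Affine.Point.some x (-y) (hW.nonsing_neg h)) := by
  rw [Affine.Point.neg_some]
  congr 1
  simp [Affine.negY, hW.h1, hW.h3]

/-- the sum of two affine points, equal `x`-coordinates -/
lemma Short.add_eq (hW : Short W) {x y1 y2 X Y : F}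
    {n1 : W.toAffine.Nonsingular x y1}
    {n2 : W.toAffine.Nonsingular x y2} {n3 : W.toAffine.Nonsingular X Y}
    (h : Affine.Point.some x y1 n1 + Affine.Point.some x y2 n2 = Affine.Point.some X Y n3) :
    y1 = y2 ∧ y1 ≠ 0 ∧ X = ((3 * x ^ 2 + W.a₄) / (2 * y1)) ^ 2 - 2 * x := by
  have e1 := hW.eqn n1
  have e2 := hW.eqn n2
  have hy : y1 = y2 ∨ y1 = -y2 := by
    apply sq_eq_sq_iff_eq_or_eq_neg.mp
    rw [e1, e2]
  have hy' : y1 ≠ W.toAffine.negY x y2 := by
    intro hh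
    rw [Affine.Point.add_of_Y_eq rfl hh] at h
    exact Affine.Point.some_ne_zero n3 h.symm
  have hyy : y1 = y2 := by
    rcases hy with hy | hy
    · exact hy
    · exact absurd (hy.trans (hW.negY x y2).symm) hy'
  subst hyy
  have hy0 : y1 ≠ 0 := by
    intro h0
    apply hy'
    rw [hW.negY, h0, neg_zero]
  rw [Affine.Point.add_self_of_Y_ne hy', Affine.Point.some.injEq] at h
  obtain ⟨hX, -⟩ := h
  rw [Affine.slope_of_Y_ne rfl hy', Affine.addX, hW.negY, hW.h1, hW.h2] at hX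
  refine ⟨rfl, hy0, ?_⟩
  rw [← hX]
  have e3' : y1 - (-y1) = 2 * y1 := by ring
  rw [e3']
  ring

/-- the sum of two affine points, distinct `x`-coordinates -/
lemma Short.add_ne (hW : Short W) {x1 y1 x2 y2 X Y : F}
    {n1 : W.toAffine.Nonsingular x1 y1}
    {n2 : W.toAffine.Nonsingular x2 y2} {n3 : W.toAffine.Nonsingular X Y}
    (h : Affine.Point.some x1 y1 n1 + Affine.Point.some x2 y2 n2 = Affine.Point.some X Y n3)
    (hx : x1 ≠ x2) :
    X = ((y1 - y2) / (x1 - x2)) ^ 2 - x1 - x2 := by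
  rw [Affine.Point.add_of_X_ne hx, Affine.Point.some.injEq] at h
  obtain ⟨hX, -⟩ := h
  rw [Affine.slope_of_X_ne hx, Affine.addX, hW.h1, hW.h2] at hX
  rw [← hX]
  ring

/-- the quadratic relation between the `x`-coordinates of two points and of their sum -/
lemma Short.quad (hW : Short W) (h2 : (2 : F) ≠ 0) {x1 y1 x2 y2 X Y : F}
    {n1 : W.toAffine.Nonsingular x1 y1}
    {n2 : W.toAffine.Nonsingular x2 y2} {n3 : W.toAffine.Nonsingular X Y}
    (h : Affine.Point.some x1 y1 n1 + Affine.Point.some x2 y2 n2 = Affine.Point.some X Y n3) :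
    (x1 - x2) ^ 2 * X ^ 2 - 2 * ((x1 + x2) * (x1 * x2 + W.a₄) + 2 * W.a₆) * X +
      ((x1 * x2 - W.a₄) ^ 2 - 4 * W.a₆ * (x1 + x2)) = 0 := by
  have e1 := hW.eqn n1
  have e2 := hW.eqn n2
  by_cases hx : x1 = x2
  · subst hx
    obtain ⟨-, hy0, hX⟩ := hW.add_eq h
    have h2y : 2 * y1 ≠ 0 := mul_ne_zero h2 hy0
    have hX4 : X * (2 * y1) ^ 2 = (3 * x1 ^ 2 + W.a₄) ^ 2 - 2 * x1 * (2 * y1) ^ 2 := by
      rw [hX]
      field_simp
    linear_combination (-1) * hX4 + (4 * X + 8 * x1) * e1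
  · have hD : x1 - x2 ≠ 0 := sub_ne_zero.mpr hx
    have hX := hW.add_ne h hx
    have hX4 : X * (x1 - x2) ^ 2 = (y1 - y2) ^ 2 - (x1 + x2) * (x1 - x2) ^ 2 := by
      rw [hX]
      field_simp
      ring
    have hD2 : (x1 - x2) ^ 2 ≠ 0 := pow_ne_zero _ hD
    apply mul_left_cancel₀ hD2
    rw [mul_zero]
    have hs : X * (x1 - x2) ^ 2 - ((x1 + x2) * (x1 * x2 + W.a₄) + 2 * W.a₆) = -2 * (y1 * y2) := by
      linear_combination hX4 + e1 + e2
    have hs2 : (X * (x1 - x2) ^ 2 - ((x1 + x2) * (x1 * x2 + W.a₄) + 2 * W.a₆)) ^ 2 =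
        4 * (x1 ^ 3 + W.a₄ * x1 + W.a₆) * (x2 ^ 3 + W.a₄ * x2 + W.a₆) := by
      rw [hs, ← e1, ← e2]
      ring
    linear_combination hs2

/-- the chord relations -/
lemma Short.chord (hW : Short W) (h2 : (2 : F) ≠ 0) {x1 y1 x2 y2 X Y : F}
    {n1 : W.toAffine.Nonsingular x1 y1}
    {n2 : W.toAffine.Nonsingular x2 y2} {n3 : W.toAffine.Nonsingular X Y}
    (h : Affine.Point.some x1 y1 n1 - Affine.Point.some x2 y2 n2 = Affine.Point.some X Y n3) :
    ∃ l : F, l * (x1 - x2) = y1 + y2 ∧ l * (y1 - y2) = x1 ^ 2 + x1 * x2 + x2 ^ 2 + W.a₄ ∧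
      X = l ^ 2 - x1 - x2 := by
  have e1 := hW.eqn n1
  have e2 := hW.eqn n2
  rw [sub_eq_add_neg, hW.neg_some] at h
  by_cases hx : x1 = x2
  · subst hx
    obtain ⟨hy, hy0, hX⟩ := hW.add_eq h
    have h2y : 2 * y1 ≠ 0 := mul_ne_zero h2 hy0
    refine ⟨(3 * x1 ^ 2 + W.a₄) / (2 * y1), ?_, ?_, ?_⟩
    · rw [sub_self, mul_zero, hy]
      ring
    · have : y1 - y2 = 2 * y1 := by linear_combination (-1) * hy
      rw [this, div_mul_cancel₀ _ h2y]
      ring
    · rw [hX]
      ring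
  · have hD : x1 - x2 ≠ 0 := sub_ne_zero.mpr hx
    have hX := hW.add_ne h hx
    rw [sub_neg_eq_add] at hX
    refine ⟨(y1 + y2) / (x1 - x2), div_mul_cancel₀ _ hD, ?_, hX⟩
    field_simp
    linear_combination e1 - e2

end

end Pool.Agent.TH954
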