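import Pool.Agent.TH954.Cls
import Pool.Agent.TH954.Ht

/-!
# The values of forms at rational points near a local point of the variety
-/

set_option autoImplicit false
set_option linter.unusedSectionVars false

open IsDedekindDomain NumberField WeierstrassCurve MvPolynomial

namespace Pool.Agent.TH954

section

variable {L : Type} [NormedField L] [IsUltrametricDist L] [DecidableEq L] {W : WeierstrassCurve L}

lemma sup3 (u : Fin 3 → L) {M : ℝ} (h : ∀ j, ‖u j‖ ≤ M) (j0 : Fin 3) (h0 : ‖u j0‖ = M) :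
    ⨆ j, ‖u j‖ = M := by
  apply le_antisymm
  · exact ciSup_le h
  · rw [← h0]
    exact le_ciSup (f := fun j => ‖u j‖) (Set.finite_range _).bddAbove j0

lemma crd_eq_smul_nc (hW : SI W) (T : W.toAffine.Point) : ∃ s : L, s ≠ 0 ∧
    (∀ j, crd T j = s * nc T j) ∧ ‖s‖ = ⨆ j, ‖crd T j‖ := by
  match T with
  | .zero =>
    refine ⟨1, one_ne_zero, fun j => ?_, ?_⟩
    · rw [one_mul]; rfl
    · rw [norm_one]
      symm
      refine sup3 _ (fun j => ?_) 1 ?_
      · fin_cases j <;> simp [crd]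
      · simp [crd]
  | .some x y h =>
    by_cases hx : ‖x‖ ≤ 1
    · have hy := hW.norm_y_le_one h hx
      refine ⟨1, one_ne_zero, fun j => ?_, ?_⟩
      · rw [one_mul, nc_int hx]; rfl
      · rw [norm_one]
        symm
        refine sup3 _ (fun j => ?_) 2 ?_
        · fin_cases j
          · exact hx
          · exact hy
          · simp [crd]
        · simp [crd]
    · rw [not_le] at hx
      have hy0 := hW.norm_y_pos h hx
      have hyne : y ≠ 0 := norm_pos_iff.mp hy0
      have hy2 := hW.norm_y_eq h hx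
      have hxy : ‖x‖ ≤ ‖y‖ := by
        by_contra hc
        rw [not_le] at hc
        have h1 : ‖y‖ ^ 2 < ‖x‖ ^ 2 := pow_lt_pow_left₀ hc (norm_nonneg _) (by norm_num)
        have h2 : ‖x‖ ^ 2 ≤ ‖x‖ ^ 3 := pow_le_pow_right₀ hx.le (by norm_num)
        linarith
      refine ⟨y, hyne, fun j => ?_, ?_⟩
      · rw [nc_non hx]
        fin_cases j
        · change x = y * (x / y)
          field_simp
        · change y = y * 1
          ring
        · change 1 = y * (1 / y)
          field_simp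
      · symm
        refine sup3 _ (fun j => ?_) 1 rfl
        fin_cases j
        · exact hxy
        · exact le_rfl
        · change ‖(1 : L)‖ ≤ ‖y‖
          rw [norm_one]
          exact hx.le.trans hxy

/-- value of a form at points near a zero of the form -/
lemma form_bound (hW : SI W) (h2 : (2 : L) ≠ 0) {n : ℕ} {d : Fin n → ℕ}
    {f : MvPolynomial (Fin n × Fin 3) L} (hf : MultiHom d f) {c : ℝ} (hc0 : 0 ≤ c)
    (hc : ∀ m, ‖coeff m f‖ ≤ c) (x Q : Fin n → W.toAffine.Point)
    (hx : eval (fun p => crd (x p.1) p.2) f = 0) {R : ℝ} (hR : 1 < R)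
    (hQ : ∀ i, Big R (x i - Q i)) :
    ‖eval (fun p => crd (Q p.1) p.2) f‖ ^ 2 * R ≤
      c ^ 2 * ∏ i, (⨆ j, ‖crd (Q i) j‖) ^ (2 * d i) := by
  have e1 := fun i => crd_eq_smul_nc hW (x i)
  have e2 := fun i => crd_eq_smul_nc hW (Q i)
  choose s hs0 hs1 hs2 using e1
  choose t ht0 ht1 ht2 using e2
  have h3 : eval (fun p : Fin n × Fin 3 => nc (x p.1) p.2) f = 0 := by
    have h4 : (fun p : Fin n × Fin 3 => crd (x p.1) p.2) =
        fun p => s p.1 * (fun p : Fin n × Fin 3 => nc (x p.1) p.2) p := by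
      funext p
      exact hs1 p.1 p.2
    rw [h4, hf.eval_smul, mul_eq_zero] at hx
    rcases hx with hx | hx
    · exfalso
      rw [Finset.prod_eq_zero_iff] at hx
      obtain ⟨i, -, hi⟩ := hx
      exact pow_ne_zero _ (hs0 i) hi
    · exact hx
  have h5 : (fun p : Fin n × Fin 3 => crd (Q p.1) p.2) =
      fun p => t p.1 * (fun p : Fin n × Fin 3 => nc (Q p.1) p.2) p := by
    funext p
    exact ht1 p.1 p.2
  have hR0 : 0 < R := by linarith
  set e : ℝ := (√R)⁻¹ with he
  have he0 : 0 ≤ e := by positivity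
  have heR : e ^ 2 * R = 1 := by
    rw [he, inv_pow, Real.sq_sqrt hR0.le]
    field_simp
  have h6 : ‖eval (fun p : Fin n × Fin 3 => nc (Q p.1) p.2) f‖ ≤ c * e := by
    have h7 := norm_eval_sub_le f hc0 he0 hc
      (u := fun p : Fin n × Fin 3 => nc (Q p.1) p.2) (w := fun p : Fin n × Fin 3 => nc (x p.1) p.2)
      (fun p => nc_le_one hW _ _) (fun p => nc_le_one hW _ _) (fun p => by
        have h8 := hW.near_of_big h2 hR (hQ p.1) p.2
        rw [norm_sub_rev]
        have h9 : ‖nc (x p.1) p.2 - nc (Q p.1) p.2‖ ^ 2 * R ≤ e ^ 2 * R := by rw [heR]; exact h8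
        have h10 := le_of_mul_le_mul_right h9 hR0
        exact (pow_le_pow_iff_left₀ (norm_nonneg _) he0 (by norm_num)).mp h10)
    rwa [h3, sub_zero] at h7
  rw [h5, hf.eval_smul, norm_mul, norm_prod, mul_pow]
  have h11 : (∏ i, ‖t i ^ d i‖) ^ 2 = ∏ i, (⨆ j, ‖crd (Q i) j‖) ^ (2 * d i) := by
    rw [← Finset.prod_pow]
    refine Finset.prod_congr rfl (fun i _ => ?_)
    rw [norm_pow, ← pow_mul, mul_comm (d i), ht2 i]
  rw [h11]
  have h12 : ‖eval (fun p : Fin n × Fin 3 => nc (Q p.1) p.2) f‖ ^ 2 * R ≤ c ^ 2 := by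
    calc _ ≤ (c * e) ^ 2 * R :=
          mul_le_mul_of_nonneg_right (pow_le_pow_left₀ (norm_nonneg _) h6 2) hR0.le
      _ = c ^ 2 * (e ^ 2 * R) := by ring
      _ = c ^ 2 := by rw [heR, mul_one]
  have h13 : 0 ≤ ∏ i, (⨆ j, ‖crd (Q i) j‖) ^ (2 * d i) :=
    Finset.prod_nonneg (fun i _ => pow_nonneg (Real.iSup_nonneg (fun j => norm_nonneg _)) _)
  nlinarith

/-- trivial bound -/
lemma form_bound' (hW : SI W) {n : ℕ} {d : Fin n → ℕ}
    {f : MvPolynomial (Fin n × Fin 3) L} (hf : MultiHom d f) {c : ℝ} (hc0 : 0 ≤ c)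
    (hc : ∀ m, ‖coeff m f‖ ≤ c) (Q : Fin n → W.toAffine.Point) :
    ‖eval (fun p => crd (Q p.1) p.2) f‖ ^ 2 ≤
      c ^ 2 * ∏ i, (⨆ j, ‖crd (Q i) j‖) ^ (2 * d i) := by
  have e2 := fun i => crd_eq_smul_nc hW (Q i)
  choose t ht0 ht1 ht2 using e2
  have h5 : (fun p : Fin n × Fin 3 => crd (Q p.1) p.2) =
      fun p => t p.1 * (fun p : Fin n × Fin 3 => nc (Q p.1) p.2) p := by
    funext p
    exact ht1 p.1 p.2
  have h6 : ‖eval (fun p : Fin n × Fin 3 => nc (Q p.1) p.2) f‖ ≤ c :=
    norm_eval_le f hc0 hc (fun p => nc_le_one hW _ _)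
  rw [h5, hf.eval_smul, norm_mul, norm_prod, mul_pow]
  have h11 : (∏ i, ‖t i ^ d i‖) ^ 2 = ∏ i, (⨆ j, ‖crd (Q i) j‖) ^ (2 * d i) := by
    rw [← Finset.prod_pow]
    refine Finset.prod_congr rfl (fun i _ => ?_)
    rw [norm_pow, ← pow_mul, mul_comm (d i), ht2 i]
  rw [h11, mul_comm]
  refine mul_le_mul_of_nonneg_right (pow_le_pow_left₀ (norm_nonneg _) h6 2) ?_
  exact Finset.prod_nonneg (fun i _ => pow_nonneg (Real.iSup_nonneg (fun j => norm_nonneg _)) _)

end

variable {K : Type} [Field K] [NumberField K] [DecidableEq K]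

lemma crd_loc {F L : Type} [Field F] [Field L] [DecidableEq F] [DecidableEq L] [Algebra F L]
    (E : WeierstrassCurve F) (Q : E.toAffine.Point) (j : Fin 3) :
    crd (locHom (L := L) E Q) j = algebraMap F L (crd Q j) := by
  match Q with
  | .zero =>
    have : locHom (L := L) E (Affine.Point.zero) = 0 := map_zero _
    rw [this, crd_zero]
    fin_cases j <;> simp [crd]
  | .some x y h =>
    obtain ⟨h', e⟩ := locHom_some (L := L) E h
    rw [e]
    fin_cases j <;> simp [crd]

lemma eval_loc {F L : Type} [Field F] [Field L] [DecidableEq F] [DecidableEq L] [Algebra F L]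
    (E : WeierstrassCurve F) {n : ℕ} (Q : Fin n → E.toAffine.Point)
    (f : MvPolynomial (Fin n × Fin 3) F) :
    eval (fun p => crd (locHom (L := L) E (Q p.1)) p.2) (map (algebraMap F L) f) =
      algebraMap F L (eval (fun p => crd (Q p.1) p.2) f) := by
  have : (fun p : Fin n × Fin 3 => crd (locHom (L := L) E (Q p.1)) p.2) =
      fun p => algebraMap F L (crd (Q p.1) p.2) := by
    funext p
    exact crd_loc E _ _
  rw [this, eval_map]
  exact (eval₂_comp_left (algebraMap F L) (RingHom.id F) _ f).symm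

end Pool.Agent.TH954
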