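import Pool.Agent.TH954.Loc

/-!
# Short Weierstrass curves over a nonarchimedean normed field

The filtration near the origin, and its relation with the metric of the projective plane.
-/

set_option autoImplicit false
set_option linter.unusedSectionVars false

open WeierstrassCurve

namespace Pool.Agent.TH954

section ult

variable {L : Type} [NormedField L] [IsUltrametricDist L]

lemma uadd {u v : L} {M : ℝ} (hu : ‖u‖ ≤ M) (hv : ‖v‖ ≤ M) : ‖u + v‖ ≤ M :=
  (IsUltrametricDist.norm_add_le_max u v).trans (max_le hu hv)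

lemma usub {u v : L} {M : ℝ} (hu : ‖u‖ ≤ M) (hv : ‖v‖ ≤ M) : ‖u - v‖ ≤ M := by
  rw [sub_eq_add_neg]
  exact uadd hu (by rwa [norm_neg])

lemma uadd_lt {u v : L} {M : ℝ} (hu : ‖u‖ < M) (hv : ‖v‖ < M) : ‖u + v‖ < M :=
  (IsUltrametricDist.norm_add_le_max u v).trans_lt (max_lt hu hv)

lemma usub_lt {u v : L} {M : ℝ} (hu : ‖u‖ < M) (hv : ‖v‖ < M) : ‖u - v‖ < M := by
  rw [sub_eq_add_neg]
  exact uadd_lt hu (by rwa [norm_neg])

lemma uadd_eq {u v : L} (h : ‖v‖ < ‖u‖) : ‖u + v‖ = ‖u‖ := by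
  rw [IsUltrametricDist.norm_add_eq_max_of_norm_ne_norm (ne_of_gt h), max_eq_left h.le]

lemma usub_eq {u v : L} (h : ‖v‖ < ‖u‖) : ‖u - v‖ = ‖u‖ := by
  rw [sub_eq_add_neg, uadd_eq (by rwa [norm_neg])]

lemma unat (n : ℕ) : ‖(n : L)‖ ≤ 1 := IsUltrametricDist.norm_natCast_le_one L n

lemma u2 : ‖(2 : L)‖ ≤ 1 := by exact_mod_cast unat (L := L) 2
lemma u3 : ‖(3 : L)‖ ≤ 1 := by exact_mod_cast unat (L := L) 3
lemma u4 : ‖(4 : L)‖ ≤ 1 := by exact_mod_cast unat (L := L) 4
lemma u27 : ‖(27 : L)‖ ≤ 1 := by exact_mod_cast unat (L := L) 27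

lemma umul {c u : L} {M : ℝ} (hc : ‖c‖ ≤ 1) (hu : ‖u‖ ≤ M) : ‖c * u‖ ≤ M := by
  rw [norm_mul]
  calc ‖c‖ * ‖u‖ ≤ 1 * ‖u‖ := mul_le_mul_of_nonneg_right hc (norm_nonneg _)
    _ ≤ M := by rw [one_mul]; exact hu

end ult

section

variable {L : Type} [NormedField L] {W : WeierstrassCurve L}

/-- the point is within the neighbourhood of the origin given by `R ≤ ‖x‖` -/
def Big (R : ℝ) (T : W.toAffine.Point) : Prop :=
  ∀ (x y : L) (h : W.toAffine.Nonsingular x y), T = Affine.Point.some x y h → R ≤ ‖x‖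

/-- short and integral -/
structure SI (W : WeierstrassCurve L) : Prop extends Short W where
  ha : ‖W.a₄‖ ≤ 1
  hb : ‖W.a₆‖ ≤ 1

/-- the normalised homogeneous coordinates -/
noncomputable def nc : W.toAffine.Point → Fin 3 → L
  | .zero => ![0, 1, 0]
  | .some x y _ => if ‖x‖ ≤ 1 then ![x, y, 1] else ![x / y, 1, 1 / y]

end

section

variable {L : Type} [NormedField L] [IsUltrametricDist L] [DecidableEq L] {W : WeierstrassCurve L}

lemma big_zero (R : ℝ) : Big R (0 : W.toAffine.Point) := by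
  intro x y h h0
  exact absurd h0.symm (Affine.Point.some_ne_zero h)

lemma big_mono {R R' : ℝ} (h : R' ≤ R) {T : W.toAffine.Point} (hT : Big R T) : Big R' T :=
  fun x y n e => h.trans (hT x y n e)

lemma big_some {R : ℝ} {x y : L} {h : W.toAffine.Nonsingular x y} :
    Big R (Affine.Point.some x y h) ↔ R ≤ ‖x‖ := by
  constructor
  · intro hT
    exact hT x y h rfl
  · intro hx x' y' h' e
    rw [Affine.Point.some.injEq] at e
    rw [← e.1]
    exact hx

lemma SI.big_neg (hW : SI W) {R : ℝ} {T : W.toAffine.Point} (hT : Big R T) : Big R (-T) := by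
  match T with
  | .zero => exact hT
  | .some x y h =>
    rw [hW.toShort.neg_some, big_some]
    exact big_some.mp hT

lemma SI.big_add (hW : SI W) (h2 : (2 : L) ≠ 0) {R : ℝ} (hR : 1 < R) {T1 T2 : W.toAffine.Point}
    (hT1 : Big R T1) (hT2 : Big R T2) : Big R (T1 + T2) := by
  match T1, T2 with
  | .zero, T2 =>
    have : (Affine.Point.zero : W.toAffine.Point) + T2 = T2 := zero_add T2
    rw [this]
    exact hT2
  | .some x1 y1 n1, .zero =>
    have : Affine.Point.some x1 y1 n1 + (Affine.Point.zero : W.toAffine.Point) =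
      Affine.Point.some x1 y1 n1 := add_zero _
    rw [this]
    exact hT1
  | .some x1 y1 n1, .some x2 y2 n2 =>
    intro X Y n3 h
    by_contra hX
    rw [not_le] at hX
    have hq := hW.toShort.quad h2 h
    have r1 := big_some.mp hT1
    have r2 := big_some.mp hT2
    set M : ℝ := max ‖x1‖ ‖x2‖ with hM
    have hM1 : ‖x1‖ ≤ M := le_max_left _ _
    have hM2 : ‖x2‖ ≤ M := le_max_right _ _
    have hM0 : 1 < M := lt_of_lt_of_le hR (r1.trans hM1)
    have hp : R * M ≤ ‖x1‖ * ‖x2‖ := by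
      rcases le_total ‖x1‖ ‖x2‖ with hle | hle
      · rw [hM, max_eq_right hle]
        exact mul_le_mul_of_nonneg_right r1 (norm_nonneg _)
      · rw [hM, max_eq_left hle, mul_comm]
        exact mul_le_mul_of_nonneg_left r2 (norm_nonneg _)
    set p : ℝ := ‖x1‖ * ‖x2‖ with hpdef
    have hpM : M < p := lt_of_lt_of_le (by nlinarith) hp
    have hp1 : 1 < p := hM0.trans hpM
    have hx12 : ‖x1 * x2‖ = p := norm_mul _ _
    have e1 : ‖x1 * x2 - W.a₄‖ = p := by
      rw [usub_eq (by rw [hx12]; exact lt_of_le_of_lt hW.ha hp1), hx12]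
    have e2 : ‖(x1 * x2 - W.a₄) ^ 2‖ = p ^ 2 := by rw [norm_pow, e1]
    have hs : ‖x1 + x2‖ ≤ M := uadd hM1 hM2
    have e3 : ‖4 * W.a₆ * (x1 + x2)‖ ≤ M := by
      rw [mul_assoc]
      exact umul u4 (umul hW.hb hs)
    have hpp : p < p ^ 2 := by nlinarith
    have eC : ‖(x1 * x2 - W.a₄) ^ 2 - 4 * W.a₆ * (x1 + x2)‖ = p ^ 2 := by
      rw [usub_eq, e2]
      rw [e2]
      exact lt_of_le_of_lt e3 (hpM.trans hpp)
    have eA : ‖(x1 - x2) ^ 2 * X ^ 2‖ < p ^ 2 := by
      rw [norm_mul, norm_pow, norm_pow, ← mul_pow]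
      have h3 : ‖x1 - x2‖ ≤ M := usub hM1 hM2
      have h4 : ‖x1 - x2‖ * ‖X‖ < p := by
        calc ‖x1 - x2‖ * ‖X‖ ≤ M * ‖X‖ := mul_le_mul_of_nonneg_right h3 (norm_nonneg _)
          _ < M * R := mul_lt_mul_of_pos_left hX (by linarith)
          _ ≤ p := by rw [mul_comm]; exact hp
      exact pow_lt_pow_left₀ h4 (by positivity) (by norm_num)
    have eB : ‖2 * ((x1 + x2) * (x1 * x2 + W.a₄) + 2 * W.a₆) * X‖ < p ^ 2 := by
      have h5 : ‖x1 * x2 + W.a₄‖ ≤ p := uadd hx12.le (hW.ha.trans hp1.le)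
      have h6 : ‖(x1 + x2) * (x1 * x2 + W.a₄)‖ ≤ M * p := by
        rw [norm_mul]
        exact mul_le_mul hs h5 (norm_nonneg _) (by linarith)
      have h7 : ‖(2 : L) * W.a₆‖ ≤ M * p := (umul u2 hW.hb).trans (by nlinarith)
      have h8 : ‖2 * ((x1 + x2) * (x1 * x2 + W.a₄) + 2 * W.a₆)‖ ≤ M * p := umul u2 (uadd h6 h7)
      rw [norm_mul]
      calc _ ≤ M * p * ‖X‖ := mul_le_mul_of_nonneg_right h8 (norm_nonneg _)
        _ < M * p * R := mul_lt_mul_of_pos_left hX (by positivity)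
        _ = R * M * p := by ring
        _ ≤ p * p := mul_le_mul_of_nonneg_right hp (by linarith)
        _ = p ^ 2 := by ring
    have hC : (x1 * x2 - W.a₄) ^ 2 - 4 * W.a₆ * (x1 + x2) =
        2 * ((x1 + x2) * (x1 * x2 + W.a₄) + 2 * W.a₆) * X - (x1 - x2) ^ 2 * X ^ 2 := by
      linear_combination hq
    have := usub_lt eB eA
    rw [← hC, eC] at this
    exact lt_irrefl _ this

lemma SI.big_sub (hW : SI W) (h2 : (2 : L) ≠ 0) {R : ℝ} (hR : 1 < R) {T1 T2 : W.toAffine.Point}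
    (hT1 : Big R T1) (hT2 : Big R T2) : Big R (T1 - T2) := by
  rw [sub_eq_add_neg]
  exact hW.big_add h2 hR hT1 (hW.big_neg hT2)

lemma SI.big_nsmul (hW : SI W) (h2 : (2 : L) ≠ 0) {R : ℝ} (hR : 1 < R) {T : W.toAffine.Point}
    (hT : Big R T) (n : ℕ) : Big R (n • T) := by
  induction n with
  | zero => rw [zero_smul]; exact big_zero R
  | succ n ih => rw [succ_nsmul]; exact hW.big_add h2 hR ih hT

lemma SI.big_zsmul (hW : SI W) (h2 : (2 : L) ≠ 0) {R : ℝ} (hR : 1 < R) {T : W.toAffine.Point}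
    (hT : Big R T) (n : ℤ) : Big R (n • T) := by
  rcases Int.eq_nat_or_neg n with ⟨m, rfl | rfl⟩
  · rw [natCast_zsmul]; exact hW.big_nsmul h2 hR hT m
  · rw [neg_smul, natCast_zsmul]; exact hW.big_neg (hW.big_nsmul h2 hR hT m)

/-! ### Sizes of the coordinates -/

lemma SI.norm_y_le (hW : SI W) {x y : L} (h : W.toAffine.Nonsingular x y) {M : ℝ} (hM : 1 ≤ M)
    (hx : ‖x‖ ≤ M) : ‖y‖ ^ 2 ≤ M ^ 3 := by
  rw [← norm_pow, hW.toShort.eqn h]
  have h1 : ‖x ^ 3‖ ≤ M ^ 3 := by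
    rw [norm_pow]
    exact pow_le_pow_left₀ (norm_nonneg _) hx 3
  have hM3 : M ≤ M ^ 3 := by nlinarith [mul_nonneg (by linarith : (0:ℝ) ≤ M) (by nlinarith : (0:ℝ) ≤ M ^ 2 - 1)]
  exact uadd (uadd h1 ((umul hW.ha hx).trans hM3)) (hW.hb.trans (hM.trans hM3))

lemma SI.norm_y_eq (hW : SI W) {x y : L} (h : W.toAffine.Nonsingular x y) (hx : 1 < ‖x‖) :
    ‖y‖ ^ 2 = ‖x‖ ^ 3 := by
  rw [← norm_pow, hW.toShort.eqn h]
  have h1 : ‖x ^ 3‖ = ‖x‖ ^ 3 := norm_pow _ _
  have h3 : ‖x‖ < ‖x‖ ^ 3 := by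
    nlinarith [mul_pos (by linarith : (0:ℝ) < ‖x‖) (by nlinarith : (0:ℝ) < ‖x‖ ^ 2 - 1)]
  have h4 : ‖W.a₄ * x + W.a₆‖ < ‖x ^ 3‖ := by
    rw [h1]
    exact uadd_lt ((umul hW.ha le_rfl).trans_lt h3) (hW.hb.trans_lt (hx.trans h3))
  rw [add_assoc, uadd_eq h4, h1]

lemma SI.norm_y_le_one (hW : SI W) {x y : L} (h : W.toAffine.Nonsingular x y) (hx : ‖x‖ ≤ 1) :
    ‖y‖ ≤ 1 := by
  have := hW.norm_y_le h le_rfl hx
  rw [one_pow] at this
  nlinarith [norm_nonneg y]

lemma SI.norm_y_pos (hW : SI W) {x y : L} (h : W.toAffine.Nonsingular x y) (hx : 1 < ‖x‖) :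
    0 < ‖y‖ := by
  have h1 := hW.norm_y_eq h hx
  rcases (norm_nonneg y).eq_or_lt with h0 | h0
  · rw [← h0] at h1
    have : 0 < ‖x‖ ^ 3 := by positivity
    rw [← h1] at this
    norm_num at this
  · exact h0

lemma nc_zero : nc (0 : W.toAffine.Point) = ![0, 1, 0] := rfl

lemma nc_int {x y : L} {h : W.toAffine.Nonsingular x y} (hx : ‖x‖ ≤ 1) :
    nc (Affine.Point.some x y h) = ![x, y, 1] := by
  simp only [nc, hx, if_true]

lemma nc_non {x y : L} {h : W.toAffine.Nonsingular x y} (hx : 1 < ‖x‖) :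
    nc (Affine.Point.some x y h) = ![x / y, 1, 1 / y] := by
  simp only [nc, not_le.mpr hx, if_false]

lemma SI.norm_z (hW : SI W) {x y : L} (h : W.toAffine.Nonsingular x y) (hx : 1 < ‖x‖) :
    ‖x / y‖ ^ 2 * ‖x‖ = 1 := by
  have h1 := hW.norm_y_eq h hx
  have h0 := hW.norm_y_pos h hx
  rw [norm_div, div_pow, h1]
  field_simp

lemma SI.norm_w (hW : SI W) {x y : L} (h : W.toAffine.Nonsingular x y) (hx : 1 < ‖x‖) :
    ‖1 / y‖ ^ 2 * ‖x‖ ^ 3 = 1 := by
  have h1 := hW.norm_y_eq h hx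
  have h0 := hW.norm_y_pos h hx
  rw [norm_div, div_pow, h1, norm_one]
  field_simp

lemma SI.norm_w_lt (hW : SI W) {x y : L} (h : W.toAffine.Nonsingular x y) (hx : 1 < ‖x‖) :
    ‖1 / y‖ < 1 := by
  have h1 := hW.norm_w h hx
  have h3 : 1 < ‖x‖ ^ 3 := one_lt_pow₀ hx (by norm_num)
  have h0 := norm_nonneg (1 / y)
  by_contra hc
  rw [not_lt] at hc
  have : 1 ≤ ‖1 / y‖ ^ 2 := one_le_pow₀ hc
  nlinarith

lemma SI.nc_big (hW : SI W) {R : ℝ} (hR : 1 < R) {T : W.toAffine.Point} (hT : Big R T) :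
    nc T 1 = 1 ∧ ‖nc T 0‖ ^ 2 * R ≤ 1 ∧ ‖nc T 2‖ ^ 2 * R ≤ 1 := by
  match T with
  | .zero =>
    refine ⟨rfl, ?_, ?_⟩ <;> simp [nc]
  | .some x y h =>
    have hx := big_some.mp hT
    have hx1 : 1 < ‖x‖ := hR.trans_le hx
    rw [nc_non hx1]
    refine ⟨rfl, ?_, ?_⟩
    · have := hW.norm_z h hx1
      simp only [Matrix.cons_val_zero]
      nlinarith [sq_nonneg ‖x / y‖]
    · have h3 := hW.norm_w h hx1
      have h4 : R ≤ ‖x‖ ^ 3 := by
        have h5 : 1 ≤ ‖x‖ ^ 2 := one_le_pow₀ hx1.le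
        nlinarith
      have h5 : nc (Affine.Point.some x y h) 2 = 1 / y := by rw [nc_non hx1]; rfl
      simp only [Matrix.cons_val]
      nlinarith [sq_nonneg ‖1 / y‖]

lemma SI.not_lt_of_chord (hW : SI W) {x1 y1 x2 y2 l : L} (n1 : W.toAffine.Nonsingular x1 y1)
    (n2 : W.toAffine.Nonsingular x2 y2) (hl : l * (x1 - x2) = y1 + y2) (h1 : 1 < ‖x1‖)
    (hlt : ‖x2‖ < ‖x1‖) : ‖l‖ ^ 2 = ‖x1‖ := by
  have e1 := hW.norm_y_eq n1 h1
  have e2 : ‖y2‖ < ‖y1‖ := by
    have h3 : ‖y2‖ ^ 2 < ‖y1‖ ^ 2 := by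
      rw [e1]
      rcases le_or_gt ‖x2‖ 1 with h4 | h4
      · have := hW.norm_y_le_one n2 h4
        have h5 : 1 < ‖x1‖ ^ 3 := one_lt_pow₀ h1 (by norm_num)
        have h6 : ‖y2‖ ^ 2 ≤ 1 := pow_le_one₀ (norm_nonneg _) this
        linarith
      · rw [hW.norm_y_eq n2 h4]
        exact pow_lt_pow_left₀ hlt (norm_nonneg _) (by norm_num)
    exact lt_of_pow_lt_pow_left₀ 2 (norm_nonneg _) h3
  have e3 : ‖l‖ * ‖x1‖ = ‖y1‖ := by
    rw [← usub_eq hlt, ← norm_mul, hl, uadd_eq e2]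
  have e4 : ‖l‖ ^ 2 * ‖x1‖ ^ 2 = ‖x1‖ * ‖x1‖ ^ 2 := by
    rw [← mul_pow, e3, e1]
    ring
  exact mul_right_cancel₀ (by positivity) e4

lemma sub_sq_le {u v : L} {R : ℝ} (hu : ‖u‖ ^ 2 * R ≤ 1)
    (hv : ‖v‖ ^ 2 * R ≤ 1) : ‖u - v‖ ^ 2 * R ≤ 1 := by
  rcases le_total ‖u‖ ‖v‖ with h | h
  · have h1 : ‖u - v‖ ≤ ‖v‖ := usub h le_rfl
    rcases le_or_gt 0 R with h0 | h0
    · refine le_trans (mul_le_mul_of_nonneg_right ?_ h0) hv
      exact pow_le_pow_left₀ (norm_nonneg _) h1 2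
    · exact le_trans (mul_nonpos_of_nonneg_of_nonpos (sq_nonneg _) h0.le) zero_le_one
  · have h1 : ‖u - v‖ ≤ ‖u‖ := usub le_rfl h
    rcases le_or_gt 0 R with h0 | h0
    · refine le_trans (mul_le_mul_of_nonneg_right ?_ h0) hu
      exact pow_le_pow_left₀ (norm_nonneg _) h1 2
    · exact le_trans (mul_nonpos_of_nonneg_of_nonpos (sq_nonneg _) h0.le) zero_le_one

lemma sq_bd {u l t : L} {R : ℝ} (hR : R ≤ ‖l‖ ^ 2) (h : l * u = t) (ht : ‖t‖ ≤ 1) :
    ‖u‖ ^ 2 * R ≤ 1 := by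
  calc ‖u‖ ^ 2 * R ≤ ‖u‖ ^ 2 * ‖l‖ ^ 2 := mul_le_mul_of_nonneg_left hR (sq_nonneg _)
    _ = ‖t‖ ^ 2 := by rw [← h, norm_mul]; ring
    _ ≤ 1 := pow_le_one₀ (norm_nonneg _) ht

/-- Points whose difference is near the origin are near each other. -/
lemma SI.near_of_big (hW : SI W) (h2 : (2 : L) ≠ 0) {R : ℝ} (hR : 1 < R)
    {T1 T2 : W.toAffine.Point} (hT : Big R (T1 - T2)) (j : Fin 3) :
    ‖nc T1 j - nc T2 j‖ ^ 2 * R ≤ 1 := by
  by_cases hB : Big R T1
  · have hB2 : Big R T2 := by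
      have : T2 = T1 - (T1 - T2) := by abel
      rw [this]
      exact hW.big_sub h2 hR hB hT
    obtain ⟨a1, a0, a2⟩ := hW.nc_big hR hB
    obtain ⟨b1, b0, b2⟩ := hW.nc_big hR hB2
    fin_cases j
    · exact sub_sq_le a0 b0
    · simp only [Fin.mk_one]
      rw [a1, b1]
      simp
    · exact sub_sq_le a2 b2
  · have hB2 : ¬ Big R T2 := by
      intro hB2
      apply hB
      have : T1 = (T1 - T2) + T2 := by abel
      rw [this]
      exact hW.big_add h2 hR hT hB2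
    match T1, T2 with
    | .zero, _ => exact absurd (big_zero R) hB
    | .some _ _ _, .zero => exact absurd (big_zero R) hB2
    | .some x1 y1 n1, .some x2 y2 n2 =>
      rw [big_some, not_le] at hB hB2
      generalize hT3 : Affine.Point.some x1 y1 n1 - Affine.Point.some x2 y2 n2 = T3 at hT
      match T3 with
      | .zero =>
        have : Affine.Point.some x1 y1 n1 = Affine.Point.some x2 y2 n2 := sub_eq_zero.mp hT3
        rw [this]
        simp
      | .some X Y n3 =>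
        have hX := big_some.mp hT
        obtain ⟨l, hl1, hl2, hl3⟩ := hW.toShort.chord h2 hT3
        have hl : R ≤ ‖l‖ ^ 2 := by
          have : l ^ 2 = X + (x1 + x2) := by rw [hl3]; ring
          rw [← norm_pow, this, uadd_eq]
          · exact hX
          · exact (uadd_lt hB hB2).trans_le hX
        have hno1 : ∀ {x1 y1 x2 y2 : L} (n1 : W.toAffine.Nonsingular x1 y1)
            (n2 : W.toAffine.Nonsingular x2 y2) (hl : l * (x1 - x2) = y1 + y2) (h1 : 1 < ‖x1‖)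
            (hB : ‖x1‖ < R), ¬ ‖x2‖ < ‖x1‖ := by
          intro x1 y1 x2 y2 n1 n2 hl' h1 hB hlt
          have := hW.not_lt_of_chord n1 n2 hl' h1 hlt
          linarith
        rcases le_or_gt ‖x1‖ 1 with h1 | h1
        · have h1' : ‖x2‖ ≤ 1 := by
            by_contra hc
            rw [not_le] at hc
            have hl' : (-l) * (x2 - x1) = y2 + y1 := by linear_combination hl1
            have := hW.not_lt_of_chord n2 n1 hl' hc (lt_of_le_of_lt h1 hc)
            rw [norm_neg] at this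
            linarith
          have hy1 := hW.norm_y_le_one n1 h1
          have hy2 := hW.norm_y_le_one n2 h1'
          rw [nc_int h1, nc_int h1']
          fin_cases j
          · exact sq_bd hl hl1 (uadd hy1 hy2)
          · refine sq_bd hl hl2 (uadd (uadd (uadd ?_ ?_) ?_) hW.ha)
            · rw [norm_pow]; exact pow_le_one₀ (norm_nonneg _) h1
            · exact umul h1 h1'
            · rw [norm_pow]; exact pow_le_one₀ (norm_nonneg _) h1'
          · simp
        · have hn1 := hno1 n1 n2 hl1 h1 hB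
          have h1' : 1 < ‖x2‖ := lt_of_lt_of_le h1 (not_lt.mp hn1)
          have hn2 : ¬ ‖x1‖ < ‖x2‖ := by
            intro hlt
            have hl' : (-l) * (x2 - x1) = y2 + y1 := by linear_combination hl1
            have := hW.not_lt_of_chord n2 n1 hl' h1' hlt
            rw [norm_neg] at this
            linarith
          have hxx : ‖x1‖ = ‖x2‖ := le_antisymm (not_lt.mp hn1) (not_lt.mp hn2)
          have ey1 := hW.norm_y_eq n1 h1
          have ey2 := hW.norm_y_eq n2 h1'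
          have hy1 := hW.norm_y_pos n1 h1
          have hy2 := hW.norm_y_pos n2 h1'
          have hyy : ‖y1‖ = ‖y2‖ := by
            have : ‖y1‖ ^ 2 = ‖y2‖ ^ 2 := by rw [ey1, ey2, hxx]
            exact (pow_left_inj₀ (norm_nonneg _) (norm_nonneg _) (by norm_num)).mp this
          have hy10 : y1 ≠ 0 := norm_pos_iff.mp hy1
          have hy20 : y2 ≠ 0 := norm_pos_iff.mp hy2
          have hq : ‖l * (y1 - y2)‖ ≤ ‖x1‖ ^ 2 := by
            rw [hl2]
            refine uadd (uadd (uadd ?_ ?_) ?_) ?_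
            · rw [norm_pow]
            · rw [norm_mul, hxx, sq]
            · rw [norm_pow, hxx]
            · exact hW.ha.trans (one_le_pow₀ h1.le)
          rw [nc_non h1, nc_non h1']
          fin_cases j
          · refine sq_bd hl (u := x1 / y1 - x2 / y2)
              (t := (x2 * (l * (y2 - y1)) + y2 * (l * (x1 - x2))) / (y1 * y2)) ?_ ?_
            · field_simp
              ring
            · rw [norm_div, norm_mul, div_le_one (by positivity)]
              have e1 : ‖x2 * (l * (y2 - y1))‖ ≤ ‖y1‖ * ‖y2‖ := by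
                have : l * (y2 - y1) = -(l * (y1 - y2)) := by ring
                rw [norm_mul, this, norm_neg, ← hxx, ← hyy, ← sq, ey1]
                nlinarith [norm_nonneg x1]
              have e2 : ‖y2 * (l * (x1 - x2))‖ ≤ ‖y1‖ * ‖y2‖ := by
                rw [norm_mul, hl1, mul_comm]
                exact mul_le_mul_of_nonneg_right (uadd le_rfl hyy.symm.le) (norm_nonneg _)
              exact uadd e1 e2
          · simp
          · refine sq_bd hl (u := 1 / y1 - 1 / y2)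
              (t := (l * (y2 - y1)) / (y1 * y2)) ?_ ?_
            · field_simp
            · rw [norm_div, norm_mul y1, div_le_one (by positivity)]
              have : l * (y2 - y1) = -(l * (y1 - y2)) := by ring
              rw [this, norm_neg, ← hyy, ← sq, ey1]
              refine hq.trans ?_
              exact pow_le_pow_right₀ h1.le (by norm_num)

end

end Pool.Agent.TH954
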