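import Pool.Agent.TH954.NA

/-!
# Points near each other have a difference near the origin
-/

set_option autoImplicit false
set_option linter.unusedSectionVars false

open WeierstrassCurve

namespace Pool.Agent.TH954

variable {L : Type} [NormedField L] [IsUltrametricDist L] [DecidableEq L] {W : WeierstrassCurve L}

/-- being near the origin is stable under small perturbation -/
lemma SI.big_of_near (hW : SI W) {R d : ℝ} (hR : 1 < R) (hd1 : d ≤ 1) (hd : d ^ 2 * R ≤ 1)
    {T1 T2 : W.toAffine.Point} (hT : ∀ j, ‖nc T1 j - nc T2 j‖ < d) (hB : Big R T1) : Big R T2 := by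
  match T2 with
  | .zero => exact big_zero R
  | .some x y h =>
    obtain ⟨a1, a0, a2⟩ := hW.nc_big hR hB
    rw [big_some]
    have hw : ‖nc T1 2‖ < 1 := by
      by_contra hc
      rw [not_lt] at hc
      have : 1 ≤ ‖nc T1 2‖ ^ 2 := one_le_pow₀ hc
      nlinarith
    have hx1 : 1 < ‖x‖ := by
      by_contra hc
      rw [not_lt] at hc
      have h2 := hT 2
      rw [nc_int hc] at h2
      have h3 : ‖nc T1 2 - 1‖ = 1 := by
        rw [norm_sub_rev, usub_eq (by rwa [norm_one]), norm_one]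
      have h4 : (![x, y, 1] : Fin 3 → L) 2 = 1 := rfl
      rw [h4, h3] at h2
      linarith
    have h5 := hT 0
    rw [nc_non hx1] at h5
    have h6 : (![x / y, 1, 1 / y] : Fin 3 → L) 0 = x / y := rfl
    rw [h6] at h5
    have h7 : ‖x / y‖ ^ 2 * R ≤ 1 := by
      have h8 : x / y = nc T1 0 - (nc T1 0 - x / y) := by ring
      rw [h8]
      apply sub_sq_le a0
      refine le_trans (mul_le_mul_of_nonneg_right ?_ (by linarith)) hd
      exact pow_le_pow_left₀ (norm_nonneg _) h5.le 2
    have h8 := hW.norm_z h hx1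
    have h9 : 0 < ‖x / y‖ ^ 2 := by
      by_contra hc
      have h10 : ‖x / y‖ ^ 2 = 0 := le_antisymm (not_lt.mp hc) (sq_nonneg _)
      rw [h10, zero_mul] at h8
      norm_num at h8
    by_contra hc
    rw [not_le] at hc
    nlinarith

/-- Points near each other have a difference near the origin. -/
lemma SI.exists_near (hW : SI W) (h2 : (2 : L) ≠ 0)
    (hD : 4 * W.a₄ ^ 3 + 27 * W.a₆ ^ 2 ≠ 0) {R : ℝ} (hR : 1 < R) :
    ∃ d : ℝ, 0 < d ∧ d ≤ 1 ∧ ∀ T1 T2 : W.toAffine.Point, (∀ j, ‖nc T1 j - nc T2 j‖ < d) →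
      Big R (T1 - T2) := by
  have h4 : (4 : L) ≠ 0 := by
    have : (4 : L) = 2 * 2 := by norm_num
    rw [this]
    exact mul_ne_zero h2 h2
  set D : L := 4 * (4 * W.a₄ ^ 3 + 27 * W.a₆ ^ 2) with hDdef
  have hD0 : 0 < ‖D‖ := norm_pos_iff.mpr (mul_ne_zero h4 hD)
  have hR11 : 0 < R ^ 11 := by positivity
  refine ⟨min (1 / R) (‖D‖ / (2 * R ^ 11)), ?_, ?_, ?_⟩
  · exact lt_min (by positivity) (by positivity)
  · refine (min_le_left _ _).trans ?_
    rw [div_le_one (by linarith)]
    exact hR.le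
  intro T1 T2 hT
  set d : ℝ := min (1 / R) (‖D‖ / (2 * R ^ 11)) with hd
  have hd0 : 0 < d := lt_min (by positivity) (by positivity)
  have hdR : d ≤ 1 / R := min_le_left _ _
  have hdD : d ≤ ‖D‖ / (2 * R ^ 11) := min_le_right _ _
  have hdR' : d * R ≤ 1 := by
    rw [le_div_iff₀ (by linarith)] at hdR
    exact hdR
  have hd1 : d ≤ 1 := by nlinarith
  have hd2 : d ^ 2 * R ≤ 1 := by nlinarith
  by_cases hB : Big R T1
  · exact hW.big_sub h2 hR hB (hW.big_of_near hR hd1 hd2 hT hB)
  by_cases hB2 : Big R T2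
  · refine hW.big_sub h2 hR (hW.big_of_near hR hd1 hd2 (fun j => ?_) hB2) hB2
    rw [norm_sub_rev]
    exact hT j
  match T1, T2 with
  | .zero, _ => exact absurd (big_zero R) hB
  | .some _ _ _, .zero => exact absurd (big_zero R) hB2
  | .some x1 y1 n1, .some x2 y2 n2 =>
    rw [big_some, not_le] at hB hB2
    generalize hT3 : Affine.Point.some x1 y1 n1 - Affine.Point.some x2 y2 n2 = T3
    match T3 with
    | .zero => exact big_zero R
    | .some X Y n3 =>
      rw [big_some]
      by_contra hX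
      rw [not_le] at hX
      obtain ⟨l, hl1, hl2, hl3⟩ := hW.toShort.chord h2 hT3
      have hl : ‖l‖ < R := by
        have h5 : l ^ 2 = X + (x1 + x2) := by rw [hl3]; ring
        have h6 : ‖l‖ ^ 2 < R := by
          rw [← norm_pow, h5]
          exact uadd_lt hX (uadd_lt hB hB2)
        nlinarith [norm_nonneg l]
      have hy1 : ‖y1‖ ^ 2 ≤ R ^ 3 := hW.norm_y_le n1 hR.le hB.le
      have hy2 : ‖y2‖ ^ 2 ≤ R ^ 3 := hW.norm_y_le n2 hR.le hB2.le
      have hy12 : ‖y1‖ * ‖y2‖ ≤ R ^ 3 := by nlinarith [sq_nonneg (‖y1‖ - ‖y2‖)]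
      have hy1' : ‖y1‖ ≤ R ^ 3 := by
        have h7 : 1 ≤ R ^ 3 := one_le_pow₀ hR.le
        nlinarith [norm_nonneg y1]
      have hy2' : ‖y2‖ ≤ R ^ 3 := by
        have h7 : 1 ≤ R ^ 3 := one_le_pow₀ hR.le
        nlinarith [norm_nonneg y2]
      have hR3 : 1 ≤ R ^ 3 := one_le_pow₀ hR.le
      have key : ‖x1 - x2‖ ≤ d * R ^ 3 ∧ ‖y1 - y2‖ ≤ d * R ^ 3 := by
        have h20 := hT 0
        have h21 := hT 1
        have h22 := hT 2
        rcases le_or_gt ‖x1‖ 1 with h1 | h1
        · rcases le_or_gt ‖x2‖ 1 with h1' | h1'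
          · rw [nc_int h1, nc_int h1'] at h20 h21
            have a0 : ‖x1 - x2‖ < d := h20
            have a1 : ‖y1 - y2‖ < d := h21
            have : d ≤ d * R ^ 3 := by nlinarith
            exact ⟨a0.le.trans this, a1.le.trans this⟩
          · exfalso
            rw [nc_int h1, nc_non h1'] at h22
            have a2 : ‖1 - 1 / y2‖ < d := h22
            rw [usub_eq (by rw [norm_one]; exact hW.norm_w_lt n2 h1'), norm_one] at a2
            linarith
        · rcases le_or_gt ‖x2‖ 1 with h1' | h1'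
          · exfalso
            rw [nc_non h1, nc_int h1'] at h22
            have a2 : ‖1 / y1 - 1‖ < d := h22
            rw [norm_sub_rev, usub_eq (by rw [norm_one]; exact hW.norm_w_lt n1 h1), norm_one] at a2
            linarith
          · rw [nc_non h1, nc_non h1'] at h20 h22
            have a0 : ‖x1 / y1 - x2 / y2‖ < d := h20
            have a2 : ‖1 / y1 - 1 / y2‖ < d := h22
            have hy10 : y1 ≠ 0 := norm_pos_iff.mp (hW.norm_y_pos n1 h1)
            have hy20 : y2 ≠ 0 := norm_pos_iff.mp (hW.norm_y_pos n2 h1')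
            have b1 : ‖y1 - y2‖ ≤ d * R ^ 3 := by
              have : y1 - y2 = -((1 / y1 - 1 / y2) * (y1 * y2)) := by
                field_simp
                ring
              rw [this, norm_neg, norm_mul, norm_mul]
              exact mul_le_mul a2.le hy12 (by positivity) hd0.le
            refine ⟨?_, b1⟩
            have : x1 - x2 = (x1 / y1) * (y1 - y2) + (x1 / y1 - x2 / y2) * y2 := by
              field_simp
              ring
            rw [this]
            have hz : ‖x1 / y1‖ ≤ 1 := by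
              have := hW.norm_z n1 h1
              by_contra hc
              rw [not_le] at hc
              have h8 : 1 ≤ ‖x1 / y1‖ ^ 2 := one_le_pow₀ hc.le
              nlinarith
            refine uadd (umul hz b1) ?_
            rw [norm_mul]
            exact mul_le_mul a0.le hy2' (norm_nonneg _) hd0.le
      obtain ⟨kx, ky⟩ := key
      have hdR4 : d * R ^ 3 ≤ d * R ^ 4 := by
        have : R ^ 4 = R ^ 3 * R := by ring
        have h9 : 0 < d * R ^ 3 := by positivity
        rw [this]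
        nlinarith
      have c1 : ‖2 * y1‖ ≤ d * R ^ 4 := by
        have : 2 * y1 = (y1 + y2) + (y1 - y2) := by ring
        rw [this, ← hl1]
        refine uadd ?_ (ky.trans hdR4)
        rw [norm_mul]
        calc ‖l‖ * ‖x1 - x2‖ ≤ R * (d * R ^ 3) :=
              mul_le_mul hl.le kx (norm_nonneg _) (by linarith)
          _ = d * R ^ 4 := by ring
      have c2 : ‖3 * x1 ^ 2 + W.a₄‖ ≤ d * R ^ 4 := by
        have : 3 * x1 ^ 2 + W.a₄ = l * (y1 - y2) + (x1 - x2) * (2 * x1 + x2) := by
          rw [hl2]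
          ring
        rw [this]
        refine uadd ?_ ?_
        · rw [norm_mul]
          calc ‖l‖ * ‖y1 - y2‖ ≤ R * (d * R ^ 3) :=
                mul_le_mul hl.le ky (norm_nonneg _) (by linarith)
            _ = d * R ^ 4 := by ring
        · rw [norm_mul]
          calc ‖x1 - x2‖ * ‖2 * x1 + x2‖ ≤ (d * R ^ 3) * R :=
                mul_le_mul kx (uadd (umul u2 hB.le) hB2.le) (norm_nonneg _) (by positivity)
            _ = d * R ^ 4 := by ring
      have e1 := hW.toShort.eqn n1
      have hid : D = 4 * ((3 * x1 ^ 2 + 4 * W.a₄) * (3 * x1 ^ 2 + W.a₄) ^ 2) -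
          27 * ((x1 ^ 3 + W.a₄ * x1 - W.a₆) * (2 * y1) ^ 2) := by
        rw [hDdef]
        linear_combination 108 * (x1 ^ 3 + W.a₄ * x1 - W.a₆) * e1
      have c3 : ‖3 * x1 ^ 2 + 4 * W.a₄‖ ≤ R ^ 3 := by
        refine uadd (umul u3 ?_) ((umul u4 hW.ha).trans hR3)
        rw [norm_pow]
        calc ‖x1‖ ^ 2 ≤ R ^ 2 := pow_le_pow_left₀ (norm_nonneg _) hB.le 2
          _ ≤ R ^ 3 := pow_le_pow_right₀ hR.le (by norm_num)
      have hRR3 : R ≤ R ^ 3 := by
        calc R = R ^ 1 := (pow_one R).symm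
          _ ≤ R ^ 3 := pow_le_pow_right₀ hR.le (by norm_num)
      have c4 : ‖x1 ^ 3 + W.a₄ * x1 - W.a₆‖ ≤ R ^ 3 := by
        refine usub (uadd ?_ ((umul hW.ha hB.le).trans hRR3)) (hW.hb.trans hR3)
        rw [norm_pow]
        exact pow_le_pow_left₀ (norm_nonneg _) hB.le 3
      have c5 : ∀ u t : L, ‖u‖ ≤ R ^ 3 → ‖t‖ ≤ d * R ^ 4 → ‖u * t ^ 2‖ ≤ d * R ^ 11 := by
        intro u t hu ht
        rw [norm_mul, norm_pow]
        calc ‖u‖ * ‖t‖ ^ 2 ≤ R ^ 3 * (d * R ^ 4) ^ 2 :=
              mul_le_mul hu (pow_le_pow_left₀ (norm_nonneg _) ht 2) (by positivity) (by positivity)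
          _ = d * (d * R ^ 11) := by ring
          _ ≤ 1 * (d * R ^ 11) := mul_le_mul_of_nonneg_right hd1 (by positivity)
          _ = d * R ^ 11 := one_mul _
      have c6 : ‖D‖ ≤ d * R ^ 11 := by
        rw [hid]
        exact usub (umul u4 (c5 _ _ c3 c2)) (umul u27 (c5 _ _ c4 c1))
      rw [le_div_iff₀ (by positivity)] at hdD
      nlinarith

end Pool.Agent.TH954
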