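import Pool.Agent.TH954.Main

/-!
# The metric of the projective plane, and the case of torsion
-/

set_option autoImplicit false
set_option linter.unusedSectionVars false

open IsDedekindDomain NumberField WeierstrassCurve MvPolynomial Height Function

namespace Pool.Agent.TH954

open Pool.Agent.TH942

/-- Two homogeneous coordinate vectors have rescalings of norm one at distance less than `ε`. -/
def Near {L : Type} [NormedField L] (ε : ℝ) (u w : Fin 3 → L) : Prop :=
  ∃ c d : L, ‖c • u‖ = 1 ∧ ‖d • w‖ = 1 ∧ ‖c • u - d • w‖ < ε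

section

variable {L : Type} [NormedField L] [IsUltrametricDist L] [DecidableEq L] {W : WeierstrassCurve L}

lemma norm_smul_nc (hW : SI W) (T : W.toAffine.Point) (u : L) : ‖u • nc T‖ = ‖u‖ := by
  rw [norm_smul]
  have h1 : ‖nc T‖ = 1 := by
    apply le_antisymm
    · rw [pi_norm_le_iff_of_nonneg zero_le_one]
      exact nc_le_one hW T
    · match T with
      | .zero =>
        refine le_trans ?_ (norm_le_pi_norm _ (1 : Fin 3))
        simp [nc]
      | .some x y h =>
        by_cases hx : ‖x‖ ≤ 1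
        · refine le_trans ?_ (norm_le_pi_norm _ (2 : Fin 3))
          rw [nc_int hx]
          simp
        · refine le_trans ?_ (norm_le_pi_norm _ (1 : Fin 3))
          rw [nc_non (not_le.mp hx)]
          simp
  rw [h1, mul_one]

/-- the two charts -/
lemma nc_chart (hW : SI W) (T : W.toAffine.Point) : nc T 2 = 1 ∨ (nc T 1 = 1 ∧ ‖nc T 2‖ < 1) := by
  match T with
  | .zero => right; simp [nc]
  | .some x y h =>
    by_cases hx : ‖x‖ ≤ 1
    · left
      rw [nc_int hx]
      rfl
    · right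
      rw [not_le] at hx
      rw [nc_non hx]
      exact ⟨rfl, hW.norm_w_lt h hx⟩

lemma near_of_nc (hW : SI W) {T1 T2 : W.toAffine.Point} {ε : ℝ} (hε : 0 < ε)
    (h : ∀ j, ‖nc T1 j - nc T2 j‖ < ε) : Near ε (crd T1) (crd T2) := by
  obtain ⟨s, hs0, hs1, -⟩ := crd_eq_smul_nc hW T1
  obtain ⟨t, ht0, ht1, -⟩ := crd_eq_smul_nc hW T2
  have e1 : s⁻¹ • crd T1 = nc T1 := by
    funext j
    rw [Pi.smul_apply, smul_eq_mul, hs1 j]
    field_simp
  have e2 : t⁻¹ • crd T2 = nc T2 := by
    funext j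
    rw [Pi.smul_apply, smul_eq_mul, ht1 j]
    field_simp
  refine ⟨s⁻¹, t⁻¹, ?_, ?_, ?_⟩
  · rw [e1]
    have := norm_smul_nc hW T1 1
    rwa [one_smul, norm_one] at this
  · rw [e2]
    have := norm_smul_nc hW T2 1
    rwa [one_smul, norm_one] at this
  · rw [e1, e2, pi_norm_lt_iff hε]
    exact h

lemma nc_of_near (hW : SI W) {T1 T2 : W.toAffine.Point} {ε : ℝ} (hε0 : 0 < ε) (hε : ε ≤ 1)
    (h : Near ε (crd T1) (crd T2)) (j : Fin 3) : ‖nc T1 j - nc T2 j‖ < ε := by
  obtain ⟨c, d, h1, h2, h3⟩ := h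
  obtain ⟨s, hs0, hs1, -⟩ := crd_eq_smul_nc hW T1
  obtain ⟨t, ht0, ht1, -⟩ := crd_eq_smul_nc hW T2
  have e1 : c • crd T1 = (c * s) • nc T1 := by
    funext j
    rw [Pi.smul_apply, Pi.smul_apply, smul_eq_mul, smul_eq_mul, hs1 j]
    ring
  have e2 : d • crd T2 = (d * t) • nc T2 := by
    funext j
    rw [Pi.smul_apply, Pi.smul_apply, smul_eq_mul, smul_eq_mul, ht1 j]
    ring
  rw [e1] at h1 h3
  rw [e2] at h2 h3
  rw [norm_smul_nc hW] at h1 h2
  generalize c * s = u at h1 h3
  generalize d * t = w at h2 h3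
  rw [pi_norm_lt_iff hε0] at h3
  have h4 : ∀ j, ‖u * nc T1 j - w * nc T2 j‖ < ε := h3
  have key : ‖w - u‖ < ε → ‖nc T1 j - nc T2 j‖ < ε := by
    intro huw
    have e3 : u * (nc T1 j - nc T2 j) = (u * nc T1 j - w * nc T2 j) + nc T2 j * (w - u) := by ring
    have e4 : ‖u * (nc T1 j - nc T2 j)‖ < ε := by
      rw [e3]
      refine uadd_lt (h4 j) ?_
      rw [norm_mul]
      calc _ ≤ 1 * ‖w - u‖ := mul_le_mul_of_nonneg_right (nc_le_one hW T2 j) (norm_nonneg _)
        _ < ε := by rw [one_mul]; exact huw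
    rwa [norm_mul, h1, one_mul] at e4
  rcases nc_chart hW T1 with a | ⟨a1, a2⟩ <;> rcases nc_chart hW T2 with b | ⟨b1, b2⟩
  · apply key
    have := h4 2
    rw [a, b, mul_one, mul_one, norm_sub_rev] at this
    exact this
  · exfalso
    have h5 := h4 2
    rw [a, mul_one, usub_eq (by rw [norm_mul, h1, h2, one_mul]; exact b2), h1] at h5
    linarith
  · exfalso
    have h5 := h4 2
    rw [b, mul_one, norm_sub_rev, usub_eq (by rw [norm_mul, h1, h2, one_mul]; exact a2), h2] at h5
    linarith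
  · apply key
    have := h4 1
    rw [a1, b1, mul_one, mul_one, norm_sub_rev] at this
    exact this

end

variable {K : Type} [Field K] [NumberField K]

lemma exists_place (G : Finset (HeightOneSpectrum (𝓞 K))) :
    ∃ v : HeightOneSpectrum (𝓞 K), v ∉ G := by
  classical
  by_contra hcon
  push Not at hcon
  set m : ℕ := ∏ v ∈ G, Ideal.absNorm v.asIdeal + 1 with hm
  have hm2 : 2 ≤ m := by
    have : 0 < ∏ v ∈ G, Ideal.absNorm v.asIdeal := by
      refine Finset.prod_pos (fun v _ => Nat.pos_of_ne_zero ?_)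
      rw [Ne, Ideal.absNorm_eq_zero_iff]
      exact v.ne_bot
    omega
  have hmK : (m : K) ≠ 0 := by
    have : m ≠ 0 := by omega
    exact_mod_cast this
  have h1 := prod_abs_eq_one hmK
  have h2 : ∏ᶠ w : FinitePlace K, w (m : K) = 1 := by
    rw [← finprod_one (α := FinitePlace K)]
    refine finprod_congr (fun w => ?_)
    have e0 : w = FinitePlace.mk w.maximalIdeal := (FinitePlace.mk_maximalIdeal w).symm
    set v := w.maximalIdeal with hv
    have e1 : ‖algebraMap K (v.adicCompletion K) (algebraMap (𝓞 K) K (m : 𝓞 K))‖ = 1 := by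
      refine (FinitePlace.norm_eq_one_iff_notMem K v (m : 𝓞 K)).mpr ?_
      intro hmem
      have h3 : ((∏ v ∈ G, Ideal.absNorm v.asIdeal : ℕ) : 𝓞 K) ∈ v.asIdeal := by
        have h4 : (Ideal.absNorm v.asIdeal : 𝓞 K) ∈ v.asIdeal := Ideal.absNorm_mem _
        rw [← Finset.mul_prod_erase G _ (hcon v), Nat.cast_mul]
        exact Ideal.mul_mem_right _ _ h4
      have h5 : (1 : 𝓞 K) ∈ v.asIdeal := by
        have h6 : (1 : 𝓞 K) = (m : 𝓞 K) - ((∏ v ∈ G, Ideal.absNorm v.asIdeal : ℕ) : 𝓞 K) := by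
          rw [hm]
          push_cast
          ring
        rw [h6]
        exact Ideal.sub_mem _ hmem h3
      exact v.isPrime.ne_top ((Ideal.eq_top_iff_one _).mpr h5)
    rw [e0]
    have e2 : FinitePlace.mk v (m : K) =
        ‖algebraMap K (v.adicCompletion K) (algebraMap (𝓞 K) K (m : 𝓞 K))‖ := by
      rw [map_natCast (algebraMap (𝓞 K) K)]
      rfl
    rw [e2, e1]
  rw [h2, mul_one] at h1
  have h3 : ∀ w : InfinitePlace K, (2 : ℝ) ≤ w (m : K) ^ w.mult := by
    intro w
    have e1 : w (m : K) = m := by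
      rw [← InfinitePlace.norm_embedding_eq, map_natCast]
      simp
    rw [e1]
    have e2 : (2 : ℝ) ≤ m := by exact_mod_cast hm2
    exact e2.trans (le_self_pow₀ (by linarith) w.mult_ne_zero)
  have h4 : (1 : ℝ) < ∏ w : InfinitePlace K, w (m : K) ^ w.mult := by
    obtain ⟨w0⟩ : Nonempty (InfinitePlace K) := inferInstance
    have e1 : w0 (m : K) ^ w0.mult ≤ ∏ w : InfinitePlace K, w (m : K) ^ w.mult :=
      single_le_prod_of_one_le (fun w : InfinitePlace K => w (m : K) ^ w.mult)
        (fun w => by have := h3 w; linarith) w0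
    have e2 := h3 w0
    linarith
  rw [h1] at h4
  exact lt_irrefl _ h4

end Pool.Agent.TH954
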