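import Pool.Agent.TH954.NA
import Mathlib.NumberTheory.Height.NumberField

/-!
# Estimates for multihomogeneous polynomials
-/

set_option autoImplicit false
set_option linter.unusedSectionVars false

open MvPolynomial

namespace Pool.Agent.TH954

/-- `f` is homogeneous of degree `d i` in the `i`-th group of three variables. -/
def MultiHom {F : Type} [Field F] {n : ℕ} (d : Fin n → ℕ)
    (f : MvPolynomial (Fin n × Fin 3) F) : Prop :=
  ∀ m ∈ f.support, ∀ i, ∑ j, m (i, j) = d i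

section ultra

variable {L : Type} [NormedField L] [IsUltrametricDist L] {σ : Type}

lemma norm_pow_sub_le {u w : L} {e : ℝ} (hu : ‖u‖ ≤ 1) (hw : ‖w‖ ≤ 1)
    (h : ‖u - w‖ ≤ e) (k : ℕ) : ‖u ^ k - w ^ k‖ ≤ e := by
  induction k with
  | zero => simpa using (norm_nonneg _).trans h
  | succ k ih =>
    have : u ^ (k + 1) - w ^ (k + 1) = u * (u ^ k - w ^ k) + w ^ k * (u - w) := by ring
    rw [this]
    refine uadd (umul hu ih) (umul ?_ h)
    rw [norm_pow]
    exact pow_le_one₀ (norm_nonneg _) hw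

lemma norm_prod_sub_le (s : Finset σ) (m : σ → ℕ) {u w : σ → L} {e : ℝ} (he : 0 ≤ e)
    (hu : ∀ i, ‖u i‖ ≤ 1) (hw : ∀ i, ‖w i‖ ≤ 1) (h : ∀ i, ‖u i - w i‖ ≤ e) :
    ‖∏ i ∈ s, u i ^ m i - ∏ i ∈ s, w i ^ m i‖ ≤ e := by
  classical
  induction s using Finset.induction_on with
  | empty => simpa using he
  | insert a s ha ih =>
    rw [Finset.prod_insert ha, Finset.prod_insert ha]
    have : u a ^ m a * ∏ i ∈ s, u i ^ m i - w a ^ m a * ∏ i ∈ s, w i ^ m i =
      u a ^ m a * (∏ i ∈ s, u i ^ m i - ∏ i ∈ s, w i ^ m i) +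
        (∏ i ∈ s, w i ^ m i) * (u a ^ m a - w a ^ m a) := by ring
    rw [this]
    refine uadd (umul ?_ ih) (umul ?_ (norm_pow_sub_le (hu a) (hw a) (h a) (m a)))
    · rw [norm_pow]
      exact pow_le_one₀ (norm_nonneg _) (hu a)
    · rw [norm_prod]
      refine Finset.prod_le_one (fun _ _ => norm_nonneg _) (fun i _ => ?_)
      rw [norm_pow]
      exact pow_le_one₀ (norm_nonneg _) (hw i)

lemma norm_sum_le_of {ι : Type} (s : Finset ι) (g : ι → L) {M : ℝ} (hM : 0 ≤ M)
    (h : ∀ i ∈ s, ‖g i‖ ≤ M) : ‖∑ i ∈ s, g i‖ ≤ M := by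
  classical
  induction s using Finset.induction_on with
  | empty => simpa using hM
  | insert a s ha ih =>
    rw [Finset.sum_insert ha]
    exact uadd (h a (Finset.mem_insert_self _ _))
      (ih (fun i hi => h i (Finset.mem_insert_of_mem hi)))

/-- a polynomial with coefficients of norm at most `c` is `c`-Lipschitz on the unit ball -/
lemma norm_eval_sub_le (f : MvPolynomial σ L) {c e : ℝ} (hc0 : 0 ≤ c) (he : 0 ≤ e)
    (hc : ∀ m, ‖coeff m f‖ ≤ c) {u w : σ → L}
    (hu : ∀ i, ‖u i‖ ≤ 1) (hw : ∀ i, ‖w i‖ ≤ 1) (h : ∀ i, ‖u i - w i‖ ≤ e) :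
    ‖eval u f - eval w f‖ ≤ c * e := by
  rw [eval_eq, eval_eq, ← Finset.sum_sub_distrib]
  refine norm_sum_le_of _ _ (mul_nonneg hc0 he) (fun m _ => ?_)
  rw [← mul_sub, norm_mul]
  exact mul_le_mul (hc m) (norm_prod_sub_le _ _ he hu hw h) (norm_nonneg _) hc0

lemma norm_eval_le (f : MvPolynomial σ L) {c : ℝ} (hc0 : 0 ≤ c)
    (hc : ∀ m, ‖coeff m f‖ ≤ c) {u : σ → L} (hu : ∀ i, ‖u i‖ ≤ 1) :
    ‖eval u f‖ ≤ c := by
  rw [eval_eq]
  refine norm_sum_le_of _ _ hc0 (fun m _ => ?_)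
  rw [norm_mul]
  calc _ ≤ c * 1 := by
        refine mul_le_mul (hc m) ?_ (norm_nonneg _) hc0
        rw [norm_prod]
        refine Finset.prod_le_one (fun _ _ => norm_nonneg _) (fun i _ => ?_)
        rw [norm_pow]
        exact pow_le_one₀ (norm_nonneg _) (hu i)
    _ = c := mul_one c

end ultra

section hom

variable {F : Type} [Field F] {n : ℕ}

/-- rescaling the groups of variables -/
lemma MultiHom.eval_smul {d : Fin n → ℕ} {f : MvPolynomial (Fin n × Fin 3) F} (hf : MultiHom d f)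
    (s : Fin n → F) (u : Fin n × Fin 3 → F) :
    eval (fun p => s p.1 * u p) f = (∏ i, s i ^ d i) * eval u f := by
  rw [eval_eq', eval_eq', Finset.mul_sum]
  refine Finset.sum_congr rfl (fun m hm => ?_)
  have h1 : ∏ p : Fin n × Fin 3, (s p.1 * u p) ^ m p =
      (∏ i, s i ^ d i) * ∏ p : Fin n × Fin 3, u p ^ m p := by
    simp_rw [mul_pow]
    rw [Finset.prod_mul_distrib]
    congr 1
    rw [Fintype.prod_prod_type]
    refine Finset.prod_congr rfl (fun i _ => ?_)
    change ∏ y, s i ^ m (i, y) = s i ^ d i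
    rw [Finset.prod_pow_eq_pow_sum, hf m hm i]
  rw [h1]
  ring

/-- upper bound for an arbitrary absolute value -/
lemma MultiHom.abv_eval_le {d : Fin n → ℕ} {f : MvPolynomial (Fin n × Fin 3) F}
    (hf : MultiHom d f) (v : AbsoluteValue F ℝ) (u : Fin n → Fin 3 → F) :
    v (eval (fun p => u p.1 p.2) f) ≤
      (∑ m ∈ f.support, v (coeff m f)) * ∏ i, (⨆ j, v (u i j)) ^ d i := by
  rw [eval_eq', Finset.sum_mul]
  refine (v.sum_le _ _).trans (Finset.sum_le_sum (fun m hm => ?_))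
  rw [v.map_mul, v.map_prod]
  refine mul_le_mul_of_nonneg_left ?_ (v.nonneg _)
  rw [Fintype.prod_prod_type]
  refine Finset.prod_le_prod (fun i _ => Finset.prod_nonneg (fun _ _ => v.nonneg _))
    (fun i _ => ?_)
  rw [← hf m hm i, ← Finset.prod_pow_eq_pow_sum]
  refine Finset.prod_le_prod (fun _ _ => v.nonneg _) (fun j _ => ?_)
  rw [v.map_pow]
  exact pow_le_pow_left₀ (v.nonneg _)
    (le_ciSup (f := fun j => v (u i j)) (Set.finite_range _).bddAbove j) _

end hom

end Pool.Agent.TH954
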