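import Pool.Agent.TH954.Near

/-!
# Subgroups of rank at most one
-/

set_option autoImplicit false
set_option linter.unusedSectionVars false

open IsDedekindDomain NumberField WeierstrassCurve MvPolynomial Height Function

namespace Pool.Agent.TH954

open Pool.Agent.TH942

variable {K : Type} [Field K] [NumberField K] [DecidableEq K]

/-- the torsion subgroup is finite -/
lemma torsion_finite {a b : K} (hD : 4 * a ^ 3 + 27 * b ^ 2 ≠ 0) :
    {P : SPt a b | IsOfFinAddOrder P}.Finite := by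
  obtain ⟨q, C1, hC1, q1, q2, q3⟩ := canonical hD
  refine (sfinite_ht (a := a) (b := b) C1).subset ?_
  intro P hP
  have h1 : q P = 0 := by
    have h2 := q_add_tors q3 (P := 0) hP
    rw [zero_add, q_zero' q3] at h2
    exact h2
  have h3 := (abs_le.mp (q1 P)).1
  rw [h1] at h3
  change sht P ≤ C1
  linarith

open scoped Classical in
/-- the case of a torsion group -/
theorem core_torsion {a b : K} (hE : ShortInt (sw a b))
    (Γ : AddSubgroup (SPt a b)) (hΓ : ∀ Q ∈ Γ, IsOfFinAddOrder Q)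
    {n : ℕ} (S : Finset (MvPolynomial (Fin n × Fin 3) K)) (hS : ∀ f ∈ S, ∃ d, MultiHom d f)
    (G0 : Finset (HeightOneSpectrum (𝓞 K)))
    (x : ∀ v : HeightOneSpectrum (𝓞 K),
      Fin n → ((sw a b).baseChange (v.adicCompletion K)).toAffine.Point)
    (hx : ∀ v ∉ G0, ∀ f ∈ S, eval (fun p => crd (x v p.1) p.2)
      (map (algebraMap K (v.adicCompletion K)) f) = 0)
    (hcl : ∀ (T : Finset (HeightOneSpectrum (𝓞 K))), (∀ v ∈ T, v ∉ G0) → ∀ (R : ℝ), 1 < R →
      ∃ y : Fin n → SPt a b, (∀ i, y i ∈ Γ) ∧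
        ∀ v ∈ T, ∀ i, Big R (x v i - locHom (sw a b) (y i)))
    (T : Finset (HeightOneSpectrum (𝓞 K))) (hT0 : ∀ v ∈ T, v ∉ G0) (R : ℝ) (hR : 1 < R) :
    ∃ y : Fin n → SPt a b, (∀ i, y i ∈ Γ) ∧ (∀ f ∈ S, eval (fun p => crd (y p.1) p.2) f = 0) ∧
      ∀ v ∈ T, ∀ i, Big R (x v i - locHom (sw a b) (y i)) := by
  have hfinΓ : {y : Fin n → SPt a b | ∀ i, y i ∈ Γ}.Finite := by
    have h1 : {y : Fin n → SPt a b | ∀ i, y i ∈ Γ} ⊆
        Set.pi Set.univ (fun _ : Fin n => {P : SPt a b | IsOfFinAddOrder P}) := by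
      intro y hy i _
      exact hΓ _ (hy i)
    exact (Set.Finite.pi' (fun _ => torsion_finite hE.disc)).subset (by
      intro y hy i
      exact hΓ _ (hy i))
  -- one point which works for all neighbourhoods
  have key : ∃ y : Fin n → SPt a b, (∀ i, y i ∈ Γ) ∧ ∀ v ∉ G0, ∀ R : ℝ, 1 < R →
      ∀ i, Big R (x v i - locHom (sw a b) (y i)) := by
    by_contra hcon
    have : Nonempty (HeightOneSpectrum (𝓞 K)) := ⟨(exists_place ∅).choose⟩
    have hcon' : ∀ y : Fin n → SPt a b, (∀ i, y i ∈ Γ) → ∃ (v : HeightOneSpectrum (𝓞 K)) (R : ℝ),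
        v ∉ G0 ∧ 1 < R ∧ ¬ ∀ i, Big R (x v i - locHom (sw a b) (y i)) := by
      intro y hy
      by_contra hno
      apply hcon
      refine ⟨y, hy, fun v hv R hR => ?_⟩
      by_contra hb
      exact hno ⟨v, R, hv, hR, hb⟩
    choose! vv RR hvv hRR hii using hcon'
    set T' : Finset (HeightOneSpectrum (𝓞 K)) := hfinΓ.toFinset.image vv with hT'
    set R' : ℝ := 2 + ∑ y ∈ hfinΓ.toFinset, |RR y| with hR'
    have hR'1 : 1 < R' := by
      have : 0 ≤ ∑ y ∈ hfinΓ.toFinset, |RR y| := Finset.sum_nonneg (fun _ _ => abs_nonneg _)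
      linarith
    obtain ⟨y, hy, hyb⟩ := hcl T' (by
      intro v hv
      rw [hT', Finset.mem_image] at hv
      obtain ⟨y, hy, rfl⟩ := hv
      exact hvv y (hfinΓ.mem_toFinset.mp hy)) R' hR'1
    have hymem : y ∈ hfinΓ.toFinset := hfinΓ.mem_toFinset.mpr hy
    apply hii y hy
    intro i
    refine big_mono ?_ (hyb (vv y) (Finset.mem_image_of_mem _ hymem) i)
    have h2 : |RR y| ≤ ∑ y ∈ hfinΓ.toFinset, |RR y| :=
      Finset.single_le_sum (f := fun y => |RR y|) (fun _ _ => abs_nonneg _) hymem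
    have h3 := le_abs_self (RR y)
    linarith
  obtain ⟨y, hy, hyb⟩ := key
  refine ⟨y, hy, ?_, fun v hv i => hyb v (hT0 v hv) R hR i⟩
  intro f hf
  obtain ⟨v, hv⟩ := exists_place G0
  obtain ⟨d, hd⟩ := hS f hf
  by_contra hne
  have hfv : MultiHom d (map (algebraMap K (v.adicCompletion K)) f) := by
    intro m hm i
    exact hd m (support_map_subset _ _ hm) i
  have hc : ∀ m, ‖coeff m (map (algebraMap K (v.adicCompletion K)) f)‖ ≤
      cf f (FinitePlace.mk v) := by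
    intro m
    rw [coeff_map]
    exact coeff_le_cf f (FinitePlace.mk v) m
  have hc0 : 0 ≤ cf f (FinitePlace.mk v) := zero_le_one.trans (one_le_cf _ _)
  have e1 : ‖eval (fun p => crd (locHom (L := v.adicCompletion K) (sw a b) (y p.1)) p.2)
      (map (algebraMap K (v.adicCompletion K)) f)‖ =
      ‖algebraMap K (v.adicCompletion K) (eval (fun p => crd (y p.1) p.2) f)‖ := by
    rw [eval_loc]
  have hpos : 0 < ‖algebraMap K (v.adicCompletion K) (eval (fun p => crd (y p.1) p.2) f)‖ :=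
    norm_pos_iff.mpr (char_ne v hne)
  set B : ℝ := cf f (FinitePlace.mk v) ^ 2 *
    ∏ i, (⨆ j, ‖crd (locHom (L := v.adicCompletion K) (sw a b) (y i)) j‖) ^ (2 * d i) with hB
  have hB0 : 0 ≤ B := mul_nonneg (sq_nonneg _)
    (Finset.prod_nonneg (fun i _ => pow_nonneg (Real.iSup_nonneg (fun j => norm_nonneg _)) _))
  set N : ℝ := ‖algebraMap K (v.adicCompletion K) (eval (fun p => crd (y p.1) p.2) f)‖ with hN
  set R0 : ℝ := B / N ^ 2 + 2 with hR0
  have hR01 : 1 < R0 := by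
    have : 0 ≤ B / N ^ 2 := by positivity
    linarith
  have h1 := form_bound (hE.si v) (two_ne v) hfv hc0 hc (x v)
      (fun i => locHom (sw a b) (y i)) (hx v hv f hf) hR01 (hyb v hv R0 hR01)
  rw [e1, ← hB, hR0, mul_add, mul_div_cancel₀ _ (by positivity)] at h1
  have : 0 < N ^ 2 := by positivity
  linarith

/-- structure of a group of rank at most one -/
lemma rank_one_gen {a b : K} (hD : 4 * a ^ 3 + 27 * b ^ 2 ≠ 0) (Γ : AddSubgroup (SPt a b))
    (hΓ : Module.rank ℤ Γ ≤ 1) :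
    (∀ Q ∈ Γ, IsOfFinAddOrder Q) ∨
    ∃ P ∈ Γ, ¬ IsOfFinAddOrder P ∧ ∀ Q ∈ Γ, ∃ m : ℤ, IsOfFinAddOrder (Q - m • P) := by
  have hfg : AddGroup.FG Γ := fg_of_inj Γ.subtype Subtype.coe_injective (sfg hD)
  obtain ⟨r, g, hg⟩ := exists_basis hfg
  have hr : r ≤ 1 := by
    have h1 := card_basis hg
    rw [Fintype.card_fin] at h1
    have h2 : Module.finrank ℤ Γ ≤ 1 := by
      have := Module.finrank_le_of_rank_le (n := 1) (by exact_mod_cast hΓ)
      exact this
    omega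
  have hcoe : ∀ Q : Γ, IsOfFinAddOrder Q → IsOfFinAddOrder (Q : SPt a b) := by
    intro Q hQ
    exact (Γ.subtype : Γ →+ SPt a b).isOfFinAddOrder hQ
  interval_cases r
  · left
    intro Q hQ
    obtain ⟨m, hm, -⟩ := hg ⟨Q, hQ⟩
    simp only [Finset.univ_eq_empty, Finset.sum_empty, sub_zero] at hm
    exact hcoe _ hm
  · right
    refine ⟨(g 0 : SPt a b), (g 0).2, ?_, ?_⟩
    · intro hP
      have hP' : IsOfFinAddOrder (g 0) := by
        rw [isOfFinAddOrder_iff_nsmul_eq_zero] at hP ⊢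
        obtain ⟨m, hm, hm'⟩ := hP
        exact ⟨m, hm, Subtype.ext hm'⟩
      obtain ⟨m, -, hm⟩ := hg (g 0)
      have h1 := hm (fun _ => 0) (by simpa using hP')
      have h2 := hm (fun _ => 1) (by simp [IsOfFinAddOrder.zero])
      have h3 := congrFun (h1.trans h2.symm) 0
      simp at h3
    · intro Q hQ
      obtain ⟨m, hm, -⟩ := hg ⟨Q, hQ⟩
      refine ⟨m 0, ?_⟩
      have h1 := hcoe _ hm
      simpa using h1

open scoped Classical in
/-- subgroups of rank at most one -/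
theorem rank_one_big {a b : K} (hE : ShortInt (sw a b))
    (Γ : AddSubgroup (SPt a b)) (hΓ : Module.rank ℤ Γ ≤ 1)
    {n : ℕ} (S : Finset (MvPolynomial (Fin n × Fin 3) K)) (hS : ∀ f ∈ S, ∃ d, MultiHom d f)
    (G0 : Finset (HeightOneSpectrum (𝓞 K)))
    (x : ∀ v : HeightOneSpectrum (𝓞 K),
      Fin n → ((sw a b).baseChange (v.adicCompletion K)).toAffine.Point)
    (hx : ∀ v ∉ G0, ∀ f ∈ S, eval (fun p => crd (x v p.1) p.2)
      (map (algebraMap K (v.adicCompletion K)) f) = 0)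
    (hcl : ∀ (T : Finset (HeightOneSpectrum (𝓞 K))), (∀ v ∈ T, v ∉ G0) → ∀ (R : ℝ), 1 < R →
      ∃ y : Fin n → SPt a b, (∀ i, y i ∈ Γ) ∧
        ∀ v ∈ T, ∀ i, Big R (x v i - locHom (sw a b) (y i)))
    (T : Finset (HeightOneSpectrum (𝓞 K))) (hT0 : ∀ v ∈ T, v ∉ G0) (R : ℝ) (hR : 1 < R) :
    ∃ y : Fin n → SPt a b, (∀ i, y i ∈ Γ) ∧ (∀ f ∈ S, eval (fun p => crd (y p.1) p.2) f = 0) ∧
      ∀ v ∈ T, ∀ i, Big R (x v i - locHom (sw a b) (y i)) := by
  rcases rank_one_gen (a := a) (b := b) hE.disc Γ hΓ with h | ⟨P, hPΓ, hP, hgen⟩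
  · exact core_torsion hE Γ h S hS G0 x hx hcl T hT0 R hR
  · refine core hE hP (s := 1) (fun _ => P) 1 le_rfl Γ (fun _ => hPΓ) ?_ G0 ?_ S hS
      (G0 : Set (HeightOneSpectrum (𝓞 K))) (fun v hv => hv) x hx hcl T hT0 R hR
    · intro Q hQ
      obtain ⟨m, hm⟩ := hgen Q hQ
      exact ⟨fun _ => m, by simpa using hm⟩
    · intro v _ R _ k j h
      rwa [one_mul]

end Pool.Agent.TH954
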