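import Pool.Agent.TH954.DescentMain

/-!
# Twice a class is trivial at the archimedean places
-/

set_option autoImplicit false
set_option linter.unusedSectionVars false

open NumberField WeierstrassCurve

namespace Pool.Agent.TH954

open Pool.Agent.TH942

section gal

/-- the absolute Galois group has at most two elements -/
def TwoGal (L : Type) [Field L] : Prop :=
  ∃ c : AlgebraicClosure L ≃ₐ[L] AlgebraicClosure L, c * c = 1 ∧ ∀ σ, σ = 1 ∨ σ = c

lemma twoGal_complex {L : Type} [Field L] (e : L ≃+* ℂ) : TwoGal L := by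
  have : IsAlgClosed L := IsAlgClosed.of_ringEquiv ℂ L e.symm
  have hb : Function.Surjective (algebraMap L (AlgebraicClosure L)) :=
    (IsAlgClosed.algebraMap_bijective_of_isIntegral (k := L) (K := AlgebraicClosure L)).2
  refine ⟨1, one_mul _, fun σ => Or.inl ?_⟩
  apply AlgEquiv.ext
  intro x
  obtain ⟨y, rfl⟩ := hb x
  exact σ.commutes y

lemma twoGal_real {L : Type} [Field L] (e : L ≃+* ℝ) : TwoGal L := by
  let algL : Algebra L ℂ := ((algebraMap ℝ ℂ).comp (e : L →+* ℝ)).toAlgebra
  have hmap : ∀ x : L, algebraMap L ℂ x = ((e x : ℝ) : ℂ) := fun x => rfl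
  have hint : Algebra.IsAlgebraic L ℂ := by
    refine ⟨fun z => ?_⟩
    obtain ⟨p, hp0, hp⟩ := (Algebra.IsAlgebraic.isAlgebraic (R := ℝ) z)
    refine ⟨p.map (e.symm : ℝ →+* L), (Polynomial.map_ne_zero_iff e.symm.injective).2 hp0, ?_⟩
    rw [Polynomial.aeval_def, Polynomial.eval₂_map]
    have : (algebraMap L ℂ).comp (e.symm : ℝ →+* L) = algebraMap ℝ ℂ := by
      apply RingHom.ext
      intro x
      change ((e (e.symm x) : ℝ) : ℂ) = _
      rw [e.apply_symm_apply]
      rfl
    rw [this]
    exact hp
  have hcl : IsAlgClosure L ℂ := ⟨inferInstance, hint⟩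
  let f : AlgebraicClosure L ≃ₐ[L] ℂ := IsAlgClosure.equiv L (AlgebraicClosure L) ℂ
  have hgal : ∀ g : ℂ ≃ₐ[L] ℂ, (∀ z, g z = z) ∨ (∀ z, g z = (starRingEnd ℂ) z) := by
    intro g
    let g' : ℂ →ₐ[ℝ] ℂ :=
      { (g : ℂ →+* ℂ) with
        commutes' := fun r => by
          change g ((r : ℝ) : ℂ) = _
          have h1 := g.commutes (e.symm r)
          rw [hmap, e.apply_symm_apply] at h1
          exact h1 }
    rcases Complex.real_algHom_eq_id_or_conj g' with h | h
    · left
      intro z
      exact congrArg (fun k : ℂ →ₐ[ℝ] ℂ => k z) h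
    · right
      intro z
      exact congrArg (fun k : ℂ →ₐ[ℝ] ℂ => k z) h
  let cc : ℂ ≃ₐ[L] ℂ :=
    { Complex.conjAe.toRingEquiv with
      commutes' := fun x => by
        change (starRingEnd ℂ) (algebraMap L ℂ x) = _
        rw [hmap]
        exact Complex.conj_ofReal _ }
  have hcc : ∀ z, cc z = (starRingEnd ℂ) z := fun z => rfl
  refine ⟨f.trans (cc.trans f.symm), ?_, ?_⟩
  · apply AlgEquiv.ext
    intro z
    change f.symm (cc (f (f.symm (cc (f z))))) = z
    rw [f.apply_symm_apply, hcc, hcc, Complex.conj_conj, f.symm_apply_apply]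
  · intro σ
    rcases hgal (f.symm.trans (σ.trans f)) with h | h
    · left
      apply AlgEquiv.ext
      intro z
      have h1 := h (f z)
      change f (σ (f.symm (f z))) = f z at h1
      rw [f.symm_apply_apply] at h1
      exact f.injective h1
    · right
      apply AlgEquiv.ext
      intro z
      have h1 := h (f z)
      change f (σ (f.symm (f z))) = _ at h1
      rw [f.symm_apply_apply] at h1
      apply f.injective
      rw [h1]
      change _ = f (f.symm (cc (f z)))
      rw [f.apply_symm_apply, hcc]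

lemma twoGal_inf {K : Type} [Field K] (w : InfinitePlace K) : TwoGal w.Completion := by
  rcases w.isReal_or_isComplex with h | h
  · exact twoGal_real (InfinitePlace.Completion.ringEquivRealOfIsReal h)
  · exact twoGal_complex (InfinitePlace.Completion.ringEquivComplexOfIsComplex h)

end gal

section triv

variable {K : Type} [Field K] {E : WeierstrassCurve K}

open scoped Classical in
/-- twice a class is trivial over a field with at most two Galois elements -/
theorem trivial_two {η : (AlgebraicClosure K ≃ₐ[K] AlgebraicClosure K) → AlgPt E K}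
    (hη : ∀ σ τ, η (σ * τ) = η σ + act E σ (η τ)) (L : Type) [Field L] [Algebra K L]
    (hL : TwoGal L) : TrivialOver E (fun τ => 2 • η τ) L := by
  obtain ⟨c, hc2, hc⟩ := hL
  let ι : AlgebraicClosure K →ₐ[K] AlgebraicClosure L :=
    IsAlgClosed.lift (R := K) (S := AlgebraicClosure K) (M := AlgebraicClosure L)
  obtain ⟨τc, hτc⟩ := exists_compat ι c
  have huniq : ∀ σ τ τ', Compat ι σ τ → Compat ι σ τ' → τ = τ' := by
    intro σ τ τ' h h'
    apply AlgEquiv.ext
    intro z
    exact ι.injective ((h z).trans (h' z).symm)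
  have hone : Compat ι (1 : AlgebraicClosure L ≃ₐ[L] AlgebraicClosure L) 1 := fun z => rfl
  have hsq : τc * τc = 1 := by
    apply huniq 1 _ _ _ hone
    intro z
    rw [← hc2]
    change ι (τc (τc z)) = c (c (ι z))
    rw [hτc, hτc]
  have hact1 : ∀ T : AlgPt E K, act E (1 : AlgebraicClosure K ≃ₐ[K] AlgebraicClosure K) T = T := by
    intro T
    cases T <;> rfl
  have hact1' : ∀ T : AlgPt E L, act E (1 : AlgebraicClosure L ≃ₐ[L] AlgebraicClosure L) T = T := by
    intro T
    cases T <;> rfl
  have h1 : η 1 = 0 := by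
    have := hη 1 1
    rw [one_mul, hact1] at this
    exact left_eq_add.mp this
  have h2 : act E τc (η τc) = - η τc := by
    have := hη τc τc
    rw [hsq, h1] at this
    exact (neg_eq_of_add_eq_zero_right this.symm).symm
  refine ⟨ι, - pm E ι (η τc), ?_⟩
  intro σ τ hστ
  rcases hc σ with rfl | rfl
  · have : τ = 1 := huniq 1 _ _ hστ hone
    subst this
    change pm E ι (2 • η 1) = _
    rw [map_nsmul, h1, map_zero, hact1', sub_self]
    exact nsmul_zero 2
  · have : τ = τc := huniq _ _ _ hστ hτc
    subst this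
    have h3 : act E σ (- pm E ι (η τ)) = pm E ι (η τ) := by
      have h4 : act E σ (- pm E ι (η τ)) = - act E σ (pm E ι (η τ)) := map_neg _ _
      rw [h4, act_pm ι hστ, h2, map_neg, neg_neg]
    change pm E ι (2 • η τ) = _
    rw [h3, sub_neg_eq_add, map_nsmul, two_nsmul]

end triv

end Pool.Agent.TH954
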