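import Pool.Agent.TH954.SFinV
import Pool.Agent.TH954.SGeo2

/-!
# Sections of Galois groups of function fields and points over local fields
-/

set_option autoImplicit false
set_option linter.unusedSectionVars false

open IsDedekindDomain NumberField WeierstrassCurve MvPolynomial

namespace Pool.Agent.TH954

open Pool.Agent.TH942

section definitions

/-- Let `F` and `B` be extensions of the field `K` and `Ω` an extension of `F` in which `B` is
embedded by `j`. A section of `Gal(Ω/F) → Gal(B/K)` is a continuous homomorphism `s` from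
`Gal(B/K)` to `Gal(Ω/F)` such that `s g` acts on the elements of `B` as `g`. -/
structure GalSection (K F Ω B : Type) [Field K] [Field F] [Field Ω] [Field B] [Algebra F Ω]
    [Algebra K Ω] [Algebra K B] where
  /-- the embedding of `B` in `Ω` -/
  j : B →ₐ[K] Ω
  /-- the homomorphism -/
  s : (B ≃ₐ[K] B) →* (Ω ≃ₐ[F] Ω)
  cont : Continuous s
  sec : ∀ (g : B ≃ₐ[K] B) (x : B), s g (j x) = j (g x)

variable {K F Ω B : Type} [Field K] [Field F] [Field Ω] [Field B] [Algebra F Ω]
  [Algebra K Ω] [Algebra K B]

/-- The section `s` is given, over the extension `L` of `K` with algebraic closure `C`, by a rational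
point: there is a place `p` of `Ω` over `K` with values in `C` such that whenever `σ ∈ Gal(C/L)` and
`g ∈ Gal(B/K)` are compatible on `B`, the place turns `s g` into `σ`. -/
def GalSection.GeometricOver (s : GalSection K F Ω B) (L C : Type) [Field L] [Field C]
    [Algebra L C] [Algebra K C] : Prop :=
  ∃ p : Plc K Ω C, ∀ (σ : C ≃ₐ[L] C) (g : B ≃ₐ[K] B),
    (∀ z c, p.val (s.j z) c → p.val (s.j (g z)) (σ c)) →
    ∀ x c, p.val x c → p.val (s.s g x) (σ c)

/-- `O` is a nontrivial valuation ring of `F` over `K` with residue field `K`, that is, the local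
ring of a `K`-rational point, and the automorphisms `s g` map a valuation ring `W` of `Ω` above `O`
to itself. -/
def GalSection.ArisesFrom [Algebra K F] (s : GalSection K F Ω B) (O : ValuationSubring F) : Prop :=
  O ≠ ⊤ ∧ (∀ c : K, algebraMap K F c ∈ O) ∧
    (∀ a ∈ O, ∃ c : K, O.valuation (a - algebraMap K F c) < 1) ∧
    ∃ W : ValuationSubring Ω, W.comap (algebraMap F Ω) = O ∧
      ∀ (g : B ≃ₐ[K] B) (x : Ω), (s.s g x ∈ W ↔ x ∈ W)

end definitions

section convert

variable {K F Ω B : Type} [Field K] [CharZero K] [Field F] [Field Ω] [Field B] [Algebra K F]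
  [Algebra F Ω] [Algebra K Ω] [Algebra K B] [IsScalarTower K F Ω] [Algebra.IsAlgebraic F Ω]
  [IsAlgClosure K B]

/-- the identification of the algebraic closures -/
noncomputable def eqv (K B : Type) [Field K] [Field B] [Algebra K B] [IsAlgClosure K B] :
    AlgebraicClosure K ≃ₐ[K] B :=
  IsAlgClosure.equiv K (AlgebraicClosure K) B

/-- restriction of scalars of automorphisms -/
def resScal (K F M : Type) [Field K] [Field F] [Field M] [Algebra K F] [Algebra F M] [Algebra K M]
    [IsScalarTower K F M] : (M ≃ₐ[F] M) →* (M ≃ₐ[K] M) where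
  toFun g := g.restrictScalars K
  map_one' := rfl
  map_mul' _ _ := rfl

lemma fix_nhds {F M : Type} [Field F] [Field M] [Algebra F M] [Algebra.IsAlgebraic F M] (x : M) :
    {g : M ≃ₐ[F] M | g x = x} ∈ nhds (1 : M ≃ₐ[F] M) := by
  rw [krullTopology_mem_nhds_one_iff]
  refine ⟨IntermediateField.adjoin F {x}, IntermediateField.adjoin.finiteDimensional
    (Algebra.IsIntegral.isIntegral x), ?_⟩
  intro g hg
  exact (IntermediateField.mem_fixingSubgroup_iff _ _).1 hg x
    (IntermediateField.mem_adjoin_simple_self F x)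

lemma finite_map {K L L' : Type} [Field K] [Field L] [Field L'] [Algebra K L] [Algebra K L']
    {E : IntermediateField K L} (hE : FiniteDimensional K E) (f : L →ₐ[K] L') :
    FiniteDimensional K (E.map f) :=
  (IntermediateField.equivMap E f).toLinearEquiv.finiteDimensional

/-- the semilinear action of a section -/
noncomputable def toSAct (s : GalSection K F Ω B) : SAct K Ω where
  j := s.j.comp (eqv K B : AlgebraicClosure K →ₐ[K] B)
  s := ((resScal K F Ω).comp s.s).comp (eqv K B).autCongr.toMonoidHom
  hj := by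
    intro τ z
    change s.s ((eqv K B).autCongr τ) (s.j (eqv K B z)) = s.j (eqv K B (τ z))
    rw [s.sec]
    congr 1
    change eqv K B (τ ((eqv K B).symm (eqv K B z))) = _
    rw [AlgEquiv.symm_apply_apply]
  cont := by
    intro x
    have h1 : {g | s.s g x = x} ∈ nhds (1 : B ≃ₐ[K] B) := by
      have h2 := s.cont.continuousAt (x := 1)
      have h3 : {g : Ω ≃ₐ[F] Ω | g x = x} ∈ nhds (s.s 1) := by
        rw [map_one]
        exact fix_nhds x
      exact h2 h3
    rw [krullTopology_mem_nhds_one_iff] at h1
    obtain ⟨E, hE, h⟩ := h1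
    refine ⟨E.map ((eqv K B).symm : B →ₐ[K] AlgebraicClosure K), ?_, fun τ hτ => ?_⟩
    · exact finite_map hE _
    · change s.s ((eqv K B).autCongr τ) x = x
      apply h
      rw [SetLike.mem_coe, IntermediateField.mem_fixingSubgroup_iff]
      intro z hz
      change eqv K B (τ ((eqv K B).symm z)) = z
      rw [hτ ((eqv K B).symm z) ⟨z, hz, rfl⟩, AlgEquiv.apply_symm_apply]

lemma toSAct_s (s : GalSection K F Ω B) (g : B ≃ₐ[K] B) (x : Ω) :
    (toSAct s).s ((eqv K B).autCongr.symm g) x = s.s g x := by
  change s.s ((eqv K B).autCongr ((eqv K B).autCongr.symm g)) x = s.s g x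
  rw [MulEquiv.apply_symm_apply]

/-- places compatible with the section -/
lemma toSAct_geo (s : GalSection K F Ω B) {L : Type} [Field L] [Algebra K L]
    (h : s.GeometricOver L (AlgebraicClosure L)) :
    ∃ pl : Plc K Ω (AlgebraicClosure L), GeoPlc (toSAct s) pl := by
  obtain ⟨pl, h3⟩ := h
  refine ⟨pl, ?_⟩
  intro σ τ hστ x
  refine h3 σ ((eqv K B).autCongr τ) ?_ x _ ⟨x.2, rfl⟩
  intro z c hc
  obtain ⟨y, rfl⟩ := (eqv K B).surjective z
  have e1 : pl.val ((toSAct s).j y) (pl.iot (toSAct s).j y) := Plc.val_j _ y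
  have e2 : pl.val ((toSAct s).j (τ y)) (pl.iot (toSAct s).j (τ y)) := Plc.val_j _ (τ y)
  have e3 : s.j ((eqv K B).autCongr τ (eqv K B y)) = (toSAct s).j (τ y) := by
    change s.j (eqv K B (τ ((eqv K B).symm (eqv K B y)))) = _
    rw [AlgEquiv.symm_apply_apply]
    rfl
  have e4 : pl.iot (toSAct s).j y = c := e1.unique hc
  rw [e3, ← e4, ← hστ y]
  exact e2

end convert

end Pool.Agent.TH954
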