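import Pool.Agent.TH954.SBir

/-!
# Birational sections of curves with a map to a power of an elliptic curve (2)
-/

set_option autoImplicit false
set_option linter.unusedSectionVars false

open IsDedekindDomain NumberField WeierstrassCurve MvPolynomial

namespace Pool.Agent.TH954

open Pool.Agent.TH942

section pts

variable {K : Type} [Field K] {E : WeierstrassCurve K}
variable {L L' : Type} [Field L] [Algebra K L] [Field L'] [Algebra K L']

open scoped Classical in
lemma crd_pm (f : L →ₐ[K] L') (T : (E.baseChange L).toAffine.Point) (j : Fin 3) :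
    crd (pm E f T) j = f (crd T j) := by
  rcases T with _ | ⟨x, y, h⟩
  · change ![(0 : L'), 1, 0] j = f (![(0 : L), 1, 0] j)
    fin_cases j <;> simp
  · change ![f x, f y, 1] j = f (![x, y, 1] j)
    fin_cases j <;> simp

open scoped Classical in
lemma onX_pm {n : ℕ} {S : Set (MvPolynomial (Fin n × Fin 3) K)} (f : L →ₐ[K] L')
    {P : Fin n → (E.baseChange L).toAffine.Point} (h : OnX S (fun i => crd (P i))) :
    OnX S (fun i => crd (pm E f (P i))) := by
  intro q hq
  have h1 := h q hq
  have h2 := congrArg f h1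
  rw [map_zero, MvPolynomial.comp_aeval_apply] at h2
  have h3 : (fun p : Fin n × Fin 3 => crd (pm E f (P p.1)) p.2) =
      fun p : Fin n × Fin 3 => f (crd (P p.1) p.2) := by
    funext p
    exact crd_pm f _ _
  change aeval (fun p : Fin n × Fin 3 => crd (pm E f (P p.1)) p.2) q = 0
  rw [h3]
  exact h2

open scoped Classical in
/-- rational points in a large field -/
lemma pm_loc (A : SAct K L') [Algebra L L'] [IsScalarTower K L L'] (y : E.toAffine.Point) :
    pm E (IsScalarTower.toAlgHom K L L') (locHom (L := L) E y) = pm E A.j (incl E K y) := by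
  match y with
  | .zero => rfl
  | .some x y h =>
    change Affine.Point.some (algebraMap L L' (algebraMap K L x))
      (algebraMap L L' (algebraMap K L y)) _ =
      Affine.Point.some (A.j (algebraMap K (AlgebraicClosure K) x))
      (A.j (algebraMap K (AlgebraicClosure K) y)) _
    have e : ∀ t : K, A.j (algebraMap K (AlgebraicClosure K) t) =
        algebraMap L L' (algebraMap K L t) := by
      intro t
      rw [A.j.commutes, ← IsScalarTower.algebraMap_apply]
    simp only [e]

end pts

variable {K : Type} [Field K] [NumberField K] {F Ω B : Type} [Field F] [Field Ω] [Field B]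
  [Algebra K F] [Algebra F Ω] [Algebra K Ω] [Algebra K B] [IsScalarTower K F Ω]
  [IsAlgClosure F Ω] [IsAlgClosure K B]

open scoped Classical in
theorem bir_of_fin {a b : K} (hE : ShortInt (sw a b)) {n : ℕ}
    (hfin : FinProp a b (⊤ : AddSubgroup (SPt a b)) n) {M0 : ℕ} (hM1 : 1 ≤ M0)
    (hM : ShaKilledBy (sw a b) M0)
    (S : Set (MvPolynomial (Fin n × Fin 3) K)) (hS : ∀ f ∈ S, ∃ d, MultiHom d f)
    (hX : {y : Fin n → SPt a b | OnX S (fun i => crd (y i))}.Finite)
    (hF : ∃ t : F, Transcendental K t ∧
      Algebra.IsAlgebraic (IntermediateField.adjoin K {t}) F)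
    (P : Fin n → ((sw a b).baseChange F).toAffine.Point)
    (hPS : OnX S (fun i => crd (P i)))
    (hPn : ∃ i, ∀ y : SPt a b, P i ≠ locHom (L := F) (sw a b) y)
    (s : GalSection K F Ω B)
    (hloc : ∀ v : HeightOneSpectrum (𝓞 K),
      s.GeometricOver (v.adicCompletion K) (AlgebraicClosure (v.adicCompletion K))) :
    ∃! O : ValuationSubring F, s.ArisesFrom O := by
  have hΩ1 : IsAlgClosed Ω := IsAlgClosure.isAlgClosed F
  have hΩ2 : Algebra.IsAlgebraic F Ω := IsAlgClosure.isAlgebraic
  have hD : 4 * a ^ 3 + 27 * b ^ 2 ≠ 0 := hE.disc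
  have hcF : CharZero F := charZero_of_injective_algebraMap (algebraMap K F).injective
  have hcΩ : CharZero Ω :=
    charZero_of_injective_algebraMap (algebraMap F Ω).injective
  have hcv : ∀ v : HeightOneSpectrum (𝓞 K), CharZero (v.adicCompletion K) := fun v =>
    charZero_of_injective_algebraMap (algebraMap K (v.adicCompletion K)).injective
  have hcv' : ∀ v : HeightOneSpectrum (𝓞 K), CharZero (AlgebraicClosure (v.adicCompletion K)) :=
    fun v => charZero_of_injective_algebraMap
      (algebraMap (v.adicCompletion K) (AlgebraicClosure (v.adicCompletion K))).injective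
  set A := toSAct s with hA
  choose pl hpl using fun v => toSAct_geo s (hloc v)
  have hAF : ∀ (τ : AlgebraicClosure K ≃ₐ[K] AlgebraicClosure K) (x : F),
      A.s τ (algebraMap F Ω x) = algebraMap F Ω x :=
    fun τ x => (s.s ((eqv K B).autCongr τ)).commutes x
  set P' : Fin n → ((sw a b).baseChange Ω).toAffine.Point :=
    fun i => pm (sw a b) (IsScalarTower.toAlgHom K F Ω) (P i) with hP'
  have hP'S : OnX S (fun i => crd (P' i)) := onX_pm _ hPS
  have hP'f : ∀ i τ, A.pt a b τ (P' i) = P' i := by
    intro i τ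
    change pm (sw a b) _ (pm (sw a b) _ (P i)) = pm (sw a b) _ (P i)
    rw [pm_pm]
    congr 2
    apply AlgHom.ext
    intro x
    exact hAF τ x
  choose red h1 h2 using fun v => exists_redM (pl v) hD
  obtain ⟨x, -, hx⟩ := points_eq hE hfin hM1 hM S hS hX A P' hP'S hP'f
    (fun N hN i => exists_nsmul_base hD Ω hN (P' i))
    (fun N hN T hT => torsion_mem hD A.j N hN T hT) pl hpl red h1 h2
  -- the difference reduces to zero everywhere
  obtain ⟨i, hi⟩ := hPn
  set D0 : ((sw a b).baseChange F).toAffine.Point := P i - locHom (L := F) (sw a b) (x i) with hD0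
  have hD0ne : D0 ≠ 0 := fun h0 => hi (x i) (sub_eq_zero.1 h0)
  have hredD : ∀ v, red v (pm (sw a b) (IsScalarTower.toAlgHom K F Ω) D0) =
      0 := by
    intro v
    have e1 : pm (sw a b) (IsScalarTower.toAlgHom K F Ω) D0 =
        P' i - pm (sw a b) A.j (incl (sw a b) K (x i)) := by
      rw [hD0, map_sub, pm_loc A]
    rw [e1, map_sub, hx, red_pm (pl := pl v) (a := a) (b := b) (red := red v) (map_zero (red v))
      (h1 v) (h2 v) A.j ((pl v).iot A.j) ((pl v).iot_spec A.j)]
    have e2 := incl_loc (E := sw a b) ((pl v).iot A.j) (x i)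
    rw [e2, sub_self]
  obtain ⟨x0, y0, hxy0, hD0e⟩ : ∃ x0 y0 h, D0 = .some x0 y0 h := by
    rcases hd : D0 with _ | ⟨x0, y0, h⟩
    · exact absurd hd hD0ne
    · exact ⟨x0, y0, h, rfl⟩
  have hx0W : ∀ v, algebraMap F Ω x0 ∉ (pl v).W := by
    intro v hmem
    have h3 := hredD v
    obtain ⟨g, e⟩ := pm_some (E := sw a b)
      (IsScalarTower.toAlgHom K F Ω) hxy0
    rw [hD0e, e] at h3
    obtain ⟨_, _, h4⟩ := h2 v _ _ g hmem
    rw [h4] at h3
    exact Affine.Point.some_ne_zero _ h3
  have hx00 : algebraMap F Ω x0 ≠ 0 := by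
    obtain ⟨U, -⟩ := exists_ultra (A := A) (pl := pl) hpl
    obtain ⟨v, -⟩ := U.nonempty_of_mem Filter.univ_mem
    intro h0
    apply hx0W v
    rw [h0]
    exact zero_mem _
  have hfinV : ∀ x, FinVal A pl x := by
    refine finVal_of_alg A pl (t := (algebraMap F Ω x0)⁻¹)
      (inv_ne_zero hx00) (fun v => Plc.val_inv_of_notMem (hx0W v)) (fun x hx => ?_)
    exact (alg_adjoin_of_dim hF x hx).isAlgebraic _
  obtain ⟨U, hU⟩ := exists_ultra (A := A) (pl := pl) hpl
  have hfixF : ∀ x : F, algebraMap F Ω x ∈ A.fix := fun x τ => hAF τ x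
  have hst : ∀ (g : B ≃ₐ[K] B) (x : Ω), x ∈ limW pl U → s.s g x ∈ limW pl U := by
    intro g x hx
    rw [← toSAct_s s]
    exact limW_stable hU hfinV _ hx
  refine ⟨(limW pl U).comap (algebraMap F Ω), ⟨?_, ?_, ?_, limW pl U, rfl,
    fun g x => ⟨fun h => ?_, hst g x⟩⟩, ?_⟩
  · intro htop
    have h3 : x0 ∈ (limW pl U).comap (algebraMap F Ω) := by
      rw [htop]
      exact ValuationSubring.mem_top x0
    obtain ⟨v, hv⟩ := (mem_limW.1 (ValuationSubring.mem_comap.1 h3)).exists
    exact hx0W v hv
  · intro c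
    rw [ValuationSubring.mem_comap, ← IsScalarTower.algebraMap_apply]
    exact alg_mem_limW c
  · intro a ha
    obtain ⟨c, hc⟩ := exists_value hU (hfixF a) (hfinV _) ha
    refine ⟨c, (ValuationSubring.mem_nonunits_iff_or _).2 ?_⟩
    by_cases h0 : a - algebraMap K F c = 0
    · exact Or.inl h0
    · right
      intro h3
      have h4 := mem_limW.1 (ValuationSubring.mem_comap.1 h3)
      obtain ⟨v, hv1, hv2⟩ := (hc.and h4).exists
      have h5 : (pl v).val (algebraMap F Ω (a - algebraMap K F c)) 0 := by
        have := hv1.sub (Plc.val_alg (pl := pl v) c)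
        rw [sub_self] at this
        rw [map_sub, ← IsScalarTower.algebraMap_apply]
        exact this
      rw [map_inv₀] at hv2
      refine Plc.notMem_of_val_inv (pl := pl v)
        (x := (algebraMap F Ω (a - algebraMap K F c))⁻¹)
        (inv_ne_zero ((map_ne_zero _).2 h0)) ?_ hv2
      rw [inv_inv]
      exact h5
  · have h3 := hst g⁻¹ _ h
    have h4 : s.s g⁻¹ (s.s g x) = x := by
      change (s.s g⁻¹ * s.s g) x = x
      rw [← map_mul, inv_mul_cancel, map_one]
      rfl
    rwa [h4] at h3
  · rintro O ⟨-, hO2, hO3, W, hW, hO4⟩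
    refine unique_ring A hfixF O _ hO2 ?_ hO3 ?_ W (limW pl U) hW rfl
      (fun τ x hx => (hO4 _ x).2 hx) (fun τ x hx => limW_stable hU hfinV τ hx)
    · intro c
      rw [ValuationSubring.mem_comap, ← IsScalarTower.algebraMap_apply]
      exact alg_mem_limW c
    · intro a ha
      obtain ⟨c, hc⟩ := exists_value hU (hfixF a) (hfinV _) ha
      refine ⟨c, (ValuationSubring.mem_nonunits_iff_or _).2 ?_⟩
      by_cases h0 : a - algebraMap K F c = 0
      · exact Or.inl h0
      · right
        intro h3
        have h4 := mem_limW.1 (ValuationSubring.mem_comap.1 h3)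
        obtain ⟨v, hv1, hv2⟩ := (hc.and h4).exists
        have h5 : (pl v).val (algebraMap F Ω (a - algebraMap K F c)) 0 := by
          have := hv1.sub (Plc.val_alg (pl := pl v) c)
          rw [sub_self] at this
          rw [map_sub, ← IsScalarTower.algebraMap_apply]
          exact this
        rw [map_inv₀] at hv2
        refine Plc.notMem_of_val_inv (pl := pl v)
          (x := (algebraMap F Ω (a - algebraMap K F c))⁻¹)
          (inv_ne_zero ((map_ne_zero _).2 h0)) ?_ hv2
        rw [inv_inv]
        exact h5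

end Pool.Agent.TH954
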