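import Pool.Agent.TH954.SBir2

/-!
# Birational sections of curves with a map to a power of an elliptic curve: the theorem
-/

set_option autoImplicit false
set_option linter.unusedSectionVars false

open IsDedekindDomain NumberField WeierstrassCurve MvPolynomial

namespace Pool.Agent.TH954

open Pool.Agent.TH942

/-- The group of rational points of `E` has rank at most one, or it has rank at most two and `E` has
an endomorphism `α` over `K`, given near the origin by forms, with `α² - t α + m = 0` for integers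
`t, m` with `t² < 4 m`. -/
def SmallRank {K : Type} [Field K] (E : WeierstrassCurve K) : Prop :=
  open scoped Classical in
  Module.rank ℤ E.toAffine.Point ≤ 1 ∨
    ∃ (α : E.toAffine.Point →+ E.toAffine.Point) (F : Fin 3 → MvPolynomial (Fin 3) K)
      (t m : ℤ), EndoForms E α F ∧ t ^ 2 < 4 * m ∧
      (∀ T, α (α T) - t • α T + m • T = 0) ∧ Module.rank ℤ E.toAffine.Point ≤ 2

/-- `E` is an elliptic curve `y² = x³ + a₄ x + a₆` with integral coefficients. -/
structure ShortIntegral {K : Type} [Field K] (E : WeierstrassCurve K) : Prop where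
  ell : E.IsElliptic
  h1 : E.a₁ = 0
  h2 : E.a₂ = 0
  h3 : E.a₃ = 0
  h4 : IsIntegral ℤ E.a₄
  h6 : IsIntegral ℤ E.a₆

open scoped Classical in
lemma finProp_of {K : Type} [Field K] [NumberField K] {a b : K} (hE : ShortInt (sw a b))
    (hO : SmallRank (sw a b)) (n : ℕ) : FinProp a b (⊤ : AddSubgroup (SPt a b)) n := by
  have hrk : Module.rank ℤ (⊤ : AddSubgroup (SPt a b)) = Module.rank ℤ (SPt a b) := by
    exact (AddSubgroup.topEquiv.toIntLinearEquiv).rank_eq
  rcases hO with h | ⟨α, G, t, m, hG, htm, hrel, h⟩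
  · exact fin_rank_one hE ⊤ (hrk.le.trans h) n
  · exact fin_cm hE α hG t m htm hrel ⊤ (fun _ _ => AddSubgroup.mem_top _) (hrk.le.trans h) n

open scoped Classical in
theorem bir_main (K : Type) [Field K] [NumberField K] (E : WeierstrassCurve K)
    (hE : ShortIntegral E) (hO : SmallRank E) (M : ℕ) (hM1 : 1 ≤ M) (hM : ShaKilledBy E M)
    (n : ℕ) (S : Set (MvPolynomial (Fin n × Fin 3) K)) (hS : ∀ f ∈ S, ∃ d, MultiHom d f)
    (hX : {y : Fin n → E.toAffine.Point | OnX S (fun i => crd (y i))}.Finite)
    (F Ω B : Type) [Field F] [Field Ω] [Field B] [Algebra K F] [Algebra F Ω] [Algebra K Ω]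
    [Algebra K B] [IsScalarTower K F Ω] [IsAlgClosure F Ω] [IsAlgClosure K B]
    (hF : ∃ t : F, Transcendental K t ∧
      Algebra.IsAlgebraic (IntermediateField.adjoin K {t}) F)
    (P : Fin n → (E.baseChange F).toAffine.Point)
    (hPS : OnX S (fun i => crd (P i)))
    (hPn : ∃ i, ∀ y : E.toAffine.Point, P i ≠ locHom (L := F) E y)
    (s : GalSection K F Ω B)
    (hloc : ∀ v : HeightOneSpectrum (𝓞 K),
      s.GeometricOver (v.adicCompletion K) (AlgebraicClosure (v.adicCompletion K))) :
    ∃! O : ValuationSubring F, s.ArisesFrom O := by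
  obtain ⟨hell, h1, h2, h3, h4, h6⟩ := hE
  obtain ⟨a, b, rfl⟩ := short_eq_sw h1 h2 h3
  have hE : ShortInt (sw a b) :=
    { h1 := h1, h2 := h2, h3 := h3, ia := h4, ib := h6, disc := disc_of_elliptic hell }
  exact bir_of_fin hE (finProp_of hE hO n) hM1 hM S hS hX hF P hPS hPn s hloc

end Pool.Agent.TH954
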