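import Pool.Agent.TH954.SGeo2

/-!
# The local points of a section on an elliptic curve come from one rational point (3)
-/

set_option autoImplicit false
set_option linter.unusedSectionVars false

open IsDedekindDomain NumberField WeierstrassCurve MvPolynomial

namespace Pool.Agent.TH954

open Pool.Agent.TH942

variable {K : Type} [Field K] [NumberField K] {M : Type} [Field M] [Algebra K M] {a b : K}

open scoped Classical in
/-- the points of a local section are divisible, up to rational points of the subvariety -/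
theorem points_near3 (hE : ShortInt (sw a b)) {n : ℕ}
    (hfin : FinProp a b (⊤ : AddSubgroup (SPt a b)) n) {M0 : ℕ} (hM1 : 1 ≤ M0)
    (hM : ShaKilledBy (sw a b) M0)
    (S : Set (MvPolynomial (Fin n × Fin 3) K)) (hS : ∀ f ∈ S, ∃ d, MultiHom d f)
    (A : SAct K M) (P : Fin n → ((sw a b).baseChange M).toAffine.Point)
    (hP : ∀ i τ, A.pt a b τ (P i) = P i)
    (hdiv : ∀ N : ℕ, 1 ≤ N → ∀ i, ∃ Q, N • Q = P i)
    (htor : ∀ N : ℕ, 1 ≤ N → ∀ T : ((sw a b).baseChange M).toAffine.Point, N • T = 0 →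
      ∃ T0, pm (sw a b) A.j T0 = T)
    (pl : ∀ v : HeightOneSpectrum (𝓞 K), Plc K M (AlgebraicClosure (v.adicCompletion K)))
    (hpl : ∀ v, GeoPlc A (pl v))
    (red : ∀ v : HeightOneSpectrum (𝓞 K), ((sw a b).baseChange M).toAffine.Point →+
      AlgPt (sw a b) (v.adicCompletion K))
    (h1 : ∀ v x y h, x ∉ (pl v).W → red v (.some x y h) = 0)
    (h2 : ∀ v x y h (hx : x ∈ (pl v).W), ∃ (hy : y ∈ (pl v).W)
      (h' : ((sw a b).baseChange (AlgebraicClosure (v.adicCompletion K))).toAffine.Nonsingular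
        ((pl v).ρ ⟨x, hx⟩) ((pl v).ρ ⟨y, hy⟩)), red v (.some x y h) = .some _ _ h')
    (Pv : ∀ v : HeightOneSpectrum (𝓞 K), Fin n →
      ((sw a b).baseChange (v.adicCompletion K)).toAffine.Point)
    (hPv : ∀ v i, incl (sw a b) (v.adicCompletion K) (Pv v i) = red v (P i))
    (hPX : ∀ v, OnX S (fun i => crd (Pv v i)))
    (N : ℕ) (hN : 1 ≤ N) :
    ∃ P0 : Fin n → SPt a b, OnX S (fun i => crd (P0 i)) ∧ (∀ v i,
      ∃ z, Pv v i - locHom (L := v.adicCompletion K) (sw a b) (P0 i) = N • z) ∧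
      ∀ i, ∃ (Q : ((sw a b).baseChange M).toAffine.Point) (R : AlgPt (sw a b) K),
        N • Q = P i ∧ N • R = incl (sw a b) K (P0 i) ∧
        ∀ σ, A.pt a b σ Q = Q + pm (sw a b) A.j (act (sw a b) σ R - R) := by
  obtain ⟨S', hS'S, hS'⟩ := finite_subset S
  obtain ⟨V, R', -, hR', hV⟩ := hfin S' (fun f hf => hS f (hS'S hf)) N hN ∅ 2 one_lt_two
  have hR1 : 1 < R' := one_lt_two.trans_le hR'
  obtain ⟨N1, hN10, hN1⟩ := exists_expo_finset hE V hR1
  set m : ℕ := M0 * 2 with hm
  have hm1 : 1 ≤ m := by omega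
  have hmN : 1 ≤ m * (N * N1) := Nat.mul_pos hm1 (Nat.mul_pos hN hN10)
  choose Q hQ using hdiv (m * (N * N1)) hmN
  have hcoc : ∀ i, ∃ ξ : (AlgebraicClosure K ≃ₐ[K] AlgebraicClosure K) → AlgPt (sw a b) K,
      IsCocycle (sw a b) ξ ∧ (∀ σ, (m * (N * N1)) • ξ σ = 0) ∧
      ∀ σ, pm (sw a b) A.j (ξ σ) = A.pt a b σ (Q i) - Q i := fun i =>
    exists_cocycle A (hQ i) (hP i) (htor _ hmN)
  choose ξ hξ hξN hξj using hcoc
  have hloc : ∀ v i σ τ, Compat ((pl v).iot A.j) σ τ →
      pm (sw a b) ((pl v).iot A.j) (ξ i τ) = act (sw a b) σ (red v (Q i)) - red v (Q i) :=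
    fun v i => (cocycle_local A (hpl v) (h1 v) (h2 v) (hξj i)).1
  -- twice the classes are in the Tate-Shafarevich group
  have hRex : ∀ i, ∃ R : AlgPt (sw a b) K, ∀ σ, m • ξ i σ = act (sw a b) σ R - R := by
    intro i
    have hco2 : IsCocycle (sw a b) (fun σ => 2 • ξ i σ) := by
      refine ⟨fun σ τ => ?_, ?_⟩
      · change 2 • ξ i (σ * τ) = 2 • ξ i σ + act (sw a b) σ (2 • ξ i τ)
        rw [(hξ i).1 σ τ, ns_add, act_nsmul]
      · obtain ⟨F, hF, h⟩ := (hξ i).2
        exact ⟨F, hF, fun σ τ hστ => by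
          change 2 • ξ i σ = 2 • ξ i τ
          rw [h σ τ hστ]⟩
    obtain ⟨R, hR⟩ := hM (fun σ => 2 • ξ i σ) hco2 (fun v => by
      refine ⟨(pl v).iot A.j, 2 • red v (Q i), fun σ τ hστ => ?_⟩
      change pm (sw a b) _ (2 • ξ i τ) = _
      rw [map_nsmul, hloc v i σ τ hστ, act_nsmul, ns_sub]) (fun w =>
      trivial_two (hξ i).1 w.Completion (twoGal_inf w))
    refine ⟨R, fun σ => ?_⟩
    rw [← hR σ, hm, ns_mul]
  choose R hR using hRex
  have hyex : ∀ i, ∃ y : SPt a b, incl (sw a b) K y = (N * N1) • R i := by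
    intro i
    refine exists_of_fixed (L := K) ((N * N1) • R i) (fun σ => ?_)
    have e1 : act (sw a b) σ (R i) = R i + m • ξ i σ := by
      rw [hR i σ]
      abel
    rw [act_nsmul, e1, ns_add, ← ns_mul, mul_comm (N * N1) m, hξN, add_zero]
  choose y hy using hyex
  have hz : ∀ v i, ∃ z, Pv v i - locHom (L := v.adicCompletion K) (sw a b) (y i) =
      (N * N1) • z := by
    intro v i
    have : CharZero (v.adicCompletion K) :=
      charZero_of_injective_algebraMap (algebraMap K (v.adicCompletion K)).injective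
    refine local_step (M := m) (N := N * N1) (Q := red v (Q i)) (ι := (pl v).iot A.j)
      (R := R i) ?_ (fun σ τ h => hloc v i σ τ h) (hR i) (hy i)
    rw [hPv, ← hQ i]
    exact (map_nsmul (red v) _ _).symm
  obtain ⟨P0, -, hP0S, -, hP0y⟩ := hV (fun v => Pv v) y (fun _ => AddSubgroup.mem_top _) (by
      intro v _ f hf
      have := hPX v f (hS'S hf)
      rw [aeval_def] at this
      rw [eval_map]
      exact this) (by
      intro v hv i
      obtain ⟨z, hz⟩ := hz v i
      rw [hz, mul_comm, mul_smul]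
      exact hN1 v hv _)
  refine ⟨P0, ?_, fun v i => ?_, fun i => ?_⟩
  · apply hS'
    intro f hf
    rw [aeval_def]
    exact hP0S f hf
  · obtain ⟨z, hz⟩ := hz v i
    obtain ⟨z', -, hz'⟩ := hP0y i
    refine ⟨N1 • z + locHom (L := v.adicCompletion K) (sw a b) z', ?_⟩
    have e1 : P0 i = y i - N • z' := by
      rw [← hz']
      abel
    rw [e1, map_sub, map_nsmul, smul_add, ← mul_smul, ← hz]
    abel
  · obtain ⟨z', -, hz'⟩ := hP0y i
    have e1 : P0 i = y i - N • z' := by
      rw [← hz']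
      abel
    refine ⟨(m * N1) • Q i, N1 • R i - incl (sw a b) K z', ?_, ?_, fun σ => ?_⟩
    · rw [← mul_smul, ← hQ i]
      congr 1
      ring
    · have e2 : incl (sw a b) K (P0 i) = incl (sw a b) K (y i) - N • incl (sw a b) K z' := by
        rw [e1]
        exact (incl_sub (E := sw a b) (L := K) (y i) (N • z')).trans
          (congrArg _ (incl_nsmul (E := sw a b) (L := K) N z'))
      rw [e2, hy i, ns_sub, ← ns_mul]
    · have e5 : act (sw a b) σ (incl (sw a b) K z') = incl (sw a b) K z' :=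
        act_incl (E := sw a b) (L := K) σ z'
      have e6 : act (sw a b) σ (N1 • R i - incl (sw a b) K z') -
          (N1 • R i - incl (sw a b) K z') = (m * N1) • ξ i σ := by
        rw [act_sub, act_nsmul, e5, mul_comm m N1, ns_mul, hR i σ, ns_sub]
        abel
      have e7 : A.pt a b σ ((m * N1) • Q i) = (m * N1) • A.pt a b σ (Q i) := map_nsmul _ _ _
      have e8 : (m * N1) • pm (sw a b) A.j (ξ i σ) =
          (m * N1) • A.pt a b σ (Q i) - (m * N1) • Q i := by
        rw [hξj i σ, smul_sub]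
      rw [e7, e6, map_nsmul, e8]
      abel

open scoped Classical in
/-- The local points of a section, at all finite places, are one rational point. -/
theorem points_eq3 (hE : ShortInt (sw a b)) {n : ℕ}
    (hfin : FinProp a b (⊤ : AddSubgroup (SPt a b)) n) {M0 : ℕ} (hM1 : 1 ≤ M0)
    (hM : ShaKilledBy (sw a b) M0)
    (S : Set (MvPolynomial (Fin n × Fin 3) K)) (hS : ∀ f ∈ S, ∃ d, MultiHom d f)
    (hX : {y : Fin n → SPt a b | OnX S (fun i => crd (y i))}.Finite)
    (A : SAct K M) (P : Fin n → ((sw a b).baseChange M).toAffine.Point)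
    (hPS : OnX S (fun i => crd (P i)))
    (hP : ∀ i τ, A.pt a b τ (P i) = P i)
    (hdiv : ∀ N : ℕ, 1 ≤ N → ∀ i, ∃ Q, N • Q = P i)
    (htor : ∀ N : ℕ, 1 ≤ N → ∀ T : ((sw a b).baseChange M).toAffine.Point, N • T = 0 →
      ∃ T0, pm (sw a b) A.j T0 = T)
    (pl : ∀ v : HeightOneSpectrum (𝓞 K), Plc K M (AlgebraicClosure (v.adicCompletion K)))
    (hpl : ∀ v, GeoPlc A (pl v))
    (red : ∀ v : HeightOneSpectrum (𝓞 K), ((sw a b).baseChange M).toAffine.Point →+
      AlgPt (sw a b) (v.adicCompletion K))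
    (h1 : ∀ v x y h, x ∉ (pl v).W → red v (.some x y h) = 0)
    (h2 : ∀ v x y h (hx : x ∈ (pl v).W), ∃ (hy : y ∈ (pl v).W)
      (h' : ((sw a b).baseChange (AlgebraicClosure (v.adicCompletion K))).toAffine.Nonsingular
        ((pl v).ρ ⟨x, hx⟩) ((pl v).ρ ⟨y, hy⟩)), red v (.some x y h) = .some _ _ h') :
    ∃ x : Fin n → SPt a b, OnX S (fun i => crd (x i)) ∧ (∀ v i,
      red v (P i) = incl (sw a b) (v.adicCompletion K) (locHom (sw a b) (x i))) ∧
      ∀ N : ℕ, 1 ≤ N → ∀ i, ∃ (Q : ((sw a b).baseChange M).toAffine.Point)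
        (R : AlgPt (sw a b) K), N • Q = P i ∧ N • R = incl (sw a b) K (x i) ∧
        ∀ σ, A.pt a b σ Q = Q + pm (sw a b) A.j (act (sw a b) σ R - R) := by
  have hch : ∀ v : HeightOneSpectrum (𝓞 K), CharZero (v.adicCompletion K) := fun v =>
    charZero_of_injective_algebraMap (algebraMap K (v.adicCompletion K)).injective
  -- the local points
  have hfix : ∀ v i, ∃ z, incl (sw a b) (v.adicCompletion K) z = red v (P i) := by
    intro v i
    refine exists_of_fixed _ (fun σ => ?_)
    obtain ⟨τ, hτ⟩ := exists_compat ((pl v).iot A.j) σ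
    have h3 := red_act (pl := pl v) (a := a) (b := b) (red := red v) (map_zero (red v)) (h1 v)
      (h2 v) ((A.s τ : M ≃ₐ[K] M) : M →ₐ[K] M)
      ((σ : AlgebraicClosure (v.adicCompletion K) →ₐ[v.adicCompletion K]
        AlgebraicClosure (v.adicCompletion K)).restrictScalars K)
      (fun x => hpl v σ τ hτ x) (P i)
    have h4 := hP i τ
    unfold SAct.pt at h4
    rw [h4] at h3
    exact h3.symm
  choose Pv hPv using hfix
  have hPX : ∀ v, OnX S (fun i => crd (Pv v i)) := by
    intro v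
    have h3 : OnX S (fun i => crd (red v (P i))) :=
      onX_red (pl v) hS (fun i => red_crd (pl := pl v) (red := red v) (map_zero (red v))
        (h1 v) (h2 v) (P i)) hPS
    intro f hf
    have h4 := h3 f hf
    have h5 : ∀ p : Fin n × Fin 3, crd (red v (P p.1)) p.2 =
        algebraMap (v.adicCompletion K) (AlgebraicClosure (v.adicCompletion K))
          (crd (Pv v p.1) p.2) := by
      intro p
      rw [← hPv v p.1]
      have h6 : ∀ T : ((sw a b).baseChange (v.adicCompletion K)).toAffine.Point, ∀ j : Fin 3,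
          crd (incl (sw a b) (v.adicCompletion K) T) j =
          algebraMap (v.adicCompletion K) (AlgebraicClosure (v.adicCompletion K)) (crd T j) := by
        intro T j
        rcases T with _ | ⟨x, y, h⟩
        · change ![(0 : AlgebraicClosure (v.adicCompletion K)), 1, 0] j =
            algebraMap (v.adicCompletion K) _ (![(0 : v.adicCompletion K), 1, 0] j)
          fin_cases j <;> simp
        · change ![algebraMap (v.adicCompletion K) (AlgebraicClosure (v.adicCompletion K)) x,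
            algebraMap (v.adicCompletion K) (AlgebraicClosure (v.adicCompletion K)) y, 1] j =
            algebraMap (v.adicCompletion K) _ (![x, y, 1] j)
          fin_cases j <;> simp
      exact h6 _ _
    have h7 := aeval_algebraMap_apply (AlgebraicClosure (v.adicCompletion K))
      (fun p : Fin n × Fin 3 => crd (Pv v p.1) p.2) f
    simp only [h5] at h4
    have h8 := h7.symm.trans h4
    exact (map_eq_zero _).1 h8
  have hnear := points_near3 hE hfin hM1 hM S hS A P hP hdiv htor pl hpl red h1 h2 Pv hPv hPX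
  -- the pigeonhole principle
  choose P0 hP0 hP0z hP0c using fun m : ℕ => hnear (m.factorial) (Nat.factorial_pos m)
  obtain ⟨x, hx⟩ : ∃ x ∈ {y : Fin n → SPt a b | OnX S (fun i => crd (y i))},
      {m : ℕ | P0 m = x}.Infinite := by
    by_contra hcon
    push Not at hcon
    have h3 : (⋃ x ∈ {y : Fin n → SPt a b | OnX S (fun i => crd (y i))},
        {m : ℕ | P0 m = x}).Finite := hX.biUnion (fun x hx => hcon x hx)
    apply Set.infinite_univ (α := ℕ)
    refine h3.subset ?_
    intro m _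
    rw [Set.mem_iUnion₂]
    exact ⟨P0 m, hP0 m, rfl⟩
  refine ⟨x, hx.1, fun v i => ?_, fun N hN i => ?_⟩
  swap
  · obtain ⟨m, hm, hNm⟩ := hx.2.exists_gt N
    have hm' : P0 m = x := hm
    obtain ⟨c, hc⟩ : N ∣ m.factorial := Nat.dvd_factorial hN hNm.le
    obtain ⟨Q, R, h3, h4, h5⟩ := hP0c m i
    refine ⟨c • Q, c • R, ?_, ?_, fun σ => ?_⟩
    · rw [← h3, hc, mul_smul]
    · rw [← hm', ← h4, hc, ns_mul]
    · have e7 : A.pt a b σ (c • Q) = c • A.pt a b σ Q := map_nsmul _ _ _
      rw [e7, h5 σ, act_nsmul, ← ns_sub, map_nsmul, smul_add]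
  rw [← hPv v i]
  congr 1
  have h5 : Pv v i - locHom (L := v.adicCompletion K) (sw a b) (x i) = 0 := by
    apply big_all_zero
    intro R hR
    obtain ⟨N, hN0, hN⟩ := exists_expo hE v hR
    obtain ⟨m, hm, hNm⟩ := hx.2.exists_gt N
    obtain ⟨z, hz⟩ := hP0z m v i
    have hm' : P0 m = x := hm
    rw [← hm', hz]
    obtain ⟨c, hc⟩ : N ∣ m.factorial := Nat.dvd_factorial hN0 hNm.le
    rw [hc, mul_smul]
    exact hN _
  exact sub_eq_zero.1 h5

end Pool.Agent.TH954
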