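import Pool.Agent.TH954.SBirMain
import Pool.Agent.TH954.SGeo3
import Pool.Agent.W620.SC.Def

/-!
# Division points of points over function fields are unramified
-/

set_option autoImplicit false
set_option linter.unusedSectionVars false

open IsDedekindDomain NumberField WeierstrassCurve MvPolynomial

namespace Pool.Agent.TH954

open Pool.Agent.TH942 Pool.Agent.W620.SC

section inertia

variable {K Ω : Type} [Field K] [CharZero K] [Field Ω] [Algebra K Ω]

/-- the residue map of a valuation ring as a place -/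
lemma exists_res_place (W : ValuationSubring Ω) (hW : ∀ c : K, algebraMap K Ω c ∈ W) :
    ∃ (C : Type) (_ : Field C) (_ : Algebra K C) (_ : CharZero C) (pl : Plc K Ω C),
      ∀ σ : Ω →ₐ[K] Ω, (∀ x ∈ W, σ x ∈ W ∧ σ x - x ∈ W.nonunits) →
        ∀ x : pl.W, ∃ h : σ x ∈ pl.W, pl.ρ ⟨σ x, h⟩ = pl.ρ x := by
  let f : K →+* IsLocalRing.ResidueField W :=
    (IsLocalRing.residue W).comp ((algebraMap K Ω).codRestrict W hW)
  let _ : Algebra K (IsLocalRing.ResidueField W) := f.toAlgebra
  have hc : CharZero (IsLocalRing.ResidueField W) :=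
    charZero_of_injective_algebraMap f.injective
  refine ⟨IsLocalRing.ResidueField W, inferInstance, inferInstance, hc,
    ⟨W, IsLocalRing.residue W, ?_, fun c => ⟨hW c, rfl⟩⟩, ?_⟩
  · intro x hx
    have h1 : IsUnit x := by
      rw [← not_not (a := IsUnit x)]
      intro h
      apply hx
      rw [IsLocalRing.residue_eq_zero_iff]
      exact h
    obtain ⟨u, rfl⟩ := h1
    have h2 : ((u : W) : Ω)⁻¹ = ((u⁻¹ : Wˣ) : W) := by
      apply inv_eq_of_mul_eq_one_right
      have h3 : ((u : W) : Ω) * (((u⁻¹ : Wˣ) : W) : Ω) = ((u : W) * ((u⁻¹ : Wˣ) : W) : W) := rfl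
      rw [h3, Units.mul_inv]
      rfl
    rw [h2]
    exact ((u⁻¹ : Wˣ) : W).2
  · intro σ hσ x
    obtain ⟨h1, h2⟩ := hσ x x.2
    refine ⟨h1, ?_⟩
    rw [← sub_eq_zero, ← map_sub, IsLocalRing.residue_eq_zero_iff]
    obtain ⟨h3, h4⟩ := ValuationSubring.mem_nonunits_iff_exists_mem_maximalIdeal.1 h2
    exact h4

variable [IsAlgClosed Ω] {a b : K}

open scoped Classical in
/-- automorphisms in an inertia group fix the division points of the points they fix -/
theorem fixed_div (hD : 4 * a ^ 3 + 27 * b ^ 2 ≠ 0) (j : AlgebraicClosure K →ₐ[K] Ω)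
    (W : ValuationSubring Ω) (hW : ∀ c : K, algebraMap K Ω c ∈ W) (σ : Ω →ₐ[K] Ω)
    (hσ : ∀ x ∈ W, σ x ∈ W ∧ σ x - x ∈ W.nonunits) {N : ℕ} (hN : 1 ≤ N)
    (Q : ((sw a b).baseChange Ω).toAffine.Point)
    (hQ : pm (sw a b) σ (N • Q) = N • Q) : pm (sw a b) σ Q = Q := by
  have hcΩ : CharZero Ω := charZero_of_injective_algebraMap (algebraMap K Ω).injective
  obtain ⟨C, _, _, _, pl, hpl⟩ := exists_res_place W hW
  obtain ⟨red, h1, h2⟩ := exists_redM pl hD
  have h3 : N • (pm (sw a b) σ Q - Q) = 0 := by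
    rw [smul_sub, ← map_nsmul, hQ, sub_self]
  obtain ⟨T0, hT0⟩ := torsion_mem hD j N hN _ h3
  have h4 : red (pm (sw a b) σ Q) = red Q := by
    have h5 := red_act (pl := pl) (a := a) (b := b) (red := red) (map_zero red) h1 h2 σ
      (AlgHom.id K C) (fun x => hpl σ hσ x) Q
    rw [h5]
    have h6 : ∀ T : ((sw a b).baseChange C).toAffine.Point,
        pm (sw a b) (AlgHom.id K C) T = T := by
      intro T
      cases T <;> rfl
    exact h6 _
  have h5 : red (pm (sw a b) j T0) = 0 := by
    rw [hT0, map_sub, h4, sub_self]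
  rw [red_pm (pl := pl) (a := a) (b := b) (red := red) (map_zero red) h1 h2 j (pl.iot j)
    (pl.iot_spec j)] at h5
  have h6 : T0 = 0 := pm_injective (E := sw a b) (pl.iot j) (by rw [h5, map_zero])
  rw [h6, map_zero] at hT0
  exact (sub_eq_zero.1 hT0.symm)

end inertia

section unram

variable {K F Ω : Type} [Field K] [CharZero K] [Field F] [Field Ω] [Algebra K F] [Algebra F Ω]
  [Algebra K Ω] [IsScalarTower K F Ω] [IsAlgClosed Ω] {a b : K}

/-- points with coordinates in an intermediate field -/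
lemma exists_pt_of_mem {M : Type} [Field M] [Algebra K M] (e : M →ₐ[K] Ω) {x y : Ω}
    (h : ((sw a b).baseChange Ω).toAffine.Nonsingular x y) (hx : ∃ z, e z = x)
    (hy : ∃ z, e z = y) :
    ∃ Q' : ((sw a b).baseChange M).toAffine.Point, pm (sw a b) e Q' = .some x y h := by
  obtain ⟨x', rfl⟩ := hx
  obtain ⟨y', rfl⟩ := hy
  have hn : ((sw a b).baseChange M).toAffine.Nonsingular x' y' :=
    (Affine.baseChange_nonsingular (sw a b) (f := e) (RingHom.injective _) _ _).mp h
  exact ⟨.some _ _ hn, rfl⟩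

open scoped Classical in
/-- division points of points over `F` are defined over `F_U` -/
theorem exists_div_unram (hD : 4 * a ^ 3 + 27 * b ^ 2 ≠ 0) (j : AlgebraicClosure K →ₐ[K] Ω)
    (U : Set (ValuationSubring F)) (hU : ∀ O ∈ U, ∀ c : K, algebraMap K F c ∈ O)
    {M : Type} [Field M] [Algebra F M] [Algebra K M] [IsScalarTower K F M] (e : M →ₐ[F] Ω)
    (he : unramified F Ω U ≤ e.fieldRange)
    (P : ((sw a b).baseChange F).toAffine.Point) {N : ℕ} (hN : 1 ≤ N) :
    ∃ Q : ((sw a b).baseChange M).toAffine.Point,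
      N • Q = pm (sw a b) (IsScalarTower.toAlgHom K F M) P := by
  have hcΩ : CharZero Ω := charZero_of_injective_algebraMap (algebraMap K Ω).injective
  obtain ⟨Q, hQ⟩ := exists_nsmul_base hD Ω hN
    (pm (sw a b) (IsScalarTower.toAlgHom K F Ω) P)
  have hfix : ∀ W : ValuationSubring Ω, W.comap (algebraMap F Ω) ∈ U →
      ∀ σ ∈ inertia F Ω W,
        pm (sw a b) ((σ : Ω →ₐ[F] Ω).restrictScalars K) Q = Q := by
    intro W hW σ hσ
    refine fixed_div hD j W (fun c => ?_) _ (fun x hx => inertia_spec hσ hx) hN Q ?_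
    · have := hU _ hW c
      rw [ValuationSubring.mem_comap, ← IsScalarTower.algebraMap_apply] at this
      exact this
    · rw [hQ, pm_pm]
      congr 2
      apply AlgHom.ext
      intro x
      exact σ.commutes x
  have hex : ∃ Q' : ((sw a b).baseChange M).toAffine.Point,
      pm (sw a b) (e.restrictScalars K) Q' = Q := by
    match Q, hQ, hfix with
    | .zero, _, _ => exact ⟨.zero, rfl⟩
    | .some x y h, _, hfix =>
      have hxy : ∀ W : ValuationSubring Ω, W.comap (algebraMap F Ω) ∈ U →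
          ∀ σ ∈ inertia F Ω W, σ x = x ∧ σ y = y := by
        intro W hW σ hσ
        have h1 := hfix W hW σ hσ
        obtain ⟨h', e⟩ := pm_some (E := sw a b) ((σ : Ω →ₐ[F] Ω).restrictScalars K) h
        rw [e, Affine.Point.some.injEq] at h1
        exact h1
      exact exists_pt_of_mem _ h
        (he (mem_unramified.2 (fun W hW σ hσ => (hxy W hW σ hσ).1)))
        (he (mem_unramified.2 (fun W hW σ hσ => (hxy W hW σ hσ).2)))
  obtain ⟨Q', hQ'⟩ := hex
  refine ⟨Q', ?_⟩
  apply pm_injective (E := sw a b) (e.restrictScalars K)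
  rw [map_nsmul, hQ', hQ, pm_pm]
  congr 2
  apply AlgHom.ext
  intro x
  exact (e.commutes x).symm

open scoped Classical in
/-- torsion points over `M` come from the algebraic closure of `K` -/
theorem torsion_mem_sub (hD : 4 * a ^ 3 + 27 * b ^ 2 ≠ 0) {M : Type} [Field M]
    [Algebra K M] (e : M →ₐ[K] Ω) (j : AlgebraicClosure K →ₐ[K] M) (N : ℕ) (hN : 1 ≤ N)
    (T : ((sw a b).baseChange M).toAffine.Point) (hT : N • T = 0) :
    ∃ T0, pm (sw a b) j T0 = T := by
  have hcΩ : CharZero Ω := charZero_of_injective_algebraMap (algebraMap K Ω).injective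
  obtain ⟨T0, hT0⟩ := torsion_mem hD (e.comp j) N hN (pm (sw a b) e T) (by
    rw [← map_nsmul, hT, map_zero])
  refine ⟨T0, pm_injective (E := sw a b) e ?_⟩
  rw [pm_pm, hT0]

end unram

end Pool.Agent.TH954
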