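import Pool.Agent.TH954.SEt

/-!
# Sections of étale fundamental groups of curves with a map to a power of an elliptic curve
-/

set_option autoImplicit false
set_option linter.unusedSectionVars false

open IsDedekindDomain NumberField WeierstrassCurve MvPolynomial

namespace Pool.Agent.TH954

open Pool.Agent.TH942 Pool.Agent.W620.SC

section definitions

/-- The place `p` of `M` over `K`, with values in the algebraic closure `C` of the extension `L` of
`K`, gives the section `s` over `L`: whenever `σ ∈ Gal(C/L)` and `g ∈ Gal(B/K)` are compatible on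
`B`, the place turns `s g` into `σ`. -/
def GalSection.GivenBy {K F M B : Type} [Field K] [Field F] [Field M] [Field B] [Algebra F M]
    [Algebra K M] [Algebra K B] (s : GalSection K F M B) (L : Type) {C : Type} [Field L] [Field C]
    [Algebra L C] [Algebra K C] (p : Plc K M C) : Prop :=
  ∀ (σ : C ≃ₐ[L] C) (g : B ≃ₐ[K] B),
    (∀ z c, p.val (s.j z) c → p.val (s.j (g z)) (σ c)) →
    ∀ x c, p.val x c → p.val (s.s g x) (σ c)

/-- The point with the homogeneous coordinates `u` specialises at the place `p` to the point with the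
coordinates `w`. -/
def Plc.Spec {K M C : Type} [Field K] [Field M] [Field C] [Algebra K M] [Algebra K C]
    (p : Plc K M C) (u : Fin 3 → M) (w : Fin 3 → C) : Prop :=
  ∃ c : M, c ≠ 0 ∧ ∀ j, p.val (c * u j) (w j)

open scoped Classical in
/-- The images in `π₁(E)` of the section `s`, through the point `P` of `E` over `F`, and of the
`K`-rational point `x` of `E` agree: for every `N` there are `N`-th division points `Q` of `P` over
`M` and `R` of `x` over `B` such that `s g - 1` acts on `Q` as `g - 1` on `R`. -/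
def GalSection.SameKummer {K F M B : Type} [Field K] [Field F] [Field M] [Field B] [Algebra K F]
    [Algebra F M] [Algebra K M] [Algebra K B] [IsScalarTower K F M] (s : GalSection K F M B)
    (E : WeierstrassCurve K) (P : (E.baseChange F).toAffine.Point) (x : E.toAffine.Point) : Prop :=
  ∀ N : ℕ, 1 ≤ N → ∃ (Q : (E.baseChange M).toAffine.Point) (R : (E.baseChange B).toAffine.Point),
    N • Q = pm E (IsScalarTower.toAlgHom K F M) P ∧ N • R = locHom (L := B) E x ∧
    ∀ g : B ≃ₐ[K] B, pm E ((s.s g : M →ₐ[F] M).restrictScalars K) Q - Q =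
      pm E s.j (pm E (g : B →ₐ[K] B) R - R)

end definitions

open scoped Classical in
lemma eqv_incl {K B : Type} [Field K] [Field B] [Algebra K B] {E : WeierstrassCurve K}
    (e : AlgebraicClosure K →ₐ[K] B) (y : E.toAffine.Point) :
    pm E e (incl E K y) = locHom (L := B) E y := by
  match y with
  | .zero => rfl
  | .some x y h =>
    change Affine.Point.some (e (algebraMap K (AlgebraicClosure K) x))
      (e (algebraMap K (AlgebraicClosure K) y)) _ =
      Affine.Point.some (algebraMap K B x) (algebraMap K B y) _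
    simp only [e.commutes]

open scoped Classical in
lemma crd_incl {K L : Type} [Field K] [Field L] [Algebra K L] {E : WeierstrassCurve K}
    (y : E.toAffine.Point) (j : Fin 3) :
    crd (incl E L (locHom (L := L) E y)) j = algebraMap K (AlgebraicClosure L) (crd y j) := by
  match y with
  | .zero =>
    change ![(0 : AlgebraicClosure L), 1, 0] j = algebraMap K _ (![(0 : K), 1, 0] j)
    fin_cases j <;> simp
  | .some x y h =>
    change ![algebraMap L (AlgebraicClosure L) (algebraMap K L x),
      algebraMap L (AlgebraicClosure L) (algebraMap K L y), 1] j =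
      algebraMap K (AlgebraicClosure L) (![x, y, 1] j)
    fin_cases j
    · exact (IsScalarTower.algebraMap_apply K L (AlgebraicClosure L) x).symm
    · exact (IsScalarTower.algebraMap_apply K L (AlgebraicClosure L) y).symm
    · simp

variable {K : Type} [Field K] [NumberField K] {F Ω M B : Type} [Field F] [Field Ω] [Field M]
  [Field B] [Algebra K F] [Algebra F Ω] [Algebra K Ω] [IsScalarTower K F Ω] [Algebra F M]
  [Algebra K M] [IsScalarTower K F M] [Algebra K B] [IsAlgClosure F Ω] [IsAlgClosure K B]

open scoped Classical in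
theorem et_of_fin {a b : K} (hE : ShortInt (sw a b)) {n : ℕ}
    (hfin : FinProp a b (⊤ : AddSubgroup (SPt a b)) n) {M0 : ℕ} (hM1 : 1 ≤ M0)
    (hM : ShaKilledBy (sw a b) M0)
    (S : Set (MvPolynomial (Fin n × Fin 3) K)) (hS : ∀ f ∈ S, ∃ d, MultiHom d f)
    (hX : {y : Fin n → SPt a b | OnX S (fun i => crd (y i))}.Finite)
    (U : Set (ValuationSubring F)) (hU : ∀ O ∈ U, ∀ c : K, algebraMap K F c ∈ O)
    (e : M →ₐ[F] Ω) (he : unramified F Ω U ≤ e.fieldRange)
    (P : Fin n → ((sw a b).baseChange F).toAffine.Point)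
    (hPS : OnX S (fun i => crd (P i))) (s : GalSection K F M B)
    (p : ∀ v : HeightOneSpectrum (𝓞 K), Plc K M (AlgebraicClosure (v.adicCompletion K)))
    (hp : ∀ v, s.GivenBy (v.adicCompletion K) (p v)) :
    ∃ x : Fin n → SPt a b, OnX S (fun i => crd (x i)) ∧
      (∀ v i, (p v).Spec (fun j => algebraMap F M (crd (P i) j))
        (fun j => algebraMap K (AlgebraicClosure (v.adicCompletion K)) (crd (x i) j))) ∧
      ∀ i, s.SameKummer (sw a b) (P i) (x i) := by
  have hΩ1 : IsAlgClosed Ω := IsAlgClosure.isAlgClosed F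
  have hΩ2 : Algebra.IsAlgebraic F Ω := IsAlgClosure.isAlgebraic
  have hMalg : Algebra.IsAlgebraic F M := Algebra.IsAlgebraic.of_injective e e.injective
  have hD : 4 * a ^ 3 + 27 * b ^ 2 ≠ 0 := hE.disc
  have hcΩ : CharZero Ω := charZero_of_injective_algebraMap (algebraMap K Ω).injective
  have hcv : ∀ v : HeightOneSpectrum (𝓞 K), CharZero (v.adicCompletion K) := fun v =>
    charZero_of_injective_algebraMap (algebraMap K (v.adicCompletion K)).injective
  have hcv' : ∀ v : HeightOneSpectrum (𝓞 K), CharZero (AlgebraicClosure (v.adicCompletion K)) :=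
    fun v => charZero_of_injective_algebraMap
      (algebraMap (v.adicCompletion K) (AlgebraicClosure (v.adicCompletion K))).injective
  set A := toSAct s with hA
  have hpl : ∀ v, GeoPlc A (p v) := by
    intro v σ τ hστ x
    refine hp v σ ((eqv K B).autCongr τ) ?_ x _ ⟨x.2, rfl⟩
    intro z c hc
    obtain ⟨y, rfl⟩ := (eqv K B).surjective z
    have e1 : (p v).val (A.j y) ((p v).iot A.j y) := Plc.val_j _ y
    have e2 : (p v).val (A.j (τ y)) ((p v).iot A.j (τ y)) := Plc.val_j _ (τ y)
    have e3 : s.j ((eqv K B).autCongr τ (eqv K B y)) = A.j (τ y) := by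
      change s.j (eqv K B (τ ((eqv K B).symm (eqv K B y)))) = _
      rw [AlgEquiv.symm_apply_apply]
      rfl
    have e4 : (p v).iot A.j y = c := e1.unique hc
    rw [e3, ← e4, ← hστ y]
    exact e2
  have hAF : ∀ (τ : AlgebraicClosure K ≃ₐ[K] AlgebraicClosure K) (x : F),
      A.s τ (algebraMap F M x) = algebraMap F M x :=
    fun τ x => (s.s ((eqv K B).autCongr τ)).commutes x
  set P' : Fin n → ((sw a b).baseChange M).toAffine.Point :=
    fun i => pm (sw a b) (IsScalarTower.toAlgHom K F M) (P i) with hP'
  have hP'S : OnX S (fun i => crd (P' i)) := onX_pm _ hPS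
  have hP'f : ∀ i τ, A.pt a b τ (P' i) = P' i := by
    intro i τ
    change pm (sw a b) _ (pm (sw a b) _ (P i)) = pm (sw a b) _ (P i)
    rw [pm_pm]
    congr 2
    apply AlgHom.ext
    intro x
    exact hAF τ x
  choose red h1 h2 using fun v => exists_redM (p v) hD
  obtain ⟨x, hxS, hx, hxc⟩ := points_eq3 hE hfin hM1 hM S hS hX A P' hP'S hP'f
    (fun N hN i => exists_div_unram hD ((e.restrictScalars K).comp A.j) U hU e he (P i) hN)
    (fun N hN T hT => torsion_mem_sub hD (e.restrictScalars K) A.j N hN T hT) p hpl red h1 h2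
  refine ⟨x, hxS, fun v i => ?_, fun i N hN => ?_⟩
  · obtain ⟨u, hu0, hu⟩ := red_crd (pl := p v) (red := red v) (map_zero (red v)) (h1 v) (h2 v)
      (P' i)
    refine ⟨u, hu0, fun j => ?_⟩
    obtain ⟨h3, h4⟩ := hu j
    rw [hx v i, crd_incl] at h4
    have h5 : crd (P' i) j = algebraMap F M (crd (P i) j) := crd_pm _ _ _
    change (p v).val (u * algebraMap F M (crd (P i) j))
      (algebraMap K (AlgebraicClosure (v.adicCompletion K)) (crd (x i) j))
    rw [← h4, ← h5]
    exact ⟨h3, rfl⟩
  · obtain ⟨Q, R, hQ, hR, hc⟩ := hxc N hN i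
    refine ⟨Q, pm (sw a b) (eqv K B : AlgebraicClosure K →ₐ[K] B) R, hQ, ?_, fun g => ?_⟩
    · rw [← map_nsmul, ← eqv_incl (eqv K B : AlgebraicClosure K →ₐ[K] B)]
      exact congrArg _ hR
    · have h3 := hc ((eqv K B).autCongr.symm g)
      have h4 : A.pt a b ((eqv K B).autCongr.symm g) Q =
          pm (sw a b) ((s.s g : M →ₐ[F] M).restrictScalars K) Q := by
        unfold SAct.pt
        congr 2
        apply AlgHom.ext
        intro z
        exact toSAct_s s g z
      have h5 : ∀ T : AlgPt (sw a b) K, pm (sw a b) A.j T =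
          pm (sw a b) s.j (pm (sw a b) (eqv K B : AlgebraicClosure K →ₐ[K] B) T) := by
        intro T
        rw [pm_pm]
        rfl
      have h6 : pm (sw a b) (eqv K B : AlgebraicClosure K →ₐ[K] B)
          (act (sw a b) ((eqv K B).autCongr.symm g) R) =
          pm (sw a b) (g : B →ₐ[K] B) (pm (sw a b) (eqv K B : AlgebraicClosure K →ₐ[K] B) R) := by
        unfold act
        rw [pm_pm, pm_pm]
        congr 2
        apply AlgHom.ext
        intro z
        change eqv K B ((eqv K B).symm (g (eqv K B z))) = g (eqv K B z)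
        rw [AlgEquiv.apply_symm_apply]
      rw [← h4, h3, add_sub_cancel_left, h5, map_sub, h6]

open scoped Classical in
theorem et_main (K : Type) [Field K] [NumberField K] (E : WeierstrassCurve K)
    (hE : ShortIntegral E) (hO : SmallRank E) (M0 : ℕ) (hM1 : 1 ≤ M0) (hM : ShaKilledBy E M0)
    (n : ℕ) (S : Set (MvPolynomial (Fin n × Fin 3) K)) (hS : ∀ f ∈ S, ∃ d, MultiHom d f)
    (hX : {y : Fin n → E.toAffine.Point | OnX S (fun i => crd (y i))}.Finite)
    (F Ω M B : Type) [Field F] [Field Ω] [Field M] [Field B] [Algebra K F] [Algebra F Ω]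
    [Algebra K Ω] [Algebra F M] [Algebra K M] [Algebra K B] [IsScalarTower K F Ω]
    [IsScalarTower K F M] [IsAlgClosure F Ω] [IsAlgClosure K B]
    (U : Set (ValuationSubring F)) (hU : ∀ O ∈ U, ∀ c : K, algebraMap K F c ∈ O)
    (e : M →ₐ[F] Ω) (he : unramified F Ω U ≤ e.fieldRange)
    (P : Fin n → (E.baseChange F).toAffine.Point)
    (hPS : OnX S (fun i => crd (P i))) (s : GalSection K F M B)
    (p : ∀ v : HeightOneSpectrum (𝓞 K), Plc K M (AlgebraicClosure (v.adicCompletion K)))
    (hp : ∀ v, s.GivenBy (v.adicCompletion K) (p v)) :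
    ∃ x : Fin n → E.toAffine.Point, OnX S (fun i => crd (x i)) ∧
      (∀ v i, (p v).Spec (fun j => algebraMap F M (crd (P i) j))
        (fun j => algebraMap K (AlgebraicClosure (v.adicCompletion K)) (crd (x i) j))) ∧
      ∀ i, s.SameKummer E (P i) (x i) := by
  obtain ⟨hell, h1, h2, h3, h4, h6⟩ := hE
  obtain ⟨a, b, rfl⟩ := short_eq_sw h1 h2 h3
  have hE : ShortInt (sw a b) :=
    { h1 := h1, h2 := h2, h3 := h3, ia := h4, ib := h6, disc := disc_of_elliptic hell }
  exact et_of_fin hE (finProp_of hE hO n) hM1 hM S hS hX U hU e he P hPS s p hp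

end Pool.Agent.TH954
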