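import Pool.Agent.TH954.SFix
import Mathlib.NumberTheory.NumberField.Basic
import Mathlib.NumberTheory.Padics.PadicVal.Basic
import Mathlib.RingTheory.Valuation.ValuationSubring

/-!
# Uniqueness of the place of a section
-/

set_option autoImplicit false
set_option linter.unusedSectionVars false

open NumberField

namespace Pool.Agent.TH954

/-- `2` is no power of high order in a number field -/
lemma two_not_pow {K : Type} [Field K] [NumberField K] (c : K)
    (h : c ^ (Module.finrank ℚ K + 1) = 2) : False := by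
  have h1 := congrArg (Algebra.norm ℚ) h
  rw [map_pow] at h1
  have h2 : Algebra.norm ℚ (2 : K) = (2 : ℚ) ^ Module.finrank ℚ K := by
    have : (2 : K) = algebraMap ℚ K 2 := by simp
    rw [this, Algebra.norm_algebraMap]
  rw [h2] at h1
  have hd : 0 < Module.finrank ℚ K := Module.finrank_pos
  have hn0 : Algebra.norm ℚ c ≠ 0 := by
    intro h0
    rw [h0, zero_pow (by omega)] at h1
    exact pow_ne_zero _ two_ne_zero h1.symm
  have h3 := congrArg (padicValRat 2) h1
  have : Fact (Nat.Prime 2) := ⟨Nat.prime_two⟩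
  rw [padicValRat.pow, padicValRat.pow] at h3
  have h4 : padicValRat 2 (2 : ℚ) = 1 := padicValRat.self (by norm_num)
  rw [h4, mul_one] at h3
  have h5 : ((Module.finrank ℚ K + 1 : ℕ) : ℤ) ∣ (Module.finrank ℚ K : ℤ) := ⟨_, h3.symm⟩
  have h6 := Int.natCast_dvd_natCast.1 h5
  have h7 := Nat.le_of_dvd hd h6
  omega

section

variable {K : Type} [Field K] [CharZero K] {M : Type} [Field M] [Algebra K M] [IsAlgClosed M]
  (A : SAct K M)

lemma mem_of_integralW {W : ValuationSubring M} (hW : ∀ c : K, algebraMap K M c ∈ W) {x : M}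
    (hx : IsIntegral K x) : x ∈ W := by
  have h3 : IsIntegral W x := by
    obtain ⟨p, hp, hp'⟩ := hx
    refine ⟨p.map ((algebraMap K M).codRestrict W hW), hp.map _, ?_⟩
    rw [Polynomial.eval₂_map]
    exact hp'
  obtain ⟨y, hy⟩ := IsIntegrallyClosed.isIntegral_iff.1 h3
  rw [← hy]
  exact y.2

lemma j_memW {W : ValuationSubring M} (hW : ∀ c : K, algebraMap K M c ∈ W)
    (z : AlgebraicClosure K) : A.j z ∈ W :=
  mem_of_integralW hW ((Algebra.IsAlgebraic.isAlgebraic z).isIntegral.map A.j)

lemma one_le_val_prod {W : ValuationSubring M} {ι : Type} (s : Finset ι) (f : ι → M)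
    (h : ∀ i ∈ s, 1 ≤ W.valuation (f i)) : 1 ≤ W.valuation (∏ i ∈ s, f i) := by
  classical
  induction s using Finset.induction_on with
  | empty => rw [Finset.prod_empty, map_one]
  | insert i s hi ih =>
    rw [Finset.prod_insert hi, map_mul]
    exact one_le_mul (h i (Finset.mem_insert_self _ _))
      (ih (fun j hj => h j (Finset.mem_insert_of_mem hj)))

/-- elements of the fixed field which are one modulo a stable valuation ring are powers -/
theorem exists_root {W : ValuationSubring M} (hW : ∀ c : K, algebraMap K M c ∈ W)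
    (hst : ∀ τ x, x ∈ W → A.s τ x ∈ W) {f : M} (hf : f ∈ A.fix) (hf1 : W.valuation (f - 1) < 1)
    {N : ℕ} (hN : 0 < N) : ∃ g ∈ A.fix, g ^ N = f := by
  classical
  have hchar : CharZero M := charZero_of_injective_algebraMap (algebraMap K M).injective
  have : NeZero (N : M) := ⟨by exact_mod_cast hN.ne'⟩
  obtain ⟨ζ, hζ⟩ := HasEnoughRootsOfUnity.exists_primitiveRoot M N
  obtain ⟨w, hw⟩ := IsAlgClosed.exists_pow_nat_eq f hN
  have hprod := congrArg (Polynomial.eval 1) (X_pow_sub_C_eq_prod hζ hN hw)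
  rw [Polynomial.eval_sub, Polynomial.eval_pow, Polynomial.eval_X, Polynomial.eval_C, one_pow,
    Polynomial.eval_prod] at hprod
  obtain ⟨g, hgN, hg⟩ : ∃ g : M, g ^ N = f ∧ W.valuation (1 - g) < 1 := by
    by_contra hcon
    push Not at hcon
    have h1 : 1 ≤ W.valuation (1 - f) := by
      rw [hprod]
      refine one_le_val_prod _ _ (fun i _ => ?_)
      rw [Polynomial.eval_sub, Polynomial.eval_X, Polynomial.eval_C]
      apply hcon
      rw [mul_pow, hw, ← pow_mul, mul_comm i N, pow_mul, hζ.pow_eq_one, one_pow, one_mul]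
    rw [Valuation.map_sub_swap] at h1
    exact absurd hf1 (not_lt.2 h1)
  have hf0 : f ≠ 0 := by
    rintro rfl
    rw [zero_sub, Valuation.map_neg, map_one] at hf1
    exact lt_irrefl _ hf1
  have hg0 : g ≠ 0 := by
    rintro rfl
    rw [zero_pow hN.ne'] at hgN
    exact hf0 hgN.symm
  have hgv : W.valuation g = 1 := by
    have h1 : W.valuation (1 - (1 - g)) = W.valuation 1 :=
      Valuation.map_sub_eq_of_lt_left _ (by rw [map_one]; exact hg)
    rw [sub_sub_cancel, map_one] at h1
    exact h1
  have hstv : ∀ τ x, W.valuation x < 1 → W.valuation (A.s τ x) < 1 := by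
    intro τ x hx
    by_contra hcon
    rw [not_lt] at hcon
    have hx0 : x ≠ 0 := by
      rintro rfl
      rw [map_zero, map_zero] at hcon
      exact absurd hcon (not_le.2 zero_lt_one)
    have h1 : (A.s τ x)⁻¹ ∈ W := by
      rw [← ValuationSubring.valuation_le_one_iff, map_inv₀]
      exact inv_le_one_of_one_le₀ hcon
    have h2 := hst τ⁻¹ _ h1
    rw [map_inv₀] at h2
    have h3 : A.s τ⁻¹ (A.s τ x) = x := by
      change (A.s τ⁻¹ * A.s τ) x = x
      rw [← map_mul, inv_mul_cancel, map_one]
      rfl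
    rw [h3, ← ValuationSubring.valuation_le_one_iff, map_inv₀] at h2
    have h4 : 0 < W.valuation x := zero_lt_iff.2 ((Valuation.ne_zero_iff _).2 hx0)
    exact absurd h2 (not_le.2 ((one_lt_inv₀ h4).2 hx))
  refine ⟨g, fun τ => ?_, hgN⟩
  have h1 : (A.s τ g / g) ^ N = 1 := by
    rw [div_pow, ← map_pow, hgN, hf τ, div_self hf0]
  obtain ⟨z, hz⟩ := Pool.Agent.W620.SC.root_mem (A.j : AlgebraicClosure K →+* M) hN
    (h := A.s τ g / g) (b := 1) (by rw [h1, map_one])
  have hz' : A.j z = A.s τ g / g := hz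
  by_contra hne
  have hz1 : 1 - z ≠ 0 := by
    intro h0
    rw [sub_eq_zero] at h0
    rw [← h0, map_one, eq_div_iff hg0, one_mul] at hz'
    exact hne hz'.symm
  have h2 : W.valuation (A.j (1 - z)) < 1 := by
    have e : A.j (1 - z) = ((1 - A.s τ g) - (1 - g)) / g := by
      rw [map_sub, map_one, hz']
      field_simp
      ring
    have h3 := hstv τ _ hg
    rw [map_sub (A.s τ), map_one (A.s τ)] at h3
    rw [e, map_div₀, hgv, div_one]
    exact Valuation.map_sub_lt _ h3 hg
  have h3 : W.valuation (A.j (1 - z)⁻¹) ≤ 1 :=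
    (ValuationSubring.valuation_le_one_iff _ _).2 (j_memW A hW _)
  have h4 : W.valuation (A.j (1 - z)) * W.valuation (A.j (1 - z)⁻¹) = 1 := by
    rw [← map_mul, ← map_mul, mul_inv_cancel₀ hz1, map_one, map_one]
  have h5 := mul_lt_one_of_lt_of_le h2 h3
  rw [h4] at h5
  exact lt_irrefl _ h5

end

/-- two valuation rings with the same residue field `K` which are fixed by a section are equal -/
theorem unique_ring {K : Type} [Field K] [NumberField K] {M : Type} [Field M] [Algebra K M]
    [IsAlgClosed M] (A : SAct K M) {F : Type} [Field F] [Algebra K F] [Algebra F M]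
    [IsScalarTower K F M] (hF : ∀ x : F, algebraMap F M x ∈ A.fix)
    (O1 O2 : ValuationSubring F)
    (h1 : ∀ c : K, algebraMap K F c ∈ O1) (h2 : ∀ c : K, algebraMap K F c ∈ O2)
    (h1' : ∀ a ∈ O1, ∃ c : K, O1.valuation (a - algebraMap K F c) < 1)
    (h2' : ∀ a ∈ O2, ∃ c : K, O2.valuation (a - algebraMap K F c) < 1)
    (W1 W2 : ValuationSubring M) (hW1 : W1.comap (algebraMap F M) = O1)
    (hW2 : W2.comap (algebraMap F M) = O2)
    (hs1 : ∀ τ x, x ∈ W1 → A.s τ x ∈ W1) (hs2 : ∀ τ x, x ∈ W2 → A.s τ x ∈ W2) : O1 = O2 := by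
  have hle : ∀ O O' : ValuationSubring F, (∀ c : K, algebraMap K F c ∈ O) →
      (∀ a ∈ O', ∃ c : K, O'.valuation (a - algebraMap K F c) < 1) → O ≤ O' → O' ≤ O := by
    intro O O' hc hr hOO x hx
    obtain ⟨c, hc'⟩ := hr x hx
    have h3 : x - algebraMap K F c ∈ O := by
      rcases (ValuationSubring.mem_nonunits_iff_or _).1 hc' with h | h
      · rw [h]
        exact zero_mem _
      · exact (O.mem_or_inv_mem _).resolve_right (fun h4 => h (hOO h4))
    have h4 := add_mem h3 (hc c)
    rwa [sub_add_cancel] at h4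
  by_contra hne
  have hn1 : ¬ O1 ≤ O2 := fun h => hne (le_antisymm h (hle O1 O2 h1 h2' h))
  have hn2 : ¬ O2 ≤ O1 := fun h => hne (le_antisymm (hle O2 O1 h2 h1' h) h)
  obtain ⟨a, ha1, ha2⟩ := Set.not_subset.1 hn1
  obtain ⟨b, hb2, hb1⟩ := Set.not_subset.1 hn2
  have ha1' : O1.valuation a ≤ 1 := (O1.valuation_le_one_iff a).2 ha1
  have ha2' : 1 < O2.valuation a := not_le.1 (fun h => ha2 ((O2.valuation_le_one_iff a).1 h))
  have hb2' : O2.valuation b ≤ 1 := (O2.valuation_le_one_iff b).2 hb2
  have hb1' : 1 < O1.valuation b := not_le.1 (fun h => hb1 ((O1.valuation_le_one_iff b).1 h))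
  have ha0 : a ≠ 0 := by
    rintro rfl
    rw [map_zero] at ha2'
    exact absurd ha2' (not_lt.2 zero_le_one)
  have hb0 : b ≠ 0 := by
    rintro rfl
    rw [map_zero] at hb1'
    exact absurd hb1' (not_lt.2 zero_le_one)
  set t : F := a / b with ht
  have ht1 : O1.valuation t < 1 := by
    rw [ht, map_div₀, div_lt_one₀ (zero_lt_one.trans hb1')]
    exact lt_of_le_of_lt ha1' hb1'
  have ht2 : 1 < O2.valuation t := by
    rw [ht, map_div₀]
    have hb0' : 0 < O2.valuation b := zero_lt_iff.2 ((Valuation.ne_zero_iff _).2 hb0)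
    rw [one_lt_div₀ hb0']
    exact lt_of_le_of_lt hb2' ha2'
  have h1t1 : O1.valuation (1 + t) = 1 := by
    have := Valuation.map_add_eq_of_lt_left O1.valuation (x := 1) (y := t)
      (by rw [map_one]; exact ht1)
    rwa [map_one] at this
  have h1t2 : O2.valuation (1 + t) = O2.valuation t :=
    Valuation.map_add_eq_of_lt_right O2.valuation (by rw [map_one]; exact ht2)
  have h1t0 : (1 + t) ≠ 0 := by
    intro h
    rw [h, map_zero] at h1t1
    exact zero_ne_one h1t1
  have hcharF : CharZero F := charZero_of_injective_algebraMap (algebraMap K F).injective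
  have h22 : O2.valuation (2 : F) = 1 := by
    have e1 : O2.valuation (2 : F) ≤ 1 := by
      rw [O2.valuation_le_one_iff]
      have := h2 2
      rwa [map_ofNat] at this
    have e2 : O2.valuation (2 : F)⁻¹ ≤ 1 := by
      rw [O2.valuation_le_one_iff]
      have := h2 2⁻¹
      rwa [map_inv₀, map_ofNat] at this
    refine le_antisymm e1 ?_
    rw [map_inv₀] at e2
    exact (inv_le_one₀ (zero_lt_iff.2 ((Valuation.ne_zero_iff _).2 two_ne_zero))).1 e2
  set N : ℕ := Module.finrank ℚ K + 1 with hN
  have hK1 : ∀ c : K, algebraMap K M c ∈ W1 := by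
    intro c
    have h3 : algebraMap K F c ∈ W1.comap (algebraMap F M) := by rw [hW1]; exact h1 c
    rw [ValuationSubring.mem_comap, ← IsScalarTower.algebraMap_apply] at h3
    exact h3
  have hK2 : ∀ c : K, algebraMap K M c ∈ W2 := by
    intro c
    have h3 : algebraMap K F c ∈ W2.comap (algebraMap F M) := by rw [hW2]; exact h2 c
    rw [ValuationSubring.mem_comap, ← IsScalarTower.algebraMap_apply] at h3
    exact h3
  have hval : ∀ (O : ValuationSubring F) (W : ValuationSubring M),
      W.comap (algebraMap F M) = O → ∀ x : F, O.valuation x < 1 →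
        W.valuation (algebraMap F M x) < 1 := by
    intro O W hOW x hx
    rcases (ValuationSubring.mem_nonunits_iff_or _).1 hx with h | h
    · rw [h, map_zero, map_zero]
      exact zero_lt_one
    · apply (ValuationSubring.mem_nonunits_iff_or _).2
      right
      intro h3
      apply h
      rw [← hOW, ValuationSubring.mem_comap, map_inv₀]
      exact h3
  have hf1 : O1.valuation ((1 + 2 * t) / (1 + t) - 1) < 1 := by
    have e : (1 + 2 * t) / (1 + t) - 1 = t / (1 + t) := by
      field_simp
      ring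
    rw [e, map_div₀, h1t1, div_one]
    exact ht1
  have hf2 : O2.valuation ((1 + 2 * t) / (1 + t) / 2 - 1) < 1 := by
    have e : (1 + 2 * t) / (1 + t) / 2 - 1 = -(1 / (2 * (1 + t))) := by
      field_simp
      ring
    rw [e, Valuation.map_neg, map_div₀, map_one, map_mul, h22, one_mul, h1t2]
    rw [div_lt_one₀ (zero_lt_one.trans ht2)]
    exact ht2
  obtain ⟨g1, hg1, hg1N⟩ := exists_root A hK1 hs1 (hF ((1 + 2 * t) / (1 + t))) (by
    have := hval O1 W1 hW1 _ hf1
    rwa [map_sub, map_one] at this) (N := N) (by omega)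
  obtain ⟨g2, hg2, hg2N⟩ := exists_root A hK2 hs2 (hF ((1 + 2 * t) / (1 + t) / 2)) (by
    have := hval O2 W2 hW2 _ hf2
    rwa [map_sub, map_one] at this) (N := N) (by omega)
  have hcharM : CharZero M := charZero_of_injective_algebraMap (algebraMap K M).injective
  have hnz : algebraMap F M ((1 + 2 * t) / (1 + t)) ≠ 0 := by
    intro h0
    have h3 := hval O1 W1 hW1 _ hf1
    rw [map_sub, h0, map_one, zero_sub, Valuation.map_neg, map_one] at h3
    exact lt_irrefl _ h3
  have hpow : (g1 / g2) ^ N = 2 := by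
    rw [div_pow, hg1N, hg2N, map_div₀ (algebraMap F M) _ 2, map_ofNat]
    field_simp
  obtain ⟨z, hz⟩ := Pool.Agent.W620.SC.root_mem (A.j : AlgebraicClosure K →+* M)
    (n := N) (by omega) (h := g1 / g2) (b := 2) (by rw [hpow, map_ofNat])
  have hzf : A.j z ∈ A.fix := by
    have hz' : A.j z = g1 / g2 := hz
    rw [hz']
    exact div_mem hg1 hg2
  obtain ⟨c, hc⟩ := A.fix_j hzf
  refine two_not_pow c ?_
  apply (algebraMap K (AlgebraicClosure K)).injective
  apply (A.j : AlgebraicClosure K →+* M).injective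
  rw [map_pow, map_pow, hc, hz, map_ofNat, map_ofNat]
  exact hpow

end Pool.Agent.TH954
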