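import Pool.Agent.TH954.SUlt
import Pool.Agent.TH954.SUni
import Mathlib.RingTheory.AlgebraicIndependent.TranscendenceBasis

/-!
# Elements of function fields of curves have finitely many values
-/

set_option autoImplicit false
set_option linter.unusedSectionVars false

open IsDedekindDomain NumberField
open scoped IntermediateField.algebraAdjoinAdjoin

namespace Pool.Agent.TH954

lemma Plc.val_aeval {K M C : Type} [Field K] [Field M] [Field C] [Algebra K M] [Algebra K C]
    {pl : Plc K M C} {x : M} {c : C} (h : pl.val x c) (g : Polynomial K) :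
    pl.val (Polynomial.aeval x g) (Polynomial.aeval c g) := by
  rw [Polynomial.aeval_eq_sum_range, Polynomial.aeval_eq_sum_range]
  refine Plc.val_sum _ (fun i _ => ?_)
  rw [Algebra.smul_def, Algebra.smul_def]
  exact (Plc.val_alg _).mul (h.pow i)

lemma exists_aeval_of_mem {R S : Type} [CommRing R] [CommRing S] [Algebra R S] {x y : S}
    (h : y ∈ Algebra.adjoin R {x}) : ∃ q : Polynomial R, Polynomial.aeval x q = y := by
  rw [Algebra.adjoin_singleton_eq_range_aeval] at h
  exact h

section

variable {K : Type} [Field K] [NumberField K]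
variable {M : Type} [Field M] [Algebra K M] (A : SAct K M)
  (pl : ∀ v : HeightOneSpectrum (𝓞 K), Plc K M (AlgebraicClosure (v.adicCompletion K)))

theorem finVal_of_alg {t : M} (ht0 : t ≠ 0) (htv : ∀ v, (pl v).val t 0)
    (hdim : ∀ x : M, Transcendental K x → IsAlgebraic (Algebra.adjoin K {x}) t) (x : M) :
    FinVal A pl x := by
  classical
  by_cases hx : IsAlgebraic K x
  · obtain ⟨z, hz⟩ := alg_range A.j hx
    refine ⟨{z}, fun v _ => ⟨z, Finset.mem_singleton_self _, ?_⟩⟩
    rw [← hz]
    exact Plc.val_j A.j z
  · obtain ⟨u, hu, r, hr0, hur⟩ := (hdim x hx).exists_nonzero_eq_adjoin_mul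
      (mem_nonZeroDivisors_of_ne_zero ht0)
    obtain ⟨g, hg⟩ : ∃ g : Polynomial K, Polynomial.aeval x g = (r : M) :=
      exists_aeval_of_mem r.2
    have hg0 : g ≠ 0 := by
      rintro rfl
      rw [map_zero] at hg
      exact hr0 (Subtype.ext hg.symm)
    refine ⟨(g.aroots (AlgebraicClosure K)).toFinset, fun v hv => ?_⟩
    obtain ⟨c, hc⟩ := Plc.val_of_mem hv
    -- the adjoined elements are in the valuation ring
    have h1 : ∀ y ∈ Algebra.adjoin K {x}, y ∈ (pl v).W := by
      intro y hy
      obtain ⟨q, rfl⟩ := exists_aeval_of_mem hy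
      exact (Plc.val_aeval hc q).mem
    have h2 : u ∈ (pl v).W := by
      obtain ⟨q, rfl⟩ := exists_aeval_of_mem hu
      rw [Polynomial.aeval_eq_sum_range]
      refine sum_mem (fun i _ => ?_)
      rw [Algebra.smul_def]
      exact mul_mem (h1 _ (q.coeff i).2) (pow_mem (htv v).mem i)
    obtain ⟨d, hd⟩ := Plc.val_of_mem h2
    have h3 := (htv v).mul hd
    rw [hur, zero_mul] at h3
    have h4 : (pl v).val (r : M) 0 := h3
    rw [← hg] at h4
    have h5 := (Plc.val_aeval hc g).unique h4
    have hs : (g.map (algebraMap K (AlgebraicClosure K))).Splits := IsAlgClosed.splits _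
    have h0 : g.map (algebraMap K (AlgebraicClosure K)) ≠ 0 :=
      (Polynomial.map_ne_zero_iff (algebraMap K (AlgebraicClosure K)).injective).2 hg0
    obtain ⟨β, hβ⟩ := hs.mem_range_of_isRoot
      (i := ((pl v).iot A.j : AlgebraicClosure K →+* AlgebraicClosure (v.adicCompletion K)))
      (x := c) h0 (by
        rw [Polynomial.IsRoot.def, Polynomial.eval_map, Polynomial.eval₂_map]
        have e1 : ((pl v).iot A.j : AlgebraicClosure K →+*
            AlgebraicClosure (v.adicCompletion K)).comp (algebraMap K (AlgebraicClosure K)) =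
            algebraMap K (AlgebraicClosure (v.adicCompletion K)) :=
          ((pl v).iot A.j).comp_algebraMap
        rw [e1]
        exact h5)
    have hβ' : (pl v).iot A.j β = c := hβ
    refine ⟨β, ?_, ?_⟩
    · rw [Multiset.mem_toFinset, Polynomial.mem_aroots]
      refine ⟨hg0, ?_⟩
      have h6 : (pl v).iot A.j (Polynomial.aeval β g) = 0 := by
        rw [← Polynomial.aeval_algHom_apply, hβ']
        exact h5
      exact (map_eq_zero _).1 h6
    · rw [hβ']
      exact hc

end

lemma trdeg_le_of_adjoin {K M : Type} [Field K] [Field M] [Algebra K M] (S : Set M)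
    (h : Algebra.IsAlgebraic (IntermediateField.adjoin K S) M) :
    Algebra.trdeg K M ≤ Cardinal.mk S := by
  have : Algebra.IsAlgebraic (Algebra.adjoin K S) M :=
    Algebra.IsAlgebraic.trans (Algebra.adjoin K S) (IntermediateField.adjoin K S) M
  exact Algebra.IsAlgebraic.trdeg_le_cardinalMk K S

/-- over a field of transcendence degree one, a transcendental element generates everything up to
algebraic extensions -/
theorem alg_adjoin_of_dim {K F M : Type} [Field K] [Field F] [Field M] [Algebra K F] [Algebra K M]
    [Algebra F M] [IsScalarTower K F M] [Algebra.IsAlgebraic F M]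
    (hF : ∃ t : F, Transcendental K t ∧
      Algebra.IsAlgebraic (IntermediateField.adjoin K {t}) F)
    (x : M) (hx : Transcendental K x) : Algebra.IsAlgebraic (Algebra.adjoin K {x}) M := by
  obtain ⟨t, ht, hF⟩ := hF
  set t' : M := algebraMap F M t with ht'
  have h1 : Algebra.IsAlgebraic (IntermediateField.adjoin K {t'}) M := by
    have : Algebra.IsAlgebraic (IntermediateField.adjoin K {t}) M :=
      Algebra.IsAlgebraic.trans (IntermediateField.adjoin K {t}) F M
    refine ⟨fun y => ?_⟩
    obtain ⟨p, hp0, hp⟩ := this.isAlgebraic y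
    have hmap : ∀ z : IntermediateField.adjoin K {t},
        algebraMap F M (z : F) ∈ IntermediateField.adjoin K {t'} := by
      intro z
      have h2 := IntermediateField.adjoin_map K {t} (IsScalarTower.toAlgHom K F M)
      rw [Set.image_singleton] at h2
      change _ ∈ IntermediateField.adjoin K {IsScalarTower.toAlgHom K F M t}
      rw [← h2]
      exact ⟨z, z.2, rfl⟩
    let f : IntermediateField.adjoin K {t} →+* IntermediateField.adjoin K {t'} :=
      ((algebraMap F M).comp (algebraMap (IntermediateField.adjoin K {t}) F)).codRestrict _ hmap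
    refine ⟨p.map f, (Polynomial.map_ne_zero_iff f.injective).2 hp0, ?_⟩
    rw [Polynomial.aeval_def, Polynomial.eval₂_map]
    have e : (algebraMap (IntermediateField.adjoin K {t'}) M).comp f =
        algebraMap (IntermediateField.adjoin K {t}) M := rfl
    rw [e]
    exact hp
  have h3 : Algebra.trdeg K M ≤ 1 := by
    have := trdeg_le_of_adjoin ({t'} : Set M) h1
    rwa [Cardinal.mk_singleton] at this
  have h4 : AlgebraicIndependent K (fun _ : Unit => x) :=
    algebraicIndependent_unique_type_iff.2 hx
  have h5 : IsTranscendenceBasis K (fun _ : Unit => x) := by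
    refine h4.isTranscendenceBasis_of_lift_trdeg_le_of_finite ?_
    simpa using h3
  have h6 := h5.isAlgebraic
  rwa [Set.range_const] at h6

end Pool.Agent.TH954
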