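import Pool.Agent.TH954.SGeo
import Pool.Agent.W620.SC.Norm
import Mathlib.LinearAlgebra.Lagrange

/-!
# The fixed field of a section
-/

set_option autoImplicit false
set_option linter.unusedSectionVars false

open IsDedekindDomain NumberField

namespace Pool.Agent.TH954

section general

/-- elements of the algebraic closure which are fixed by the Galois group -/
lemma base_of_fixed {L : Type} [Field L] [CharZero L] {x : AlgebraicClosure L}
    (hx : ∀ σ : AlgebraicClosure L ≃ₐ[L] AlgebraicClosure L, σ x = x) :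
    ∃ y : L, algebraMap L (AlgebraicClosure L) y = x := by
  have : IsGalois L (AlgebraicClosure L) := ⟨⟩
  have h1 : x ∈ (⊥ : IntermediateField L (AlgebraicClosure L)) :=
    Pool.Agent.W620.SC.mem_of_fixed ⊥ (fun σ _ => hx σ)
  exact IntermediateField.mem_bot.1 h1

variable {K : Type} [Field K] [CharZero K] {M : Type} [Field M] [Algebra K M] (A : SAct K M)

/-- the fixed field -/
def SAct.fix : IntermediateField K M where
  carrier := {x | ∀ τ, A.s τ x = x}
  mul_mem' := fun {x y} hx hy τ => by rw [map_mul, hx τ, hy τ]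
  one_mem' := fun τ => map_one _
  add_mem' := fun {x y} hx hy τ => by rw [map_add, hx τ, hy τ]
  zero_mem' := fun τ => map_zero _
  algebraMap_mem' := fun c τ => (A.s τ).commutes c
  inv_mem' := fun x hx τ => by rw [map_inv₀, hx τ]

lemma SAct.mem_fix {x : M} : x ∈ A.fix ↔ ∀ τ, A.s τ x = x := Iff.rfl

/-- algebraic elements of the fixed field -/
lemma SAct.fix_j {z : AlgebraicClosure K} (h : A.j z ∈ A.fix) :
    ∃ c : K, algebraMap K (AlgebraicClosure K) c = z := by
  apply base_of_fixed
  intro τ
  have h1 : A.j (τ z) = A.j z := by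
    rw [← A.hj]
    exact h τ
  exact A.j.injective h1

lemma alg_range {K M : Type} [Field K] [Field M] [Algebra K M]
    (j : AlgebraicClosure K →ₐ[K] M) {x : M} (hx : IsAlgebraic K x) : ∃ z, j z = x := by
  have hs : ((minpoly K x).map (algebraMap K (AlgebraicClosure K))).Splits :=
    IsAlgClosed.splits _
  have h0 : (minpoly K x).map (algebraMap K (AlgebraicClosure K)) ≠ 0 :=
    (Polynomial.map_ne_zero_iff (algebraMap K (AlgebraicClosure K)).injective).2
      (minpoly.ne_zero hx.isIntegral)
  refine hs.mem_range_of_isRoot (i := (j : AlgebraicClosure K →+* M)) (x := x) h0 ?_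
  rw [Polynomial.IsRoot.def, Polynomial.eval_map, Polynomial.eval₂_map]
  have e1 : (j : AlgebraicClosure K →+* M).comp (algebraMap K (AlgebraicClosure K)) =
      algebraMap K M := j.comp_algebraMap
  rw [e1]
  exact minpoly.aeval K x

/-- the action as a homomorphism to the ring automorphisms -/
noncomputable def SAct.ra : (AlgebraicClosure K ≃ₐ[K] AlgebraicClosure K) →* RingAut M where
  toFun τ := (A.s τ).toRingEquiv
  map_one' := by
    ext x
    simp
  map_mul' σ τ := by
    ext x
    simp

lemma SAct.ra_apply (τ : AlgebraicClosure K ≃ₐ[K] AlgebraicClosure K) (x : M) :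
    A.ra τ x = A.s τ x := rfl

/-- **Kummer theory.** Elements of the fixed field are `n`-th powers up to constants. -/
theorem SAct.kummer [IsAlgClosed M] {f : M} (hf : f ∈ A.fix) (hf0 : f ≠ 0) {n : ℕ} (hn : 0 < n) :
    ∃ c : K, c ≠ 0 ∧ ∃ g ∈ A.fix, f = algebraMap K M c * g ^ n := by
  classical
  have : IsGalois K (AlgebraicClosure K) := ⟨⟩
  obtain ⟨w, hw⟩ := IsAlgClosed.exists_pow_nat_eq f hn
  have hw0 : w ≠ 0 := by
    rintro rfl
    rw [zero_pow hn.ne'] at hw
    exact hf0 hw.symm
  obtain ⟨E, hE, hEw⟩ := A.cont w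
  obtain ⟨β, hβ0, hβ⟩ := Pool.Agent.W620.SC.exists_fixed_multiple A.ra
    (A.j : AlgebraicClosure K →+* M) (fun σ a => A.hj σ a) ⊤ w hw0 (by
      intro σ _
      have h1 : (A.s σ w / w) ^ n = 1 := by
        rw [div_pow, ← map_pow, hw, hf σ, div_self hf0]
      obtain ⟨ζ, hζ⟩ := Pool.Agent.W620.SC.root_mem (A.j : AlgebraicClosure K →+* M) hn
        (h := A.s σ w / w) (b := 1) (by rw [h1, map_one])
      refine ⟨ζ, ?_⟩
      rw [hζ]
      change A.s σ w = A.s σ w / w * w
      rw [div_mul_cancel₀ _ hw0]) E (by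
      intro σ hσ
      exact hEw σ (fun z hz => (IntermediateField.mem_fixingSubgroup_iff _ _).1 hσ z hz))
  have hg : A.j β * w ∈ A.fix := fun τ => hβ τ (Subgroup.mem_top τ)
  have hβn : A.j (β ^ n) ∈ A.fix := by
    have e : A.j (β ^ n) = (A.j β * w) ^ n / f := by
      rw [mul_pow, hw, map_pow, mul_div_assoc, div_self hf0, mul_one]
    rw [e]
    exact div_mem (pow_mem hg n) hf
  obtain ⟨c, hc⟩ := A.fix_j hβn
  have hc0 : c ≠ 0 := by
    rintro rfl
    rw [map_zero] at hc
    exact pow_ne_zero n hβ0 hc.symm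
  refine ⟨c⁻¹, inv_ne_zero hc0, _, hg, ?_⟩
  have e : algebraMap K M c = A.j β ^ n := by
    rw [← A.j.commutes c, hc, map_pow]
  rw [map_inv₀, e, mul_pow, hw, inv_mul_cancel_left₀]
  exact pow_ne_zero _ ((map_ne_zero A.j).2 hβ0)

/-- the values of elements of the fixed field at a place are in the base field -/
lemma value_base {L : Type} [Field L] [CharZero L] [Algebra K L]
    {pl : Plc K M (AlgebraicClosure L)} (hpl : GeoPlc A pl) {x : M} (hx : x ∈ A.fix)
    (hxW : x ∈ pl.W) : ∃ z : L, algebraMap L (AlgebraicClosure L) z = pl.ρ ⟨x, hxW⟩ := by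
  apply base_of_fixed
  intro σ
  obtain ⟨τ, hτ⟩ := exists_compat (pl.iot A.j) σ
  obtain ⟨h, e⟩ := hpl σ τ hτ ⟨x, hxW⟩
  rw [← e]
  congr 1
  exact Subtype.ext (hx τ)

/-- conjugate elements -/
lemma exists_conj {K : Type} [Field K] {θ z : AlgebraicClosure K}
    (h : Polynomial.aeval z (minpoly K θ) = 0) :
    ∃ τ : AlgebraicClosure K ≃ₐ[K] AlgebraicClosure K, τ θ = z :=
  
  minpoly.exists_algEquiv_of_root' (Algebra.IsAlgebraic.isAlgebraic θ) h

/-- Galois descent: every element of `M` is a combination of elements of the fixed field with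
coefficients the first powers of an algebraic element -/
theorem SAct.descend (x : M) : ∃ (θ : AlgebraicClosure K)
    (y : Fin (minpoly K θ).natDegree → M), (∀ i, y i ∈ A.fix) ∧
      x = ∑ i, y i * A.j (θ ^ (i : ℕ)) := by
  classical
  obtain ⟨E, hE, hEx⟩ := A.cont x
  obtain ⟨α, hα⟩ := Field.exists_primitive_element K E
  set θ : AlgebraicClosure K := (α : AlgebraicClosure K) with hθ
  have hfix : ∀ τ : AlgebraicClosure K ≃ₐ[K] AlgebraicClosure K, τ θ = θ → A.s τ x = x := by
    intro τ hτ
    apply hEx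
    intro z hz
    have h1 : (⟨z, hz⟩ : E) ∈ IntermediateField.adjoin K {α} := by
      rw [hα]
      exact IntermediateField.mem_top
    have h2 : E.val (⟨z, hz⟩ : E) ∈ IntermediateField.adjoin K {θ} := by
      have h3 := IntermediateField.adjoin_map K {α} E.val
      rw [Set.image_singleton] at h3
      change E.val (⟨z, hz⟩ : E) ∈ IntermediateField.adjoin K {E.val α}
      rw [← h3]
      exact ⟨_, h1, rfl⟩
    have h4 : IntermediateField.adjoin K {θ} ≤
        IntermediateField.fixedField (Subgroup.zpowers τ) := by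
      rw [IntermediateField.adjoin_simple_le_iff, IntermediateField.mem_fixedField_iff]
      intro σ hσ
      have h5 : Subgroup.zpowers τ ≤ MulAction.stabilizer _ θ := by
        rw [Subgroup.zpowers_le]
        exact hτ
      exact h5 hσ
    exact (IntermediateField.mem_fixedField_iff _ _).1 (h4 h2) τ (Subgroup.mem_zpowers τ)
  have hwd : ∀ τ τ' : AlgebraicClosure K ≃ₐ[K] AlgebraicClosure K, τ θ = τ' θ →
      A.s τ x = A.s τ' x := by
    intro τ τ' h
    have h1 : A.s (τ'⁻¹ * τ) x = x := by
      apply hfix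
      change τ'.symm (τ θ) = θ
      rw [h, τ'.symm_apply_apply]
    have h2 : τ = τ' * (τ'⁻¹ * τ) := by group
    rw [h2, map_mul]
    change A.s τ' (A.s (τ'⁻¹ * τ) x) = _
    rw [h1]
  have hint : IsIntegral K θ := (Algebra.IsAlgebraic.isAlgebraic θ).isIntegral
  set Z : Finset (AlgebraicClosure K) :=
    ((minpoly K θ).aroots (AlgebraicClosure K)).toFinset with hZ
  have hmemZ : ∀ z, z ∈ Z ↔ Polynomial.aeval z (minpoly K θ) = 0 := by
    intro z
    rw [hZ, Multiset.mem_toFinset, Polynomial.mem_aroots]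
    exact ⟨fun h => h.2, fun h => ⟨minpoly.ne_zero hint, h⟩⟩
  have hex : ∀ z, ∃ X : M, ∀ τ : AlgebraicClosure K ≃ₐ[K] AlgebraicClosure K, τ θ = z →
      X = A.s τ x := by
    intro z
    by_cases h : ∃ τ : AlgebraicClosure K ≃ₐ[K] AlgebraicClosure K, τ θ = z
    · obtain ⟨τ, hτ⟩ := h
      exact ⟨A.s τ x, fun τ' hτ' => hwd _ _ (hτ.trans hτ'.symm)⟩
    · exact ⟨0, fun τ hτ => absurd ⟨τ, hτ⟩ h⟩
  choose X hX using hex
  set p : Polynomial M := Lagrange.interpolate Z A.j X with hp
  have hinj : Set.InjOn A.j (Z : Set (AlgebraicClosure K)) := A.j.injective.injOn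
  have hdeg : p.degree < Z.card := Lagrange.degree_interpolate_lt X hinj
  have hev : ∀ z ∈ Z, p.eval (A.j z) = X z := fun z hz =>
    Lagrange.eval_interpolate_at_node X hinj hz
  have hpfix : ∀ τ : AlgebraicClosure K ≃ₐ[K] AlgebraicClosure K,
      p.map (A.s τ : M →+* M) = p := by
    intro τ
    apply Lagrange.eq_interpolate_of_eval_eq X hinj
    · exact lt_of_le_of_lt Polynomial.degree_map_le hdeg
    · intro z hz
      have hz' : τ.symm z ∈ Z := by
        rw [hmemZ] at hz ⊢
        have h1 : Polynomial.aeval (τ.symm z) (minpoly K θ) =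
            τ.symm (Polynomial.aeval z (minpoly K θ)) := Polynomial.aeval_algHom_apply
              (τ.symm : AlgebraicClosure K →ₐ[K] AlgebraicClosure K) z _
        rw [h1, hz, map_zero]
      have h1 : A.j z = (A.s τ : M →+* M) (A.j (τ.symm z)) := by
        change _ = A.s τ (A.j (τ.symm z))
        rw [A.hj, τ.apply_symm_apply]
      rw [h1, Polynomial.eval_map_apply, hev _ hz']
      obtain ⟨τ', hτ'⟩ := exists_conj ((hmemZ _).1 hz')
      rw [hX (τ.symm z) τ' hτ', hX z (τ * τ') (by
        change τ (τ' θ) = z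
        rw [hτ', τ.apply_symm_apply]), map_mul]
      rfl
  have hθZ : θ ∈ Z := (hmemZ θ).2 (minpoly.aeval K θ)
  have hxX : x = X θ := by
    rw [hX θ 1 rfl, map_one]
    rfl
  have hcard : Z.card ≤ (minpoly K θ).natDegree := by
    refine (Multiset.toFinset_card_le _).trans ?_
    exact (Polynomial.card_roots' _).trans (Polynomial.natDegree_map_le)
  refine ⟨θ, fun i => p.coeff i, fun i τ => ?_, ?_⟩
  · have := congrArg (fun q => q.coeff (i : ℕ)) (hpfix τ)
    simp only [Polynomial.coeff_map] at this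
    exact this
  · rw [hxX, ← hev θ hθZ, Polynomial.eval_eq_sum_range' (n := (minpoly K θ).natDegree),
      Finset.sum_range]
    · simp only [map_pow]
    · have h1 : p.degree < ((minpoly K θ).natDegree : WithBot ℕ) :=
        lt_of_lt_of_le hdeg (by exact_mod_cast hcard)
      have h2 : 0 < (minpoly K θ).natDegree := minpoly.natDegree_pos hint
      by_cases h0 : p = 0
      · rw [h0]
        simpa using h2
      · exact (Polynomial.natDegree_lt_iff_degree_lt h0).2 h1

end general

end Pool.Agent.TH954
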