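import Pool.Agent.TH954.SPt

/-!
# The local points of a section on an elliptic curve come from one rational point
-/

set_option autoImplicit false
set_option linter.unusedSectionVars false

open IsDedekindDomain NumberField WeierstrassCurve MvPolynomial

namespace Pool.Agent.TH954

open Pool.Agent.TH942

/-- an action of the absolute Galois group of `K` on a field `M`, semilinear with respect to an
embedding of the algebraic closure of `K` -/
structure SAct (K M : Type) [Field K] [Field M] [Algebra K M] where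
  j : AlgebraicClosure K →ₐ[K] M
  s : (AlgebraicClosure K ≃ₐ[K] AlgebraicClosure K) →* (M ≃ₐ[K] M)
  hj : ∀ τ z, s τ (j z) = j (τ z)
  cont : ∀ x : M, ∃ F : IntermediateField K (AlgebraicClosure K), FiniteDimensional K F ∧
    ∀ τ : AlgebraicClosure K ≃ₐ[K] AlgebraicClosure K, (∀ z ∈ F, τ z = z) → s τ x = x

/-- the place is compatible with the action -/
def GeoPlc {K M : Type} [Field K] [Field M] [Algebra K M] (A : SAct K M) {L : Type} [Field L]
    [Algebra K L] (pl : Plc K M (AlgebraicClosure L)) : Prop :=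
  ∀ (σ : AlgebraicClosure L ≃ₐ[L] AlgebraicClosure L)
    (τ : AlgebraicClosure K ≃ₐ[K] AlgebraicClosure K), Compat (pl.iot A.j) σ τ →
    ∀ x : pl.W, ∃ h : A.s τ x ∈ pl.W, pl.ρ ⟨A.s τ x, h⟩ = σ (pl.ρ x)

section general

variable {K : Type} [Field K] {M : Type} [Field M] [Algebra K M] (A : SAct K M) {a b : K}

/-- the action on points -/
noncomputable def SAct.pt (A : SAct K M) (a b : K)
    (τ : AlgebraicClosure K ≃ₐ[K] AlgebraicClosure K) :=
  pm (sw a b) ((A.s τ : M ≃ₐ[K] M) : M →ₐ[K] M)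

lemma SAct.pt_mul (σ τ : AlgebraicClosure K ≃ₐ[K] AlgebraicClosure K)
    (T : ((sw a b).baseChange M).toAffine.Point) :
    A.pt a b (σ * τ) T = A.pt a b σ (A.pt a b τ T) := by
  unfold SAct.pt
  rw [pm_pm]
  congr 2
  apply AlgHom.ext
  intro x
  change A.s (σ * τ) x = A.s σ (A.s τ x)
  rw [map_mul]
  rfl

lemma SAct.pt_j (τ : AlgebraicClosure K ≃ₐ[K] AlgebraicClosure K) (T : AlgPt (sw a b) K) :
    A.pt a b τ (pm (sw a b) A.j T) = pm (sw a b) A.j (act (sw a b) τ T) := by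
  unfold SAct.pt act
  rw [pm_pm, pm_pm]
  congr 2
  apply AlgHom.ext
  intro x
  exact A.hj τ x

lemma SAct.pt_cont (T : ((sw a b).baseChange M).toAffine.Point) :
    ∃ F : IntermediateField K (AlgebraicClosure K), FiniteDimensional K F ∧
      ∀ τ : AlgebraicClosure K ≃ₐ[K] AlgebraicClosure K, (∀ z ∈ F, τ z = z) →
        A.pt a b τ T = T := by
  rcases T with _ | ⟨x, y, h⟩
  · exact ⟨⊥, inferInstance, fun τ _ => rfl⟩
  · obtain ⟨F1, hF1, h1⟩ := A.cont x
    obtain ⟨F2, hF2, h2⟩ := A.cont y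
    refine ⟨F1 ⊔ F2, inferInstance, fun τ hτ => ?_⟩
    obtain ⟨k, e⟩ := pm_some (E := sw a b) ((A.s τ : M ≃ₐ[K] M) : M →ₐ[K] M) h
    unfold SAct.pt
    rw [e, Affine.Point.some.injEq]
    exact ⟨h1 τ (fun z hz => hτ z ((le_sup_left : F1 ≤ F1 ⊔ F2) hz)),
      h2 τ (fun z hz => hτ z ((le_sup_right : F2 ≤ F1 ⊔ F2) hz))⟩

open scoped Classical in
/-- the cocycle of a division point -/
theorem exists_cocycle {N : ℕ} {Q P : ((sw a b).baseChange M).toAffine.Point} (hQ : N • Q = P)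
    (hP : ∀ τ, A.pt a b τ P = P)
    (htor : ∀ T : ((sw a b).baseChange M).toAffine.Point, N • T = 0 →
      ∃ T0, pm (sw a b) A.j T0 = T) :
    ∃ ξ : (AlgebraicClosure K ≃ₐ[K] AlgebraicClosure K) → AlgPt (sw a b) K,
      IsCocycle (sw a b) ξ ∧ (∀ σ, N • ξ σ = 0) ∧
      ∀ σ, pm (sw a b) A.j (ξ σ) = A.pt a b σ Q - Q := by
  have h1 : ∀ σ, ∃ T0, pm (sw a b) A.j T0 = A.pt a b σ Q - Q := by
    intro σ
    apply htor
    have h2 : N • A.pt a b σ Q = A.pt a b σ P := by
      rw [← hQ]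
      exact (map_nsmul _ _ _).symm
    rw [smul_sub, h2, hP, hQ, sub_self]
  choose ξ hξ using h1
  refine ⟨ξ, ⟨?_, ?_⟩, ?_, hξ⟩
  · intro σ τ
    apply pm_injective (E := sw a b) A.j
    rw [map_add, hξ, hξ, ← A.pt_j, hξ, A.pt_mul]
    have h3 : A.pt a b σ (A.pt a b τ Q - Q) = A.pt a b σ (A.pt a b τ Q) - A.pt a b σ Q :=
      map_sub _ _ _
    rw [h3]
    abel
  · obtain ⟨F, hF, h⟩ := A.pt_cont Q
    refine ⟨F, hF, fun σ τ hστ => ?_⟩
    apply pm_injective (E := sw a b) A.j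
    rw [hξ, hξ]
    have h4 : A.pt a b (σ⁻¹ * τ) Q = Q := by
      apply h
      intro z hz
      change σ.symm (τ z) = z
      rw [← hστ z hz, σ.symm_apply_apply]
    have h5 : A.pt a b τ Q = A.pt a b σ Q := by
      rw [show τ = σ * (σ⁻¹ * τ) by group, A.pt_mul, h4]
    rw [h5]
  · intro σ
    apply pm_injective (E := sw a b) A.j
    rw [map_nsmul, hξ, map_zero, smul_sub, hQ]
    have h2 : N • A.pt a b σ Q = A.pt a b σ P := by
      rw [← hQ]
      exact (map_nsmul _ _ _).symm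
    rw [h2, hP, sub_self]

open scoped Classical in
/-- the local behaviour of the cocycle -/
theorem cocycle_local {L : Type} [Field L] [Algebra K L] {pl : Plc K M (AlgebraicClosure L)}
    (hpl : GeoPlc A pl)
    {red : ((sw a b).baseChange M).toAffine.Point →+ AlgPt (sw a b) L}
    (h1 : ∀ x y h, x ∉ pl.W → red (.some x y h) = 0)
    (h2 : ∀ x y h (hx : x ∈ pl.W), ∃ (hy : y ∈ pl.W)
      (h' : ((sw a b).baseChange (AlgebraicClosure L)).toAffine.Nonsingular
        (pl.ρ ⟨x, hx⟩) (pl.ρ ⟨y, hy⟩)), red (.some x y h) = .some _ _ h')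
    {Q : ((sw a b).baseChange M).toAffine.Point}
    {ξ : (AlgebraicClosure K ≃ₐ[K] AlgebraicClosure K) → AlgPt (sw a b) K}
    (hξ : ∀ σ, pm (sw a b) A.j (ξ σ) = A.pt a b σ Q - Q) :
    (∀ σ τ, Compat (pl.iot A.j) σ τ →
      pm (sw a b) (pl.iot A.j) (ξ τ) = act (sw a b) σ (red Q) - red Q) ∧
    ∀ T, (∀ τ, A.pt a b τ T = T) → ∀ σ, act (sw a b) σ (red T) = red T := by
  have hact : ∀ σ τ, Compat (pl.iot A.j) σ τ → ∀ T, red (A.pt a b τ T) =
      act (sw a b) σ (red T) := by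
    intro σ τ hστ T
    exact red_act (pl := pl) (a := a) (b := b) (red := red) (map_zero red) h1 h2
      ((A.s τ : M ≃ₐ[K] M) : M →ₐ[K] M)
      ((σ : AlgebraicClosure L →ₐ[L] AlgebraicClosure L).restrictScalars K)
      (fun x => hpl σ τ hστ x) T
  refine ⟨?_, ?_⟩
  · intro σ τ hστ
    rw [← red_pm (pl := pl) (a := a) (b := b) (red := red) (map_zero red) h1 h2 A.j
      (pl.iot A.j) (pl.iot_spec A.j), hξ, map_sub, hact σ τ hστ]
  · intro T hT σ
    obtain ⟨τ, hτ⟩ := exists_compat (pl.iot A.j) σ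
    rw [← hact σ τ hτ, hT]

end general

end Pool.Agent.TH954
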