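import Pool.Agent.W202.FM.UR
import Pool.Agent.TH120.Sec.ExL
import Pool.Agent.W723.SecC.D1d

/-!
# Residue classes modulo which a quotient is not a power
-/

set_option autoImplicit false
set_option linter.unusedSectionVars false

open IsDedekindDomain NumberField Pool.Agent.W401.Cheb WithZero

namespace Pool.Agent.TH954

lemma no_root_exp {x : WithZero (Multiplicative ℤ)} {l : ℕ} (hl : 2 ≤ l)
    (h : x ^ l = WithZero.exp (-1 : ℤ)) : False := by
  have hx0 : x ≠ 0 := by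
    rintro rfl
    rw [zero_pow (by omega)] at h
    exact WithZero.exp_ne_zero h.symm
  have h1 : x = WithZero.exp (WithZero.log x) := (WithZero.exp_log hx0).symm
  rw [h1, ← WithZero.exp_nsmul] at h
  have h2 := WithZero.exp_injective h
  rw [nsmul_eq_mul] at h2
  have h3 : ((l : ℤ)) ∣ -1 := ⟨_, h2.symm⟩
  rw [dvd_neg] at h3
  have h4 := Int.natCast_dvd_natCast.1 (by exact_mod_cast h3 : ((l : ℕ) : ℤ) ∣ ((1 : ℕ) : ℤ))
  have h5 := Nat.le_of_dvd one_pos h4
  omega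

/-- a residue class modulo the square of a prime in which the quotients are no `l`-th powers -/
theorem good_residue (L : Type) [Field L] [NumberField L] [IsGalois ℚ L] {l : ℕ} (hl : 2 ≤ l)
    (s s' : 𝓞 L) (h : s ≠ s') (Q : ℕ) (hQ : 0 < Q) :
    ∃ p : ℕ, p.Prime ∧ ¬ p ∣ Q ∧ ∃ a1 : ℕ, ∀ a : ℕ, a ≡ a1 [MOD p ^ 2] →
      ∀ w : L, (s : L) - (a : L) ≠ w ^ l * ((s' : L) - (a : L)) := by
  obtain ⟨D, hD, hT⟩ := torsor L
  obtain ⟨m, hm, hm'⟩ := Pool.Agent.W723.SecC.nz L (s - s') (sub_ne_zero.2 h)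
  obtain ⟨p, ⟨hp, hxp⟩, hpgt⟩ := (infinite_frob L 1).exists_gt (D * Q * m)
  have hpD : ¬ p ∣ D := fun hd => by
    have h1 := Nat.le_of_dvd hD hd
    have h2 : D * 1 * 1 ≤ D * Q * m := Nat.mul_le_mul (Nat.mul_le_mul_left _ hQ) hm
    omega
  have hpQ : ¬ p ∣ Q := fun hd => by
    have h1 := Nat.le_of_dvd hQ hd
    have h2 : 1 * Q * 1 ≤ D * Q * m := Nat.mul_le_mul (Nat.mul_le_mul_right _ hD) hm
    omega
  have hpm : ¬ p ∣ m := fun hd => by
    have h1 := Nat.le_of_dvd hm hd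
    have h2 : 1 * 1 * m ≤ D * Q * m := Nat.mul_le_mul_right _ (Nat.mul_le_mul hD hQ)
    omega
  have : Fact p.Prime := ⟨hp⟩
  obtain ⟨φ, hφ⟩ : ∃ φ : 𝓞 L →+* AlgebraicClosure (ZMod p), HasFrob p φ (1 : Gal(L/ℚ)) := by
    unfold xp at hxp
    rw [dif_pos hp] at hxp
    by_contra h
    push Not at h
    apply hxp
    rw [Nat.card_eq_zero]
    left
    exact ⟨fun x => h x.1 x.2⟩
  have hφp : ∀ x, φ x ^ p = φ x := fun x => by
    have := hφ x
    rw [one_smul] at this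
    exact this.symm
  set P : Ideal (𝓞 L) := RingHom.ker φ with hP
  have hPprime : P.IsPrime := RingHom.ker_isPrime φ
  have hpP : ((p : ℕ) : 𝓞 L) ∈ P := by
    rw [hP, RingHom.mem_ker, map_natCast]
    exact CharP.cast_eq_zero _ p
  have hP0 : P ≠ ⊥ := by
    intro h0
    rw [h0, Ideal.mem_bot] at hpP
    have : p = 0 := by exact_mod_cast hpP
    exact hp.ne_zero this
  have hover : P.LiesOver (Ideal.span {(p : ℤ)}) := by
    refine ⟨?_⟩
    have hmax : (Ideal.span {(p : ℤ)}).IsMaximal := by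
      apply Ideal.IsPrime.isMaximal
      · rw [Ideal.span_singleton_prime (by exact_mod_cast hp.ne_zero)]
        exact Nat.prime_iff_prime_int.mp hp
      · rw [Ne, Ideal.span_singleton_eq_bot]
        exact_mod_cast hp.ne_zero
    refine hmax.eq_of_le (Ideal.IsPrime.under ℤ P).ne_top ?_
    rw [Ideal.span_le, Set.singleton_subset_iff]
    change (algebraMap ℤ (𝓞 L)) (p : ℤ) ∈ P
    rw [map_natCast]
    exact hpP
  have hI : ∀ τ : L ≃ₐ[ℚ] L, (∀ x : 𝓞 L, τ • x - x ∈ P) → τ = 1 := by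
    intro τ hτ
    obtain ⟨-, hT2, -⟩ := hT p hpD
    obtain ⟨σ, -, huniq⟩ := hT2 φ φ
    have h1 : (1 : Gal(L/ℚ)) = σ := huniq 1 (fun x => by rw [one_smul])
    have h2 : τ = σ := huniq τ (fun x => by
      have := hτ x
      rw [hP, RingHom.mem_ker, map_sub, sub_eq_zero] at this
      exact this.symm)
    rw [h2, ← h1]
  have hnot := Pool.Agent.W202.FM.UR.not_mem_sq L p P hI
  let v : HeightOneSpectrum (𝓞 L) := ⟨P, hPprime, hP0⟩
  -- the residue of `s`
  obtain ⟨a0, ha0⟩ : ∃ a0 : ℕ, φ s = (a0 : AlgebraicClosure (ZMod p)) := by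
    have h1 : φ s ∈ (⊥ : Subfield (AlgebraicClosure (ZMod p))) := by
      rw [Subfield.mem_bot_iff_pow_eq_self (AlgebraicClosure (ZMod p)) p]
      exact hφp s
    have h2 : (⊥ : Subfield (AlgebraicClosure (ZMod p))) ≤
        (algebraMap (ZMod p) (AlgebraicClosure (ZMod p))).fieldRange := bot_le
    obtain ⟨z, hz⟩ := h2 h1
    refine ⟨z.val, ?_⟩
    rw [← hz]
    have h3 : algebraMap (ZMod p) (AlgebraicClosure (ZMod p)) ((z.val : ℕ) : ZMod p) =
      ((z.val : ℕ) : AlgebraicClosure (ZMod p)) := map_natCast _ _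
    rw [← h3, ZMod.natCast_zmod_val]
  have hex : ∃ a1 : ℕ, s - (a1 : 𝓞 L) ∈ P ∧ s - (a1 : 𝓞 L) ∉ P ^ 2 := by
    have h1 : s - (a0 : 𝓞 L) ∈ P := by
      rw [hP, RingHom.mem_ker, map_sub, ha0, map_natCast, sub_self]
    by_cases h2 : s - (a0 : 𝓞 L) ∈ P ^ 2
    · refine ⟨a0 + p, ?_, ?_⟩
      · have : s - ((a0 + p : ℕ) : 𝓞 L) = (s - (a0 : 𝓞 L)) - (p : 𝓞 L) := by push_cast; ring
        rw [this]
        exact P.sub_mem h1 hpP
      · intro h3
        apply hnot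
        have : (p : 𝓞 L) = (s - (a0 : 𝓞 L)) - (s - ((a0 + p : ℕ) : 𝓞 L)) := by push_cast; ring
        rw [this]
        exact (P ^ 2).sub_mem h2 h3
    · exact ⟨a0, h1, h2⟩
  obtain ⟨a1, ha1, ha1'⟩ := hex
  refine ⟨p, hp, hpQ, a1, fun a ha w hw => ?_⟩
  have hcong : ((a : 𝓞 L) - (a1 : 𝓞 L)) ∈ P ^ 2 := by
    have h1 : ((p ^ 2 : ℕ) : ℤ) ∣ (a : ℤ) - (a1 : ℤ) := by
      have := (Nat.modEq_iff_dvd.1 ha.symm)
      exact this
    obtain ⟨c, hc⟩ := h1
    have h2 : (a : 𝓞 L) - (a1 : 𝓞 L) = (p : 𝓞 L) ^ 2 * (c : 𝓞 L) := by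
      have := congrArg (fun z : ℤ => (z : 𝓞 L)) hc
      push_cast at this
      exact this
    rw [h2]
    exact Ideal.mul_mem_right _ _ (Ideal.pow_mem_pow hpP 2)
  have h1 : s - (a : 𝓞 L) ∈ P := by
    have : s - (a : 𝓞 L) = (s - (a1 : 𝓞 L)) - ((a : 𝓞 L) - (a1 : 𝓞 L)) := by ring
    rw [this]
    exact P.sub_mem ha1 (Ideal.pow_le_self two_ne_zero hcong)
  have h2 : s - (a : 𝓞 L) ∉ P ^ 2 := by
    intro h3
    apply ha1'
    have : s - (a1 : 𝓞 L) = (s - (a : 𝓞 L)) + ((a : 𝓞 L) - (a1 : 𝓞 L)) := by ring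
    rw [this]
    exact (P ^ 2).add_mem h3 hcong
  have h3 : s' - (a : 𝓞 L) ∉ P := by
    intro h4
    have h5 : s - s' ∈ P := by
      have : s - s' = (s - (a : 𝓞 L)) - (s' - (a : 𝓞 L)) := by ring
      rw [this]
      exact P.sub_mem h1 h4
    rw [hP, RingHom.mem_ker] at h5
    refine hm' _ φ ?_ h5
    rw [Ne, CharP.cast_eq_zero_iff (AlgebraicClosure (ZMod p)) p]
    exact hpm
  have e1 : v.valuation L ((s : L) - (a : L)) = WithZero.exp (-1 : ℤ) := by
    have e : (s : L) - (a : L) = algebraMap (𝓞 L) L (s - (a : 𝓞 L)) := by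
      rw [map_sub, map_natCast]
    rw [e, v.valuation_of_algebraMap]
    apply le_antisymm
    · have := (v.intValuation_le_pow_iff_mem (s - (a : 𝓞 L)) 1).2 (by rwa [pow_one])
      simpa using this
    · by_contra hlt
      rw [not_le] at hlt
      apply h2
      refine (v.intValuation_le_pow_iff_mem (s - (a : 𝓞 L)) 2).1 ?_
      by_cases h0 : v.intValuation (s - (a : 𝓞 L)) = 0
      · rw [h0]
        exact zero_le
      · rw [← WithZero.exp_log h0] at hlt ⊢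
        rw [WithZero.exp_lt_exp] at hlt
        rw [WithZero.exp_le_exp]
        push_cast
        omega
  have e2 : v.valuation L ((s' : L) - (a : L)) = 1 := by
    have e : (s' : L) - (a : L) = algebraMap (𝓞 L) L (s' - (a : 𝓞 L)) := by
      rw [map_sub, map_natCast]
    rw [e, v.valuation_of_algebraMap, v.intValuation_eq_one_iff_mem_primeCompl]
    exact h3
  have e3 := congrArg (v.valuation L) hw
  rw [map_mul, map_pow, e1, e2, mul_one] at e3
  exact no_root_exp hl e3.symm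

/-- one residue class for finitely many pairs -/
theorem good_residues (L : Type) [Field L] [NumberField L] [IsGalois ℚ L] {l : ℕ} (hl : 2 ≤ l)
    (Z : Finset (𝓞 L × 𝓞 L)) (hZ : ∀ z ∈ Z, z.1 ≠ z.2) :
    ∃ Q : ℕ, 0 < Q ∧ ∃ a1 : ℕ, ∀ a : ℕ, a ≡ a1 [MOD Q] →
      ∀ z ∈ Z, ∀ w : L, (z.1 : L) - (a : L) ≠ w ^ l * ((z.2 : L) - (a : L)) := by
  classical
  induction Z using Finset.induction_on with
  | empty => exact ⟨1, one_pos, 0, fun a _ z hz => absurd hz (Finset.notMem_empty z)⟩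
  | insert z0 Z hz0 ih =>
    obtain ⟨Q, hQ, a1, h1⟩ := ih (fun z hz => hZ z (Finset.mem_insert_of_mem hz))
    obtain ⟨p, hp, hpQ, a2, h2⟩ := good_residue L hl z0.1 z0.2
      (hZ z0 (Finset.mem_insert_self _ _)) Q hQ
    have hco : Nat.Coprime Q (p ^ 2) :=
      (Nat.Coprime.pow_left 2 ((Nat.Prime.coprime_iff_not_dvd hp).2 hpQ)).symm
    obtain ⟨a3, h3, h4⟩ := Nat.chineseRemainder hco a1 a2
    refine ⟨Q * p ^ 2, Nat.mul_pos hQ (pow_pos hp.pos 2), a3, fun a ha z hz => ?_⟩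
    rcases Finset.mem_insert.1 hz with rfl | hz
    · exact h2 a ((Nat.ModEq.of_mul_left Q ha).trans h4)
    · exact h1 a ((Nat.ModEq.of_mul_right (p ^ 2) ha).trans h3) z hz

end Pool.Agent.TH954
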