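import Pool.Agent.W620.SC.Norm
import Mathlib.GroupTheory.CosetCover

/-!
# An automorphism which moves finitely many radicals
-/

set_option autoImplicit false
set_option linter.unusedSectionVars false

open scoped Pointwise

namespace Pool.Agent.TH954

/-- an automorphism over `F` which moves finitely many radicals of prime degree -/
theorem exists_move {K A : Type} [Field K] [CharZero K] [Field A] [Algebra K A] [IsAlgClosed A]
    [Algebra.IsAlgebraic K A] (F : IntermediateField K A) {l : ℕ} (hl : l.Prime) {ζ : A}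
    (hζ : IsPrimitiveRoot ζ l) (hζF : ζ ∈ F) {ι : Type} (T : Finset ι) (hT : T.card < l)
    (ρ : ι → A) (hρl : ∀ i ∈ T, ρ i ^ l ∈ F) (hρ : ∀ i ∈ T, ρ i ∉ F) :
    ∃ σ : A ≃ₐ[K] A, (∀ x ∈ F, σ x = x) ∧ ∀ i ∈ T, σ (ρ i) ≠ ρ i := by
  classical
  have : IsAlgClosure K A := ⟨inferInstance, inferInstance⟩
  have : Normal K A := IsAlgClosure.normal K A
  have : IsGalois K A := ⟨⟩
  by_contra hcon
  push Not at hcon
  let H : ι → Subgroup F.fixingSubgroup := fun i =>
    (MulAction.stabilizer (A ≃ₐ[K] A) (ρ i)).comap F.fixingSubgroup.subtype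
  have hmem : ∀ i (h : F.fixingSubgroup), h ∈ H i ↔ (h : A ≃ₐ[K] A) (ρ i) = ρ i := fun i h =>
    Iff.rfl
  have hcov : ⋃ i ∈ T, (1 : F.fixingSubgroup) • (H i : Set F.fixingSubgroup) = Set.univ := by
    rw [Set.eq_univ_iff_forall]
    intro h
    obtain ⟨i, hi, he⟩ := hcon h.1 (fun x hx =>
      (IntermediateField.mem_fixingSubgroup_iff _ _).1 h.2 x hx)
    rw [Set.mem_iUnion₂]
    refine ⟨i, hi, ?_⟩
    rw [one_smul]
    exact (hmem i h).2 he
  obtain ⟨i, hi, hfi, hind⟩ := Subgroup.exists_index_le_card_of_leftCoset_cover hcov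
  obtain ⟨σ, hσ, hσρ⟩ : ∃ σ ∈ F.fixingSubgroup, σ (ρ i) ≠ ρ i := by
    by_contra h
    push Not at h
    exact hρ i hi (Pool.Agent.W620.SC.mem_of_fixed F h)
  have hρ0 : ρ i ≠ 0 := fun h0 => hρ i hi (by rw [h0]; exact F.zero_mem)
  have hl0 : 0 < l := hl.pos
  set ξ : A := σ (ρ i) / ρ i with hξ
  have hξl : ξ ^ l = 1 := by
    rw [hξ, div_pow, ← map_pow,
      (IntermediateField.mem_fixingSubgroup_iff _ _).1 hσ _ (hρl i hi),
      div_self (pow_ne_zero _ hρ0)]
  have hξ1 : ξ ≠ 1 := by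
    intro h1
    apply hσρ
    rw [hξ, div_eq_one_iff_eq hρ0] at h1
    exact h1
  have hξF : ξ ∈ F := by
    have : NeZero l := ⟨hl0.ne'⟩
    obtain ⟨k, -, hk⟩ := hζ.eq_pow_of_pow_eq_one hξl
    rw [← hk]
    exact pow_mem hζF k
  have hσ' : σ (ρ i) = ξ * ρ i := by rw [hξ, div_mul_cancel₀ _ hρ0]
  let g : F.fixingSubgroup := ⟨σ, hσ⟩
  have hpow : ∀ n : ℕ, ((g ^ n : F.fixingSubgroup) : A ≃ₐ[K] A) (ρ i) = ξ ^ n * ρ i := by
    intro n
    induction n with
    | zero => rw [pow_zero, pow_zero, one_mul]; rfl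
    | succ n ih =>
      rw [pow_succ' g]
      change σ (((g ^ n : F.fixingSubgroup) : A ≃ₐ[K] A) (ρ i)) = _
      rw [ih, map_mul, (IntermediateField.mem_fixingSubgroup_iff _ _).1 hσ _ (pow_mem hξF n), hσ']
      ring
  have hord : orderOf ξ = l := by
    have : Fact l.Prime := ⟨hl⟩
    exact orderOf_eq_prime hξl hξ1
  have hinj : Function.Injective
      (fun n : Fin l => (QuotientGroup.mk (g ^ (n : ℕ)) : F.fixingSubgroup ⧸ H i)) := by
    intro n m hnm
    have h1 := QuotientGroup.eq.1 hnm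
    rw [hmem] at h1
    have h2 : ((g ^ (m : ℕ) : F.fixingSubgroup) : A ≃ₐ[K] A) (ρ i) =
        ((g ^ (n : ℕ) : F.fixingSubgroup) : A ≃ₐ[K] A) (ρ i) := by
      have h3 : (g ^ (m : ℕ)) = (g ^ (n : ℕ)) * ((g ^ (n : ℕ))⁻¹ * (g ^ (m : ℕ))) := by group
      rw [h3]
      change ((g ^ (n : ℕ) : F.fixingSubgroup) : A ≃ₐ[K] A)
        (((((g ^ (n : ℕ))⁻¹ * (g ^ (m : ℕ)) : F.fixingSubgroup)) : A ≃ₐ[K] A) (ρ i)) = _
      rw [h1]
    rw [hpow, hpow] at h2
    have h4 := mul_right_cancel₀ hρ0 h2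
    apply Fin.ext
    have h5 := pow_injOn_Iio_orderOf (x := ξ) (by rw [hord]; exact m.2) (by rw [hord]; exact n.2) h4
    exact h5.symm
  have : Finite (F.fixingSubgroup ⧸ H i) := Subgroup.finite_quotient_of_finiteIndex
  have h6 := Nat.card_le_card_of_injective _ hinj
  rw [Nat.card_fin] at h6
  have h7 : (H i).index = Nat.card (F.fixingSubgroup ⧸ H i) := rfl
  omega

end Pool.Agent.TH954
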