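import Pool.Agent.W620.SC.Norm
import Mathlib.NumberTheory.NumberField.Basic

/-!
# The integral polynomial of a Galois stable finite set
-/

set_option autoImplicit false
set_option linter.unusedSectionVars false

open IsDedekindDomain NumberField

namespace Pool.Agent.TH954

variable {K : Type} [Field K] [NumberField K]

/-- elements of the algebraic closure which are fixed by the Galois group -/
lemma mem_base_of_fixed {x : AlgebraicClosure K}
    (hx : ∀ σ : AlgebraicClosure K ≃ₐ[K] AlgebraicClosure K, σ x = x) :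
    ∃ y : K, algebraMap K (AlgebraicClosure K) y = x := by
  have : IsGalois K (AlgebraicClosure K) := ⟨⟩
  have h1 : x ∈ (⊥ : IntermediateField K (AlgebraicClosure K)) :=
    Pool.Agent.W620.SC.mem_of_fixed ⊥ (fun σ _ => hx σ)
  exact IntermediateField.mem_bot.1 h1

/-- the integral polynomial of a Galois stable finite set -/
theorem exists_int_poly (T : Finset (AlgebraicClosure K))
    (hT : ∀ σ : AlgebraicClosure K ≃ₐ[K] AlgebraicClosure K, ∀ θ ∈ T, σ θ ∈ T)
    (hint : ∀ θ ∈ T, IsIntegral ℤ θ) :
    ∃ m : Polynomial (𝓞 K), m.Monic ∧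
      m.map (algebraMap (𝓞 K) (AlgebraicClosure K)) =
        ∏ θ ∈ T, (Polynomial.X - Polynomial.C θ) := by
  classical
  set P : Polynomial (AlgebraicClosure K) := ∏ θ ∈ T, (Polynomial.X - Polynomial.C θ) with hP
  have hmon : P.Monic := Polynomial.monic_prod_of_monic _ _ (fun θ _ => Polynomial.monic_X_sub_C θ)
  have hfix : ∀ σ : AlgebraicClosure K ≃ₐ[K] AlgebraicClosure K,
      P.map (σ : AlgebraicClosure K →+* AlgebraicClosure K) = P := by
    intro σ
    have h1 : T.image σ = T := by
      refine Finset.eq_of_subset_of_card_le (fun x hx => ?_) ?_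
      · obtain ⟨θ, hθ, rfl⟩ := Finset.mem_image.1 hx
        exact hT σ θ hθ
      · rw [Finset.card_image_of_injective _ σ.injective]
    rw [hP, Polynomial.map_prod]
    conv_rhs => rw [← h1]
    rw [Finset.prod_image (fun x _ y _ h => σ.injective h)]
    refine Finset.prod_congr rfl (fun θ _ => ?_)
    rw [Polynomial.map_sub, Polynomial.map_X, Polynomial.map_C]
    rfl
  have hcint : ∀ n, IsIntegral ℤ (P.coeff n) := by
    have h1 : ∃ q : Polynomial (integralClosure ℤ (AlgebraicClosure K)),
        q.map (algebraMap (integralClosure ℤ (AlgebraicClosure K)) (AlgebraicClosure K)) = P := by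
      refine ⟨∏ θ ∈ T.attach, (Polynomial.X - Polynomial.C (⟨θ.1, hint θ.1 θ.2⟩ :
        integralClosure ℤ (AlgebraicClosure K))), ?_⟩
      rw [Polynomial.map_prod, hP, ← Finset.prod_attach T]
      refine Finset.prod_congr rfl (fun θ _ => ?_)
      rw [Polynomial.map_sub, Polynomial.map_X, Polynomial.map_C]
      rfl
    obtain ⟨q, hq⟩ := h1
    intro n
    rw [← hq, Polynomial.coeff_map]
    exact (q.coeff n).2
  have hl : P ∈ Polynomial.lifts (algebraMap (𝓞 K) (AlgebraicClosure K)) := by
    rw [Polynomial.lifts_iff_coeff_lifts]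
    intro n
    obtain ⟨y, hy⟩ := mem_base_of_fixed (x := P.coeff n) (fun σ => by
      conv_rhs => rw [← hfix σ]
      rw [Polynomial.coeff_map]
      rfl)
    have hyi : IsIntegral ℤ y := by
      have := hcint n
      rw [← hy] at this
      exact (isIntegral_algebraMap_iff (algebraMap K (AlgebraicClosure K)).injective).1 this
    refine ⟨⟨y, hyi⟩, ?_⟩
    rw [← hy]
    rfl
  obtain ⟨q, hq, -, hqm⟩ := Polynomial.lifts_and_degree_eq_and_monic hl hmon
  exact ⟨q, hqm, hq⟩

end Pool.Agent.TH954
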