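import Pool.Agent.TH954.SLem
import Pool.Agent.TH954.SMove
import Pool.Agent.TH954.SPoly
import Pool.Agent.TH954.Expo

/-!
# Finite sets without rational points and local power residue conditions
-/

set_option autoImplicit false
set_option linter.unusedSectionVars false

open IsDedekindDomain NumberField Pool.Agent.W401.Cheb

namespace Pool.Agent.TH954

variable {K : Type} [Field K] [NumberField K]

/-- conjugates of elements of a normal number field -/
lemma normal_range {L A : Type} [Field L] [NumberField L] [IsGalois ℚ L] [Field A] [CharZero A]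
    (κ : L →+* A) (σ : A →+* A) (w : L) : ∃ w', κ w' = σ (κ w) := by
  have hs : ((minpoly ℚ w).map (algebraMap ℚ L)).Splits := Normal.splits inferInstance w
  have h0 : (minpoly ℚ w).map (algebraMap ℚ L) ≠ 0 :=
    (Polynomial.map_ne_zero_iff (algebraMap ℚ L).injective).2
      (minpoly.ne_zero (Algebra.IsIntegral.isIntegral w))
  refine hs.mem_range_of_isRoot (i := κ) (x := σ (κ w)) h0 ?_
  rw [Polynomial.IsRoot.def, Polynomial.eval_map, Polynomial.eval₂_map]
  have e1 : κ.comp (algebraMap ℚ L) = (σ.comp κ).comp (algebraMap ℚ L) := Subsingleton.elim _ _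
  rw [e1]
  change Polynomial.eval₂ _ ((σ.comp κ) w) _ = 0
  rw [← Polynomial.hom_eval₂]
  have e2 : Polynomial.eval₂ (algebraMap ℚ L) w (minpoly ℚ w) = 0 := minpoly.aeval ℚ w
  rw [e2, map_zero]

/-- integral elements to the completion -/
noncomputable def toLoc (v : HeightOneSpectrum (𝓞 K)) : 𝓞 K →+* v.adicCompletion K :=
  (algebraMap K (v.adicCompletion K)).comp (algebraMap (𝓞 K) K)

lemma norm_toLoc_le (v : HeightOneSpectrum (𝓞 K)) (x : 𝓞 K) : ‖toLoc v x‖ ≤ 1 :=
  FinitePlace.norm_le_one K v x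

lemma norm_toLoc_lt (v : HeightOneSpectrum (𝓞 K)) (x : 𝓞 K) :
    ‖toLoc v x‖ < 1 ↔ x ∈ v.asIdeal := FinitePlace.norm_lt_one_iff_mem K v x

lemma norm_toLoc_eq (v : HeightOneSpectrum (𝓞 K)) (x : 𝓞 K) :
    ‖toLoc v x‖ = 1 ↔ x ∉ v.asIdeal := FinitePlace.norm_eq_one_iff_notMem K v x

/-- roots of monic polynomials are integral -/
lemma norm_root_le (v : HeightOneSpectrum (𝓞 K)) {m : Polynomial (𝓞 K)} (hm : m.Monic)
    {y : v.adicCompletion K} (hy : Polynomial.eval₂ (toLoc v) y m = 0) : ‖y‖ ≤ 1 := by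
  by_contra hcon
  rw [not_le] at hcon
  rw [Polynomial.eval₂_eq_sum_range, Finset.sum_range_succ] at hy
  have hlead : m.coeff m.natDegree = 1 := hm
  rw [hlead, map_one, one_mul] at hy
  by_cases hd : m.natDegree = 0
  · rw [hd] at hy
    simp at hy
  · have h1 : ‖y ^ m.natDegree‖ ≤ ‖y‖ ^ (m.natDegree - 1) := by
      have h2 : y ^ m.natDegree = -∑ i ∈ Finset.range m.natDegree, toLoc v (m.coeff i) * y ^ i := by
        linear_combination hy
      rw [h2, norm_neg]
      refine norm_sum_le_of _ _ (by positivity) (fun i hi => ?_)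
      rw [norm_mul, norm_pow]
      have h3 : ‖y‖ ^ i ≤ ‖y‖ ^ (m.natDegree - 1) :=
        pow_le_pow_right₀ hcon.le (by have := Finset.mem_range.1 hi; omega)
      calc ‖toLoc v (m.coeff i)‖ * ‖y‖ ^ i ≤ 1 * ‖y‖ ^ i :=
            mul_le_mul_of_nonneg_right (norm_toLoc_le v _) (by positivity)
        _ ≤ _ := by rw [one_mul]; exact h3
    rw [norm_pow] at h1
    have h4 : ‖y‖ ^ (m.natDegree - 1) < ‖y‖ ^ m.natDegree := pow_lt_pow_right₀ hcon (by omega)
    linarith

/-- a local root gives a root modulo the place -/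
theorem local_root (v : HeightOneSpectrum (𝓞 K)) {m : Polynomial (𝓞 K)} (hm : m.Monic)
    (a : 𝓞 K) {c : 𝓞 K} (hc : c ∉ v.asIdeal) {l : ℕ} (hl : 1 ≤ l) (z : v.adicCompletion K)
    (hz : Polynomial.eval₂ (toLoc v) (toLoc v a + toLoc v c * z ^ l) m = 0) :
    ∃ r : 𝓞 K, m.eval (a + c * r ^ l) ∈ v.asIdeal := by
  classical
  have hy := norm_root_le v hm hz
  have hc1 : ‖toLoc v c‖ = 1 := (norm_toLoc_eq v c).2 hc
  have hz1 : ‖z‖ ≤ 1 := by
    have h1 : ‖toLoc v c * z ^ l‖ ≤ 1 := by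
      have e : toLoc v c * z ^ l = (toLoc v a + toLoc v c * z ^ l) - toLoc v a := by ring
      rw [e]
      exact usub hy (norm_toLoc_le v a)
    rw [norm_mul, hc1, one_mul, norm_pow] at h1
    exact (pow_le_one_iff_of_nonneg (norm_nonneg _) (by omega)).1 h1
  obtain ⟨k, hk⟩ := exists_approx v one_pos z
  have hk1 : ‖algebraMap K (v.adicCompletion K) k‖ ≤ 1 := by
    have e : algebraMap K (v.adicCompletion K) k =
        z - (z - algebraMap K (v.adicCompletion K) k) := by ring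
    rw [e]
    exact usub hz1 hk.le
  obtain ⟨r, hr⟩ := v.exists_valuation_sub_lt_of_integer (val_le_one_of_norm v hk1) 1
  have hr1 : ‖algebraMap K (v.adicCompletion K) (algebraMap (𝓞 K) K r - k)‖ < 1 := by
    have h1 := norm_lt_of_val_lt v (x := algebraMap (𝓞 K) K r - k) (y := 1) (by
      rw [map_one]
      exact hr)
    rwa [map_one, norm_one] at h1
  have hzr : ‖z - toLoc v r‖ < 1 := by
    have e : z - toLoc v r = (z - algebraMap K (v.adicCompletion K) k) -
        algebraMap K (v.adicCompletion K) (algebraMap (𝓞 K) K r - k) := by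
      rw [map_sub]
      change z - algebraMap K (v.adicCompletion K) (algebraMap (𝓞 K) K r) = _
      ring
    rw [e]
    exact usub_lt hk hr1
  refine ⟨r, (norm_toLoc_lt v _).1 ?_⟩
  have hyr : ‖toLoc v (a + c * r ^ l)‖ ≤ 1 := norm_toLoc_le v _
  have hdiff : ‖(toLoc v a + toLoc v c * z ^ l) - toLoc v (a + c * r ^ l)‖ ≤ ‖z - toLoc v r‖ := by
    have e : (toLoc v a + toLoc v c * z ^ l) - toLoc v (a + c * r ^ l) =
        toLoc v c * (z ^ l - toLoc v r ^ l) := by
      rw [map_add, map_mul, map_pow]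
      ring
    rw [e, norm_mul, hc1, one_mul]
    exact norm_pow_sub_le hz1 (norm_toLoc_le v r) le_rfl l
  have e1 : toLoc v (m.eval (a + c * r ^ l)) =
      Polynomial.eval₂ (toLoc v) (toLoc v (a + c * r ^ l)) m := Polynomial.hom_eval₂ m (RingHom.id _) _ _ |>.trans (by rw [RingHom.comp_id])
  have e2 : toLoc v (m.eval (a + c * r ^ l)) =
      -∑ i ∈ Finset.range (m.natDegree + 1), toLoc v (m.coeff i) *
        ((toLoc v a + toLoc v c * z ^ l) ^ i - toLoc v (a + c * r ^ l) ^ i) := by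
    rw [e1]
    rw [Polynomial.eval₂_eq_sum_range] at hz ⊢
    simp only [mul_sub, Finset.sum_sub_distrib]
    rw [hz]
    ring
  rw [e2, norm_neg]
  refine lt_of_le_of_lt (norm_sum_le_of _ _ (norm_nonneg _) (fun i _ => ?_)) hzr
  rw [norm_mul]
  have h5 := norm_pow_sub_le hy hyr hdiff i
  calc ‖toLoc v (m.coeff i)‖ * _ ≤ 1 * ‖z - toLoc v r‖ :=
        mul_le_mul (norm_toLoc_le v _) h5 (norm_nonneg _) zero_le_one
    _ = _ := one_mul _

/-- integral elements in the image of a number field -/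
lemma exists_int_preimage {L A : Type} [Field L] [NumberField L] [Field A] [CharZero A]
    (κ : L →+* A) {x : A} (hx : IsIntegral ℤ x) (hr : ∃ y, κ y = x) : ∃ y : 𝓞 L, κ y = x := by
  obtain ⟨y, rfl⟩ := hr
  have : IsIntegral ℤ y := (isIntegral_algHom_iff κ.toIntAlgHom κ.injective).1 hx
  exact ⟨⟨y, this⟩, rfl⟩

/-- **The obstruction.** Let `T` be a finite set of algebraic integers, stable under the Galois
group, without elements in `K`. -/
theorem obstruct_int (T : Finset (AlgebraicClosure K))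
    (hT : ∀ σ : AlgebraicClosure K ≃ₐ[K] AlgebraicClosure K, ∀ θ ∈ T, σ θ ∈ T)
    (hint : ∀ θ ∈ T, IsIntegral ℤ θ)
    (hne : ∀ θ ∈ T, ∃ σ : AlgebraicClosure K ≃ₐ[K] AlgebraicClosure K, σ θ ≠ θ) :
    ∃ l a : ℕ, 1 ≤ l ∧ ∀ c : 𝓞 K, c ≠ 0 → ∃ v : HeightOneSpectrum (𝓞 K),
      ∀ (ι : AlgebraicClosure K →ₐ[K] AlgebraicClosure (v.adicCompletion K)), ∀ θ ∈ T,
      ∀ z : v.adicCompletion K, ι (θ - (a : AlgebraicClosure K)) ≠
        algebraMap (v.adicCompletion K) (AlgebraicClosure (v.adicCompletion K))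
          (toLoc v c * z ^ l) := by
  classical
  obtain ⟨l, hlT, hl⟩ := Nat.exists_infinite_primes (T.card + 2)
  have hl2 : 2 ≤ l := hl.two_le
  have hTl : T.card < l := by omega
  have : NeZero (l : AlgebraicClosure K) := ⟨by exact_mod_cast hl.ne_zero⟩
  obtain ⟨ζ, hζ⟩ := HasEnoughRootsOfUnity.exists_primitiveRoot (AlgebraicClosure K) l
  obtain ⟨L, _, _, _, i, τ1, κ, hκi, -, hκs⟩ := Pool.Agent.TH120.Sec.exists_L K
    ((insert ζ T : Finset (AlgebraicClosure K)) : Set (AlgebraicClosure K))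
    (Finset.finite_toSet _) 1
  have hsex : ∀ θ, ∃ s : 𝓞 L, θ ∈ T → κ s = θ := by
    intro θ
    by_cases hθ : θ ∈ T
    · obtain ⟨y, hy⟩ := exists_int_preimage κ (hint θ hθ)
        (hκs θ (Finset.mem_coe.2 (Finset.mem_insert_of_mem hθ)))
      exact ⟨y, fun _ => hy⟩
    · exact ⟨0, fun h => absurd h hθ⟩
  choose s hs using hsex
  obtain ⟨Q, -, a, ha⟩ := good_residues L hl2
    (((T ×ˢ T).image (fun p => (s p.1, s p.2))).filter (fun z => z.1 ≠ z.2))
    (fun z hz => (Finset.mem_filter.1 hz).2)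
  have hG : ∀ θ ∈ T, ∀ θ' ∈ T, θ ≠ θ' → ∀ w : L,
      θ - (a : AlgebraicClosure K) ≠ κ w ^ l * (θ' - (a : AlgebraicClosure K)) := by
    intro θ hθ θ' hθ' hne' w hw
    have h1 := ha a (Nat.ModEq.refl a) (s θ, s θ') (Finset.mem_filter.2
      ⟨Finset.mem_image.2 ⟨(θ, θ'), Finset.mem_product.2 ⟨hθ, hθ'⟩, rfl⟩, fun h => hne' (by
        rw [← hs θ hθ, ← hs θ' hθ']
        have h2 : s θ = s θ' := h
        rw [h2])⟩) w
    apply h1
    apply κ.injective
    rw [map_mul, map_pow, map_sub, map_sub, map_natCast, hs θ hθ, hs θ' hθ']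
    exact hw
  let FL : IntermediateField K (AlgebraicClosure K) :=
    { κ.fieldRange with algebraMap_mem' := fun x => ⟨i x, hκi x⟩ }
  have hFL : ∀ x, x ∈ FL ↔ ∃ y, κ y = x := fun x => Iff.rfl
  refine ⟨l, a, hl.one_le, fun c hc => ?_⟩
  set cA : AlgebraicClosure K := algebraMap K (AlgebraicClosure K) (c : K) with hcA
  have hcA0 : cA ≠ 0 := by
    rw [hcA, Ne, map_eq_zero]
    exact fun h => hc (RingOfIntegers.coe_injective h)
  -- the radicals
  have hρex : ∀ θ, ∃ r : AlgebraicClosure K,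
      r ^ l = cA ^ (l - 1) * (θ - (a : AlgebraicClosure K)) := fun θ =>
    IsAlgClosed.exists_pow_nat_eq _ hl.pos
  choose ρ hρ using hρex
  have hρF : ∀ θ ∈ T, ρ θ ∉ FL := by
    intro θ hθ hmem
    obtain ⟨w, hw⟩ := (hFL _).1 hmem
    obtain ⟨σ, hσ⟩ := hne θ hθ
    obtain ⟨w', hw'⟩ := normal_range κ (σ : AlgebraicClosure K →+* AlgebraicClosure K) w
    have hw'' : κ w' = σ (κ w) := hw'
    have e1 : κ w ^ l = cA ^ (l - 1) * (θ - (a : AlgebraicClosure K)) := by rw [hw, hρ]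
    have e2 : κ w' ^ l = cA ^ (l - 1) * (σ θ - (a : AlgebraicClosure K)) := by
      rw [hw'', ← map_pow, e1, map_mul, map_pow, map_sub, map_natCast, hcA, σ.commutes]
    have hne2 : σ θ - (a : AlgebraicClosure K) ≠ 0 := by
      intro h0
      rw [sub_eq_zero] at h0
      have h1 : θ = (a : AlgebraicClosure K) := by
        apply σ.injective
        rw [h0, map_natCast]
      apply hσ
      rw [h0, h1]
    have hw0 : κ w' ≠ 0 := by
      intro h0
      rw [h0, zero_pow hl.ne_zero] at e2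
      exact mul_ne_zero (pow_ne_zero _ hcA0) hne2 e2.symm
    refine hG θ hθ (σ θ) (hT σ θ hθ) (Ne.symm hσ) (w / w') ?_
    rw [map_div₀, div_pow, e1, div_mul_eq_mul_div, eq_div_iff (pow_ne_zero _ hw0), e2]
    ring
  have hρl : ∀ θ ∈ T, ρ θ ^ l ∈ FL := by
    intro θ hθ
    rw [hρ]
    refine mul_mem (pow_mem (FL.algebraMap_mem _) _) (sub_mem ?_ (natCast_mem FL a))
    exact (hFL _).2 ⟨_, hs θ hθ⟩
  obtain ⟨σ, hσF, hσρ⟩ := exists_move FL hl hζ
    ((hFL _).2 (hκs ζ (Finset.mem_coe.2 (Finset.mem_insert_self _ _)))) T hTl ρ hρl hρF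
  -- the second field
  obtain ⟨L', _, _, _, i', τ, κ', hκi', hκτ, hκs'⟩ := Pool.Agent.TH120.Sec.exists_L K
    ((T ∪ T.image ρ : Finset (AlgebraicClosure K)) : Set (AlgebraicClosure K))
    (Finset.finite_toSet _) σ
  have htex : ∀ θ, ∃ s : 𝓞 L', θ ∈ T → κ' s = θ := by
    intro θ
    by_cases hθ : θ ∈ T
    · obtain ⟨y, hy⟩ := exists_int_preimage κ' (hint θ hθ)
        (hκs' θ (Finset.mem_coe.2 (Finset.mem_union_left _ hθ)))
      exact ⟨y, fun _ => hy⟩
    · exact ⟨0, fun h => absurd h hθ⟩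
  choose t ht using htex
  have hcint : IsIntegral ℤ cA := by
    rw [hcA]
    exact c.2.map (IsScalarTower.toAlgHom ℤ K (AlgebraicClosure K))
  have hρint : ∀ θ ∈ T, IsIntegral ℤ (ρ θ) := by
    intro θ hθ
    refine IsIntegral.of_pow hl.pos ?_
    rw [hρ]
    exact (hcint.pow _).mul ((hint θ hθ).sub (natCast_mem (integralClosure ℤ (AlgebraicClosure K)) a))
  have hRex : ∀ θ, ∃ s : 𝓞 L', θ ∈ T → κ' s = ρ θ := by
    intro θ
    by_cases hθ : θ ∈ T
    · obtain ⟨y, hy⟩ := exists_int_preimage κ' (hρint θ hθ)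
        (hκs' _ (Finset.mem_coe.2 (Finset.mem_union_right _ (Finset.mem_image_of_mem ρ hθ))))
      exact ⟨y, fun _ => hy⟩
    · exact ⟨0, fun h => absurd h hθ⟩
  choose R hR using hRex
  set iO : 𝓞 K →+* 𝓞 L' := RingOfIntegers.mapRingHom i' with hiO
  have hiOc : ∀ x : 𝓞 K, κ' (iO x : L') = algebraMap K (AlgebraicClosure K) (x : K) :=
    fun x => hκi' x
  have hρ0 : ∀ θ ∈ T, ρ θ ≠ 0 := fun θ hθ h0 => hρF θ hθ (by rw [h0]; exact FL.zero_mem)
  have hR0 : ∀ θ ∈ T, R θ ≠ 0 := by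
    intro θ hθ h0
    apply hρ0 θ hθ
    rw [← hR θ hθ, h0]
    simp
  have hRl : ∀ θ ∈ T, (R θ) ^ l = iO c ^ (l - 1) * (t θ - (a : 𝓞 L')) := by
    intro θ hθ
    apply RingOfIntegers.coe_injective
    apply κ'.injective
    rw [map_pow, map_pow, hR θ hθ, hρ, map_mul, map_mul, map_pow, map_pow, map_sub, map_sub,
      ht θ hθ, map_natCast, map_natCast]
    have h1 := hiOc c
    rw [← hcA] at h1
    rw [← h1]
  -- the roots of unity
  have hξex : ∀ θ, ∃ ξ : 𝓞 L', θ ∈ T → (τ • (R θ) = ξ * R θ ∧ ξ ^ l = 1 ∧ ξ ≠ 1 ∧ τ • ξ = ξ) := by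
    intro θ
    by_cases hθ : θ ∈ T
    · have hR0' : (R θ : L') ≠ 0 := fun h0 => hR0 θ hθ (RingOfIntegers.coe_injective (by
        rw [map_zero]; exact h0))
      have hpow : (τ (R θ : L') / (R θ : L')) ^ l = 1 := by
        apply κ'.injective
        rw [map_pow, map_div₀, hκτ, hR θ hθ, div_pow, map_one, ← map_pow, hσF _ (hρl θ hθ),
          div_self (pow_ne_zero _ (hρ0 θ hθ))]
      have hint' : IsIntegral ℤ (τ (R θ : L') / (R θ : L')) := by
        refine IsIntegral.of_pow hl.pos ?_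
        rw [hpow]
        exact isIntegral_one
      refine ⟨⟨_, hint'⟩, fun _ => ⟨?_, ?_, ?_, ?_⟩⟩
      · apply RingOfIntegers.coe_injective
        change τ (R θ : L') = (τ (R θ : L') / (R θ : L')) * (R θ : L')
        rw [div_mul_cancel₀ _ hR0']
      · apply RingOfIntegers.coe_injective
        change (τ (R θ : L') / (R θ : L')) ^ l = 1
        exact hpow
      · intro h1
        apply hσρ θ hθ
        have h2 : τ (R θ : L') / (R θ : L') = 1 := congrArg (fun x : 𝓞 L' => (x : L')) h1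
        rw [div_eq_one_iff_eq hR0'] at h2
        rw [← hR θ hθ, ← hκτ, h2]
      · apply RingOfIntegers.coe_injective
        change τ (τ (R θ : L') / (R θ : L')) = τ (R θ : L') / (R θ : L')
        apply κ'.injective
        rw [hκτ]
        apply hσF
        have h3 : (κ' (τ (R θ : L') / (R θ : L'))) ^ l = 1 := by rw [← map_pow, hpow, map_one]
        have : NeZero l := ⟨hl.ne_zero⟩
        obtain ⟨k, -, hk⟩ := hζ.eq_pow_of_pow_eq_one h3
        rw [← hk]
        exact pow_mem ((hFL _).2 (hκs ζ (Finset.mem_coe.2 (Finset.mem_insert_self _ _)))) k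
    · exact ⟨0, fun h => absurd h hθ⟩
  choose ξ hξ using hξex
  have hcO : iO c ≠ 0 := by
    intro h0
    apply hcA0
    rw [hcA, ← hiOc c, h0]
    simp
  obtain ⟨m, hm, hm'⟩ := Pool.Agent.W723.SecC.nz L' (iO c * ∏ θ ∈ T, (R θ * (ξ θ - 1)))
    (mul_ne_zero hcO (Finset.prod_ne_zero_iff.2 (fun θ hθ => mul_ne_zero (hR0 θ hθ)
      (sub_ne_zero.2 (hξ θ hθ).2.2.1))))
  obtain ⟨p, ⟨hp, hxp⟩, hpgt⟩ := (infinite_frob L' τ).exists_gt m
  have hpm : ¬ p ∣ m := fun hd => by
    have h1 := Nat.le_of_dvd hm hd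
    omega
  have : Fact p.Prime := ⟨hp⟩
  obtain ⟨φ, hφ⟩ : ∃ φ : 𝓞 L' →+* AlgebraicClosure (ZMod p), HasFrob p φ τ := by
    unfold xp at hxp
    rw [dif_pos hp] at hxp
    by_contra h
    push Not at h
    apply hxp
    rw [Nat.card_eq_zero]
    left
    exact ⟨fun x => h x.1 x.2⟩
  have hφE : φ (iO c * ∏ θ ∈ T, (R θ * (ξ θ - 1))) ≠ 0 := by
    refine hm' _ φ ?_
    rw [Ne, CharP.cast_eq_zero_iff (AlgebraicClosure (ZMod p)) p]
    exact hpm
  rw [map_mul, map_prod] at hφE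
  have hφc : φ (iO c) ≠ 0 := left_ne_zero_of_mul hφE
  have hφθ : ∀ θ ∈ T, φ (R θ) ≠ 0 ∧ φ (ξ θ) ≠ 1 := by
    intro θ hθ
    have h1 := Finset.prod_ne_zero_iff.1 (right_ne_zero_of_mul hφE) θ hθ
    rw [map_mul, map_sub, map_one] at h1
    exact ⟨left_ne_zero_of_mul h1, fun h2 => right_ne_zero_of_mul h1 (by rw [h2, sub_self])⟩
  have hφi : ∀ x : 𝓞 K, φ (iO x) ^ p = φ (iO x) := by
    intro x
    have h1 := hφ (iO x)
    have h2 : τ • (iO x) = iO x := by
      apply RingOfIntegers.coe_injective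
      apply κ'.injective
      change κ' (τ (iO x : L')) = _
      rw [hκτ, hiOc, σ.commutes]
    rw [h2] at h1
    exact h1.symm
  -- the place
  set P : Ideal (𝓞 K) := RingHom.ker (φ.comp iO) with hP
  have hPprime : P.IsPrime := RingHom.ker_isPrime _
  have hP0 : P ≠ ⊥ := by
    intro h0
    have hpP : ((p : ℕ) : 𝓞 K) ∈ P := by
      rw [hP, RingHom.mem_ker, map_natCast]
      exact CharP.cast_eq_zero _ p
    rw [h0, Ideal.mem_bot] at hpP
    have : p = 0 := by exact_mod_cast hpP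
    exact hp.ne_zero this
  let v : HeightOneSpectrum (𝓞 K) := ⟨P, hPprime, hP0⟩
  have hcv : c ∉ v.asIdeal := fun h => hφc ((RingHom.mem_ker).1 h)
  obtain ⟨q, hqm, hq⟩ := exists_int_poly T hT hint
  refine ⟨v, fun ι θ hθ z hz => ?_⟩
  obtain ⟨r, hr⟩ := local_root v hqm (a : 𝓞 K) hcv hl.one_le z (by
    apply (algebraMap (v.adicCompletion K) (AlgebraicClosure (v.adicCompletion K))).injective
    rw [Polynomial.hom_eval₂, map_zero, map_add, ← hz, map_sub, map_natCast, map_natCast,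
      map_natCast, add_sub_cancel]
    have e1 : (algebraMap (v.adicCompletion K) (AlgebraicClosure (v.adicCompletion K))).comp
        (toLoc v) = (ι : AlgebraicClosure K →+* _).comp
          (algebraMap (𝓞 K) (AlgebraicClosure K)) := by
      apply RingHom.ext
      intro x
      exact (ι.commutes (x : K)).symm
    rw [e1]
    change Polynomial.eval₂ _ ((ι : AlgebraicClosure K →+*
      AlgebraicClosure (v.adicCompletion K)) θ) _ = 0
    rw [← Polynomial.hom_eval₂, Polynomial.eval₂_eq_eval_map, hq, Polynomial.eval_prod,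
      Finset.prod_eq_zero hθ (by simp), map_zero])
  have hr' : φ (iO (q.eval ((a : 𝓞 K) + c * r ^ l))) = 0 := (RingHom.mem_ker).1 hr
  have hqO : q.map iO = ∏ θ ∈ T, (Polynomial.X - Polynomial.C (t θ)) := by
    have hinj : Function.Injective (κ'.comp (algebraMap (𝓞 L') L')) :=
      κ'.injective.comp RingOfIntegers.coe_injective
    apply Polynomial.map_injective _ hinj
    rw [Polynomial.map_map, Polynomial.map_prod]
    have e1 : (κ'.comp (algebraMap (𝓞 L') L')).comp iO =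
        algebraMap (𝓞 K) (AlgebraicClosure K) := by
      apply RingHom.ext
      intro x
      exact hiOc x
    rw [e1, hq]
    refine Finset.prod_congr rfl (fun θ hθ => ?_)
    rw [Polynomial.map_sub, Polynomial.map_X, Polynomial.map_C]
    rw [show (κ'.comp (algebraMap (𝓞 L') L')) (t θ) = θ from ht θ hθ]
  have hr2 : ∃ θ' ∈ T, φ (iO ((a : 𝓞 K) + c * r ^ l)) = φ (t θ') := by
    have e1 : iO (q.eval ((a : 𝓞 K) + c * r ^ l)) =
        (q.map iO).eval (iO ((a : 𝓞 K) + c * r ^ l)) := by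
      rw [Polynomial.eval_map]
      exact (Polynomial.hom_eval₂ q (RingHom.id _) iO _).trans (by rw [RingHom.comp_id])
    rw [e1, hqO, Polynomial.eval_prod, map_prod, Finset.prod_eq_zero_iff] at hr'
    obtain ⟨θ', hθ', h1⟩ := hr'
    refine ⟨θ', hθ', ?_⟩
    rw [Polynomial.eval_sub, Polynomial.eval_X, Polynomial.eval_C, map_sub, sub_eq_zero] at h1
    exact h1
  obtain ⟨θ', hθ', h2⟩ := hr2
  obtain ⟨hR1, hR2⟩ := hφθ θ' hθ'
  obtain ⟨hξ1, hξ2, hξ3, hξ4⟩ := hξ θ' hθ'
  have h3 : φ (R θ') ^ l = φ (iO (c * r)) ^ l := by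
    rw [← map_pow, hRl θ' hθ', map_mul, map_sub, ← h2, map_pow]
    simp only [map_add, map_mul, map_pow, map_natCast]
    have : l = (l - 1) + 1 := by have := hl.one_le; omega
    conv_rhs => rw [this]
    conv_lhs => rw [this]
    simp only [Nat.add_sub_cancel]
    ring
  have hw0 : φ (iO (c * r)) ≠ 0 := by
    intro h0
    rw [h0, zero_pow hl.ne_zero] at h3
    exact hR1 (pow_eq_zero_iff hl.ne_zero |>.1 h3)
  have hξ0 : φ (ξ θ') ≠ 0 := by
    intro h0
    have := congrArg φ hξ2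
    rw [map_pow, h0, zero_pow hl.ne_zero, map_one] at this
    exact zero_ne_one this
  have h4 : φ (ξ θ') ^ (p - 1) = 1 := by
    have h5 := hφ (ξ θ')
    rw [hξ4] at h5
    have h6 : φ (ξ θ') ^ (p - 1) * φ (ξ θ') = 1 * φ (ξ θ') := by
      rw [← pow_succ, Nat.sub_add_cancel hp.one_le, one_mul]
      exact h5.symm
    exact mul_right_cancel₀ hξ0 h6
  have h5 : orderOf (φ (ξ θ')) = l := by
    have : Fact l.Prime := ⟨hl⟩
    exact orderOf_eq_prime (by rw [← map_pow, hξ2, map_one]) hR2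
  have h6 : l ∣ p - 1 := by
    rw [← h5]
    exact orderOf_dvd_of_pow_eq_one h4
  apply hR2
  have h7 : (φ (R θ') / φ (iO (c * r))) ^ l = 1 := by
    rw [div_pow, h3, div_self (pow_ne_zero _ hw0)]
  have h8 : (φ (R θ') / φ (iO (c * r))) ^ (p - 1) = 1 := by
    obtain ⟨e, he⟩ := h6
    rw [he, pow_mul, h7, one_pow]
  have h9 : (φ (R θ') / φ (iO (c * r))) ^ p = φ (ξ θ') * (φ (R θ') / φ (iO (c * r))) := by
    rw [div_pow, hφi, ← hφ (R θ'), hξ1, map_mul, mul_div_assoc]
  have h10 : (φ (R θ') / φ (iO (c * r))) ^ p =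
      (φ (R θ') / φ (iO (c * r))) ^ (p - 1) * (φ (R θ') / φ (iO (c * r))) := by
    rw [← pow_succ, Nat.sub_add_cancel hp.one_le]
  rw [h10, h8, one_mul] at h9
  have h11 : φ (R θ') / φ (iO (c * r)) ≠ 0 := div_ne_zero hR1 hw0
  exact (mul_right_cancel₀ h11 ((one_mul _).trans h9)).symm

end Pool.Agent.TH954
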