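import Pool.Agent.TH954.SObs

/-!
# Finite sets without rational points and local power residue conditions (2)
-/

set_option autoImplicit false
set_option linter.unusedSectionVars false

open IsDedekindDomain NumberField Pool.Agent.W401.Cheb

namespace Pool.Agent.TH954

variable {K : Type} [Field K] [NumberField K]

/-- a common denominator of a finite set of algebraic numbers -/
lemma exists_denom (T : Finset (AlgebraicClosure K)) :
    ∃ D : ℕ, D ≠ 0 ∧ ∀ θ ∈ T, IsIntegral ℤ ((D : AlgebraicClosure K) * θ) := by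
  classical
  have : Algebra.IsAlgebraic ℚ (AlgebraicClosure K) := Algebra.IsAlgebraic.trans ℚ K _
  induction T using Finset.induction_on with
  | empty => exact ⟨1, one_ne_zero, fun θ hθ => absurd hθ (Finset.notMem_empty θ)⟩
  | insert θ0 T h0 ih =>
    obtain ⟨D, hD, h⟩ := ih
    have h1 : IsAlgebraic ℤ θ0 :=
      (IsFractionRing.isAlgebraic_iff ℤ ℚ (AlgebraicClosure K)).2 (Algebra.IsAlgebraic.isAlgebraic θ0)
    obtain ⟨y, hy0, hy⟩ := h1.exists_integral_multiple
    refine ⟨D * y.natAbs, Nat.mul_ne_zero hD (Int.natAbs_ne_zero.2 hy0), fun θ hθ => ?_⟩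
    have hnat : ∀ n : ℕ, IsIntegral ℤ (n : AlgebraicClosure K) := fun n =>
      natCast_mem (integralClosure ℤ (AlgebraicClosure K)) n
    rcases Finset.mem_insert.1 hθ with rfl | hθ
    · have h2 : IsIntegral ℤ ((y.natAbs : AlgebraicClosure K) * θ) := by
        rw [Algebra.smul_def] at hy
        have h3 : (algebraMap ℤ (AlgebraicClosure K)) y = (y : AlgebraicClosure K) := rfl
        rw [h3] at hy
        rcases Int.natAbs_eq y with h4 | h4
        · rw [h4] at hy
          push_cast at hy
          simpa using hy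
        · rw [h4] at hy
          push_cast at hy
          have := hy.neg
          simpa using this
      have h3 := (hnat D).mul h2
      push_cast
      rw [mul_assoc]
      exact h3
    · have h3 := (hnat y.natAbs).mul (h θ hθ)
      push_cast
      rw [mul_comm (D : AlgebraicClosure K), mul_assoc]
      exact h3

/-- **The obstruction.** Let `T` be a finite set of algebraic numbers, stable under the Galois
group, without elements in `K`. -/
theorem obstruct (T : Finset (AlgebraicClosure K))
    (hT : ∀ σ : AlgebraicClosure K ≃ₐ[K] AlgebraicClosure K, ∀ θ ∈ T, σ θ ∈ T)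
    (hne : ∀ θ ∈ T, ∃ σ : AlgebraicClosure K ≃ₐ[K] AlgebraicClosure K, σ θ ≠ θ) :
    ∃ (l : ℕ) (a : K), 1 ≤ l ∧ ∀ c : K, c ≠ 0 → ∃ v : HeightOneSpectrum (𝓞 K),
      ∀ (ι : AlgebraicClosure K →ₐ[K] AlgebraicClosure (v.adicCompletion K)), ∀ θ ∈ T,
      ∀ z : v.adicCompletion K, ι (θ - algebraMap K (AlgebraicClosure K) a) ≠
        algebraMap (v.adicCompletion K) (AlgebraicClosure (v.adicCompletion K))
          (algebraMap K (v.adicCompletion K) c * z ^ l) := by
  classical
  obtain ⟨D, hD, hDint⟩ := exists_denom T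
  have hDK : (D : K) ≠ 0 := by exact_mod_cast hD
  have hDA : (D : AlgebraicClosure K) ≠ 0 := by exact_mod_cast hD
  obtain ⟨l, a, hl, h⟩ := obstruct_int (T.image (fun θ => (D : AlgebraicClosure K) * θ)) (by
      intro σ x hx
      obtain ⟨θ, hθ, rfl⟩ := Finset.mem_image.1 hx
      refine Finset.mem_image.2 ⟨σ θ, hT σ θ hθ, ?_⟩
      rw [map_mul, map_natCast]) (by
      intro x hx
      obtain ⟨θ, hθ, rfl⟩ := Finset.mem_image.1 hx
      exact hDint θ hθ) (by
      intro x hx
      obtain ⟨θ, hθ, rfl⟩ := Finset.mem_image.1 hx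
      obtain ⟨σ, hσ⟩ := hne θ hθ
      refine ⟨σ, fun h1 => hσ ?_⟩
      rw [map_mul, map_natCast] at h1
      exact mul_left_cancel₀ hDA h1)
  refine ⟨l, (a : K) / (D : K), hl, fun c hc => ?_⟩
  obtain ⟨c1, d, hd, hcd⟩ : ∃ (c1 : 𝓞 K) (d : 𝓞 K), d ≠ 0 ∧ (c1 : K) = (D : K) * c * (d : K) := by
    obtain ⟨x, y, hy, hxy⟩ := IsFractionRing.div_surjective (𝓞 K) ((D : K) * c)
    have hy0 : y ≠ 0 := nonZeroDivisors.ne_zero hy
    refine ⟨x, y, hy0, ?_⟩
    rw [← hxy, div_mul_cancel₀]
    exact fun h0 => hy0 (RingOfIntegers.coe_injective (by rw [map_zero]; exact h0))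
  have hdK : (d : K) ≠ 0 := fun h0 => hd (RingOfIntegers.coe_injective (by rw [map_zero]; exact h0))
  have hc1 : c1 ≠ 0 := by
    rintro rfl
    have : (D : K) * c * (d : K) = 0 := by rw [← hcd]; simp
    exact mul_ne_zero (mul_ne_zero hDK hc) hdK this
  obtain ⟨v, hv⟩ := h (c1 * d ^ (l - 1)) (mul_ne_zero hc1 (pow_ne_zero _ hd))
  refine ⟨v, fun ι θ hθ z hz => ?_⟩
  refine hv ι ((D : AlgebraicClosure K) * θ) (Finset.mem_image_of_mem _ hθ)
    (z / algebraMap K (v.adicCompletion K) (d : K)) ?_
  have hdv : algebraMap K (v.adicCompletion K) (d : K) ≠ 0 := (map_ne_zero _).2 hdK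
  have e1 : (D : AlgebraicClosure K) * θ - (a : AlgebraicClosure K) =
      (D : AlgebraicClosure K) * (θ - algebraMap K (AlgebraicClosure K) ((a : K) / (D : K))) := by
    rw [map_div₀, map_natCast, map_natCast]
    field_simp
  rw [e1, map_mul, hz, map_natCast]
  have e2 : ((D : ℕ) : AlgebraicClosure (v.adicCompletion K)) =
      algebraMap (v.adicCompletion K) (AlgebraicClosure (v.adicCompletion K))
        (algebraMap K (v.adicCompletion K) (D : K)) := by
    rw [map_natCast, map_natCast]
  rw [e2, ← map_mul]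
  congr 1
  have e3 : toLoc v (c1 * d ^ (l - 1)) = algebraMap K (v.adicCompletion K) (D : K) *
      algebraMap K (v.adicCompletion K) c * algebraMap K (v.adicCompletion K) (d : K) ^ l := by
    change algebraMap K (v.adicCompletion K) ((c1 * d ^ (l - 1) : 𝓞 K) : K) = _
    have e4 : ((c1 * d ^ (l - 1) : 𝓞 K) : K) = (c1 : K) * (d : K) ^ (l - 1) := by
      simp
    rw [e4, hcd]
    simp only [map_mul, map_pow]
    have : l = (l - 1) + 1 := by omega
    conv_rhs => rw [this]
    ring
  rw [e3, div_pow]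
  field_simp

end Pool.Agent.TH954
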