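import Pool.Agent.TH954.STor
import Pool.Agent.TH954.SArch
import Mathlib.FieldTheory.KrullTopology

/-!
# Semilinear actions of Galois groups with local points, and points of elliptic curves
-/

set_option autoImplicit false
set_option linter.unusedSectionVars false

open IsDedekindDomain NumberField WeierstrassCurve MvPolynomial

namespace Pool.Agent.TH954

open Pool.Agent.TH942

section plc

variable {K M C : Type} [Field K] [Field M] [Field C] [Algebra K M] [Algebra K C]

namespace Plc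

variable (pl : Plc K M C)

/-- the constants in the valuation ring -/
noncomputable def cst : K →+* pl.W :=
  (algebraMap K M).codRestrict pl.W (fun c => pl.alg_mem c)

lemma coe_cst (c : K) : ((pl.cst c : pl.W) : M) = algebraMap K M c := rfl

lemma rho_cst (c : K) : pl.ρ (pl.cst c) = algebraMap K C c := by
  obtain ⟨h, e⟩ := pl.comm c
  exact e

lemma mem_of_integral {x : M} (hx : IsIntegral K x) : x ∈ pl.W := by
  have h3 : IsIntegral pl.W x := by
    obtain ⟨p, hp, hp'⟩ := hx
    refine ⟨p.map pl.cst, hp.map _, ?_⟩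
    rw [Polynomial.eval₂_map]
    exact hp'
  obtain ⟨y, hy⟩ := IsIntegrallyClosed.isIntegral_iff.1 h3
  rw [← hy]
  exact y.2

/-- the homomorphism on the algebraic elements -/
noncomputable def iot {A : Type} [Field A] [Algebra K A] [Algebra.IsAlgebraic K A]
    (j : A →ₐ[K] M) : A →ₐ[K] C where
  toFun z := pl.ρ ⟨j z, pl.mem_of_integral (((Algebra.IsAlgebraic.isAlgebraic z).isIntegral).map j)⟩
  map_one' := by
    rw [← map_one pl.ρ]
    congr 1
    exact Subtype.ext (map_one j)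
  map_mul' x y := by
    rw [← map_mul]
    congr 1
    exact Subtype.ext (map_mul j x y)
  map_zero' := by
    rw [← map_zero pl.ρ]
    congr 1
    exact Subtype.ext (map_zero j)
  map_add' x y := by
    rw [← map_add]
    congr 1
    exact Subtype.ext (map_add j x y)
  commutes' c := by
    rw [← pl.rho_cst c]
    congr 1
    exact Subtype.ext (j.commutes c)

lemma iot_spec {A : Type} [Field A] [Algebra K A] [Algebra.IsAlgebraic K A]
    (j : A →ₐ[K] M) (z : A) : ∃ h : j z ∈ pl.W, pl.ρ ⟨j z, h⟩ = pl.iot j z :=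
  ⟨_, rfl⟩

/-- the place does not vanish on nonzero algebraic elements -/
lemma unit_of_alg {A : Type} [Field A] [Algebra K A] [Algebra.IsAlgebraic K A]
    (j : A →ₐ[K] M) {z : A} (hz : z ≠ 0) (h : j z ∈ pl.W) : pl.ρ ⟨j z, h⟩ ≠ 0 := by
  intro h0
  apply hz
  have : pl.iot j z = 0 := h0
  exact (map_eq_zero _).1 this

end Plc

lemma eqn_base {a b : K} {x y : M} (h : ((sw a b).baseChange M).toAffine.Nonsingular x y) :
    Pool.Agent.H901R3.MS.Eqn (algebraMap K M a) (algebraMap K M b) x y := by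
  have key : ∀ W : WeierstrassCurve M,
      W = Pool.Agent.H901R3.MS.CV (algebraMap K M a) (algebraMap K M b) →
      W.toAffine.Nonsingular x y →
      Pool.Agent.H901R3.MS.Eqn (algebraMap K M a) (algebraMap K M b) x y := by
    rintro _ rfl h
    exact Pool.Agent.H901R3.MS.eqn_of h
  exact key _ (base_eq a b M) h

/-- homogeneous coordinates of the reduction -/
theorem red_crd {pl : Plc K M C} {a b : K}
    {red : ((sw a b).baseChange M).toAffine.Point → ((sw a b).baseChange C).toAffine.Point}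
    (h0 : red 0 = 0)
    (h1 : ∀ x y h, x ∉ pl.W → red (.some x y h) = 0)
    (h2 : ∀ x y h (hx : x ∈ pl.W), ∃ (hy : y ∈ pl.W)
      (h' : ((sw a b).baseChange C).toAffine.Nonsingular
        (pl.ρ ⟨x, hx⟩) (pl.ρ ⟨y, hy⟩)), red (.some x y h) = .some _ _ h')
    (T : ((sw a b).baseChange M).toAffine.Point) :
    ∃ u : M, u ≠ 0 ∧ ∀ j, ∃ h : u * crd T j ∈ pl.W, pl.ρ ⟨u * crd T j, h⟩ = crd (red T) j := by
  have hone : ∀ x : M, x ∈ pl.W → ∀ (c : C), (∀ h, pl.ρ ⟨x, h⟩ = c) →
      ∃ h : x ∈ pl.W, pl.ρ ⟨x, h⟩ = c := fun x hx c hc => ⟨hx, hc hx⟩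
  rcases T with _ | ⟨x, y, h⟩
  · refine ⟨1, one_ne_zero, ?_⟩
    have e : red (Affine.Point.zero : ((sw a b).baseChange M).toAffine.Point) = .zero := h0
    rw [e]
    intro j
    fin_cases j
    · refine ⟨by simp [crd], ?_⟩
      change pl.ρ ⟨1 * 0, _⟩ = 0
      rw [← map_zero pl.ρ]
      congr 1
      exact Subtype.ext (mul_zero _)
    · refine ⟨by simp [crd], ?_⟩
      change pl.ρ ⟨1 * 1, _⟩ = 1
      rw [← map_one pl.ρ]
      congr 1
      exact Subtype.ext (mul_one _)
    · refine ⟨by simp [crd], ?_⟩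
      change pl.ρ ⟨1 * 0, _⟩ = 0
      rw [← map_zero pl.ρ]
      congr 1
      exact Subtype.ext (mul_zero _)
  · by_cases hx : x ∈ pl.W
    · obtain ⟨hy, h', e⟩ := h2 x y h hx
      rw [e]
      refine ⟨1, one_ne_zero, ?_⟩
      intro j
      fin_cases j
      · refine ⟨by simpa [crd] using hx, ?_⟩
        change pl.ρ ⟨1 * x, _⟩ = pl.ρ ⟨x, hx⟩
        congr 1
        exact Subtype.ext (one_mul _)
      · refine ⟨by simpa [crd] using hy, ?_⟩
        change pl.ρ ⟨1 * y, _⟩ = pl.ρ ⟨y, hy⟩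
        congr 1
        exact Subtype.ext (one_mul _)
      · refine ⟨by simp [crd], ?_⟩
        change pl.ρ ⟨1 * 1, _⟩ = 1
        rw [← map_one pl.ρ]
        congr 1
        exact Subtype.ext (mul_one _)
    · have hR := (Pool.Agent.H901R3.MS.t_R1K M C pl.toPlace (algebraMap K M a)
        (algebraMap K M b) (pl.alg_mem a) (pl.alg_mem b) x y (eqn_base h)).2 hx
      obtain ⟨hx0, hy0, -, -, hxy, rxy, hyi, ryi⟩ := hR
      have e := h1 x y h hx
      rw [e]
      refine ⟨y⁻¹, inv_ne_zero hy0, ?_⟩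
      have hxy' : x / y ∈ pl.W := hxy
      have hyi' : y⁻¹ ∈ pl.W := hyi
      rw [pl.r_eq hxy'] at rxy
      rw [pl.r_eq hyi'] at ryi
      intro j
      fin_cases j
      · have e1 : y⁻¹ * x = x / y := by rw [div_eq_mul_inv, mul_comm]
        refine ⟨by change y⁻¹ * x ∈ pl.W; rw [e1]; exact hxy', ?_⟩
        change pl.ρ ⟨y⁻¹ * x, _⟩ = 0
        rw [← rxy]
        congr 1
        exact Subtype.ext e1
      · have e1 : y⁻¹ * y = 1 := inv_mul_cancel₀ hy0
        refine ⟨by change y⁻¹ * y ∈ pl.W; rw [e1]; exact one_mem _, ?_⟩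
        change pl.ρ ⟨y⁻¹ * y, _⟩ = 1
        rw [← map_one pl.ρ]
        congr 1
        exact Subtype.ext e1
      · have e1 : y⁻¹ * 1 = y⁻¹ := mul_one _
        refine ⟨by change y⁻¹ * 1 ∈ pl.W; rw [e1]; exact hyi', ?_⟩
        change pl.ρ ⟨y⁻¹ * 1, _⟩ = 0
        rw [← ryi]
        congr 1
        exact Subtype.ext e1

/-- the equations hold for the reductions -/
theorem onX_red {n : ℕ} (pl : Plc K M C) {S : Set (MvPolynomial (Fin n × Fin 3) K)}
    (hS : ∀ f ∈ S, ∃ d, MultiHom d f) {V : Fin n → Fin 3 → M} {V' : Fin n → Fin 3 → C}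
    (hV : ∀ i, ∃ u : M, u ≠ 0 ∧ ∀ j, ∃ h : u * V i j ∈ pl.W, pl.ρ ⟨u * V i j, h⟩ = V' i j)
    (h : OnX S V) : OnX S V' := by
  intro f hf
  obtain ⟨d, hd⟩ := hS f hf
  choose u hu0 hu using hV
  choose hm he using hu
  have hdM : MultiHom d (map (algebraMap K M) f) := by
    intro m hm i
    exact hd m (support_map_subset _ _ hm) i
  have h1 : eval (fun p : Fin n × Fin 3 => u p.1 * V p.1 p.2) (map (algebraMap K M) f) = 0 := by
    rw [hdM.eval_smul u (fun p => V p.1 p.2)]
    have := h f hf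
    rw [aeval_def, ← eval_map] at this
    rw [this, mul_zero]
  have h2 : eval (fun p : Fin n × Fin 3 => (⟨u p.1 * V p.1 p.2, hm p.1 p.2⟩ : pl.W))
      (map pl.cst f) = 0 := by
    apply Subtype.ext
    have h3 := eval₂_comp_left (pl.W.subtype : pl.W →+* M) (RingHom.id _)
      (fun p : Fin n × Fin 3 => (⟨u p.1 * V p.1 p.2, hm p.1 p.2⟩ : pl.W)) (map pl.cst f)
    change (pl.W.subtype : pl.W →+* M) (eval _ _) = 0
    unfold eval
    rw [coe_eval₂Hom, h3, eval₂_map]
    rw [eval_map] at h1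
    exact h1
  have h4 := congrArg pl.ρ h2
  rw [map_zero] at h4
  unfold eval at h4
  rw [coe_eval₂Hom, eval₂_comp_left, eval₂_map] at h4
  rw [aeval_def]
  have h5 : (fun p : Fin n × Fin 3 => V' p.1 p.2) =
      pl.ρ ∘ fun p : Fin n × Fin 3 => (⟨u p.1 * V p.1 p.2, hm p.1 p.2⟩ : pl.W) := by
    funext p
    exact (he p.1 p.2).symm
  have h6 : ((pl.ρ.comp (RingHom.id pl.W)).comp pl.cst) = algebraMap K C := by
    apply RingHom.ext
    intro c
    exact pl.rho_cst c
  rw [h5, ← h6]
  exact h4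

end plc

end Pool.Agent.TH954
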