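import Pool.Agent.H901R3.MS.P_R1K
import Pool.Agent.H901R3.MS.P_R2K
import Pool.Agent.H901R3.MS.P_R3K
import Pool.Agent.H901R3.MS.P_R4K
import Pool.Agent.H901R3.MS.P_R5K
import Pool.Agent.H901R3.MS.P_R6K
import Pool.Agent.TH954.DescentMain

/-!
# Reduction of points at a place
-/

set_option autoImplicit false
set_option linter.unusedSectionVars false

open WeierstrassCurve Pool.Agent.H901R3.MS

namespace Pool.Agent.TH954

open Pool.Agent.TH942

section

variable {K M C : Type} [Field K] [Field M] [Field C] [Algebra K M] [Algebra K C]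

/-- a place of `M` with values in `C`, constant on `K` -/
structure Plc (K M C : Type) [Field K] [Field M] [Field C] [Algebra K M] [Algebra K C] where
  W : ValuationSubring M
  ρ : W →+* C
  loc : ∀ x : W, ρ x ≠ 0 → (x : M)⁻¹ ∈ W
  comm : ∀ c : K, ∃ h : algebraMap K M c ∈ W, ρ ⟨algebraMap K M c, h⟩ = algebraMap K C c

namespace Plc

variable (pl : Plc K M C)

lemma rho_inv {x : M} (hx : x ∉ pl.W) : ∃ h : x⁻¹ ∈ pl.W, pl.ρ ⟨x⁻¹, h⟩ = 0 := by
  have h := (pl.W.mem_or_inv_mem x).resolve_left hx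
  refine ⟨h, ?_⟩
  by_contra hne
  have := pl.loc ⟨x⁻¹, h⟩ hne
  rw [inv_inv] at this
  exact hx this

/-- the place in the sense of the library on reduction -/
noncomputable def toPlace : Place M C where
  A := pl.W.toSubring
  ρ := pl.ρ
  inv_of_notMem := fun _ hx => pl.rho_inv hx
  inv_of_ne := fun x hx => pl.loc x hx

lemma mem_toPlace {x : M} : x ∈ pl.toPlace.A ↔ x ∈ pl.W := Iff.rfl

lemma r_eq {x : M} (hx : x ∈ pl.W) : pl.toPlace.r x = pl.ρ ⟨x, hx⟩ := pl.toPlace.r_of hx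

lemma alg_mem (c : K) : algebraMap K M c ∈ pl.W := (pl.comm c).1

lemma r_alg (c : K) : pl.toPlace.r (algebraMap K M c) = algebraMap K C c := by
  obtain ⟨h, e⟩ := pl.comm c
  rw [pl.r_eq h, e]

end Plc

lemma base_eq (a b : K) (M : Type) [Field M] [Algebra K M] :
    (sw a b).baseChange M = CV (algebraMap K M a) (algebraMap K M b) := by
  ext <;> simp [sw, CV, WeierstrassCurve.baseChange, WeierstrassCurve.map]

lemma disc_base [CharZero C] {a b : K} (hD : 4 * a ^ 3 + 27 * b ^ 2 ≠ 0) :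
    Disc (algebraMap K C a) (algebraMap K C b) := by
  unfold Disc
  have h : (4 * (algebraMap K C a) ^ 3 + 27 * (algebraMap K C b) ^ 2) =
      algebraMap K C (4 * a ^ 3 + 27 * b ^ 2) := by
    simp only [map_add, map_mul, map_pow, map_ofNat]
  rw [h]
  exact mul_ne_zero two_ne_zero ((map_ne_zero _).2 hD)

open scoped Classical in
/-- the reduction homomorphism -/
theorem exists_redM (pl : Plc K M C) [CharZero C] {a b : K} (hD : 4 * a ^ 3 + 27 * b ^ 2 ≠ 0) :
    ∃ red : ((sw a b).baseChange M).toAffine.Point →+ ((sw a b).baseChange C).toAffine.Point,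
      (∀ x y h, x ∉ pl.W → red (.some x y h) = 0) ∧
      (∀ x y h (hx : x ∈ pl.W), ∃ (hy : y ∈ pl.W) (h' : ((sw a b).baseChange C).toAffine.Nonsingular
        (pl.ρ ⟨x, hx⟩) (pl.ρ ⟨y, hy⟩)), red (.some x y h) = .some _ _ h') := by
  have key : ∀ (A' B' : C), pl.toPlace.r (algebraMap K M a) = A' →
      pl.toPlace.r (algebraMap K M b) = B' → Disc A' B' →
      ∀ (W1 : WeierstrassCurve M) (W2 : WeierstrassCurve C),
      W1 = CV (algebraMap K M a) (algebraMap K M b) → W2 = CV A' B' →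
      ∃ red : W1.toAffine.Point →+ W2.toAffine.Point,
      (∀ x y h, x ∉ pl.W → red (.some x y h) = 0) ∧
      (∀ x y h (hx : x ∈ pl.W), ∃ (hy : y ∈ pl.W) (h' : W2.toAffine.Nonsingular
        (pl.ρ ⟨x, hx⟩) (pl.ρ ⟨y, hy⟩)), red (.some x y h) = .some _ _ h') := by
    rintro _ _ rfl rfl hdisc _ _ rfl rfl
    obtain ⟨red, -, h2, h3⟩ := t_R6K t_R1K t_R2K t_R3K t_R4K t_R5K M C pl.toPlace
      (algebraMap K M a) (algebraMap K M b) (pl.alg_mem a) (pl.alg_mem b) hdisc
    refine ⟨red, fun x y h hx => h2 x y h hx, fun x y h hx => ?_⟩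
    obtain ⟨hy, g, e⟩ := h3 x y h hx
    have e1 := pl.r_eq hx
    have e2 := pl.r_eq hy
    refine ⟨hy, by rw [← e1, ← e2]; exact g, ?_⟩
    rw [e]
    congr 1
  exact key _ _ (pl.r_alg a) (pl.r_alg b) (disc_base hD) _ _ (base_eq a b M) (base_eq a b C)

/-- compatibility of the reduction with homomorphisms -/
theorem red_pm {pl : Plc K M C} {a b : K}
    {red : ((sw a b).baseChange M).toAffine.Point → ((sw a b).baseChange C).toAffine.Point}
    (h0 : red 0 = 0)
    (h1 : ∀ x y h, x ∉ pl.W → red (.some x y h) = 0)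
    (h2 : ∀ x y h (hx : x ∈ pl.W), ∃ (hy : y ∈ pl.W)
      (h' : ((sw a b).baseChange C).toAffine.Nonsingular
        (pl.ρ ⟨x, hx⟩) (pl.ρ ⟨y, hy⟩)), red (.some x y h) = .some _ _ h')
    {F0 : Type} [Field F0] [Algebra K F0] (j : F0 →ₐ[K] M) (ι : F0 →ₐ[K] C)
    (hj : ∀ z, ∃ h : j z ∈ pl.W, pl.ρ ⟨j z, h⟩ = ι z)
    (T : ((sw a b).baseChange F0).toAffine.Point) : red (pm (sw a b) j T) = pm (sw a b) ι T := by
  rcases T with _ | ⟨x, y, h⟩
  · exact h0
  · obtain ⟨g, e⟩ := pm_some (E := sw a b) j h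
    obtain ⟨g', e'⟩ := pm_some (E := sw a b) ι h
    rw [e, e']
    obtain ⟨hx, ex⟩ := hj x
    obtain ⟨hy, h', e''⟩ := h2 _ _ g hx
    rw [e'', Affine.Point.some.injEq]
    obtain ⟨hy', ey⟩ := hj y
    exact ⟨ex, ey⟩

/-- compatibility of the reduction with semilinear automorphisms -/
theorem red_act {pl : Plc K M C} {a b : K}
    {red : ((sw a b).baseChange M).toAffine.Point → ((sw a b).baseChange C).toAffine.Point}
    (h0 : red 0 = 0)
    (h1 : ∀ x y h, x ∉ pl.W → red (.some x y h) = 0)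
    (h2 : ∀ x y h (hx : x ∈ pl.W), ∃ (hy : y ∈ pl.W)
      (h' : ((sw a b).baseChange C).toAffine.Nonsingular
        (pl.ρ ⟨x, hx⟩) (pl.ρ ⟨y, hy⟩)), red (.some x y h) = .some _ _ h')
    (g : M →ₐ[K] M) (σ : C →ₐ[K] C)
    (hg : ∀ x : pl.W, ∃ h : g x ∈ pl.W, pl.ρ ⟨g x, h⟩ = σ (pl.ρ x))
    (T : ((sw a b).baseChange M).toAffine.Point) :
    red (pm (sw a b) g T) = pm (sw a b) σ (red T) := by
  rcases T with _ | ⟨x, y, h⟩
  · change red 0 = pm (sw a b) σ (red 0)
    rw [h0]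
    exact (map_zero (pm (sw a b) σ)).symm
  · obtain ⟨k, e⟩ := pm_some (E := sw a b) g h
    rw [e]
    by_cases hx : x ∈ pl.W
    · obtain ⟨hgx, ex⟩ := hg ⟨x, hx⟩
      obtain ⟨hy, h', e'⟩ := h2 _ _ h hx
      obtain ⟨hgy, h'', e''⟩ := h2 _ _ k hgx
      obtain ⟨l, e3⟩ := pm_some (E := sw a b) σ h'
      rw [e', e'', e3, Affine.Point.some.injEq]
      obtain ⟨hgy', ey⟩ := hg ⟨y, hy⟩
      exact ⟨ex, ey⟩
    · have hgx : g x ∉ pl.W := by
        intro hgx
        obtain ⟨hi, ei⟩ := pl.rho_inv hx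
        obtain ⟨hgi, egi⟩ := hg ⟨x⁻¹, hi⟩
        rw [ei, map_zero] at egi
        have hx0 : x ≠ 0 := fun h0 => hx (by rw [h0]; exact pl.W.zero_mem)
        have h3 : (⟨g x, hgx⟩ : pl.W) * ⟨g x⁻¹, hgi⟩ = 1 := by
          apply Subtype.ext
          change g x * g x⁻¹ = 1
          rw [← map_mul, mul_inv_cancel₀ hx0, map_one]
        have h4 := congrArg pl.ρ h3
        rw [map_mul, egi, mul_zero, map_one] at h4
        exact zero_ne_one h4
      rw [h1 _ _ k hgx, h1 _ _ h hx]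
      exact (map_zero (pm (sw a b) σ)).symm

end

end Pool.Agent.TH954
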