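import Pool.Agent.W303.FM.Tor
import Pool.Agent.W239.FM.MUL
import Pool.Agent.W342.FM.AS
import Pool.Agent.W696.FM.Can
import Pool.Agent.W125.FM.Fac
import Pool.Agent.W45.FM.FIB
import Pool.Agent.TH954.SRed

/-!
# Division and torsion points over algebraically closed fields
-/

set_option autoImplicit false
set_option linter.unusedSectionVars false

open WeierstrassCurve Pool.Agent.H901R3.MS Pool.Agent.W275.FM

namespace Pool.Agent.TH954

open Pool.Agent.TH942

theorem mulPoly : S_MUL :=
  Pool.Agent.W239.FM.MUL.main Pool.Agent.W342.FM.AS.main Pool.Agent.W696.FM.Can.main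
    Pool.Agent.W125.FM.Fac.main

theorem torCount : S_TOR := Pool.Agent.W303.FM.Tor.main mulPoly Pool.Agent.W45.FM.FIB.main

section

variable {F : Type} [Field F] [IsAlgClosed F] [CharZero F] {a b : F}

open scoped Classical in
/-- multiplication by `n` is surjective -/
lemma exists_nsmul_eq (hD : Disc a b) {n : ℕ} (hn : 1 ≤ n) (P : Pt a b) :
    ∃ Q : Pt a b, n • Q = P := by
  rcases P with _ | ⟨x0, y0, h0⟩
  · exact ⟨0, smul_zero _⟩
  · obtain ⟨U, V, hcop, hU, hV, hmul⟩ := mulPoly F a b hD n hn
    have hn2 : 1 ≤ n ^ 2 := Nat.one_le_pow _ _ hn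
    have hdeg : (U - Polynomial.C x0 * V).natDegree = n ^ 2 := by
      rw [Polynomial.natDegree_sub_eq_left_of_natDegree_lt, hU]
      rw [hU]
      exact (Polynomial.natDegree_C_mul_le _ _).trans_lt hV
    obtain ⟨x, hx⟩ := IsAlgClosed.exists_root (U - Polynomial.C x0 * V) (by
      intro h
      have := Polynomial.natDegree_eq_zero_iff_degree_le_zero.2 h.le
      rw [hdeg] at this
      omega)
    rw [Polynomial.IsRoot.def, Polynomial.eval_sub, Polynomial.eval_mul, Polynomial.eval_C,
      sub_eq_zero] at hx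
    have hVx : V.eval x ≠ 0 := by
      intro h
      rw [h, mul_zero] at hx
      obtain ⟨A, B, hAB⟩ := hcop
      have := congrArg (Polynomial.eval x) hAB
      rw [Polynomial.eval_add, Polynomial.eval_mul, Polynomial.eval_mul, hx, h] at this
      simp at this
    obtain ⟨y, hy⟩ := IsAlgClosed.exists_pow_nat_eq (x ^ 3 + a * x + b) (n := 2) (by norm_num)
    have hns : (CV a b).toAffine.Nonsingular x y := (nonsingular_iff hD).2 hy
    obtain ⟨μ, hμ, e1, e2⟩ := hmul x y hns
    have hQ : ∃ (y1 : F) (h1 : (CV a b).toAffine.Nonsingular x0 y1),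
        n • (Affine.Point.some x y hns : Pt a b) = Affine.Point.some x0 y1 h1 := by
      rcases hq : n • (Affine.Point.some x y hns : Pt a b) with _ | ⟨x1, y1, h1⟩
      · rw [hq] at e2
        exact absurd e2.symm (mul_ne_zero hμ hVx)
      · rw [hq] at e1 e2
        have e1' : x1 = μ * U.eval x := e1
        have e2' : 1 = μ * V.eval x := e2
        have : x1 = x0 := by
          rw [e1', hx]
          linear_combination -x0 * e2'
        subst this
        exact ⟨y1, h1, rfl⟩
    obtain ⟨y1, h1, hQ⟩ := hQ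
    have hy01 : y1 ^ 2 = y0 ^ 2 := by
      have k1 := eqn_of h1
      have k0 := eqn_of h0
      unfold Eqn at k1 k0
      rw [k1, k0]
    rcases sq_eq_sq_iff_eq_or_eq_neg.mp hy01 with h | h
    · subst h
      exact ⟨_, hQ⟩
    · subst h
      refine ⟨-(Affine.Point.some x y hns : Pt a b), ?_⟩
      rw [smul_neg, hQ, neg_some' h1 (by rw [neg_neg]; exact h0)]
      simp only [neg_neg]

/-- coordinates of a point -/
def ckey : Pt a b → Option (F × F)
  | Affine.Point.zero => none
  | Affine.Point.some x y _ => some (x, y)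

lemma ckey_inj : Function.Injective (ckey : Pt a b → Option (F × F)) := by
  intro P Q h
  rcases P with _ | ⟨x, y, hxy⟩ <;> rcases Q with _ | ⟨x', y', hxy'⟩
  · rfl
  · simp [ckey] at h
  · simp [ckey] at h
  · simp only [ckey, Option.some.injEq, Prod.mk.injEq] at h
    obtain ⟨rfl, rfl⟩ := h
    rfl

open scoped Classical in
/-- the number of points of order dividing `n` -/
lemma card_torsion_lt (hD : Disc a b) {n : ℕ} (hn : 1 ≤ n) :
    {P : Pt a b | n • P = 0}.ncard < 2 * n ^ 2 := by
  obtain ⟨U, V, hcop, hU, hV, hmul⟩ := mulPoly F a b hD n hn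
  have hn2 : 1 ≤ n ^ 2 := Nat.one_le_pow _ _ hn
  have hV0 : V ≠ 0 := by
    rintro rfl
    rw [isCoprime_zero_right] at hcop
    have := Polynomial.natDegree_eq_zero_of_isUnit hcop
    omega
  set G : Finset (F × F) := V.roots.toFinset.biUnion
    (fun x => (Polynomial.nthRoots 2 (x ^ 3 + a * x + b)).toFinset.image (fun y => (x, y))) with hG
  have hGc : G.card ≤ 2 * (n ^ 2 - 1) := by
    calc G.card ≤ ∑ x ∈ V.roots.toFinset,
          ((Polynomial.nthRoots 2 (x ^ 3 + a * x + b)).toFinset.image (fun y => (x, y))).card :=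
          Finset.card_biUnion_le
      _ ≤ ∑ x ∈ V.roots.toFinset, 2 := Finset.sum_le_sum fun x _ =>
          Finset.card_image_le.trans ((Multiset.toFinset_card_le _).trans
            (Polynomial.card_nthRoots _ _))
      _ = V.roots.toFinset.card * 2 := by rw [Finset.sum_const, smul_eq_mul]
      _ ≤ (n ^ 2 - 1) * 2 := by
          refine Nat.mul_le_mul_right _ ?_
          have := (Multiset.toFinset_card_le V.roots).trans (Polynomial.card_roots' V)
          omega
      _ = 2 * (n ^ 2 - 1) := mul_comm _ _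
  have hsub : ckey '' {P : Pt a b | n • P = 0} ⊆
      ((insert none (G.image some) : Finset (Option (F × F))) : Set (Option (F × F))) := by
    rintro _ ⟨P, hP, rfl⟩
    rcases P with _ | ⟨x, y, h⟩
    · rw [Finset.mem_coe]
      exact Finset.mem_insert_self _ _
    · rw [Finset.mem_coe]
      refine Finset.mem_insert_of_mem (Finset.mem_image_of_mem _ ?_)
      obtain ⟨μ, hμ, _, h2⟩ := hmul x y h
      have h3 : n • (Affine.Point.some x y h : Pt a b) = 0 := hP
      rw [h3] at h2
      have h4 : (0 : F) = μ * V.eval x := h2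
      have h5 : V.eval x = 0 := (mul_eq_zero.1 h4.symm).resolve_left hμ
      rw [hG, Finset.mem_biUnion]
      refine ⟨x, ?_, ?_⟩
      · rw [Multiset.mem_toFinset, Polynomial.mem_roots hV0]
        exact h5
      · refine Finset.mem_image_of_mem _ ?_
        rw [Multiset.mem_toFinset, Polynomial.mem_nthRoots (by norm_num)]
        exact eqn_of h
  have h1 : {P : Pt a b | n • P = 0}.ncard = (ckey '' {P : Pt a b | n • P = 0}).ncard :=
    (Set.ncard_image_of_injective _ ckey_inj).symm
  rw [h1]
  refine (Set.ncard_le_ncard hsub (Finset.finite_toSet _)).trans_lt ?_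
  rw [Set.ncard_coe_finset]
  refine (Finset.card_insert_le _ _).trans_lt ?_
  have := Finset.card_image_le (s := G) (f := some)
  omega

end

section torsion

variable {K : Type} [Field K] [CharZero K]

open scoped Classical in
lemma exists_nsmul_base {a b : K} (hD : 4 * a ^ 3 + 27 * b ^ 2 ≠ 0) (M : Type) [Field M]
    [Algebra K M] [IsAlgClosed M] [CharZero M] {n : ℕ} (hn : 1 ≤ n)
    (P : ((sw a b).baseChange M).toAffine.Point) : ∃ Q, n • Q = P := by
  have key : ∀ W : WeierstrassCurve M, W = CV (algebraMap K M a) (algebraMap K M b) →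
      ∀ P : W.toAffine.Point, ∃ Q, n • Q = P := by
    rintro _ rfl P
    exact exists_nsmul_eq (disc_base hD) hn P
  exact key _ (base_eq a b M) P

open scoped Classical in
lemma card_base_lt {a b : K} (hD : 4 * a ^ 3 + 27 * b ^ 2 ≠ 0) (M : Type) [Field M]
    [Algebra K M] [IsAlgClosed M] [CharZero M] {n : ℕ} (hn : 1 ≤ n) :
    {P : ((sw a b).baseChange M).toAffine.Point | n • P = 0}.Finite ∧
    n ^ 2 ≤ {P : ((sw a b).baseChange M).toAffine.Point | n • P = 0}.ncard ∧
    {P : ((sw a b).baseChange M).toAffine.Point | n • P = 0}.ncard < 2 * n ^ 2 := by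
  have key : ∀ W : WeierstrassCurve M, W = CV (algebraMap K M a) (algebraMap K M b) →
      {P : W.toAffine.Point | n • P = 0}.Finite ∧
      n ^ 2 ≤ {P : W.toAffine.Point | n • P = 0}.ncard ∧
      {P : W.toAffine.Point | n • P = 0}.ncard < 2 * n ^ 2 := by
    rintro _ rfl
    have h := torCount M _ _ (disc_base (C := M) hD) n hn
    exact ⟨h.1, h.2, card_torsion_lt (disc_base hD) hn⟩
  exact key _ (base_eq a b M)

open scoped Classical in
/-- torsion points of prime order come from an algebraically closed subfield -/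
lemma prime_torsion_mem {a b : K} (hD : 4 * a ^ 3 + 27 * b ^ 2 ≠ 0) {F0 M : Type} [Field F0]
    [Algebra K F0] [IsAlgClosed F0] [CharZero F0] [Field M] [Algebra K M] [IsAlgClosed M]
    [CharZero M] (j : F0 →ₐ[K] M) {l : ℕ} (hl : l.Prime)
    (T : ((sw a b).baseChange M).toAffine.Point) (hT : l • T = 0) :
    ∃ T0, pm (sw a b) j T0 = T := by
  by_contra hne
  push Not at hne
  have : Fact l.Prime := ⟨hl⟩
  obtain ⟨fA, gA, -⟩ := card_base_lt hD F0 hl.one_le
  obtain ⟨fB, -, gB⟩ := card_base_lt hD M hl.one_le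
  set A := {P : ((sw a b).baseChange F0).toAffine.Point | l • P = 0} with hA
  set B := {P : ((sw a b).baseChange M).toAffine.Point | l • P = 0} with hB
  -- the multiples of `T` are in different classes
  have hmul : ∀ m : ℕ, ¬ l ∣ m → ∀ T0, pm (sw a b) j T0 ≠ m • T := by
    intro m hm T0 h0
    have hco : Nat.Coprime m l := (Nat.Prime.coprime_iff_not_dvd hl).2 hm |>.symm
    have hbez := Nat.gcd_eq_gcd_ab m l
    rw [hco] at hbez
    apply hne (m.gcdA l • T0)
    rw [map_zsmul, h0]
    have e1 : ((m : ℤ) * m.gcdA l + (l : ℤ) * m.gcdB l) • T = T := by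
      rw [← hbez, Nat.cast_one]
      exact one_zsmul T
    have e2 : ((l : ℤ) * m.gcdB l) • T = 0 := by
      rw [mul_comm, mul_smul, natCast_zsmul, hT, smul_zero]
    rw [add_smul, e2, add_zero, mul_comm, mul_smul, natCast_zsmul] at e1
    exact e1
  have hinj : Set.InjOn (fun p : ℕ × ((sw a b).baseChange F0).toAffine.Point =>
      p.1 • T + pm (sw a b) j p.2) ((Finset.range l : Set ℕ) ×ˢ A) := by
    have hkey : ∀ m m' : ℕ, m < l → m' < m → ∀ T0 T1,
        m • T + pm (sw a b) j T0 ≠ m' • T + pm (sw a b) j T1 := by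
      intro m m' hm hmm T0 T1 h
      apply hmul (m - m') (fun hd => by
        have := Nat.le_of_dvd (by omega) hd
        omega) (T1 - T0)
      have h1 : m • T = (m - m') • T + m' • T := by
        rw [← add_smul]
        congr 1
        omega
      rw [h1] at h
      rw [map_sub]
      have h2 := congrArg (fun z => z - m' • T - pm (sw a b) j T0) h
      rw [show m' • T + pm (sw a b) j T1 - m' • T - pm (sw a b) j T0 =
        pm (sw a b) j T1 - pm (sw a b) j T0 by abel] at h2
      rw [← h2]
      abel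
    rintro ⟨m, T0⟩ ⟨hm, -⟩ ⟨m', T1⟩ ⟨hm', -⟩ h
    rw [Finset.mem_coe, Finset.mem_range] at hm hm'
    simp only at h hm hm'
    rcases lt_trichotomy m m' with h1 | h1 | h1
    · exact absurd h.symm (hkey m' m hm' h1 T1 T0)
    · subst h1
      have := pm_injective (E := sw a b) j (add_left_cancel h)
      rw [this]
    · exact absurd h (hkey m m' hm h1 T0 T1)
  have hmap : (fun p : ℕ × ((sw a b).baseChange F0).toAffine.Point =>
      p.1 • T + pm (sw a b) j p.2) '' ((Finset.range l : Set ℕ) ×ˢ A) ⊆ B := by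
    rintro _ ⟨⟨m, T0⟩, ⟨-, hT0⟩, rfl⟩
    change l • (m • T + pm (sw a b) j T0) = 0
    have hT0' : l • T0 = 0 := hT0
    rw [smul_add, ← mul_smul, mul_comm, mul_smul, hT, smul_zero, zero_add, ← map_nsmul, hT0',
      map_zero]
  have hcard := Set.ncard_le_ncard hmap fB
  rw [Set.InjOn.ncard_image hinj, Set.ncard_prod, Set.ncard_coe_finset, Finset.card_range]
    at hcard
  have h2 := hl.two_le
  have h3 : l * l ^ 2 ≤ l * A.ncard := Nat.mul_le_mul_left _ gA
  have h4 : 2 * l ^ 2 ≤ l * l ^ 2 := Nat.mul_le_mul_right _ h2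
  omega

open scoped Classical in
/-- torsion points come from an algebraically closed subfield -/
theorem torsion_mem {a b : K} (hD : 4 * a ^ 3 + 27 * b ^ 2 ≠ 0) {F0 M : Type} [Field F0]
    [Algebra K F0] [IsAlgClosed F0] [CharZero F0] [Field M] [Algebra K M] [IsAlgClosed M]
    [CharZero M] (j : F0 →ₐ[K] M) : ∀ (n : ℕ), 1 ≤ n →
    ∀ (T : ((sw a b).baseChange M).toAffine.Point), n • T = 0 →
    ∃ T0, pm (sw a b) j T0 = T := by
  intro n
  induction n using Nat.strong_induction_on with
  | _ n ih =>
    intro hn T hT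
    by_cases h1 : n = 1
    · subst h1
      rw [one_smul] at hT
      exact ⟨0, by rw [hT, map_zero]⟩
    · have hl := Nat.minFac_prime h1
      obtain ⟨m, hm⟩ := Nat.minFac_dvd n
      have hm1 : 1 ≤ m := by
        rcases Nat.eq_zero_or_pos m with h | h
        · rw [h, mul_zero] at hm
          omega
        · exact h
      have hmn : m < n := by
        have := hl.two_le
        nlinarith
      obtain ⟨T0, hT0⟩ := prime_torsion_mem hD j hl (m • T) (by
        rw [← mul_smul, ← hm, hT])
      obtain ⟨S0, hS0⟩ := exists_nsmul_base hD F0 hm1 T0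
      obtain ⟨R0, hR0⟩ := ih m hmn hm1 (T - pm (sw a b) j S0) (by
        rw [smul_sub, ← map_nsmul, hS0, hT0, sub_self])
      exact ⟨R0 + S0, by rw [map_add, hR0, sub_add_cancel]⟩

end torsion

end Pool.Agent.TH954
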