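import Pool.Agent.TH954.SFix
import Pool.Agent.TH954.SObs2

/-!
# Values at places, and the set of elements with few values
-/

set_option autoImplicit false
set_option linter.unusedSectionVars false

open IsDedekindDomain NumberField

namespace Pool.Agent.TH954

section plc

variable {K M C : Type} [Field K] [Field M] [Field C] [Algebra K M] [Algebra K C]

namespace Plc

variable (pl : Plc K M C)

/-- `x` is in the valuation ring and has the value `c` -/
def val (x : M) (c : C) : Prop := ∃ h : x ∈ pl.W, pl.ρ ⟨x, h⟩ = c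

variable {pl}

lemma val.mem {x : M} {c : C} (h : pl.val x c) : x ∈ pl.W := h.1

lemma val_of_mem {x : M} (h : x ∈ pl.W) : ∃ c, pl.val x c := ⟨_, h, rfl⟩

lemma val.unique {x : M} {c c' : C} (h : pl.val x c) (h' : pl.val x c') : c = c' := by
  obtain ⟨h1, rfl⟩ := h
  obtain ⟨h2, rfl⟩ := h'
  rfl

lemma val.add {x y : M} {c d : C} (h : pl.val x c) (h' : pl.val y d) : pl.val (x + y) (c + d) := by
  obtain ⟨h1, rfl⟩ := h
  obtain ⟨h2, rfl⟩ := h'
  exact ⟨add_mem h1 h2, by rw [← map_add]; rfl⟩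

lemma val.mul {x y : M} {c d : C} (h : pl.val x c) (h' : pl.val y d) : pl.val (x * y) (c * d) := by
  obtain ⟨h1, rfl⟩ := h
  obtain ⟨h2, rfl⟩ := h'
  exact ⟨mul_mem h1 h2, by rw [← map_mul]; rfl⟩

lemma val.sub {x y : M} {c d : C} (h : pl.val x c) (h' : pl.val y d) : pl.val (x - y) (c - d) := by
  obtain ⟨h1, rfl⟩ := h
  obtain ⟨h2, rfl⟩ := h'
  exact ⟨sub_mem h1 h2, by rw [← map_sub]; rfl⟩

lemma val_alg (c : K) : pl.val (algebraMap K M c) (algebraMap K C c) := pl.comm c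

lemma val_zero : pl.val 0 0 := ⟨zero_mem _, map_zero pl.ρ⟩

lemma val_one : pl.val 1 1 := ⟨one_mem _, map_one pl.ρ⟩

lemma val_natCast (n : ℕ) : pl.val (n : M) (n : C) := by
  have := val_alg (pl := pl) (n : K)
  rwa [map_natCast, map_natCast] at this

lemma val.pow {x : M} {c : C} (h : pl.val x c) (n : ℕ) : pl.val (x ^ n) (c ^ n) := by
  induction n with
  | zero => rw [pow_zero, pow_zero]; exact val_one
  | succ n ih => rw [pow_succ, pow_succ]; exact ih.mul h

lemma val_sum {ι : Type} (s : Finset ι) {f : ι → M} {g : ι → C} (h : ∀ i ∈ s, pl.val (f i) (g i)) :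
    pl.val (∑ i ∈ s, f i) (∑ i ∈ s, g i) := by
  classical
  induction s using Finset.induction_on with
  | empty => rw [Finset.sum_empty, Finset.sum_empty]; exact val_zero
  | insert i s hi ih =>
    rw [Finset.sum_insert hi, Finset.sum_insert hi]
    exact (h i (Finset.mem_insert_self _ _)).add
      (ih (fun j hj => h j (Finset.mem_insert_of_mem hj)))

lemma val.inv {x : M} {c : C} (h : pl.val x c) (hc : c ≠ 0) : pl.val x⁻¹ c⁻¹ := by
  obtain ⟨h1, rfl⟩ := h
  have h2 := pl.loc ⟨x, h1⟩ hc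
  have hx0 : x ≠ 0 := by
    rintro rfl
    apply hc
    rw [← map_zero pl.ρ]
    rfl
  refine ⟨h2, ?_⟩
  apply eq_inv_of_mul_eq_one_left
  rw [← map_mul, ← map_one pl.ρ]
  congr 1
  exact Subtype.ext (inv_mul_cancel₀ hx0)

lemma val_inv_of_notMem {x : M} (h : x ∉ pl.W) : pl.val x⁻¹ 0 := pl.rho_inv h

lemma notMem_of_val_inv {x : M} (hx : x ≠ 0) (h : pl.val x⁻¹ 0) : x ∉ pl.W := by
  intro hm
  obtain ⟨c, hc⟩ := val_of_mem hm
  have h1 := hc.mul h
  rw [mul_inv_cancel₀ hx, mul_zero] at h1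
  exact one_ne_zero (val_one.unique h1)

lemma mem_of_pow_mem {x : M} {n : ℕ} (hn : 0 < n) (h : x ^ n ∈ pl.W) : x ∈ pl.W := by
  by_contra hx
  have hx0 : x ≠ 0 := by
    rintro rfl
    exact hx (zero_mem _)
  have h1 := (val_inv_of_notMem hx).pow n
  rw [zero_pow hn.ne', inv_pow] at h1
  exact notMem_of_val_inv (pow_ne_zero _ hx0) h1 h

lemma val_j [Algebra.IsAlgebraic K (AlgebraicClosure K)] (j : AlgebraicClosure K →ₐ[K] M)
    (z : AlgebraicClosure K) : pl.val (j z) (pl.iot j z) := pl.iot_spec j z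

end Plc

end plc

section

variable {K : Type} [Field K] [NumberField K]

/-- a Galois stable finite set containing a given one -/
lemma exists_stable (R : Finset (AlgebraicClosure K)) :
    ∃ R' : Finset (AlgebraicClosure K), R ⊆ R' ∧
      ∀ σ : AlgebraicClosure K ≃ₐ[K] AlgebraicClosure K, ∀ θ ∈ R', σ θ ∈ R' := by
  classical
  refine ⟨R.biUnion (fun β => ((minpoly K β).aroots (AlgebraicClosure K)).toFinset), ?_, ?_⟩
  · intro β hβ
    rw [Finset.mem_biUnion]
    refine ⟨β, hβ, ?_⟩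
    rw [Multiset.mem_toFinset, Polynomial.mem_aroots]
    exact ⟨minpoly.ne_zero (Algebra.IsIntegral.isIntegral β), minpoly.aeval K β⟩
  · intro σ θ hθ
    rw [Finset.mem_biUnion] at hθ ⊢
    obtain ⟨β, hβ, h⟩ := hθ
    refine ⟨β, hβ, ?_⟩
    rw [Multiset.mem_toFinset, Polynomial.mem_aroots] at h ⊢
    refine ⟨h.1, ?_⟩
    have h1 : Polynomial.aeval (σ θ) (minpoly K β) =
        σ (Polynomial.aeval θ (minpoly K β)) := Polynomial.aeval_algHom_apply
          (σ : AlgebraicClosure K →ₐ[K] AlgebraicClosure K) θ _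
    rw [h1, h.2, map_zero]

variable {M : Type} [Field M] [Algebra K M] (A : SAct K M)
  (pl : ∀ v : HeightOneSpectrum (𝓞 K), Plc K M (AlgebraicClosure (v.adicCompletion K)))

/-- elements with finitely many values, which are algebraic over `K` -/
def FinVal (x : M) : Prop := ∃ R : Finset (AlgebraicClosure K), ∀ v, x ∈ (pl v).W →
  ∃ β ∈ R, (pl v).val x ((pl v).iot A.j β)

/-- elements of the fixed field which are everywhere integral and have finitely many values -/
def DSet (u : M) : Prop := u ∈ A.fix ∧ (∀ v, u ∈ (pl v).W) ∧ FinVal A pl u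

/-- the value is in `K` -/
def Rat (u : M) (v : HeightOneSpectrum (𝓞 K)) : Prop :=
  ∃ c : K, (pl v).val u (algebraMap K (AlgebraicClosure (v.adicCompletion K)) c)

variable {A pl}

/-- elements of `DSet` have a rational value -/
theorem DSet.exists_rat [IsAlgClosed M] (hpl : ∀ v, GeoPlc A (pl v)) {u : M} (hu : DSet A pl u) :
    ∃ v, Rat pl u v := by
  classical
  obtain ⟨huf, huW, R, hR⟩ := hu
  obtain ⟨R', hRR', hR'⟩ := exists_stable R
  obtain ⟨l, a, hl, hob⟩ := obstruct (R'.filter (fun θ =>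
    ∃ σ : AlgebraicClosure K ≃ₐ[K] AlgebraicClosure K, σ θ ≠ θ)) (by
      intro σ θ hθ
      rw [Finset.mem_filter] at hθ ⊢
      obtain ⟨h1, σ', h2⟩ := hθ
      refine ⟨hR' σ θ h1, σ * σ' * σ⁻¹, fun h3 => h2 ?_⟩
      have h4 : (σ * σ' * σ⁻¹) (σ θ) = σ (σ' θ) := by
        change σ (σ' (σ.symm (σ θ))) = _
        rw [σ.symm_apply_apply]
      rw [h4] at h3
      exact σ.injective h3) (fun θ hθ => (Finset.mem_filter.1 hθ).2)
  by_cases hua : u = algebraMap K M a
  · obtain ⟨v, -⟩ := hob 1 one_ne_zero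
    refine ⟨v, a, ?_⟩
    rw [hua]
    exact Plc.val_alg a
  · obtain ⟨c, hc, g, hg, hfg⟩ := A.kummer (f := u - algebraMap K M a)
      (sub_mem huf (A.fix.algebraMap_mem a)) (sub_ne_zero.2 hua) (n := l) (by omega)
    obtain ⟨v, hv⟩ := hob c hc
    refine ⟨v, ?_⟩
    have : CharZero (v.adicCompletion K) :=
      charZero_of_injective_algebraMap (algebraMap K (v.adicCompletion K)).injective
    obtain ⟨β, hβ, hval⟩ := hR v (huW v)
    by_cases hfix : ∀ σ : AlgebraicClosure K ≃ₐ[K] AlgebraicClosure K, σ β = β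
    · obtain ⟨c', hc'⟩ := base_of_fixed hfix
      refine ⟨c', ?_⟩
      rw [← hc'] at hval
      rw [← ((pl v).iot A.j).commutes c']
      exact hval
    · exfalso
      push Not at hfix
      have hgl : g ^ l = (u - algebraMap K M a) * algebraMap K M c⁻¹ := by
        rw [hfg, map_inv₀]
        field_simp [(map_ne_zero (algebraMap K M)).2 hc]
      have hgW : g ∈ (pl v).W := by
        apply Plc.mem_of_pow_mem (n := l) (by omega)
        rw [hgl]
        exact mul_mem (sub_mem (huW v) ((pl v).alg_mem a)) ((pl v).alg_mem _)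
      obtain ⟨z, hz⟩ := value_base A (hpl v) hg hgW
      refine hv ((pl v).iot A.j) β (Finset.mem_filter.2 ⟨hRR' hβ, hfix⟩) z ?_
      have h1 : (pl v).val (u - algebraMap K M a)
          ((pl v).iot A.j β - algebraMap K (AlgebraicClosure (v.adicCompletion K)) a) :=
        hval.sub (Plc.val_alg a)
      have h2 : (pl v).val (algebraMap K M c * g ^ l)
          (algebraMap K (AlgebraicClosure (v.adicCompletion K)) c *
            (algebraMap (v.adicCompletion K) (AlgebraicClosure (v.adicCompletion K)) z) ^ l) :=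
        (Plc.val_alg c).mul (Plc.val.pow ⟨hgW, hz.symm⟩ l)
      rw [← hfg] at h2
      have h3 := h1.unique h2
      rw [map_sub, ((pl v).iot A.j).commutes a, h3, map_mul, map_pow,
        ← IsScalarTower.algebraMap_apply]

/-- two elements of `DSet` can be combined -/
theorem DSet.combine {u1 u2 : M} (h1 : DSet A pl u1) (h2 : DSet A pl u2) :
    ∃ u, DSet A pl u ∧ ∀ v, Rat pl u v → Rat pl u1 v ∧ Rat pl u2 v := by
  classical
  obtain ⟨hf1, hW1, R1, hR1⟩ := h1
  obtain ⟨hf2, hW2, R2, hR2⟩ := h2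
  obtain ⟨R1', hRR1, hs1⟩ := exists_stable R1
  obtain ⟨R2', hRR2, hs2⟩ := exists_stable R2
  obtain ⟨B, hB⟩ : ∃ B : ℕ, (B : AlgebraicClosure K) ∉
      ((R1' ×ˢ R1') ×ˢ (R2' ×ˢ R2')).image
        (fun p => -((p.1.1 - p.1.2) / (p.2.1 - p.2.2))) := by
    have h3 : (Set.range (Nat.cast : ℕ → AlgebraicClosure K)).Infinite :=
      Set.infinite_range_of_injective Nat.cast_injective
    obtain ⟨x, ⟨B, rfl⟩, hx⟩ := h3.exists_notMem_finset
      (((R1' ×ˢ R1') ×ˢ (R2' ×ˢ R2')).image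
        (fun p => -((p.1.1 - p.1.2) / (p.2.1 - p.2.2))))
    exact ⟨B, hx⟩
  refine ⟨u1 + (B : M) * u2, ⟨?_, ?_, ?_⟩, ?_⟩
  · exact add_mem hf1 (mul_mem (natCast_mem A.fix B) hf2)
  · intro v
    exact add_mem (hW1 v) (mul_mem (natCast_mem (pl v).W B) (hW2 v))
  · refine ⟨(R1 ×ˢ R2).image (fun p => p.1 + (B : AlgebraicClosure K) * p.2), fun v _ => ?_⟩
    obtain ⟨β1, hβ1, hv1⟩ := hR1 v (hW1 v)
    obtain ⟨β2, hβ2, hv2⟩ := hR2 v (hW2 v)
    refine ⟨_, Finset.mem_image.2 ⟨(β1, β2), Finset.mem_product.2 ⟨hβ1, hβ2⟩, rfl⟩, ?_⟩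
    rw [map_add, map_mul, map_natCast]
    exact hv1.add ((Plc.val_natCast B).mul hv2)
  · rintro v ⟨c, hc⟩
    obtain ⟨β1, hβ1, hv1⟩ := hR1 v (hW1 v)
    obtain ⟨β2, hβ2, hv2⟩ := hR2 v (hW2 v)
    have h3 := (hv1.add ((Plc.val_natCast (pl := pl v) B).mul hv2)).unique hc
    have h4 : β1 + (B : AlgebraicClosure K) * β2 = algebraMap K (AlgebraicClosure K) c := by
      have h4' : (pl v).iot A.j (β1 + (B : AlgebraicClosure K) * β2) =
          (pl v).iot A.j (algebraMap K (AlgebraicClosure K) c) := by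
        rw [map_add, map_mul, map_natCast, h3, ((pl v).iot A.j).commutes c]
      exact ((pl v).iot A.j).injective h4'
    have h5 : ∀ σ : AlgebraicClosure K ≃ₐ[K] AlgebraicClosure K, σ β2 = β2 := by
      intro σ
      by_contra hne
      apply hB
      refine Finset.mem_image.2 ⟨((σ β1, β1), (σ β2, β2)), ?_, ?_⟩
      · simp only [Finset.mem_product]
        exact ⟨⟨hs1 σ _ (hRR1 hβ1), hRR1 hβ1⟩, ⟨hs2 σ _ (hRR2 hβ2), hRR2 hβ2⟩⟩
      · have h6 := congrArg σ h4
        rw [map_add, map_mul, map_natCast, σ.commutes, ← h4] at h6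
        have h7 : σ β2 - β2 ≠ 0 := sub_ne_zero.2 hne
        change -((σ β1 - β1) / (σ β2 - β2)) = (B : AlgebraicClosure K)
        rw [neg_eq_iff_eq_neg, div_eq_iff h7]
        linear_combination h6
    have h6 : ∀ σ : AlgebraicClosure K ≃ₐ[K] AlgebraicClosure K, σ β1 = β1 := by
      intro σ
      have h6 := congrArg σ h4
      rw [map_add, map_mul, map_natCast, σ.commutes, ← h4, h5 σ] at h6
      exact add_right_cancel h6
    obtain ⟨c1, hc1⟩ := base_of_fixed h6
    obtain ⟨c2, hc2⟩ := base_of_fixed h5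
    refine ⟨⟨c1, ?_⟩, ⟨c2, ?_⟩⟩
    · rw [← ((pl v).iot A.j).commutes c1, hc1]
      exact hv1
    · rw [← ((pl v).iot A.j).commutes c2, hc2]
      exact hv2

lemma DSet.zero : DSet A pl (0 : M) := by
  refine ⟨zero_mem _, fun v => zero_mem _, {0}, fun v _ => ⟨0, Finset.mem_singleton_self _, ?_⟩⟩
  rw [map_zero]
  exact Plc.val_zero

/-- the ultrafilter -/
theorem exists_ultra [IsAlgClosed M] (hpl : ∀ v, GeoPlc A (pl v)) :
    ∃ U : Ultrafilter (HeightOneSpectrum (𝓞 K)), ∀ u, DSet A pl u →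
      ∀ᶠ v in (U : Filter (HeightOneSpectrum (𝓞 K))), Rat pl u v := by
  have : Nonempty {u : M // DSet A pl u} := ⟨⟨0, DSet.zero⟩⟩
  let f : {u : M // DSet A pl u} → Filter (HeightOneSpectrum (𝓞 K)) :=
    fun u => Filter.principal {v | Rat pl u.1 v}
  have hne : (⨅ u, f u).NeBot := by
    apply Filter.iInf_neBot_of_directed'
    · rintro ⟨u1, h1⟩ ⟨u2, h2⟩
      obtain ⟨u, hu, h⟩ := h1.combine h2
      refine ⟨⟨u, hu⟩, ?_, ?_⟩
      · exact Filter.principal_mono.2 (fun v hv => (h v hv).1)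
      · exact Filter.principal_mono.2 (fun v hv => (h v hv).2)
    · rintro ⟨u, hu⟩
      obtain ⟨v, hv⟩ := hu.exists_rat hpl
      exact Filter.principal_neBot_iff.2 ⟨v, hv⟩
  refine ⟨Ultrafilter.of (⨅ u, f u), fun u hu => ?_⟩
  have h1 : (Ultrafilter.of (⨅ u, f u) : Filter (HeightOneSpectrum (𝓞 K))) ≤ f ⟨u, hu⟩ :=
    (Ultrafilter.of_le _).trans (iInf_le f ⟨u, hu⟩)
  exact h1 (Filter.mem_principal_self _)

end

end Pool.Agent.TH954
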